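import Pool.Agent.Lib.MP_e7fbd4_ag.Mg.G001
import Pool.Agent.Lib.MP_c052b4_al.Vas

section

/-! # P10 : two variables: polynomial functions with values in W -/

set_option autoImplicit false
set_option linter.unusedSectionVars false
set_option linter.unusedVariables false

namespace Pool.Agent.Lib.MP_e7fbd4_ag

open Matrix Pool.Agent.Lib.MP_c052b4_al

variable {A B : Type} [Ring A] [Algebra ℂ A] [Ring B] [Algebra ℂ B]
  {n m l : Type} [Fintype n] [Fintype m] [Fintype l] [DecidableEq n] [DecidableEq m] [DecidableEq l]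

/-- Conversely, polynomial functions with values in an algebra `W` of polynomial functions are
polynomial functions of two variables. -/
theorem poly2_of_W {W : Subalgebra ℂ (ℂ → A)} (hW : W ≤ Poly A) {f : ℂ → W} (hf : f ∈ Poly W) :
    (fun v t => (f v).1 t) ∈ Poly2 A := by
  unfold Poly at hf
  induction hf using Algebra.adjoin_induction with
  | mem x hx =>
    rcases hx with ⟨w, rfl⟩ | rfl
    · exact poly2_of_poly_snd (hW w.2)
    · exact Algebra.subset_adjoin (Or.inr (Or.inl rfl))
  | algebraMap c => exact poly2_const (algebraMap ℂ A c)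
  | add x y _ _ hx hy => exact (Poly2 A).add_mem hx hy
  | mul x y _ _ hx hy => exact (Poly2 A).mul_mem hx hy

end Pool.Agent.Lib.MP_e7fbd4_ag
end

section

/-! # P05 : polynomial functions with values in a subalgebra -/

set_option autoImplicit false
set_option linter.unusedSectionVars false
set_option linter.unusedVariables false

namespace Pool.Agent.Lib.MP_e7fbd4_ag

open Matrix Pool.Agent.Lib.MP_c052b4_al

variable {A B : Type} [Ring A] [Algebra ℂ A] [Ring B] [Algebra ℂ B]
  {n m l : Type} [Fintype n] [Fintype m] [Fintype l] [DecidableEq n] [DecidableEq m] [DecidableEq l]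

/-- A function with values in a subalgebra `W` which is polynomial as a function with values in
the big algebra is polynomial as a function with values in `W`. -/
theorem poly_of_subalgebra {W : Subalgebra ℂ A} {f : ℂ → W}
    (h : (fun t => (f t : A)) ∈ Poly A) : f ∈ Poly W := by
  obtain ⟨N, c, hc, hf⟩ := exists_coeff_mem h (Subalgebra.toSubmodule W) (fun t => (f t).2)
  refine mem_poly_iff.mpr ⟨N, fun i => ⟨c i, hc i⟩, fun t => Subtype.ext ?_⟩
  have h1 : (f t : A) = ∑ i ∈ Finset.range N, t ^ i • c i := hf t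
  rw [h1, AddSubmonoidClass.coe_finsetSum]
  rfl

end Pool.Agent.Lib.MP_e7fbd4_ag
end

section

/-! # P09 : two variables: currying, values in an algebra W -/

set_option autoImplicit false
set_option linter.unusedSectionVars false
set_option linter.unusedVariables false

namespace Pool.Agent.Lib.MP_e7fbd4_ag

open Matrix Pool.Agent.Lib.MP_c052b4_al

variable {A B : Type} [Ring A] [Algebra ℂ A] [Ring B] [Algebra ℂ B]
  {n m l : Type} [Fintype n] [Fintype m] [Fintype l] [DecidableEq n] [DecidableEq m] [DecidableEq l]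

/-- A polynomial function of two variables as a polynomial function of the first variable with
values in functions of the second variable. -/
theorem poly2_curry {F : ℂ → ℂ → A} (hF : F ∈ Poly2 A) : F ∈ Poly (ℂ → A) := by
  unfold Poly2 at hF
  induction hF using Algebra.adjoin_induction with
  | mem x hx =>
    rcases hx with ⟨a, rfl⟩ | rfl | rfl
    · exact const_mem_poly (fun _ : ℂ => a)
    · exact var_mem_poly (ℂ → A)
    · exact const_mem_poly (fun t : ℂ => algebraMap ℂ A t)
  | algebraMap c => exact const_mem_poly (fun _ : ℂ => algebraMap ℂ A c)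
  | add x y _ _ hx hy => exact (Poly (ℂ → A)).add_mem hx hy
  | mul x y _ _ hx hy => exact (Poly (ℂ → A)).mul_mem hx hy

/-- A polynomial function of two variables whose slices `F(v, ·)` belong to a subalgebra `W` of
the functions of the second variable, as a polynomial function with values in `W`. -/
theorem poly2_toW {F : ℂ → ℂ → A} (hF : F ∈ Poly2 A) {W : Subalgebra ℂ (ℂ → A)}
    (hW : ∀ v, F v ∈ W) : (fun v => (⟨F v, hW v⟩ : W)) ∈ Poly W :=
  poly_of_subalgebra (f := fun v => (⟨F v, hW v⟩ : W)) (poly2_curry hF)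

end Pool.Agent.Lib.MP_e7fbd4_ag
end

section

/-!
# The class in `KV₁` of an invertible matrix
-/

set_option autoImplicit false
set_option linter.unusedSectionVars false
set_option linter.unusedVariables false

namespace Pool.Agent.Lib.MP_e7fbd4_ag

open Matrix Pool.Agent.Lib.MP_c052b4_al

variable {A B : Type} [Ring A] [Algebra ℂ A] [Ring B] [Algebra ℂ B]
  {n m : Type} [Fintype n] [Fintype m] [DecidableEq n] [DecidableEq m]

/-- The class in `K₁(A)` of an invertible matrix over `A`, as an element of `K1F.obj A`. -/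
noncomputable def k1F (g : (Matrix n n A)ˣ) : K1F.obj A := (k1 g : KOne A)

/-- The projection `K₁(A) → KV₁(A)`. -/
noncomputable def toKV (A : Type) [Ring A] [Algebra ℂ A] : K1F.obj A →+ KV1F.obj A :=
  QuotientAddGroup.mk' (K1F.htpy A)

/-- The class in `KV₁(A)` of an invertible matrix over `A` (any finite index type). -/
noncomputable def kv (g : (Matrix n n A)ˣ) : KV1F.obj A := toKV A (k1F g)

theorem toKV_surjective : Function.Surjective (toKV A) := QuotientAddGroup.mk'_surjective _

theorem toKV_eq_zero_iff (x : K1F.obj A) : toKV A x = 0 ↔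
    ∃ y : K1F.obj (Poly A), K1F.map (evP A 1) y - K1F.map (evP A 0) y = x :=
  QuotientAddGroup.eq_zero_iff _

theorem map_toKV (φ : A →ₐ[ℂ] B) (x : K1F.obj A) :
    KV1F.map φ (toKV A x) = toKV B (K1F.map φ x) := rfl

theorem k1F_mul (g h : (Matrix n n A)ˣ) : k1F (g * h) = k1F g + k1F h := k1_mul g h

theorem k1F_one : k1F (1 : (Matrix n n A)ˣ) = 0 := k1_one

theorem kv_mul (g h : (Matrix n n A)ˣ) : kv (g * h) = kv g + kv h := by
  unfold kv
  rw [k1F_mul, map_add]

theorem kv_one : kv (1 : (Matrix n n A)ˣ) = 0 := by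
  unfold kv
  rw [k1F_one, map_zero]

theorem kv_inv (g : (Matrix n n A)ˣ) : kv g⁻¹ = - kv g := by
  rw [eq_neg_iff_add_eq_zero, ← kv_mul, inv_mul_cancel, kv_one]

theorem kv_rU (σ : m ≃ n) (g : (Matrix m m A)ˣ) : kv (rU σ g) = kv g := by
  unfold kv
  congr 1
  exact k1_rU σ g

theorem kv_bl (g : (Matrix n n A)ˣ) (h : (Matrix m m A)ˣ) : kv (bl g h) = kv g + kv h := by
  unfold kv
  have h1 : k1F (bl g h) = k1F g + k1F h := k1_bl g h
  rw [h1, map_add]

theorem kv_bl_one (g : (Matrix n n A)ˣ) : kv (bl g (1 : (Matrix m m A)ˣ)) = kv g := by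
  rw [kv_bl, kv_one, add_zero]

theorem kv_one_bl (g : (Matrix n n A)ˣ) : kv (bl (1 : (Matrix m m A)ˣ) g) = kv g := by
  rw [kv_bl, kv_one, zero_add]

theorem kv_uU (X : Matrix m n A) : kv (uU X) = 0 := by
  unfold kv
  have h1 : k1F (uU X) = 0 := k1_uU X
  rw [h1, map_zero]

theorem kv_lU (X : Matrix n m A) : kv (lU X : (Matrix (m ⊕ n) (m ⊕ n) A)ˣ) = 0 := by
  unfold kv
  have h1 : k1F (lU X : (Matrix (m ⊕ n) (m ⊕ n) A)ˣ) = 0 := k1_lU X
  rw [h1, map_zero]

theorem exists_kv (x : KV1F.obj A) : ∃ (k : ℕ) (g : (Matrix (Fin k) (Fin k) A)ˣ), kv g = x := by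
  obtain ⟨y, rfl⟩ := toKV_surjective x
  obtain ⟨k, g, hg⟩ := exists_k1 (S := A) y
  exact ⟨k, g, congrArg (toKV A) hg⟩

/-- applying an algebra homomorphism to an invertible matrix -/
noncomputable def mA (φ : A →ₐ[ℂ] B) : (Matrix n n A)ˣ →* (Matrix n n B)ˣ := mU φ.toRingHom

theorem coe_mA (φ : A →ₐ[ℂ] B) (g : (Matrix n n A)ˣ) :
    ((mA φ g : (Matrix n n B)ˣ) : Matrix n n B) = (g : Matrix n n A).map φ := rfl

theorem coe_mA_inv (φ : A →ₐ[ℂ] B) (g : (Matrix n n A)ˣ) :
    (((mA φ g)⁻¹ : (Matrix n n B)ˣ) : Matrix n n B) =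
      ((g⁻¹ : (Matrix n n A)ˣ) : Matrix n n A).map φ := rfl

theorem mA_comp {C : Type} [Ring C] [Algebra ℂ C] (ψ : B →ₐ[ℂ] C) (φ : A →ₐ[ℂ] B)
    (g : (Matrix n n A)ˣ) : mA (ψ.comp φ) g = mA ψ (mA φ g) := rfl

theorem mA_bl (φ : A →ₐ[ℂ] B) (g : (Matrix n n A)ˣ) (h : (Matrix m m A)ˣ) :
    mA φ (bl g h) = bl (mA φ g) (mA φ h) := mU_bl _ _ _

theorem mA_rU (φ : A →ₐ[ℂ] B) (σ : m ≃ n) (g : (Matrix m m A)ˣ) :
    mA φ (rU σ g) = rU σ (mA φ g) := rfl

theorem map_k1F (φ : A →ₐ[ℂ] B) (g : (Matrix n n A)ˣ) :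
    K1F.map φ (k1F g) = k1F (mA φ g) := KOne.map_k1 _ _

theorem map_kv (φ : A →ₐ[ℂ] B) (g : (Matrix n n A)ˣ) : KV1F.map φ (kv g) = kv (mA φ g) := by
  unfold kv
  rw [map_toKV, map_k1F]

/-! ### Paths -/

theorem evP_apply (t : ℂ) (f : Poly A) : evP A t f = f.1 t := rfl

/-- The two ends of a path of invertible matrices have the same class. -/
theorem kv_ends (G : (Matrix n n (Poly A))ˣ) : kv (mA (evP A 1) G) = kv (mA (evP A 0) G) := by
  rw [← sub_eq_zero]
  unfold kv
  rw [← map_sub, toKV_eq_zero_iff]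
  exact ⟨k1F G, by rw [map_k1F, map_k1F]⟩

/-- A family of invertible matrices over `A` depending on a parameter `x`, all of whose entries
(and those of the inverse) belong to an algebra `W` of functions, as an invertible matrix
over `W`. -/
noncomputable def mkU {X : Type} (W : Subalgebra ℂ (X → A)) (G : X → (Matrix n n A)ˣ)
    (h : ∀ i j, (fun x => (G x).val i j) ∈ W)
    (h' : ∀ i j, (fun x => (G x)⁻¹.val i j) ∈ W) :
    (Matrix n n W)ˣ where
  val := Matrix.of fun i j => ⟨_, h i j⟩
  inv := Matrix.of fun i j => ⟨_, h' i j⟩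
  val_inv := by
    refine Matrix.ext fun i j => Subtype.ext (funext fun t => ?_)
    have h1 : ((G t).val * (G t)⁻¹.val) i j = (1 : Matrix n n A) i j := by rw [Units.mul_inv]
    rw [Matrix.mul_apply] at h1
    rw [Matrix.mul_apply, AddSubmonoidClass.coe_finsetSum, Finset.sum_apply]
    refine Eq.trans h1 ?_
    rw [Matrix.one_apply, Matrix.one_apply]
    split_ifs <;> rfl
  inv_val := by
    refine Matrix.ext fun i j => Subtype.ext (funext fun t => ?_)
    have h1 : ((G t)⁻¹.val * (G t).val) i j = (1 : Matrix n n A) i j := by rw [Units.inv_mul]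
    rw [Matrix.mul_apply] at h1
    rw [Matrix.mul_apply, AddSubmonoidClass.coe_finsetSum, Finset.sum_apply]
    refine Eq.trans h1 ?_
    rw [Matrix.one_apply, Matrix.one_apply]
    split_ifs <;> rfl

/-- evaluation at a point on an algebra of functions -/
def evW {X : Type} (W : Subalgebra ℂ (X → A)) (x : X) : W →ₐ[ℂ] A :=
  (evalHom X A x).comp W.val

theorem evW_apply {X : Type} (W : Subalgebra ℂ (X → A)) (x : X) (f : W) : evW W x f = f.1 x := rfl

theorem mA_mkU {X : Type} (W : Subalgebra ℂ (X → A)) (G : X → (Matrix n n A)ˣ)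
    (h : ∀ i j, (fun x => (G x).val i j) ∈ W)
    (h' : ∀ i j, (fun x => (G x)⁻¹.val i j) ∈ W) (x : X) :
    mA (evW W x) (mkU W G h h') = G x := Units.ext (Matrix.ext fun i j => rfl)

/-- Invertible matrices over an algebra of functions are determined by their values. -/
theorem unit_ext_ev {X : Type} {W : Subalgebra ℂ (X → A)} {U V : (Matrix n n W)ˣ}
    (h : ∀ x, mA (evW W x) U = mA (evW W x) V) : U = V := by
  refine Units.ext (Matrix.ext fun i j => Subtype.ext (funext fun x => ?_))
  have h1 : (mA (evW W x) U).val i j = (mA (evW W x) V).val i j := by rw [h x]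
  exact h1

/-- The two ends of a polynomial path of invertible matrices have the same class in `KV₁`. -/
theorem kv_path (G : ℂ → (Matrix n n A)ˣ)
    (h : ∀ i j, (fun t : ℂ => (G t).val i j) ∈ Poly A)
    (h' : ∀ i j, (fun t : ℂ => (G t)⁻¹.val i j) ∈ Poly A) : kv (G 1) = kv (G 0) := by
  have h1 := kv_ends (mkU (Poly A) G h h')
  exact h1

end Pool.Agent.Lib.MP_e7fbd4_ag
end

section

/-! # P11 : homotopies over an algebra of functions give equal classes in KV_1 -/

set_option autoImplicit false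
set_option linter.unusedSectionVars false
set_option linter.unusedVariables false

namespace Pool.Agent.Lib.MP_e7fbd4_ag

open Matrix Pool.Agent.Lib.MP_c052b4_al

variable {A B : Type} [Ring A] [Algebra ℂ A] [Ring B] [Algebra ℂ B]
  {n m l : Type} [Fintype n] [Fintype m] [Fintype l] [DecidableEq n] [DecidableEq m] [DecidableEq l]

/-- **Homotopies over an algebra `W` of functions.** Let `F(v,t)` be a family of invertible
matrices over `A`, with entries (and entries of the inverse) polynomial in `(v,t)`, such that all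
slices `F(v,·)` have entries (and entries of the inverse) in `W`.  Then `F(0,·)` and `F(1,·)` have
the same class in `KV₁(W)`. -/
theorem kv_homotopy (W : Subalgebra ℂ (ℂ → A)) (F : ℂ → ℂ → (Matrix n n A)ˣ)
    (h : ∀ i j, (fun v t => (F v t).val i j) ∈ Poly2 A)
    (h' : ∀ i j, (fun v t => (F v t)⁻¹.val i j) ∈ Poly2 A)
    (hW : ∀ v i j, (fun t => (F v t).val i j) ∈ W)
    (hW' : ∀ v i j, (fun t => (F v t)⁻¹.val i j) ∈ W)
    (U V : (Matrix n n W)ˣ) (hU : ∀ t, mA (evW W t) U = F 0 t) (hV : ∀ t, mA (evW W t) V = F 1 t) :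
    kv U = kv V := by
  have h1 := kv_path (fun v => mkU W (F v) (fun i j => hW v i j) (fun i j => hW' v i j))
    (fun i j => poly2_toW (h i j) (W := W) (fun v => hW v i j))
    (fun i j => poly2_toW (h' i j) (W := W) (fun v => hW' v i j))
  have h2 : U = mkU W (F 0) (fun i j => hW 0 i j) (fun i j => hW' 0 i j) :=
    unit_ext_ev fun t => by rw [hU, mA_mkU]
  have h3 : V = mkU W (F 1) (fun i j => hW 1 i j) (fun i j => hW' 1 i j) :=
    unit_ext_ev fun t => by rw [hV, mA_mkU]
  rw [h2, h3]
  exact h1.symm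

end Pool.Agent.Lib.MP_e7fbd4_ag
end

section

/-! # P03 : substitution, scalar multiplication -/

set_option autoImplicit false
set_option linter.unusedSectionVars false
set_option linter.unusedVariables false

namespace Pool.Agent.Lib.MP_e7fbd4_ag

open Matrix Pool.Agent.Lib.MP_c052b4_al

variable {A B : Type} [Ring A] [Algebra ℂ A] [Ring B] [Algebra ℂ B]
  {n m l : Type} [Fintype n] [Fintype m] [Fintype l] [DecidableEq n] [DecidableEq m] [DecidableEq l]

/-- Substitution. -/
theorem poly_subst {f : ℂ → A} (hf : f ∈ Poly A) {q : ℂ → ℂ} (hq : q ∈ Poly ℂ) :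
    (fun t => f (q t)) ∈ Poly A := by
  unfold Poly at hf
  induction hf using Algebra.adjoin_induction with
  | mem x hx =>
    rcases hx with ⟨a, rfl⟩ | rfl
    · exact const_mem_poly a
    · exact comp_mem_poly (Algebra.ofId ℂ A) hq
  | algebraMap c => exact const_mem_poly (algebraMap ℂ A c)
  | add x y _ _ hx hy => exact (Poly A).add_mem hx hy
  | mul x y _ _ hx hy => exact (Poly A).mul_mem hx hy

theorem poly_id : (fun t : ℂ => t) ∈ Poly ℂ := var_mem_poly ℂ

theorem poly_smul {q : ℂ → ℂ} (hq : q ∈ Poly ℂ) {f : ℂ → A} (hf : f ∈ Poly A) :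
    (fun t => q t • f t) ∈ Poly A := by
  have h1 : (fun t => q t • f t) = (fun t => Algebra.ofId ℂ A (q t)) * f := by
    funext t
    rw [Pi.mul_apply, Algebra.smul_def]
    rfl
  rw [h1]
  exact (Poly A).mul_mem (comp_mem_poly (Algebra.ofId ℂ A) hq) hf

end Pool.Agent.Lib.MP_e7fbd4_ag
end

section

/-! # W01 : paths: refl, symm -/

set_option autoImplicit false
set_option linter.unusedSectionVars false
set_option linter.unusedVariables false

namespace Pool.Agent.Lib.MP_e7fbd4_ag

open Matrix Pool.Agent.Lib.MP_c052b4_al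

variable {A B : Type} [Ring A] [Algebra ℂ A] [Ring B] [Algebra ℂ B]
  {n m l : Type} [Fintype n] [Fintype m] [Fintype l] [DecidableEq n] [DecidableEq m] [DecidableEq l]

/-- `g` and `h` are joined by a polynomial path of invertible matrices. -/
def PathTo (g h : (Matrix n n A)ˣ) : Prop :=
  ∃ G : (Matrix n n (Poly A))ˣ, mA (evP A 0) G = g ∧ mA (evP A 1) G = h

theorem pathTo_of (G : ℂ → (Matrix n n A)ˣ)
    (h : ∀ i j, (fun t : ℂ => (G t).val i j) ∈ Poly A)
    (h' : ∀ i j, (fun t : ℂ => (G t)⁻¹.val i j) ∈ Poly A) : PathTo (G 0) (G 1) :=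
  ⟨mkU (Poly A) G h h', mA_mkU (Poly A) G h h' 0, mA_mkU (Poly A) G h h' 1⟩

theorem PathTo.kv_eq {g h : (Matrix n n A)ˣ} (H : PathTo g h) : kv g = kv h := by
  obtain ⟨G, rfl, rfl⟩ := H
  exact (kv_ends G).symm

theorem PathTo.refl (g : (Matrix n n A)ˣ) : PathTo g g :=
  pathTo_of (fun _ => g) (fun i j => const_mem_poly (g.val i j))
    (fun i j => const_mem_poly (g⁻¹.val i j))

/-- substitute `t ↦ 1 - t` -/
theorem PathTo.symm {g h : (Matrix n n A)ˣ} (H : PathTo g h) : PathTo h g := by
  obtain ⟨G, h0, h1⟩ := H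
  have hq : (fun t : ℂ => 1 - t) ∈ Poly ℂ := (Poly ℂ).sub_mem (const_mem_poly (1 : ℂ)) poly_id
  have key := pathTo_of (fun t : ℂ => mA (evP A (1 - t)) G)
    (fun i j => poly_subst (G.val i j).2 hq) (fun i j => poly_subst (G⁻¹.val i j).2 hq)
  have e0 : mA (evP A (1 - 0)) G = h := by rw [sub_zero, h1]
  have e1 : mA (evP A (1 - 1)) G = g := by rw [sub_self, h0]
  have key' : PathTo (mA (evP A (1 - 0)) G) (mA (evP A (1 - 1)) G) := key
  rw [e0, e1] at key'
  exact key'

end Pool.Agent.Lib.MP_e7fbd4_ag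
end

section

/-! # W02 : paths: product, inverse -/

set_option autoImplicit false
set_option linter.unusedSectionVars false
set_option linter.unusedVariables false

namespace Pool.Agent.Lib.MP_e7fbd4_ag

open Matrix Pool.Agent.Lib.MP_c052b4_al

variable {A B : Type} [Ring A] [Algebra ℂ A] [Ring B] [Algebra ℂ B]
  {n m l : Type} [Fintype n] [Fintype m] [Fintype l] [DecidableEq n] [DecidableEq m] [DecidableEq l]

/-- pointwise product of paths -/
theorem PathTo.mul {g h g' h' : (Matrix n n A)ˣ} (H : PathTo g h) (H' : PathTo g' h') :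
    PathTo (g * g') (h * h') := by
  obtain ⟨G, rfl, rfl⟩ := H
  obtain ⟨G', rfl, rfl⟩ := H'
  exact ⟨G * G', map_mul _ _ _, map_mul _ _ _⟩

theorem PathTo.inv {g h : (Matrix n n A)ˣ} (H : PathTo g h) : PathTo g⁻¹ h⁻¹ := by
  obtain ⟨G, rfl, rfl⟩ := H
  exact ⟨G⁻¹, map_inv _ _, map_inv _ _⟩

end Pool.Agent.Lib.MP_e7fbd4_ag
end

section

/-! # W05 : elementary matrices are joined to 1 -/

set_option autoImplicit false
set_option linter.unusedSectionVars false
set_option linter.unusedVariables false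

namespace Pool.Agent.Lib.MP_e7fbd4_ag

open Matrix Pool.Agent.Lib.MP_c052b4_al

variable {A B : Type} [Ring A] [Algebra ℂ A] [Ring B] [Algebra ℂ B]
  {n m l : Type} [Fintype n] [Fintype m] [Fintype l] [DecidableEq n] [DecidableEq m] [DecidableEq l]

private theorem W05_smul (a : A) : (fun t : ℂ => t • a) ∈ Poly A :=
  poly_smul poly_id (const_mem_poly a)

private theorem W05_neg_smul (a : A) : (fun t : ℂ => -(t • a)) ∈ Poly A :=
  (Poly A).neg_mem (W05_smul a)

/-- elementary matrices are joined to `1`: `uU (t X)` -/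
theorem pathTo_uU (X : Matrix n m A) : PathTo 1 (uU X) := by
  have h := pathTo_of (fun t : ℂ => uU (t • X)) (by
    rintro (i | i) (j | j)
    · exact const_mem_poly ((1 : Matrix n n A) i j)
    · exact W05_smul (X i j)
    · exact const_mem_poly (0 : A)
    · exact const_mem_poly ((1 : Matrix m m A) i j)) (by
    rintro (i | i) (j | j)
    · exact const_mem_poly ((1 : Matrix n n A) i j)
    · exact W05_neg_smul (X i j)
    · exact const_mem_poly (0 : A)
    · exact const_mem_poly ((1 : Matrix m m A) i j))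
  have h0 : uU ((0 : ℂ) • X) = 1 := by
    apply Units.ext
    rw [coe_uU, zero_smul, fromBlocks_one, Units.val_one]
  have h1 : uU ((1 : ℂ) • X) = uU X := by rw [one_smul]
  simpa only [h0, h1] using h

theorem pathTo_lU (X : Matrix m n A) : PathTo 1 (lU X : (Matrix (n ⊕ m) (n ⊕ m) A)ˣ) := by
  have h := pathTo_of (fun t : ℂ => (lU (t • X) : (Matrix (n ⊕ m) (n ⊕ m) A)ˣ)) (by
    rintro (i | i) (j | j)
    · exact const_mem_poly ((1 : Matrix n n A) i j)
    · exact const_mem_poly (0 : A)
    · exact W05_smul (X i j)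
    · exact const_mem_poly ((1 : Matrix m m A) i j)) (by
    rintro (i | i) (j | j)
    · exact const_mem_poly ((1 : Matrix n n A) i j)
    · exact const_mem_poly (0 : A)
    · exact W05_neg_smul (X i j)
    · exact const_mem_poly ((1 : Matrix m m A) i j))
  have h0 : (lU ((0 : ℂ) • X) : (Matrix (n ⊕ m) (n ⊕ m) A)ˣ) = 1 := by
    apply Units.ext
    rw [coe_lU, zero_smul, fromBlocks_one, Units.val_one]
  have h1 : (lU ((1 : ℂ) • X) : (Matrix (n ⊕ m) (n ⊕ m) A)ˣ) = lU X := by rw [one_smul]
  simpa only [h0, h1] using h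

end Pool.Agent.Lib.MP_e7fbd4_ag
end

section

/-! # W06 : Whitehead: diag(g, g^-1) joined to 1 -/

set_option autoImplicit false
set_option linter.unusedSectionVars false
set_option linter.unusedVariables false

namespace Pool.Agent.Lib.MP_e7fbd4_ag

open Matrix Pool.Agent.Lib.MP_c052b4_al

variable {A B : Type} [Ring A] [Algebra ℂ A] [Ring B] [Algebra ℂ B]
  {n m l : Type} [Fintype n] [Fintype m] [Fintype l] [DecidableEq n] [DecidableEq m] [DecidableEq l]

/-- Whitehead's lemma: `diag(g, g⁻¹)` is a product of elementary matrices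
`uU g * lU (-g⁻¹) * uU g * (uU 1 * lU (-1) * uU 1)⁻¹`. -/
theorem pathTo_wh (g : (Matrix n n A)ˣ) : PathTo 1 (bl g g⁻¹) := by
  have h : bl g g⁻¹ = uU (g : Matrix n n A) * lU (-(g⁻¹ : (Matrix n n A)ˣ) : Matrix n n A) *
      uU (g : Matrix n n A) * (uU (-1) * lU 1 * uU (-1)) := by
    apply Units.ext
    simp only [Units.val_mul, coe_uU, coe_lU, coe_bl, fromBlocks_multiply]
    simp
  rw [h]
  have h1 := ((((pathTo_uU (g : Matrix n n A)).mul
    (pathTo_lU (-(g⁻¹ : (Matrix n n A)ˣ) : Matrix n n A))).mul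
    (pathTo_uU (g : Matrix n n A))).mul
    (((pathTo_uU (-1 : Matrix n n A)).mul (pathTo_lU (1 : Matrix n n A))).mul
      (pathTo_uU (-1 : Matrix n n A))))
  simpa only [mul_one] using h1

end Pool.Agent.Lib.MP_e7fbd4_ag
end

section

/-! # W03 : paths: transitivity, block sum -/

set_option autoImplicit false
set_option linter.unusedSectionVars false
set_option linter.unusedVariables false

namespace Pool.Agent.Lib.MP_e7fbd4_ag

open Matrix Pool.Agent.Lib.MP_c052b4_al

variable {A B : Type} [Ring A] [Algebra ℂ A] [Ring B] [Algebra ℂ B]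
  {n m l : Type} [Fintype n] [Fintype m] [Fintype l] [DecidableEq n] [DecidableEq m] [DecidableEq l]

/-- If `G` is a path from `g` to `h` and `H` a path from `h` to `k` then `G h⁻¹ H` is a path from
`g` to `k`. -/
theorem PathTo.trans {g h k : (Matrix n n A)ˣ} (H : PathTo g h) (H' : PathTo h k) :
    PathTo g k := by
  have h1 := (H.mul (PathTo.refl h⁻¹)).mul H'
  rw [inv_mul_cancel_right, mul_inv_cancel, one_mul] at h1
  exact h1

theorem PathTo.bl {g h : (Matrix n n A)ˣ} {g' h' : (Matrix m m A)ˣ} (H : PathTo g h)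
    (H' : PathTo g' h') : PathTo (bl g g') (bl h h') := by
  obtain ⟨G, rfl, rfl⟩ := H
  obtain ⟨G', rfl, rfl⟩ := H'
  exact ⟨Pool.Agent.Lib.MP_c052b4_al.bl G G', mA_bl _ _ _, mA_bl _ _ _⟩

end Pool.Agent.Lib.MP_e7fbd4_ag
end

section

/-! # W04 : paths: reindexing, functoriality -/

set_option autoImplicit false
set_option linter.unusedSectionVars false
set_option linter.unusedVariables false

namespace Pool.Agent.Lib.MP_e7fbd4_ag

open Matrix Pool.Agent.Lib.MP_c052b4_al

variable {A B : Type} [Ring A] [Algebra ℂ A] [Ring B] [Algebra ℂ B]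
  {n m l : Type} [Fintype n] [Fintype m] [Fintype l] [DecidableEq n] [DecidableEq m] [DecidableEq l]

theorem PathTo.rU {g h : (Matrix n n A)ˣ} (H : PathTo g h) (σ : n ≃ m) :
    PathTo (rU σ g) (rU σ h) := by
  obtain ⟨G, rfl, rfl⟩ := H
  exact ⟨Pool.Agent.Lib.MP_c052b4_al.rU σ G, mA_rU _ σ G, mA_rU _ σ G⟩

theorem PathTo.map {g h : (Matrix n n A)ˣ} (H : PathTo g h) (φ : A →ₐ[ℂ] B) :
    PathTo (mA φ g) (mA φ h) := by
  obtain ⟨G, rfl, rfl⟩ := H
  exact ⟨mA (polyOp.map φ : Poly A →ₐ[ℂ] Poly B) G, rfl, rfl⟩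

end Pool.Agent.Lib.MP_e7fbd4_ag
end
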