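import Pool.Agent.Lib.MP_e7fbd4_ag.O.T1
import Pool.Agent.Lib.MP_e7fbd4_ag.O.B2
import Pool.Agent.Lib.MP_e7fbd4_ag.O.C4
import Pool.Agent.Lib.MP_e7fbd4_ag.O.E3
import Pool.Agent.Lib.MP_e7fbd4_ag.O.Ent

section

/-! # The entries of `P ⊗ M + (1 - P) ⊗ 1` -/

set_option autoImplicit false
set_option linter.unusedSectionVars false
set_option linter.unusedVariables false

namespace Pool.Agent.Lib.MP_e7fbd4_ag.O

open Pool.Agent.Lib.MP_c052b4_al

variable {A B : Type} [Ring A] [Algebra ℂ A] [Ring B] [Algebra ℂ B]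

/-- The entries of `P ⊗ M + (1 - P) ⊗ 1` in the ordering `(i, a) ↦ i r + a`. -/
theorem entM_tw {r : ℕ} (P : Idem r) {k : ℕ} (G : (Matrix (Fin k) (Fin k) A)ˣ) (i j : ℕ)
    (hr : 0 < r) :
    entM (rU finProdFinEquiv (twU P G)).val i j =
      P.mat ⟨i % r, Nat.mod_lt i hr⟩ ⟨j % r, Nat.mod_lt j hr⟩ • entM G.val (i / r) (j / r) +
        (1 - P.mat) ⟨i % r, Nat.mod_lt i hr⟩ ⟨j % r, Nat.mod_lt j hr⟩ •
          (if i / r = j / r then (1 : A) else 0) := by
  by_cases h : i < k * r ∧ j < k * r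
  · have hi : i / r < k := (Nat.div_lt_iff_lt_mul hr).2 h.1
    have hj : j / r < k := (Nat.div_lt_iff_lt_mul hr).2 h.2
    have e1 : entM G.val (i / r) (j / r) = G.val ⟨i / r, hi⟩ ⟨j / r, hj⟩ := by
      unfold entM
      rw [dif_pos ⟨hi, hj⟩]
    have e2 : (if i / r = j / r then (1 : A) else 0) =
        (1 : Matrix (Fin k) (Fin k) A) ⟨i / r, hi⟩ ⟨j / r, hj⟩ := by
      rw [Matrix.one_apply]
      simp only [Fin.mk.injEq]
    rw [e1, e2]
    have e3 : entM (rU finProdFinEquiv (twU P G)).val i j = (rU finProdFinEquiv (twU P G)).val ⟨i, h.1⟩ ⟨j, h.2⟩ := by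
      unfold entM
      rw [dif_pos h]
    rw [e3]
    rfl
  · have hG : entM G.val (i / r) (j / r) = if i / r = j / r then (1 : A) else 0 := by
      unfold entM
      rw [dif_neg]
      intro h'
      exact h ⟨(Nat.div_lt_iff_lt_mul hr).1 h'.1, (Nat.div_lt_iff_lt_mul hr).1 h'.2⟩
    have e3 : entM (rU finProdFinEquiv (twU P G)).val i j = if i = j then (1 : A) else 0 := by
      unfold entM
      rw [dif_neg h]
    rw [e3, hG, ← add_smul, ← Matrix.add_apply, add_sub_cancel, Matrix.one_apply]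
    simp only [Fin.mk.injEq]
    by_cases hij : i = j
    · subst hij
      simp
    · rw [if_neg hij]
      by_cases h1 : i % r = j % r
      · have h2 : i / r ≠ j / r := by
          intro h2
          apply hij
          rw [← Nat.div_add_mod i r, ← Nat.div_add_mod j r, h1, h2]
        rw [if_neg h2, smul_zero]
      · rw [if_neg h1, zero_smul]

theorem tw_stab {r : ℕ} (P : Idem r) (k : ℕ) (G : (Matrix (Fin k) (Fin k) A)ˣ) :
    toGL A ((k + 1) * r) (rU finProdFinEquiv (twU P (stabHom A k G))) =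
      toGL A (k * r) (rU finProdFinEquiv (twU P G)) := by
  apply toGL_eq_of_ent
  intro i j
  rcases Nat.eq_zero_or_pos r with hr | hr
  · subst hr
    unfold entM
    rw [dif_neg (by rintro ⟨h, -⟩; exact absurd h (by simp)), dif_neg (by rintro ⟨h, -⟩; exact absurd h (by simp))]
  · rw [entM_tw P _ i j hr, entM_tw P _ i j hr, entM_stab]

end Pool.Agent.Lib.MP_e7fbd4_ag.O
end

section

/-! # The homomorphism `g ↦ P ⊗ g + (1 - P) ⊗ 1` given by an idempotent complex matrix `P` -/

set_option autoImplicit false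
set_option linter.unusedSectionVars false
set_option linter.unusedVariables false

namespace Pool.Agent.Lib.MP_e7fbd4_ag.O

open Pool.Agent.Lib.MP_c052b4_al

variable {A B : Type} [Ring A] [Algebra ℂ A] [Ring B] [Algebra ℂ B]

/-- Reindexing as a homomorphism. -/
def rUHom {m n : Type} [Fintype m] [Fintype n] [DecidableEq m] [DecidableEq n] (σ : m ≃ n) :
    (Matrix m m A)ˣ →* (Matrix n n A)ˣ where
  toFun := rU σ
  map_one' := rU_one σ
  map_mul' := rU_mul σ

/-- The endomorphism `g ↦ P ⊗ g + (1 - P) ⊗ 1` of `GL(A)`. -/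
noncomputable def twist {r : ℕ} (P : Idem r) : GLinf A →* GLinf A :=
  Omega.lift (stabHom A)
    (fun k => (toGL A (k * r)).comp ((rUHom finProdFinEquiv).comp (twU P)))
    (fun k G => tw_stab P k G)

theorem twist_toGL {r : ℕ} (P : Idem r) {k : ℕ} (G : (Matrix (Fin k) (Fin k) A)ˣ) :
    twist P (toGL A k G) = toGL A (k * r) (rU finProdFinEquiv (twU P G)) := rfl

/-- `twist` is natural. -/
theorem map_twist {r : ℕ} (P : Idem r) (φ : A →ₐ[ℂ] B) (g : GLinf A) :
    GLinf.map φ.toRingHom (twist P g) = twist P (GLinf.map φ.toRingHom g) := by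
  obtain ⟨k, G, rfl⟩ := exists_toGL g
  rw [twist_toGL, map_toGL, map_toGL, twist_toGL, mU_rU]
  congr 2
  apply Units.ext
  ext x y
  change φ (P.mat x.2 y.2 • G.val x.1 y.1 +
      (1 - P.mat) x.2 y.2 • (1 : Matrix (Fin k) (Fin k) A) x.1 y.1) =
    P.mat x.2 y.2 • φ (G.val x.1 y.1) +
      (1 - P.mat) x.2 y.2 • (1 : Matrix (Fin k) (Fin k) B) x.1 y.1
  rw [map_add, map_smul, map_smul]
  congr 2
  rw [Matrix.one_apply, Matrix.one_apply]
  split_ifs
  · exact map_one φ
  · exact map_zero φ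

/-- Scalar matrices, as a homomorphism of algebras. -/
def scalarAlg (m : ℕ) (A : Type) [Ring A] [Algebra ℂ A] : A →ₐ[ℂ] Matrix (Fin m) (Fin m) A where
  toRingHom := Matrix.scalar (Fin m)
  commutes' c := by ext i j; simp [Matrix.algebraMap_matrix_apply, Matrix.diagonal_apply]

theorem dup_eq (m : ℕ) (g : GLinf A) : dup m A g = GLinf.map (scalarAlg m A).toRingHom g := rfl

theorem dup_twist {r : ℕ} (P : Idem r) (m : ℕ) (g : GLinf A) :
    dup m A (twist P g) = twist P (dup m A g) := by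
  rw [dup_eq, dup_eq, map_twist]

end Pool.Agent.Lib.MP_e7fbd4_ag.O
end

section

/-! # The Bott construction on values -/

set_option autoImplicit false
set_option linter.unusedSectionVars false
set_option linter.unusedVariables false

namespace Pool.Agent.Lib.MP_e7fbd4_ag.O

open Pool.Agent.Lib.MP_c052b4_al ComplexConjugate

variable {A B : Type} [Ring A] [Algebra ℂ A] [Ring B] [Algebra ℂ B] {c : Kind} {k l : ℕ}

/-- The value `(P ⊗ g + 1 - P) (P₀ ⊗ g + 1 - P₀)⁻¹` of the Bott construction, `P = bottP a b`. -/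
noncomputable def bottVal (a b : unitInterval) (g : GLinf A) : GLinf A :=
  twist (bottP a b) g * (twist bottP₀ g)⁻¹

theorem bottVal_one (a b : unitInterval) : bottVal a b (1 : GLinf A) = 1 := by
  unfold bottVal
  rw [map_one, map_one, inv_one, mul_one]

theorem bottVal_bdry {a b : unitInterval} (h : a = 0 ∨ a = 1 ∨ b = 0 ∨ b = 1) (g : GLinf A) :
    bottVal a b g = 1 := by
  unfold bottVal
  rw [bottP_bdry h, mul_inv_cancel]

end Pool.Agent.Lib.MP_e7fbd4_ag.O
end

section

/-! # Families of invertible matrices -/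

set_option autoImplicit false
set_option linter.unusedSectionVars false
set_option linter.unusedVariables false

namespace Pool.Agent.Lib.MP_e7fbd4_ag.O

open Pool.Agent.Lib.MP_c052b4_al

variable {A B : Type} [Ring A] [Algebra ℂ A] [Ring B] [Algebra ℂ B] {c : Kind} {k l : ℕ}

/-- A family of invertible matrices of a fixed size, with entries of kind `c`. -/
def IsCubeM (c : Kind) {k : ℕ} {n : Type} [Fintype n] [DecidableEq n]
    (G : Cube k → (Matrix n n A)ˣ) : Prop :=
  (∀ i j, (fun x => (G x).val i j) ∈ fn c k A) ∧ ∀ i j, (fun x => (G x)⁻¹.val i j) ∈ fn c k A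

theorem IsCubeM.mul {n : Type} [Fintype n] [DecidableEq n] {G H : Cube k → (Matrix n n A)ˣ}
    (hG : IsCubeM c G) (hH : IsCubeM c H) : IsCubeM c fun x => G x * H x := by
  constructor
  · intro i j
    have h1 : (fun x => (G x * H x).val i j) = fun x => ∑ a, (G x).val i a * (H x).val a j := by
      funext x
      rw [Units.val_mul, Matrix.mul_apply]
    rw [h1]
    exact fn_sum _ fun a _ => fn_mul (hG.1 i a) (hH.1 a j)
  · intro i j
    have h1 : (fun x => (G x * H x)⁻¹.val i j) = fun x => ∑ a, (H x)⁻¹.val i a * (G x)⁻¹.val a j := by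
      funext x
      rw [mul_inv_rev, Units.val_mul, Matrix.mul_apply]
    rw [h1]
    exact fn_sum _ fun a _ => fn_mul (hH.2 i a) (hG.2 a j)

theorem IsCubeM.inv {n : Type} [Fintype n] [DecidableEq n] {G : Cube k → (Matrix n n A)ˣ}
    (hG : IsCubeM c G) : IsCubeM c fun x => (G x)⁻¹ := by
  refine ⟨hG.2, ?_⟩
  intro i j
  simp only [inv_inv]
  exact hG.1 i j

theorem IsCubeM.rU {n m : Type} [Fintype n] [DecidableEq n] [Fintype m] [DecidableEq m]
    (σ : n ≃ m) {G : Cube k → (Matrix n n A)ˣ} (hG : IsCubeM c G) :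
    IsCubeM c fun x => rU σ (G x) :=
  ⟨fun i j => hG.1 (σ.symm i) (σ.symm j), fun i j => hG.2 (σ.symm i) (σ.symm j)⟩

end Pool.Agent.Lib.MP_e7fbd4_ag.O
end

section

/-! # Cubes in `GL(A)`, 1 -/

set_option autoImplicit false
set_option linter.unusedSectionVars false
set_option linter.unusedVariables false

namespace Pool.Agent.Lib.MP_e7fbd4_ag.O

open Pool.Agent.Lib.MP_c052b4_al

variable {A B : Type} [Ring A] [Algebra ℂ A] [Ring B] [Algebra ℂ B] {c : Kind} {k l : ℕ}

theorem isCube_iff {g : Cube k → GLinf A} : IsCube c g ↔ ∃ (r : ℕ)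
    (G : Cube k → (Matrix (Fin r) (Fin r) A)ˣ), IsCubeM c G ∧ ∀ x, g x = toGL A r (G x) := by
  constructor
  · rintro ⟨r, G, h1, h2, h3⟩
    exact ⟨r, G, ⟨h1, h2⟩, h3⟩
  · rintro ⟨r, G, ⟨h1, h2⟩, h3⟩
    exact ⟨r, G, h1, h2, h3⟩

private theorem C7_ent {r₀ r : ℕ} {M : Cube k → Matrix (Fin r₀) (Fin r₀) A}
    (hM : ∀ i j, (fun x => M x i j) ∈ fn c k A) (i j : ℕ) : (fun x => entM (M x) i j) ∈ fn c k A := by
  unfold entM
  by_cases h : i < r₀ ∧ j < r₀
  · simp only [dif_pos h]
    exact hM _ _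
  · simp only [dif_neg h]
    exact fn_const _

/-- A cube can be represented by matrices of any sufficiently large size. -/
theorem IsCube.exists_rep {g : Cube k → GLinf A} (hg : IsCube c g) : ∃ r₀ : ℕ, ∀ r, r₀ ≤ r →
    ∃ G : Cube k → (Matrix (Fin r) (Fin r) A)ˣ, IsCubeM c G ∧ ∀ x, g x = toGL A r (G x) := by
  obtain ⟨r₀, G, hG, hg'⟩ := isCube_iff.1 hg
  refine ⟨r₀, fun r hr => ?_⟩
  obtain ⟨E, hE1, hE2⟩ := exists_enlarge (A := A) hr
  have hself : ∀ (N : Matrix (Fin r) (Fin r) A) (i j : Fin r), N i j = entM N i j := by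
    intro N i j
    unfold entM
    rw [dif_pos ⟨i.2, j.2⟩]
  refine ⟨fun x => E (G x), ⟨?_, ?_⟩, ?_⟩
  · intro i j
    have h1 : (fun x => (E (G x)).val i j) = fun x => entM (G x).val i j := by
      funext x
      exact (hself (E (G x)).val i j).trans (hE2 (G x) i j)
    rw [h1]
    exact C7_ent (r := r) hG.1 i j
  · intro i j
    have h1 : (fun x => (E (G x))⁻¹.val i j) = fun x => entM (G x)⁻¹.val i j := by
      funext x
      have h2 := hE2 (G x)⁻¹ i j
      rw [map_inv] at h2
      exact (hself (E (G x))⁻¹.val i j).trans h2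
    rw [h1]
    exact C7_ent (r := r) hG.2 i j
  · intro x
    rw [hE1, hg']

end Pool.Agent.Lib.MP_e7fbd4_ag.O
end

section

/-! # Cubes in `GL(A)`, 4 -/

set_option autoImplicit false
set_option linter.unusedSectionVars false
set_option linter.unusedVariables false

namespace Pool.Agent.Lib.MP_e7fbd4_ag.O

open Pool.Agent.Lib.MP_c052b4_al

variable {A B : Type} [Ring A] [Algebra ℂ A] [Ring B] [Algebra ℂ B] {c : Kind} {k l : ℕ}

theorem IsCube.twist {r : ℕ} {P : Cube k → Idem r}
    (hP : ∀ i j, (fun x => (P x).mat i j) ∈ scal c k) {g : Cube k → GLinf A} (hg : IsCube c g) :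
    IsCube c fun x => twist (P x) (g x) := by
  obtain ⟨n, G, hG, hG'⟩ := isCube_iff.1 hg
  have hP1 : ∀ i j, (fun x => (1 - (P x).mat) i j) ∈ scal c k := by
    intro i j
    have h1 : (fun x => (1 - (P x).mat) i j) =
        algebraMap ℂ (Cube k → ℂ) ((1 : Matrix (Fin r) (Fin r) ℂ) i j) - fun x => (P x).mat i j := by
      funext x
      simp
    rw [h1]
    exact (scal c k).sub_mem ((scal c k).algebraMap_mem _) (hP i j)
  have hent : ∀ (M : Cube k → Matrix (Fin n) (Fin n) A), (∀ i j, (fun x => M x i j) ∈ fn c k A) →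
      ∀ a b : Fin n × Fin r, (fun x => twM (P x) (M x) a b) ∈ fn c k A := by
    intro M hM a b
    have h1 : (fun x => twM (P x) (M x) a b) = (fun x => (P x).mat a.2 b.2 • M x a.1 b.1) +
        fun x => (1 - (P x).mat) a.2 b.2 • (1 : Matrix (Fin n) (Fin n) A) a.1 b.1 := by
      funext x
      rfl
    rw [h1]
    exact (fn c k A).add_mem (fn_smul (hP _ _) (hM _ _)) (fn_smul (hP1 _ _) (fn_const _))
  have hM : IsCubeM c fun x => twU (P x) (G x) := by
    constructor
    · intro a b
      exact hent (fun x => (G x).val) hG.1 a b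
    · intro a b
      exact hent (fun x => (G x)⁻¹.val) hG.2 a b
  refine isCube_iff.2 ⟨n * r, fun x => rU finProdFinEquiv (twU (P x) (G x)), hM.rU _, ?_⟩
  intro x
  rw [hG', twist_toGL]

end Pool.Agent.Lib.MP_e7fbd4_ag.O
end

section

/-! # Cubes in `GL(A)`, 2 -/

set_option autoImplicit false
set_option linter.unusedSectionVars false
set_option linter.unusedVariables false

namespace Pool.Agent.Lib.MP_e7fbd4_ag.O

open Pool.Agent.Lib.MP_c052b4_al

variable {A B : Type} [Ring A] [Algebra ℂ A] [Ring B] [Algebra ℂ B] {c : Kind} {k l : ℕ}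

theorem IsCube.const (u : GLinf A) : IsCube c fun _ : Cube k => u := by
  obtain ⟨r, G, hG⟩ := exists_toGL u
  exact isCube_iff.2 ⟨r, fun _ => G, ⟨fun i j => fn_const _, fun i j => fn_const _⟩, fun _ => hG.symm⟩

theorem IsCube.mul {g h : Cube k → GLinf A} (hg : IsCube c g) (hh : IsCube c h) :
    IsCube c fun x => g x * h x := by
  obtain ⟨r, hr⟩ := hg.exists_rep
  obtain ⟨s, hs⟩ := hh.exists_rep
  obtain ⟨G, hG, hG'⟩ := hr (max r s) (le_max_left _ _)
  obtain ⟨H, hH, hH'⟩ := hs (max r s) (le_max_right _ _)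
  refine isCube_iff.2 ⟨max r s, fun x => G x * H x, hG.mul hH, ?_⟩
  intro x
  rw [map_mul, ← hG', ← hH']

theorem IsCube.inv {g : Cube k → GLinf A} (hg : IsCube c g) : IsCube c fun x => (g x)⁻¹ := by
  obtain ⟨r, G, hG, hG'⟩ := isCube_iff.1 hg
  refine isCube_iff.2 ⟨r, fun x => (G x)⁻¹, hG.inv, ?_⟩
  intro x
  rw [map_inv, ← hG']

end Pool.Agent.Lib.MP_e7fbd4_ag.O
end

section

/-! # Cubes in `GL(A)`, 3 -/

set_option autoImplicit false
set_option linter.unusedSectionVars false
set_option linter.unusedVariables false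

namespace Pool.Agent.Lib.MP_e7fbd4_ag.O

open Pool.Agent.Lib.MP_c052b4_al

variable {A B : Type} [Ring A] [Algebra ℂ A] [Ring B] [Algebra ℂ B] {c : Kind} {k l : ℕ}

theorem IsCube.comp {g : Cube k → GLinf A} (hg : IsCube c g) {φ : Cube l → Cube k}
    (h : PolyMap φ) : IsCube c fun x => g (φ x) := by
  obtain ⟨r, G, h1, h2, h3⟩ := hg
  exact ⟨r, fun x => G (φ x), fun i j => fn_comp h (h1 i j), fun i j => fn_comp h (h2 i j),
    fun x => h3 (φ x)⟩

theorem IsCube.map {g : Cube k → GLinf A} (hg : IsCube c g) (f : A →ₐ[ℂ] B) :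
    IsCube c fun x => GLinf.map f.toRingHom (g x) := by
  obtain ⟨r, G, h1, h2, h3⟩ := hg
  exact ⟨r, fun x => mU f.toRingHom (G x), fun i j => fn_map f.toLinearMap (h1 i j),
    fun i j => fn_map f.toLinearMap (h2 i j), fun x => by
      change GLinf.map f.toRingHom (g x) = toGL B r (mU f.toRingHom (G x))
      rw [h3 x, map_toGL]⟩

theorem IsCube.top_of_alg {g : Cube k → GLinf A} (hg : IsCube Kind.alg g) :
    IsCube Kind.top g := by
  obtain ⟨r, G, h1, h2, h3⟩ := hg
  exact ⟨r, G, fun i j => fn_alg_le_top (h1 i j), fun i j => fn_alg_le_top (h2 i j), h3⟩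

end Pool.Agent.Lib.MP_e7fbd4_ag.O
end

section

/-! # The group of pairs -/

set_option autoImplicit false
set_option linter.unusedSectionVars false
set_option linter.unusedVariables false

namespace Pool.Agent.Lib.MP_e7fbd4_ag.O

open Pool.Agent.Lib.MP_c052b4_al

variable {A B C : Type} [Ring A] [Algebra ℂ A] [Ring B] [Algebra ℂ B] [Ring C] [Algebra ℂ C]
  {c : Kind} {m k l : ℕ}

theorem Bdry.one : Bdry m k (A := A) (fun _ => 1) (fun _ => 1) where
  g_bdry _ _ := rfl
  p_zero _ := rfl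
  p_one _ := (map_one (dup m A)).symm
  p_bdry _ _ _ := rfl

theorem Bdry.mul {g g' : Cube k → GLinf A} {p p' : Cube (k + 1) → GLinf (Matrix (Fin m) (Fin m) A)}
    (h : Bdry m k g p) (h' : Bdry m k g' p') :
    Bdry m k (fun x => g x * g' x) (fun y => p y * p' y) where
  g_bdry x hx := by rw [h.g_bdry x hx, h'.g_bdry x hx, one_mul]
  p_zero x := by rw [h.p_zero, h'.p_zero, one_mul]
  p_one x := by rw [h.p_one, h'.p_one, map_mul]
  p_bdry s x hx := by rw [h.p_bdry s x hx, h'.p_bdry s x hx, one_mul]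

theorem Bdry.inv {g : Cube k → GLinf A} {p : Cube (k + 1) → GLinf (Matrix (Fin m) (Fin m) A)}
    (h : Bdry m k g p) : Bdry m k (fun x => (g x)⁻¹) (fun y => (p y)⁻¹) where
  g_bdry x hx := by rw [h.g_bdry x hx, inv_one]
  p_zero x := by rw [h.p_zero, inv_one]
  p_one x := by rw [h.p_one, map_inv]
  p_bdry s x hx := by rw [h.p_bdry s x hx, inv_one]

theorem Pair.ext' {z w : Pair c m k A} (hg : z.g = w.g) (hp : z.p = w.p) : z = w := by
  cases z; cases w; cases hg; cases hp; rfl

/-- Pointwise product. -/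
noncomputable instance : Mul (Pair c m k A) where
  mul z w :=
    { g := fun x => z.g x * w.g x
      p := fun y => z.p y * w.p y
      hg := z.hg.mul w.hg
      hp := z.hp.mul w.hp
      bdry := z.bdry.mul w.bdry }

noncomputable instance : One (Pair c m k A) where
  one :=
    { g := fun _ => 1
      p := fun _ => 1
      hg := IsCube.const 1
      hp := IsCube.const 1
      bdry := Bdry.one }

noncomputable instance : Inv (Pair c m k A) where
  inv z :=
    { g := fun x => (z.g x)⁻¹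
      p := fun y => (z.p y)⁻¹
      hg := z.hg.inv
      hp := z.hp.inv
      bdry := z.bdry.inv }

theorem Pair.mul_g (z w : Pair c m k A) (x : Cube k) : (z * w).g x = z.g x * w.g x := rfl
theorem Pair.mul_p (z w : Pair c m k A) (y : Cube (k + 1)) : (z * w).p y = z.p y * w.p y := rfl
theorem Pair.one_g (x : Cube k) : (1 : Pair c m k A).g x = 1 := rfl
theorem Pair.one_p (y : Cube (k + 1)) : (1 : Pair c m k A).p y = 1 := rfl
theorem Pair.inv_g (z : Pair c m k A) (x : Cube k) : (z⁻¹).g x = (z.g x)⁻¹ := rfl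
theorem Pair.inv_p (z : Pair c m k A) (y : Cube (k + 1)) : (z⁻¹).p y = (z.p y)⁻¹ := rfl

/-- The group of pairs. -/
noncomputable instance : Group (Pair c m k A) :=
  Group.ofLeftAxioms
    (fun a b c => Pair.ext' (funext fun x => mul_assoc _ _ _) (funext fun x => mul_assoc _ _ _))
    (fun a => Pair.ext' (funext fun x => one_mul _) (funext fun x => one_mul _))
    (fun a => Pair.ext' (funext fun x => inv_mul_cancel _) (funext fun x => inv_mul_cancel _))

end Pool.Agent.Lib.MP_e7fbd4_ag.O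
end

section

/-! # Homotopy is a congruence -/

set_option autoImplicit false
set_option linter.unusedSectionVars false
set_option linter.unusedVariables false

namespace Pool.Agent.Lib.MP_e7fbd4_ag.O

open Pool.Agent.Lib.MP_c052b4_al

variable {A B C : Type} [Ring A] [Algebra ℂ A] [Ring B] [Algebra ℂ B] [Ring C] [Algebra ℂ C]
  {c : Kind} {m k l : ℕ}

private theorem g2_cons {n : ℕ} (t : unitInterval) (x : Cube n) :
    (fun i : Fin n => (Fin.cons t x : Cube (n + 1)) i.succ) = x := by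
  funext i
  exact Fin.cons_succ _ _ _

private theorem g2_poly (n : ℕ) : PolyMap (fun (y : Cube (n + 1)) (i : Fin n) => y i.succ) :=
  polyMap_of fun i => Or.inl ⟨i.succ, fun _ => rfl⟩

theorem homotopic_refl (z : Pair c m k A) : Homotopic z z := by
  refine ⟨fun y => z.g (fun i => y i.succ), fun y => z.p (fun i => y i.succ),
    z.hg.comp (g2_poly k), z.hp.comp (g2_poly (k + 1)), ?_, ?_, ?_, ?_, ?_⟩
  · intro t
    have h1 : (fun x : Cube k => z.g (fun i => (Fin.cons t x : Cube (k + 1)) i.succ)) = z.g := by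
      funext x
      rw [g2_cons]
    have h2 : (fun y : Cube (k + 1) => z.p (fun i => (Fin.cons t y : Cube (k + 2)) i.succ)) =
        z.p := by
      funext y
      rw [g2_cons]
    rw [h1, h2]
    exact z.bdry
  · intro x
    exact congrArg z.g (g2_cons 0 x)
  · intro y
    exact congrArg z.p (g2_cons 0 y)
  · intro x
    exact congrArg z.g (g2_cons 1 x)
  · intro y
    exact congrArg z.p (g2_cons 1 y)

theorem Homotopic.mul {z w z' w' : Pair c m k A} (h : Homotopic z w) (h' : Homotopic z' w') :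
    Homotopic (z * z') (w * w') := by
  obtain ⟨G, P, hG, hP, hb, h0, h1, h2, h3⟩ := h
  obtain ⟨G', P', hG', hP', hb', h0', h1', h2', h3'⟩ := h'
  refine ⟨fun y => G y * G' y, fun y => P y * P' y, hG.mul hG', hP.mul hP',
    fun t => (hb t).mul (hb' t), ?_, ?_, ?_, ?_⟩
  · intro x
    simp only [h0, h0', Pair.mul_g]
  · intro y
    simp only [h1, h1', Pair.mul_p]
  · intro x
    simp only [h2, h2', Pair.mul_g]
  · intro y
    simp only [h3, h3', Pair.mul_p]

theorem Homotopic.inv {z w : Pair c m k A} (h : Homotopic z w) : Homotopic z⁻¹ w⁻¹ := by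
  obtain ⟨G, P, hG, hP, hb, h0, h1, h2, h3⟩ := h
  refine ⟨fun y => (G y)⁻¹, fun y => (P y)⁻¹, hG.inv, hP.inv,
    fun t => (hb t).inv, ?_, ?_, ?_, ?_⟩
  · intro x
    simp only [h0, Pair.inv_g]
  · intro y
    simp only [h1, Pair.inv_p]
  · intro x
    simp only [h2, Pair.inv_g]
  · intro y
    simp only [h3, Pair.inv_p]

end Pool.Agent.Lib.MP_e7fbd4_ag.O
end

section

/-! # Scalar elements of `GL(A)` -/

set_option autoImplicit false
set_option linter.unusedSectionVars false
set_option linter.unusedVariables false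

namespace Pool.Agent.Lib.MP_e7fbd4_ag.O

open Pool.Agent.Lib.MP_c052b4_al

variable {A B C : Type} [Ring A] [Algebra ℂ A] [Ring B] [Algebra ℂ B] [Ring C] [Algebra ℂ C]
  {c : Kind} {m k l : ℕ}

/-- The homomorphism `GL(ℂ) → GL(A)`. -/
noncomputable def sc (A : Type) [Ring A] [Algebra ℂ A] : GLinf ℂ →* GLinf A :=
  GLinf.map (algebraMap ℂ A)

theorem map_sc (f : A →ₐ[ℂ] B) (u : GLinf ℂ) : GLinf.map f.toRingHom (sc A u) = sc B u := by
  unfold sc
  rw [GLinf_map_comp]
  have h : f.toRingHom.comp (algebraMap ℂ A) = algebraMap ℂ B := f.comp_algebraMap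
  rw [h]

theorem dup_sc (m : ℕ) (u : GLinf ℂ) : dup m A (sc A u) = sc (Matrix (Fin m) (Fin m) A) u := by
  unfold dup sc
  rw [GLinf_map_comp]
  rfl

theorem IsCube.of_alg {g : Cube k → GLinf A} (hg : IsCube Kind.alg g) : IsCube c g := by
  cases c with
  | alg => exact hg
  | top => exact hg.top_of_alg

/-- A polynomial cube of scalar elements is a cube of any kind in `GL(A)`. -/
theorem IsCube.sc {g : Cube k → GLinf ℂ} (hg : IsCube Kind.alg g) :
    IsCube c fun x => sc A (g x) := by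
  exact hg.of_alg.map (Algebra.ofId ℂ A)

end Pool.Agent.Lib.MP_e7fbd4_ag.O
end

section

/-! # Matrices over matrices -/

set_option autoImplicit false
set_option linter.unusedSectionVars false
set_option linter.unusedVariables false

namespace Pool.Agent.Lib.MP_e7fbd4_ag.O

open Pool.Agent.Lib.MP_c052b4_al

variable {A B C : Type} [Ring A] [Algebra ℂ A] [Ring B] [Algebra ℂ B] [Ring C] [Algebra ℂ C]
  {c : Kind} {m k l : ℕ}

/-- An invertible matrix over `M_r(A)` as an invertible matrix over `A`. -/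
noncomputable def flU (r n : ℕ) : (Matrix (Fin n) (Fin n) (Matrix (Fin r) (Fin r) A))ˣ →*
    (Matrix (Fin n × Fin r) (Fin n × Fin r) A)ˣ :=
  Units.map (Matrix.compRingEquiv (Fin n) (Fin r) A).toMonoidHom

theorem flU_apply {r n : ℕ} (G : (Matrix (Fin n) (Fin n) (Matrix (Fin r) (Fin r) A))ˣ)
    (x y : Fin n × Fin r) : (flU r n G).val x y = G.val x.1 y.1 x.2 y.2 := rfl

theorem entM_fl {r n : ℕ} (G : (Matrix (Fin n) (Fin n) (Matrix (Fin r) (Fin r) A))ˣ) (i j : ℕ)
    (hr : 0 < r) :
    entM (rU finProdFinEquiv (flU r n G)).val i j =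
      entM G.val (i / r) (j / r) ⟨i % r, Nat.mod_lt i hr⟩ ⟨j % r, Nat.mod_lt j hr⟩ := by
  have hi : i < n * r ↔ i / r < n := (Nat.div_lt_iff_lt_mul hr).symm
  have hj : j < n * r ↔ j / r < n := (Nat.div_lt_iff_lt_mul hr).symm
  unfold entM
  by_cases h : i < n * r ∧ j < n * r
  · rw [dif_pos h, dif_pos ⟨hi.1 h.1, hj.1 h.2⟩]
    rfl
  · have h' : ¬(i / r < n ∧ j / r < n) := fun h2 => h ⟨hi.2 h2.1, hj.2 h2.2⟩
    rw [dif_neg h, dif_neg h']
    by_cases hij : i = j
    · subst hij
      simp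
    · rw [if_neg hij]
      by_cases hd : i / r = j / r
      · rw [if_pos hd]
        rw [Matrix.one_apply_ne]
        intro hm
        apply hij
        have h3 : i % r = j % r := congrArg Fin.val hm
        rw [← Nat.div_add_mod i r, ← Nat.div_add_mod j r, hd, h3]
      · rw [if_neg hd]
        rfl

theorem fl_stab {r : ℕ} (n : ℕ) (G : (Matrix (Fin n) (Fin n) (Matrix (Fin r) (Fin r) A))ˣ) :
    toGL A ((n + 1) * r) (rU finProdFinEquiv (flU r (n + 1) (stabHom _ n G))) =
      toGL A (n * r) (rU finProdFinEquiv (flU r n G)) := by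
  apply toGL_eq_of_ent
  intro i j
  rcases Nat.eq_zero_or_pos r with hr | hr
  · subst hr
    unfold entM
    rw [dif_neg (fun h => Nat.not_lt_zero i h.1), dif_neg (fun h => Nat.not_lt_zero i h.1)]
  · rw [entM_fl _ _ _ hr, entM_fl _ _ _ hr, entM_stab]

/-- The isomorphism `GL(M_r(A)) → GL(A)`. -/
noncomputable def flat (r : ℕ) (A : Type) [Ring A] [Algebra ℂ A] :
    GLinf (Matrix (Fin r) (Fin r) A) →* GLinf A :=
  Omega.lift (stabHom (Matrix (Fin r) (Fin r) A))
    (fun n => (toGL A (n * r)).comp ((rUHom finProdFinEquiv).comp (flU r n)))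
    (fun n G => fl_stab n G)

theorem flat_toGL {r n : ℕ} (G : (Matrix (Fin n) (Fin n) (Matrix (Fin r) (Fin r) A))ˣ) :
    flat r A (toGL _ n G) = toGL A (n * r) (rU finProdFinEquiv (flU r n G)) := rfl

end Pool.Agent.Lib.MP_e7fbd4_ag.O
end
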