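import Pool.Agent.Lib.MP_e7fbd4_ag.O.C4
import Pool.Agent.Lib.MP_e7fbd4_ag.Mg.G009

section

/-! # Functions with values in an algebra, 3 -/

set_option autoImplicit false
set_option linter.unusedSectionVars false
set_option linter.unusedVariables false

namespace Pool.Agent.Lib.MP_e7fbd4_ag.O

open Pool.Agent.Lib.MP_c052b4_al

variable {A B : Type} [Ring A] [Algebra ℂ A] [Ring B] [Algebra ℂ B] {c : Kind} {k l : ℕ}

/-- A matrix valued function is of kind `c` if and only if all its entries are. -/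
theorem fn_matrix_iff {m : ℕ} {F : Cube k → Matrix (Fin m) (Fin m) A} :
    F ∈ fn c k (Matrix (Fin m) (Fin m) A) ↔ ∀ i j, (fun x => F x i j) ∈ fn c k A := by
  constructor
  · intro hF i j
    exact fn_map (Matrix.entryLinearMap ℂ A i j) hF
  · intro h
    have h1 : F = fun x => ∑ i : Fin m, ∑ j : Fin m, Matrix.singleLinearMap ℂ i j (F x i j) := by
      funext x
      exact Matrix.matrix_eq_sum_single (F x)
    rw [h1]
    refine fn_sum _ fun i _ => fn_sum _ fun j _ => ?_
    exact fn_map (Matrix.singleLinearMap ℂ i j) (h i j)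

end Pool.Agent.Lib.MP_e7fbd4_ag.O
end

section

/-! # Elements of `GL(ℂ)` joined to `1` by a polynomial path -/

set_option autoImplicit false
set_option linter.unusedSectionVars false
set_option linter.unusedVariables false

namespace Pool.Agent.Lib.MP_e7fbd4_ag.O

open Pool.Agent.Lib.MP_c052b4_al

variable {A B C : Type} [Ring A] [Algebra ℂ A] [Ring B] [Algebra ℂ B] [Ring C] [Algebra ℂ C]
  {c : Kind} {m k l : ℕ}

/-- The elements of `GL(ℂ)` joined to `1` by a polynomial path. -/
def Conn : Set (GLinf ℂ) :=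
  {u | ∃ U : Cube 1 → GLinf ℂ, IsCube Kind.alg U ∧ U (fun _ => 0) = 1 ∧ U (fun _ => 1) = u}

/-- Conjugation by a scalar element. -/
noncomputable def Pair.conj (u : GLinf ℂ) (z : Pair c m k A) : Pair c m k A where
  g x := sc A u * z.g x * (sc A u)⁻¹
  p y := sc _ u * z.p y * (sc _ u)⁻¹
  hg := ((IsCube.const _).mul z.hg).mul (IsCube.const _)
  hp := ((IsCube.const _).mul z.hp).mul (IsCube.const _)
  bdry :=
    { g_bdry := fun x hx => by rw [z.bdry.g_bdry x hx, mul_one, mul_inv_cancel]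
      p_zero := fun x => by rw [z.bdry.p_zero, mul_one, mul_inv_cancel]
      p_one := fun x => by rw [z.bdry.p_one, map_mul, map_mul, map_inv, dup_sc]
      p_bdry := fun s x hx => by rw [z.bdry.p_bdry s x hx, mul_one, mul_inv_cancel] }

/-- If `U(t)` joins `1` to `u` then `U(t) z U(t)⁻¹` joins `z` to `u z u⁻¹`: take
`G y = sc (U (fun _ => y 0)) * z.g (fun i => y i.succ) * (...)⁻¹` and the same for `p`. -/
theorem homotopic_conj_of_conn {u : GLinf ℂ} (hu : u ∈ Conn) (z : Pair c m k A) :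
    Homotopic z (z.conj u) := by
  obtain ⟨U, hU, hU0, hU1⟩ := hu
  have hpy : ∀ n : ℕ, PolyMap (fun (y : Cube (n + 1)) (i : Fin n) => y i.succ) := fun n =>
    polyMap_of fun i => Or.inl ⟨i.succ, fun _ => rfl⟩
  have hp0 : ∀ n : ℕ, PolyMap (fun (y : Cube (n + 1)) (_ : Fin 1) => y 0) := fun n =>
    polyMap_of fun _ => Or.inl ⟨0, fun _ => rfl⟩
  have hcons : ∀ (n : ℕ) (t : unitInterval) (x : Cube n),
      (fun i : Fin n => (Fin.cons t x : Cube (n + 1)) i.succ) = x := by
    intro n t x
    funext i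
    exact Fin.cons_succ _ _ _
  have hG : IsCube c (fun y : Cube (k + 1) => sc A (U (fun _ => y 0)) *
      z.g (fun i => y i.succ) * (sc A (U (fun _ => y 0)))⁻¹) :=
    ((hU.comp (hp0 k)).sc.mul (z.hg.comp (hpy k))).mul (hU.comp (hp0 k)).sc.inv
  have hP : IsCube c (fun y : Cube (k + 2) => sc (Matrix (Fin m) (Fin m) A) (U (fun _ => y 0)) *
      z.p (fun i => y i.succ) * (sc (Matrix (Fin m) (Fin m) A) (U (fun _ => y 0)))⁻¹) :=
    ((hU.comp (hp0 (k + 1))).sc.mul (z.hp.comp (hpy (k + 1)))).mul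
      (hU.comp (hp0 (k + 1))).sc.inv
  refine ⟨_, _, hG, hP, ?_, ?_, ?_, ?_, ?_⟩
  · intro t
    simp only [hcons, Fin.cons_zero]
    exact (z.conj (U (fun _ => t))).bdry
  · intro x
    simp only [hcons, Fin.cons_zero]
    rw [hU0, map_one, one_mul, inv_one, mul_one]
  · intro y
    simp only [hcons, Fin.cons_zero]
    rw [hU0, map_one, one_mul, inv_one, mul_one]
  · intro x
    simp only [hcons, Fin.cons_zero]
    rw [hU1]
    rfl
  · intro y
    simp only [hcons, Fin.cons_zero]
    rw [hU1]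
    rfl

end Pool.Agent.Lib.MP_e7fbd4_ag.O
end
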