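import Pool.Agent.Lib.MP_e7fbd4_ag.Mg.G001
import Pool.Agent.Lib.MP_e7fbd4_ag.Mg.G002
import Pool.Agent.Lib.MP_e7fbd4_ag.Mg.G009
import Pool.Agent.Lib.MP_e7fbd4_ag.Mg.G010

section

/-!
# Polynomial families of invertible matrices
-/

set_option autoImplicit false
set_option linter.unusedSectionVars false
set_option linter.unusedVariables false

namespace Pool.Agent.Lib.MP_e7fbd4_ag

open Matrix Pool.Agent.Lib.MP_c052b4_al

variable {A B : Type} [Ring A] [Algebra ℂ A] [Ring B] [Algebra ℂ B]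
  {n l : Type} [Fintype n] [Fintype l] [DecidableEq n] [DecidableEq l]

/-- A polynomial family of invertible matrices. -/
structure PU (G : ℂ → (Matrix n n A)ˣ) : Prop where
  v : ∀ i j, (fun t => (G t).val i j) ∈ Poly A
  w : ∀ i j, (fun t => (G t)⁻¹.val i j) ∈ Poly A

/-- A polynomial family of invertible matrices, two parameters. -/
structure PU2 (G : ℂ → ℂ → (Matrix n n A)ˣ) : Prop where
  v : ∀ i j, (fun s t => (G s t).val i j) ∈ Poly2 A
  w : ∀ i j, (fun s t => (G s t)⁻¹.val i j) ∈ Poly2 A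

theorem PU.mul {G H : ℂ → (Matrix n n A)ˣ} (hG : PU G) (hH : PU H) : PU (fun t => G t * H t) := by
  refine ⟨fun i j => ?_, fun i j => ?_⟩
  · exact poly_matmul (F := fun t => (G t).val) (G := fun t => (H t).val) hG.v hH.v i j
  · have := poly_matmul (F := fun t => (H t)⁻¹.val) (G := fun t => (G t)⁻¹.val) hH.w hG.w i j
    have e : (fun t => ((G t * H t)⁻¹).val i j) = fun t => ((H t)⁻¹.val * (G t)⁻¹.val) i j := by
      funext t
      rw [_root_.mul_inv_rev, Units.val_mul]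
    rw [e]
    exact this

theorem PU.inv {G : ℂ → (Matrix n n A)ˣ} (hG : PU G) : PU (fun t => (G t)⁻¹) :=
  ⟨hG.w, fun i j => by simpa only [inv_inv] using hG.v i j⟩

theorem PU.const (g : (Matrix n n A)ˣ) : PU (fun _ : ℂ => g) :=
  ⟨fun i j => const_mem_poly _, fun i j => const_mem_poly _⟩

theorem PU.ofW {W : Subalgebra ℂ (ℂ → A)} (hW : W ≤ Poly A) (G : (Matrix n n W)ˣ) :
    PU (fun t => mA (evW W t) G) :=
  ⟨fun i j => hW (G.val i j).2, fun i j => hW (G⁻¹.val i j).2⟩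

theorem PU.map (φ : A →ₐ[ℂ] B) {G : ℂ → (Matrix n n A)ˣ} (hG : PU G) :
    PU (fun t => mA φ (G t)) :=
  ⟨fun i j => comp_mem_poly φ (hG.v i j), fun i j => comp_mem_poly φ (hG.w i j)⟩

theorem PU2.mul {G H : ℂ → ℂ → (Matrix n n A)ˣ} (hG : PU2 G) (hH : PU2 H) :
    PU2 (fun s t => G s t * H s t) := by
  refine ⟨fun i j => ?_, fun i j => ?_⟩
  · exact poly2_matmul (F := fun s t => (G s t).val) (G := fun s t => (H s t).val) hG.v hH.v i j
  · have := poly2_matmul (F := fun s t => (H s t)⁻¹.val) (G := fun s t => (G s t)⁻¹.val)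
      hH.w hG.w i j
    have e : (fun s t => ((G s t * H s t)⁻¹).val i j) =
        fun s t => ((H s t)⁻¹.val * (G s t)⁻¹.val) i j := by
      funext s t
      rw [_root_.mul_inv_rev, Units.val_mul]
    rw [e]
    exact this

theorem PU2.inv {G : ℂ → ℂ → (Matrix n n A)ˣ} (hG : PU2 G) : PU2 (fun s t => (G s t)⁻¹) :=
  ⟨hG.w, fun i j => by simpa only [inv_inv] using hG.v i j⟩

theorem PU2.subst {G : ℂ → ℂ → (Matrix n n A)ˣ} (hG : PU2 G) {p q : ℂ → ℂ → ℂ}
    (hp : p ∈ Poly2 ℂ) (hq : q ∈ Poly2 ℂ) : PU2 (fun s t => G (p s t) (q s t)) :=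
  ⟨fun i j => poly2_subst (hG.v i j) hp hq, fun i j => poly2_subst (hG.w i j) hp hq⟩

theorem PU2.curve {G : ℂ → ℂ → (Matrix n n A)ˣ} (hG : PU2 G) {p q : ℂ → ℂ}
    (hp : p ∈ Poly ℂ) (hq : q ∈ Poly ℂ) : PU (fun t => G (p t) (q t)) :=
  ⟨fun i j => poly2_curve (hG.v i j) hp hq, fun i j => poly2_curve (hG.w i j) hp hq⟩

theorem PU.subst2 {G : ℂ → (Matrix n n A)ˣ} (hG : PU G) {p : ℂ → ℂ → ℂ}
    (hp : p ∈ Poly2 ℂ) : PU2 (fun s t => G (p s t)) :=
  ⟨fun i j => poly2_subst (poly2_of_poly_fst (hG.v i j)) hp hp,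
    fun i j => poly2_subst (poly2_of_poly_fst (hG.w i j)) hp hp⟩

theorem PU2.ofW {W : Subalgebra ℂ (ℂ → A)} (hW : W ≤ Poly A) (G : (Matrix n n (Poly W))ˣ) :
    PU2 (fun s t => mA (A := W) (B := A) (evW W t) (mA (A := Poly W) (B := W) (evP W s) G)) :=
  ⟨fun i j => poly2_of_W hW (G.val i j).2, fun i j => poly2_of_W hW (G⁻¹.val i j).2⟩

theorem PU2.at_fst {G : ℂ → ℂ → (Matrix n n A)ˣ} (hG : PU2 G) (s : ℂ) : PU (fun t => G s t) :=
  hG.curve (const_mem_poly s) poly_id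

theorem bl_inv {n l : Type} [Fintype n] [Fintype l] [DecidableEq n] [DecidableEq l]
    (g : (Matrix n n A)ˣ) (h : (Matrix l l A)ˣ) : (bl g h)⁻¹ = bl g⁻¹ h⁻¹ := rfl

theorem rU_inv {n l : Type} [Fintype n] [Fintype l] [DecidableEq n] [DecidableEq l]
    (σ : n ≃ l) (g : (Matrix n n A)ˣ) : (rU σ g)⁻¹ = rU σ g⁻¹ := rfl

theorem PU.bl {G : ℂ → (Matrix n n A)ˣ} {H : ℂ → (Matrix l l A)ˣ} (hG : PU G) (hH : PU H) :
    PU (fun t => bl (G t) (H t)) := by
  refine ⟨fun i j => ?_, fun i j => ?_⟩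
  · rcases i with i | i <;> rcases j with j | j
    · exact hG.v i j
    · exact (Poly A).zero_mem
    · exact (Poly A).zero_mem
    · exact hH.v i j
  · rcases i with i | i <;> rcases j with j | j
    · exact hG.w i j
    · exact (Poly A).zero_mem
    · exact (Poly A).zero_mem
    · exact hH.w i j

theorem PU.rU {G : ℂ → (Matrix n n A)ˣ} (σ : n ≃ l) (hG : PU G) :
    PU (fun t => rU σ (G t)) :=
  ⟨fun i j => hG.v _ _, fun i j => hG.w _ _⟩

theorem PU2.ofP {G : ℂ → (Matrix n n A)ˣ} (hG : PU G) :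
    PU2 (fun _ t => G t) := hG.subst2 poly2_snd

/-! ### Flattening -/

/-- `GL_n(M_l(A)) = GL_{n × l}(A)` -/
def fl (n l A : Type) [Ring A] [Fintype n] [Fintype l] [DecidableEq n] [DecidableEq l] :
    (Matrix n n (Matrix l l A))ˣ ≃* (Matrix (n × l) (n × l) A)ˣ :=
  Units.mapEquiv (Matrix.compRingEquiv n l A).toMulEquiv

theorem fl_apply (g : (Matrix n n (Matrix l l A))ˣ) (x y : n × l) :
    (fl n l A g).val x y = g.val x.1 y.1 x.2 y.2 := rfl

theorem fl_inv_apply (g : (Matrix n n (Matrix l l A))ˣ) (x y : n × l) :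
    (fl n l A g)⁻¹.val x y = g⁻¹.val x.1 y.1 x.2 y.2 := rfl

theorem PU.fl {G : ℂ → (Matrix n n (Matrix l l A))ˣ} (hG : PU G) :
    PU (fun t => fl n l A (G t)) :=
  ⟨fun x y => poly_matrix_iff.1 (hG.v x.1 y.1) x.2 y.2,
    fun x y => poly_matrix_iff.1 (hG.w x.1 y.1) x.2 y.2⟩

theorem PU2.fl {G : ℂ → ℂ → (Matrix n n (Matrix l l A))ˣ} (hG : PU2 G) :
    PU2 (fun s t => fl n l A (G s t)) :=
  ⟨fun x y => poly2_matrix_iff.1 (hG.v x.1 y.1) x.2 y.2,
    fun x y => poly2_matrix_iff.1 (hG.w x.1 y.1) x.2 y.2⟩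

/-! ### Cones -/

theorem cone_le (m : ℕ) (A : Type) [Ring A] [Algebra ℂ A] :
    Cone m A ≤ Poly (Matrix (Fin m) (Fin m) A) := fun _ h => h.1

theorem loop_le (A : Type) [Ring A] [Algebra ℂ A] : Loop A ≤ Poly A := fun _ h => h.1

theorem cone_mem (m : ℕ) {G : ℂ → (Matrix n n (Matrix (Fin m) (Fin m) A))ˣ} (hG : PU G)
    (h0 : ∃ g, G 0 = mA (scalarHom m A) g) (h1 : ∃ g, G 1 = mA (scalarHom m A) g) (i j : n) :
    (fun t => (G t).val i j) ∈ Cone m A := by
  obtain ⟨g0, h0⟩ := h0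
  obtain ⟨g1, h1⟩ := h1
  refine ⟨hG.v i j, ⟨g0.val i j, ?_⟩, ⟨g1.val i j, ?_⟩⟩
  · change (G 0).val i j = _
    rw [h0]; rfl
  · change (G 1).val i j = _
    rw [h1]; rfl

theorem cone_mem' (m : ℕ) {G : ℂ → (Matrix n n (Matrix (Fin m) (Fin m) A))ˣ} (hG : PU G)
    (h0 : ∃ g, G 0 = mA (scalarHom m A) g) (h1 : ∃ g, G 1 = mA (scalarHom m A) g) (i j : n) :
    (fun t => (G t)⁻¹.val i j) ∈ Cone m A := by
  obtain ⟨g0, h0⟩ := h0
  obtain ⟨g1, h1⟩ := h1
  exact cone_mem m hG.inv ⟨g0⁻¹, by rw [h0, map_inv]⟩ ⟨g1⁻¹, by rw [h1, map_inv]⟩ i j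

/-- The invertible matrix over `Cone m A` given by a family. -/
noncomputable def coneU (m : ℕ) (G : ℂ → (Matrix n n (Matrix (Fin m) (Fin m) A))ˣ) (hG : PU G)
    (h0 : ∃ g, G 0 = mA (scalarHom m A) g) (h1 : ∃ g, G 1 = mA (scalarHom m A) g) :
    (Matrix n n (Cone m A))ˣ :=
  mkU (Cone m A) G (cone_mem m hG h0 h1) (cone_mem' m hG h0 h1)

theorem coneU_ev (m : ℕ) (G : ℂ → (Matrix n n (Matrix (Fin m) (Fin m) A))ˣ) (hG : PU G)
    (h0 : ∃ g, G 0 = mA (scalarHom m A) g) (h1 : ∃ g, G 1 = mA (scalarHom m A) g) (t : ℂ) :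
    mA (evW (Cone m A) t) (coneU m G hG h0 h1) = G t := mA_mkU _ _ _ _ _

theorem loop_mem {G : ℂ → (Matrix n n A)ˣ} (hG : PU G) (h : G 0 = G 1) (i j : n) :
    (fun t => (G t).val i j) ∈ Loop A :=
  ⟨hG.v i j, by change (G 0).val i j = (G 1).val i j; rw [h]⟩

theorem loop_mem' {G : ℂ → (Matrix n n A)ˣ} (hG : PU G) (h : G 0 = G 1) (i j : n) :
    (fun t => (G t)⁻¹.val i j) ∈ Loop A :=
  ⟨hG.w i j, by change (G 0)⁻¹.val i j = (G 1)⁻¹.val i j; rw [h]⟩

/-- The invertible matrix over `Loop A` given by a family. -/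
noncomputable def loopU (G : ℂ → (Matrix n n A)ˣ) (hG : PU G) (h : G 0 = G 1) :
    (Matrix n n (Loop A))ˣ :=
  mkU (Loop A) G (loop_mem hG h) (loop_mem' hG h)

theorem loopU_ev (G : ℂ → (Matrix n n A)ˣ) (hG : PU G) (h : G 0 = G 1) (t : ℂ) :
    mA (evW (Loop A) t) (loopU G hG h) = G t := mA_mkU _ _ _ _ _

/-- homotopies of loops -/
theorem kv_loop_hom (F : ℂ → ℂ → (Matrix n n A)ˣ) (hF : PU2 F) (hW : ∀ v, F v 0 = F v 1)
    (U V : (Matrix n n (Loop A))ˣ) (hU : ∀ t, mA (evW (Loop A) t) U = F 0 t)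
    (hV : ∀ t, mA (evW (Loop A) t) V = F 1 t) : kv U = kv V :=
  kv_homotopy (Loop A) F hF.v hF.w (fun v i j => loop_mem (hF.at_fst v) (hW v) i j)
    (fun v i j => loop_mem' (hF.at_fst v) (hW v) i j) U V hU hV

/-- homotopies of cones -/
theorem kv_cone_hom (m : ℕ) (F : ℂ → ℂ → (Matrix n n (Matrix (Fin m) (Fin m) A))ˣ) (hF : PU2 F)
    (h0 : ∀ v, ∃ g, F v 0 = mA (scalarHom m A) g) (h1 : ∀ v, ∃ g, F v 1 = mA (scalarHom m A) g)
    (U V : (Matrix n n (Cone m A))ˣ) (hU : ∀ t, mA (evW (Cone m A) t) U = F 0 t)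
    (hV : ∀ t, mA (evW (Cone m A) t) V = F 1 t) : kv U = kv V :=
  kv_homotopy (Cone m A) F hF.v hF.w
    (fun v i j => cone_mem m (hF.at_fst v) (h0 v) (h1 v) i j)
    (fun v i j => cone_mem' m (hF.at_fst v) (h0 v) (h1 v) i j) U V hU hV

/-- conjugation by a constant matrix -/
theorem kv_cone_conj (m : ℕ) (u : (Matrix n n (Matrix (Fin m) (Fin m) A))ˣ)
    (U V : (Matrix n n (Cone m A))ˣ)
    (h0 : mA (evW (Cone m A) 0) U = 1) (h1 : mA (evW (Cone m A) 1) U = 1)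
    (hV : ∀ t, mA (evW (Cone m A) t) V = u * mA (evW (Cone m A) t) U * u⁻¹) : kv U = kv V := by
  obtain ⟨P, hP0, hP1⟩ := pathTo_wh u
  rw [← kv_bl_one (m := n) U, ← kv_bl_one (m := n) V]
  let p : ℂ → (Matrix (n ⊕ n) (n ⊕ n) (Matrix (Fin m) (Fin m) A))ˣ := fun s => mA (evP _ s) P
  have hp : PU p := PU.ofW le_rfl P
  refine kv_cone_hom m (fun v t => p v * bl (mA (evW (Cone m A) t) U) 1 * (p v)⁻¹)
    (((hp.subst2 poly2_fst).mul (PU2.ofP ((PU.ofW (cone_le m A) U).bl (PU.const 1)))).mul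
      (hp.subst2 poly2_fst).inv) (fun v => ⟨1, ?_⟩) (fun v => ⟨1, ?_⟩) _ _ (fun t => ?_)
      (fun t => ?_)
  · rw [h0, bl_one, mul_one, mul_inv_cancel, map_one]
  · rw [h1, bl_one, mul_one, mul_inv_cancel, map_one]
  · have : p 0 = 1 := hP0
    rw [this, one_mul, inv_one, mul_one, mA_bl, map_one]
  · have : p 1 = bl u u⁻¹ := hP1
    rw [this, bl_inv, ← bl_mul, ← bl_mul, mA_bl, map_one, hV, mul_one, inv_inv, inv_mul_cancel]

end Pool.Agent.Lib.MP_e7fbd4_ag
end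

section

/-! # W07 : commutators joined to 1 -/

set_option autoImplicit false
set_option linter.unusedSectionVars false
set_option linter.unusedVariables false

namespace Pool.Agent.Lib.MP_e7fbd4_ag

open Matrix Pool.Agent.Lib.MP_c052b4_al

variable {A B : Type} [Ring A] [Algebra ℂ A] [Ring B] [Algebra ℂ B]
  {n m l : Type} [Fintype n] [Fintype m] [Fintype l] [DecidableEq n] [DecidableEq m] [DecidableEq l]

/-- Commutators are joined to `1` after stabilization: `diag(g h g⁻¹ h⁻¹, 1)` is the product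
`diag(g, g⁻¹) diag(h, h⁻¹) diag((h g)⁻¹, h g)`. -/
theorem pathTo_comm (g h : (Matrix n n A)ˣ) :
    PathTo 1 (bl (g * h * g⁻¹ * h⁻¹) (1 : (Matrix n n A)ˣ)) := by
  have e : bl (g * h * g⁻¹ * h⁻¹) (1 : (Matrix n n A)ˣ) =
      bl g g⁻¹ * bl h h⁻¹ * bl (h * g)⁻¹ (h * g)⁻¹⁻¹ := by
    rw [← bl_mul, ← bl_mul]
    congr 1
    · group
    · group
  rw [e]
  have h1 := ((pathTo_wh g).mul (pathTo_wh h)).mul (pathTo_wh (h * g)⁻¹)
  simpa only [mul_one] using h1

end Pool.Agent.Lib.MP_e7fbd4_ag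
end

section

/-! # W08 : trivial class in K_1 implies joined to 1 stably -/

set_option autoImplicit false
set_option linter.unusedSectionVars false
set_option linter.unusedVariables false

namespace Pool.Agent.Lib.MP_e7fbd4_ag

open Matrix Pool.Agent.Lib.MP_c052b4_al

variable {A B : Type} [Ring A] [Algebra ℂ A] [Ring B] [Algebra ℂ B]
  {n m l : Type} [Fintype n] [Fintype m] [Fintype l] [DecidableEq n] [DecidableEq m] [DecidableEq l]

theorem W08_bl_rU_rU {S : Type} [Ring S] {n' m' : Type} [Fintype n'] [Fintype m'] [DecidableEq n']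
    [DecidableEq m'] (σ : n ≃ n') (τ : m ≃ m') (g : (Matrix n n S)ˣ) (h : (Matrix m m S)ˣ) :
    bl (rU σ g) (rU τ h) = rU (Equiv.sumCongr σ τ) (bl g h) := by
  apply Units.ext
  rw [coe_rU, coe_bl, coe_bl, coe_rU, coe_rU]
  ext i j
  rcases i with i | i <;> rcases j with j | j <;> simp

theorem W08_bl_assoc {S : Type} [Ring S] (g : (Matrix n n S)ˣ) (h : (Matrix m m S)ˣ)
    (k : (Matrix l l S)ˣ) :
    bl (bl g h) k = rU (Equiv.sumAssoc n m l).symm (bl g (bl h k)) := by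
  apply Units.ext
  rw [coe_rU, coe_bl, coe_bl, coe_bl, coe_bl]
  ext i j
  rcases i with (i | i) | i <;> rcases j with (j | j) | j <;> simp

theorem W08_rU_refl {S : Type} [Ring S] (g : (Matrix n n S)ˣ) : rU (Equiv.refl n) g = g :=
  Units.ext rfl

/-- reindexing and stabilizing a stabilization -/
theorem W08_bl_rU {S : Type} [Ring S] {p q : ℕ} (σ : n ⊕ Fin p ≃ m) (g : (Matrix n n S)ˣ) :
    bl (rU σ (bl g (1 : (Matrix (Fin p) (Fin p) S)ˣ))) (1 : (Matrix (Fin q) (Fin q) S)ˣ) =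
      rU ((Equiv.sumCongr (Equiv.refl n) finSumFinEquiv.symm).trans
        ((Equiv.sumAssoc n (Fin p) (Fin q)).symm.trans (Equiv.sumCongr σ (Equiv.refl (Fin q)))))
        (bl g (1 : (Matrix (Fin (p + q)) (Fin (p + q)) S)ˣ)) := by
  rw [← rU_rU, ← rU_rU, ← W08_bl_rU_rU, rU_one, W08_rU_refl]
  conv_lhs => rw [← W08_rU_refl (1 : (Matrix (Fin q) (Fin q) S)ˣ)]
  rw [W08_bl_rU_rU, W08_bl_assoc, bl_one]

theorem W08_unrU (σ : n ≃ m) {g : (Matrix n n A)ˣ} (h : PathTo 1 (rU σ g)) : PathTo 1 g := by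
  have h1 := h.rU σ.symm
  rw [rU_one, rU_rU, Equiv.self_trans_symm, W08_rU_refl] at h1
  exact h1

theorem W08_tr (k K : ℕ) (hle : k ≤ K) (g : (Matrix (Fin k) (Fin k) A)ˣ) :
    ∃ (p : ℕ) (σ : Fin k ⊕ Fin p ≃ Fin K), Omega.tr (stabHom A) k K hle g =
      rU σ (bl g (1 : (Matrix (Fin p) (Fin p) A)ˣ)) := by
  induction K, hle using Nat.le_induction with
  | base =>
    refine ⟨0, Equiv.sumEmpty (Fin k) (Fin 0), ?_⟩
    rw [Omega.tr_self]
    apply Units.ext
    rw [coe_rU, coe_bl]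
    ext i j
    simp
  | succ K hK ih =>
    obtain ⟨p, σ, hσ⟩ := ih
    refine ⟨p + 1, ((Equiv.sumCongr (Equiv.refl (Fin k)) finSumFinEquiv.symm).trans
      ((Equiv.sumAssoc (Fin k) (Fin p) (Fin 1)).symm.trans
        (Equiv.sumCongr σ (Equiv.refl (Fin 1))))).trans finSumFinEquiv, ?_⟩
    rw [Omega.tr_succ _ _ K hK, MonoidHom.comp_apply, hσ]
    change rU finSumFinEquiv (bl _ (1 : (Matrix (Fin 1) (Fin 1) A)ˣ)) = _
    rw [W08_bl_rU, rU_rU]

theorem W08_comm {g : (Matrix n n A)ˣ} (hg : g ∈ commutator (Matrix n n A)ˣ) :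
    PathTo 1 (bl g (1 : (Matrix n n A)ˣ)) := by
  rw [commutator_eq_closure] at hg
  induction hg using Subgroup.closure_induction with
  | mem g hg =>
    obtain ⟨x, y, rfl⟩ := hg
    exact pathTo_comm x y
  | one => rw [bl_one]; exact PathTo.refl 1
  | mul x y _ _ hx hy =>
    have h : bl (x * y) (1 : (Matrix n n A)ˣ) = bl x 1 * bl y 1 := by rw [← bl_mul, mul_one]
    rw [h]
    simpa only [mul_one] using hx.mul hy
  | inv x _ hx =>
    have h : bl x⁻¹ (1 : (Matrix n n A)ˣ) = (bl x 1)⁻¹ := by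
      rw [eq_inv_iff_mul_eq_one, ← bl_mul, inv_mul_cancel, mul_one, bl_one]
    rw [h]
    simpa only [inv_one] using hx.inv

/-- A matrix with trivial class in `K₁` is joined to `1` after stabilization. (Its image in
`GLinf A` is a product of commutators.  The elements of `GLinf A` represented by some
`g ∈ GL_k(A)` with `PathTo 1 g` form a subgroup; it contains all commutators by `pathTo_comm`;
and if `toGL A k g = toGL A l h` then `g` and `h` agree after stabilization.) -/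
theorem pathTo_of_k1 {k : ℕ} (g : (Matrix (Fin k) (Fin k) A)ˣ) (h : k1F g = 0) :
    ∃ p : ℕ, PathTo 1 (bl g (1 : (Matrix (Fin p) (Fin p) A)ˣ)) := by
  have h0 : kf k g = 0 := by rw [← k1_fin]; exact h
  obtain ⟨k0, hk0⟩ := Omega.exists_commutator _ (commutator_of_kf h0)
  obtain ⟨y, hy, hyA⟩ := hk0 (max k0 k) (le_max_left _ _)
  have hle : k ≤ max k0 k := le_max_right _ _
  generalize max k0 k = K at y hy hyA hle
  have h2 : Omega.toLim (stabHom A) K y = Omega.toLim (stabHom A) K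
      (Omega.tr (stabHom A) k K hle g) := by
    rw [hyA, Omega.toLim_tr]
  have h3 := Omega.toLim_injective (f := stabHom A) stabHom_injective K h2
  have h4 := W08_comm hy
  rw [h3] at h4
  obtain ⟨p, σ, hσ⟩ := W08_tr k K hle g
  rw [hσ, W08_bl_rU] at h4
  exact ⟨_, W08_unrU _ h4⟩

end Pool.Agent.Lib.MP_e7fbd4_ag
end

section

/-! # W09 : trivial class in KV_1 implies joined to 1 stably -/

set_option autoImplicit false
set_option linter.unusedSectionVars false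
set_option linter.unusedVariables false

namespace Pool.Agent.Lib.MP_e7fbd4_ag

open Matrix Pool.Agent.Lib.MP_c052b4_al

variable {A B : Type} [Ring A] [Algebra ℂ A] [Ring B] [Algebra ℂ B]
  {n m l : Type} [Fintype n] [Fintype m] [Fintype l] [DecidableEq n] [DecidableEq m] [DecidableEq l]

/-- The same for `KV₁`: if `k1 g = k1 H(1) - k1 H(0)` with `H ∈ GL_p(A[t])`, then
`diag(g, (H(1) H(0)⁻¹)⁻¹)` has trivial class in `K₁`, so it is joined to `1` after stabilization,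
and `H(t) H(0)⁻¹` joins `1` to `H(1) H(0)⁻¹`. -/
theorem pathTo_of_kv {k : ℕ} (g : (Matrix (Fin k) (Fin k) A)ˣ) (h : kv g = 0) :
    ∃ p : ℕ, PathTo 1 (bl g (1 : (Matrix (Fin p) (Fin p) A)ˣ)) := by
  have h1 : toKV A (k1F g) = 0 := h
  rw [toKV_eq_zero_iff] at h1
  obtain ⟨y, hy⟩ := h1
  obtain ⟨p, H, hH⟩ := exists_k1 (S := Poly A) y
  have hH' : k1F H = y := hH
  rw [← hH', map_k1F, map_k1F] at hy
  set a := mA (evP A 1) H with ha
  set b := mA (evP A 0) H with hb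
  have h2 : k1F (rU finSumFinEquiv (bl g (a * b⁻¹)⁻¹)) = 0 := by
    have e1 : k1F (rU finSumFinEquiv (bl g (a * b⁻¹)⁻¹)) = k1F (bl g (a * b⁻¹)⁻¹) := k1_rU _ _
    have e2 : k1F (bl g (a * b⁻¹)⁻¹) = k1F g + k1F (a * b⁻¹)⁻¹ := k1_bl _ _
    have e3 : k1F (a * b⁻¹)⁻¹ = - k1F (a * b⁻¹) := k1_inv _
    have e4 : k1F (b⁻¹) = - k1F b := k1_inv _
    rw [e1, e2, e3, k1F_mul, e4, ← hy]
    abel
  obtain ⟨P, hP⟩ := pathTo_of_k1 _ h2
  have h3 : PathTo 1 (a * b⁻¹) := by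
    have h4 : PathTo b a := ⟨H, rfl, rfl⟩
    have h5 := h4.mul (PathTo.refl b⁻¹)
    rwa [mul_inv_cancel] at h5
  have h6 : PathTo 1 (bl (rU finSumFinEquiv (bl (1 : (Matrix (Fin k) (Fin k) A)ˣ) (a * b⁻¹)))
      (1 : (Matrix (Fin P) (Fin P) A)ˣ)) := by
    have h7 := (((PathTo.refl (1 : (Matrix (Fin k) (Fin k) A)ˣ)).bl h3).rU finSumFinEquiv).bl
      (PathTo.refl (1 : (Matrix (Fin P) (Fin P) A)ˣ))
    rwa [bl_one, rU_one, bl_one] at h7
  have h8 := hP.mul h6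
  rw [mul_one, ← bl_mul, ← rU_mul, ← bl_mul, mul_one, mul_one, inv_mul_cancel, W08_bl_rU] at h8
  exact ⟨_, W08_unrU _ h8⟩

end Pool.Agent.Lib.MP_e7fbd4_ag
end

section

/-! # Closure properties of functions and cubes of the two kinds -/

set_option autoImplicit false
set_option linter.unusedSectionVars false
set_option linter.unusedVariables false

namespace Pool.Agent.Lib.MP_e7fbd4_ag.O

open Pool.Agent.Lib.MP_c052b4_al

/-! This file collects the files `C1`, ..., `C10`. -/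

end Pool.Agent.Lib.MP_e7fbd4_ag.O
end

section

/-! # Homotopy is an equivalence relation -/

set_option autoImplicit false
set_option linter.unusedSectionVars false
set_option linter.unusedVariables false

namespace Pool.Agent.Lib.MP_e7fbd4_ag.O

open Pool.Agent.Lib.MP_c052b4_al

variable {A B C : Type} [Ring A] [Algebra ℂ A] [Ring B] [Algebra ℂ B] [Ring C] [Algebra ℂ C]
  {c : Kind} {m k l : ℕ}

/-- Multiply by constant homotopies: if `z ~ w` then `1 ~ z⁻¹ w`, `1 ~ w⁻¹ z`, `w ~ z`. -/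
theorem Homotopic.symm {z w : Pair c m k A} (h : Homotopic z w) : Homotopic w z := by
  have h1 := ((homotopic_refl w).mul h.inv).mul (homotopic_refl z)
  rwa [inv_mul_cancel_right, mul_inv_cancel, one_mul] at h1

theorem Homotopic.trans {z w v : Pair c m k A} (h : Homotopic z w) (h' : Homotopic w v) :
    Homotopic z v := by
  have h1 := (h.mul (homotopic_refl w⁻¹)).mul h'
  rwa [inv_mul_cancel_right, mul_inv_cancel, one_mul] at h1

theorem homotopic_equivalence : Equivalence (Homotopic (c := c) (m := m) (k := k) (A := A)) :=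
  ⟨homotopic_refl, Homotopic.symm, Homotopic.trans⟩

/-- The class of a pair. -/
def mkKG (z : Pair c m k A) : KG c m k A := Quot.mk _ z

theorem mkKG_eq_iff {z w : Pair c m k A} : mkKG z = mkKG w ↔ Homotopic z w :=
  ⟨fun h => (homotopic_equivalence.eqvGen_iff).mp (Quot.eqvGen_exact h), fun h => Quot.sound h⟩

theorem exists_mkKG (x : KG c m k A) : ∃ z : Pair c m k A, mkKG z = x := Quot.exists_rep x

end Pool.Agent.Lib.MP_e7fbd4_ag.O
end
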