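import Pool.Agent.Lib.MP_e7fbd4_ag.Mg.G001
import Pool.Agent.Lib.MP_e7fbd4_ag.Mg.G002
import Pool.Agent.Lib.MP_e7fbd4_ag.O.B1
import Pool.Agent.Lib.MP_e7fbd4_ag.Mg.G009
import Pool.Agent.Lib.MP_e7fbd4_ag.Mg.G003

section

/-!
# Interface between the parts of the proof (definitions only)
-/

set_option autoImplicit false
set_option linter.unusedVariables false

namespace Pool.Agent.Lib.MP_e7fbd4_ag

open Pool.Agent.Lib.MP_c052b4_al

/-! ### Laurent polynomials in several variables -/

/-- `ℂ[z_i^{±1}, i ∈ I]`. -/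
abbrev TZ (I : Type) : Type := MonoidAlgebra ℂ (Multiplicative (I → ℤ))

/-- The endomorphism of `ℂ[ℤ^I]` induced by an endomorphism (or homomorphism) of exponents. -/
noncomputable def tzMap {I J : Type} (f : (I → ℤ) →+ (J → ℤ)) : TZ I →ₐ[ℂ] TZ J :=
  MonoidAlgebra.mapDomainAlgHom ℂ ℂ (AddMonoidHom.toMultiplicative f)

/-- exponents: the `i`-th exponent is replaced by `0` -/
def kill {I : Type} [DecidableEq I] (i : I) : (I → ℤ) →+ (I → ℤ) where
  toFun v := Function.update v i 0
  map_zero' := by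
    funext j
    by_cases h : j = i
    · subst h; simp
    · simp [Function.update_of_ne h]
  map_add' v w := by
    funext j
    by_cases h : j = i
    · subst h; simp
    · simp [Function.update_of_ne h]

/-- `z_i ↦ 1`, `z_j ↦ z_j` for `j ≠ i`. -/
noncomputable def piZ {I : Type} [DecidableEq I] (i : I) : TZ I →ₐ[ℂ] TZ I := tzMap (kill i)

/-- permutation of the exponents: `z_i ↦ z_{σ i}` -/
def permExp {I : Type} (σ : Equiv.Perm I) : (I → ℤ) →+ (I → ℤ) where
  toFun v := fun j => v (σ.symm j)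
  map_zero' := rfl
  map_add' _ _ := rfl

/-- `z_i ↦ z_{σ i}` -/
noncomputable def permZ {I : Type} (σ : Equiv.Perm I) : TZ I →ₐ[ℂ] TZ I := tzMap (permExp σ)

/-- The reduced part of `F(ℂ[ℤ^I])`: the elements killed by all `z_i ↦ 1`. -/
def redZ (F : AlgFunctor) (I : Type) [DecidableEq I] : AddSubgroup (F.obj (TZ I)) where
  carrier := {x | ∀ i, F.map (piZ i) x = 0}
  zero_mem' := fun i => map_zero _
  add_mem' := fun {x y} hx hy i => by rw [map_add, hx i, hy i, add_zero]
  neg_mem' := fun {x} hx i => by rw [map_neg, hx i, neg_zero]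

/-! ### Exactness -/

/-- the value of `jHom f` at `t` -/
def jF (m : ℕ) [NeZero m] {A : Type} [Ring A] (f : ℂ → A) (t : ℂ) : Matrix (Fin m) (Fin m) A :=
  Matrix.diagonal (fun i : Fin m => if i = 0 then f t else f 0)

theorem jF_add (m : ℕ) [NeZero m] {A : Type} [Ring A] (f g : ℂ → A) (t : ℂ) :
    jF m (f + g) t = jF m f t + jF m g t := by
  unfold jF
  rw [Matrix.diagonal_add]
  congr 1
  funext i
  split_ifs <;> rfl

theorem jF_mul (m : ℕ) [NeZero m] {A : Type} [Ring A] (f g : ℂ → A) (t : ℂ) :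
    jF m (f * g) t = jF m f t * jF m g t := by
  unfold jF
  rw [Matrix.diagonal_mul_diagonal]
  congr 1
  funext i
  split_ifs <;> rfl

theorem jF_eq (m : ℕ) [NeZero m] {A : Type} [Ring A] [Algebra ℂ A] (f : ℂ → A) (t : ℂ) :
    jF m f t = scalarHom m A (f 0) + Matrix.single 0 0 1 * scalarHom m A (f t - f 0) := by
  ext i j
  change Matrix.diagonal (fun i : Fin m => if i = 0 then f t else f 0) i j =
    (Matrix.scalar (Fin m) (f 0)) i j +
    ((Matrix.single 0 0 1 : Matrix (Fin m) (Fin m) A) * Matrix.scalar (Fin m) (f t - f 0)) i j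
  rw [Matrix.scalar_apply, Matrix.scalar_apply, Matrix.mul_diagonal, Matrix.diagonal_apply,
    Matrix.diagonal_apply, Matrix.single_apply]
  by_cases h : i = j
  · subst h
    by_cases h0 : i = 0
    · subst h0; simp
    · have h0' : ¬ (0 = i) := fun h => h0 h.symm
      simp [h0, h0']
  · have h' : ¬ ((0 : Fin m) = i ∧ (0 : Fin m) = j) := fun ⟨h1, h2⟩ => h (h1.symm.trans h2)
    simp [h, h']

theorem jHom_mem_aux (m : ℕ) [NeZero m] {A : Type} [Ring A] [Algebra ℂ A] (f : Loop A) :
    jF m f.1 ∈ Cone m A := by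
  refine ⟨?_, ⟨f.1 0, ?_⟩, ⟨f.1 0, ?_⟩⟩
  · have h : jF m f.1 = (fun _ => scalarHom m A (f.1 0)) + (fun _ => Matrix.single 0 0 1) *
        ((fun t => scalarHom m A (f.1 t)) - fun _ => scalarHom m A (f.1 0)) := by
      funext t
      rw [jF_eq, map_sub]
      rfl
    rw [h]
    have h1 : (fun t => scalarHom m A (f.1 t)) ∈ Poly (Matrix (Fin m) (Fin m) A) :=
      comp_mem_poly (scalarHom m A) f.2.1
    have h2 : ((fun t => scalarHom m A (f.1 t)) - fun _ : ℂ => scalarHom m A (f.1 0)) ∈
        Poly (Matrix (Fin m) (Fin m) A) := Subalgebra.sub_mem _ h1 (const_mem_poly _)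
    exact (Poly _).add_mem (const_mem_poly _) ((Poly _).mul_mem (const_mem_poly _) h2)
  · rw [jF_eq, sub_self, map_zero, mul_zero, add_zero]
    rfl
  · rw [jF_eq, ← f.2.2, sub_self, map_zero, mul_zero, add_zero]
    rfl

/-- `f ↦ diag(f, f(0), ..., f(0))`. -/
noncomputable def jHom (m : ℕ) [NeZero m] (A : Type) [Ring A] [Algebra ℂ A] :
    Loop A →ₐ[ℂ] Cone m A where
  toFun f := ⟨jF m f.1, jHom_mem_aux m f⟩
  map_one' := Subtype.ext (funext fun t => by
    change Matrix.diagonal (fun i : Fin m => if i = 0 then (1 : A) else 1) = 1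
    simp)
  map_mul' f g := Subtype.ext (funext fun t => jF_mul m f.1 g.1 t)
  map_zero' := Subtype.ext (funext fun t => by
    change Matrix.diagonal (fun i : Fin m => if i = 0 then (0 : A) else 0) = 0
    simp)
  map_add' f g := Subtype.ext (funext fun t => jF_add m f.1 g.1 t)
  commutes' c := Subtype.ext (funext fun t => by
    ext i j
    change Matrix.diagonal (fun i : Fin m => if i = 0 then algebraMap ℂ A c else algebraMap ℂ A c)
      i j = algebraMap ℂ (Matrix (Fin m) (Fin m) A) c i j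
    rw [Matrix.algebraMap_matrix_apply, Matrix.diagonal_apply]
    split_ifs <;> rfl)

/-- (Ex3): exactness at `F(Cone m A)`. -/
def Ex3 (m : ℕ) [NeZero m] (F : AlgFunctor) : Prop :=
  ∀ (A : Type) [Ring A] [Algebra ℂ A] (z : F.obj (Cone m A)), F.map (coneEv0 m A) z = 0 →
    F.map (coneEv1 m A) z = 0 →
    ∃ x : F.obj (Loop A), F.map (loopOp.r A) x = 0 ∧ F.map (jHom m A) x = z

/-- (Ex4): exactness at `F(Loop A)`. -/
def Ex4 (m : ℕ) [NeZero m] (F : AlgFunctor) : Prop :=
  ∀ (A : Type) [Ring A] [Algebra ℂ A] (x : F.obj (Loop A)), F.map (loopOp.r A) x = 0 →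
    F.map (jHom m A) x = 0 → ∃ b : F.obj (Loop A), F.map (loopOp.r A) b = 0 ∧ x = m • b

/-! ### Matrices -/

/-- `diag(φ_w) : C → M_w(B)`. -/
noncomputable def diagHom {C B W : Type} [Ring C] [Algebra ℂ C] [Ring B] [Algebra ℂ B]
    [Fintype W] [DecidableEq W] (φ : W → (C →ₐ[ℂ] B)) : C →ₐ[ℂ] Matrix W W B where
  toFun c := Matrix.diagonal fun w => φ w c
  map_one' := by simp
  map_mul' c d := by simp
  map_zero' := by simp
  map_add' c d := by simp [Matrix.diagonal_add]
  commutes' c := by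
    ext i j
    rw [Matrix.algebraMap_matrix_apply, Matrix.diagonal_apply]
    split_ifs <;> simp

/-- `(b, c) ↦ diag(b, c, ..., c)`, with `b` at the place `w₀`. -/
noncomputable def kapM (B W : Type) [Ring B] [Algebra ℂ B] [Fintype W] [DecidableEq W] (w₀ : W) :
    B × B →ₐ[ℂ] Matrix W W B :=
  diagHom fun w => if w = w₀ then AlgHom.fst ℂ B B else AlgHom.snd ℂ B B

/-- The matrix property of a functor. -/
structure MatProp (F : AlgFunctor) : Prop where
  gen : ∀ (B W : Type) [Ring B] [Algebra ℂ B] [Fintype W] [DecidableEq W] (w₀ : W)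
    (x : F.obj (Matrix W W B)), ∃ z : F.obj (B × B), F.map (kapM B W w₀) z = x
  tr : ∀ (C B W : Type) [Ring C] [Algebra ℂ C] [Ring B] [Algebra ℂ B] [Fintype W]
    [DecidableEq W] (w₀ : W) (φ : W → (C →ₐ[ℂ] B)) (x : F.obj C) (z : F.obj (B × B)),
    F.map (diagHom φ) x = F.map (kapM B W w₀) z →
    ∑ w, F.map (φ w) x = F.map (AlgHom.fst ℂ B B) z +
      (Fintype.card W - 1) • F.map (AlgHom.snd ℂ B B) z

/-! ### The final interface -/

/-- (V1) -/
def V1 (m : ℕ) [NeZero m] : Prop :=
  ∀ (k N : ℕ), k + 3 ≤ N → ∀ x ∈ redZ (hK m k) (Fin N), x = 0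

/-- (V2) -/
def V2 (m : ℕ) [NeZero m] : Prop :=
  ∀ k : ℕ, ∃ u ∈ redZ (hK m k) (Fin (k + 2)),
    (∀ σ : Equiv.Perm (Fin (k + 2)), Odd (orderOf σ) → (hK m k).map (permZ σ) u = u) ∧
    ∀ c : ℕ, ¬ m ∣ c → c • u ≠ 0

/-- (W1) -/
def W1 : Prop := ∀ (k N : ℕ), k + 2 ≤ N → ∀ x ∈ redZ (KV k) (Fin N), x = 0

/-- (W2) -/
def W2 : Prop := ∀ k : ℕ, Nonempty (redZ (KV k) (Fin (k + 1)) ≃+ ℤ)

end Pool.Agent.Lib.MP_e7fbd4_ag
end

section

/-! # F01 : functors: basic lemmas -/

set_option autoImplicit false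
set_option linter.unusedSectionVars false
set_option linter.unusedVariables false

namespace Pool.Agent.Lib.MP_e7fbd4_ag

open Pool.Agent.Lib.MP_c052b4_al

/-- membership in `F.rel X` and projection to it -/
theorem rel_sub_mem (F : AlgFunctor) (X : AlgOp) (A : Type) [Ring A] [Algebra ℂ A]
    (x : F.obj (X.obj A)) : F.map (X.r A) (x - F.map (X.s A) (F.map (X.r A) x)) = 0 := by
  have h : F.map (X.r A) (F.map (X.s A) (F.map (X.r A) x)) = F.map (X.r A) x := by
    rw [← AddMonoidHom.comp_apply, ← F.map_comp, X.r_s, F.map_id, AddMonoidHom.id_apply]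
  rw [map_sub, h, sub_self]

theorem AlgFunctor.map_map (F : AlgFunctor) {A B C : Type} [Ring A] [Algebra ℂ A] [Ring B]
    [Algebra ℂ B] [Ring C] [Algebra ℂ C] (g : B →ₐ[ℂ] C) (f : A →ₐ[ℂ] B) (x : F.obj A) :
    F.map g (F.map f x) = F.map (g.comp f) x := by
  rw [F.map_comp]; rfl

theorem AlgFunctor.map_id' (F : AlgFunctor) {A : Type} [Ring A] [Algebra ℂ A] (x : F.obj A) :
    F.map (AlgHom.id ℂ A) x = x := by
  rw [F.map_id]; rfl

/-- an algebra isomorphism induces an isomorphism -/
noncomputable def AlgFunctor.mapEquiv (F : AlgFunctor) {A B : Type} [Ring A] [Algebra ℂ A]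
    [Ring B] [Algebra ℂ B] (e : A ≃ₐ[ℂ] B) : F.obj A ≃+ F.obj B where
  toFun := F.map e.toAlgHom
  invFun := F.map e.symm.toAlgHom
  left_inv x := by
    rw [F.map_map]
    have : e.symm.toAlgHom.comp e.toAlgHom = AlgHom.id ℂ A := AlgHom.ext fun a => by simp
    rw [this, F.map_id']
  right_inv x := by
    rw [F.map_map]
    have : e.toAlgHom.comp e.symm.toAlgHom = AlgHom.id ℂ B := AlgHom.ext fun a => by simp
    rw [this, F.map_id']
  map_add' x y := map_add _ _ _

/-- the underlying element of `F(X A)` of an element of `(F.rel X)(A)` -/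
noncomputable def relVal (F : AlgFunctor) (X : AlgOp) (A : Type) [Ring A] [Algebra ℂ A] :
    (F.rel X).obj A →+ F.obj (X.obj A) := (F.map (X.r A)).ker.subtype

theorem relVal_injective (F : AlgFunctor) (X : AlgOp) (A : Type) [Ring A] [Algebra ℂ A] :
    Function.Injective (relVal F X A) := Subtype.val_injective

theorem relVal_ker (F : AlgFunctor) (X : AlgOp) (A : Type) [Ring A] [Algebra ℂ A]
    (x : (F.rel X).obj A) : F.map (X.r A) (relVal F X A x) = 0 := x.2

theorem exists_relVal (F : AlgFunctor) (X : AlgOp) (A : Type) [Ring A] [Algebra ℂ A]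
    {y : F.obj (X.obj A)} (hy : F.map (X.r A) y = 0) : ∃ x, relVal F X A x = y := ⟨⟨y, hy⟩, rfl⟩

theorem relVal_map (F : AlgFunctor) (X : AlgOp) {A B : Type} [Ring A] [Algebra ℂ A] [Ring B]
    [Algebra ℂ B] (f : A →ₐ[ℂ] B) (x : (F.rel X).obj A) :
    relVal F X B ((F.rel X).map f x) = F.map (X.map f) (relVal F X A x) := rfl


/-- A class of algebras. -/
abbrev AlgClass : Type 1 := (A : Type) → [Ring A] → [Algebra ℂ A] → Prop

/-- A natural isomorphism between the restrictions of two functors to a class of algebras. -/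
structure NatIsoOn (P : AlgClass) (F G : AlgFunctor) where
  /-- the isomorphisms -/
  e : (A : Type) → [Ring A] → [Algebra ℂ A] → P A → (F.obj A ≃+ G.obj A)
  nat : ∀ {A B : Type} [Ring A] [Algebra ℂ A] [Ring B] [Algebra ℂ B] (hA : P A) (hB : P B)
    (f : A →ₐ[ℂ] B) (x : F.obj A), G.map f (e A hA x) = e B hB (F.map f x)

end Pool.Agent.Lib.MP_e7fbd4_ag
end

section

/-! # S01 : Loop (Loop A): the flip of the two variables -/

set_option autoImplicit false
set_option linter.unusedSectionVars false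
set_option linter.unusedVariables false

namespace Pool.Agent.Lib.MP_e7fbd4_ag

open Matrix Pool.Agent.Lib.MP_c052b4_al

variable {A B : Type} [Ring A] [Algebra ℂ A] [Ring B] [Algebra ℂ B]

/-- The flip `f(s)(t) ↦ f(t)(s)` on `Loop (Loop A)`.  (A function `f ∈ Loop (Loop A)` is a
polynomial function of two variables by `poly2_of_W`; for fixed `t` the function `s ↦ f(s)(t)` is
in `Loop A`; conclude by `poly2_subst` and `poly2_toW`.) -/
theorem exists_flip (A : Type) [Ring A] [Algebra ℂ A] :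
    ∃ e : Loop (Loop A) ≃ₐ[ℂ] Loop (Loop A), ∀ f s t, ((e f).1 s).1 t = (f.1 t).1 s := by
  have key : ∀ f : Loop (Loop A), ∃ g : Loop (Loop A), ∀ s t, (g.1 s).1 t = (f.1 t).1 s := by
    intro f
    have h1 : (fun v t => (f.1 v).1 t) ∈ Poly2 A := poly2_of_W (W := Loop A) (fun x hx => hx.1) f.2.1
    have h2 : (fun v t => (f.1 t).1 v) ∈ Poly2 A := poly2_subst h1 poly2_snd poly2_fst
    have h3 : ∀ v, (fun t => (f.1 t).1 v) ∈ Loop A := by
      intro v
      refine ⟨poly2_curve h1 poly_id (const_mem_poly v), ?_⟩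
      change (f.1 0).1 v = (f.1 1).1 v
      rw [f.2.2]
    refine ⟨⟨fun v => ⟨fun t => (f.1 t).1 v, h3 v⟩, poly2_toW h2 h3, ?_⟩, fun s t => rfl⟩
    refine Subtype.ext (funext fun t => ?_)
    exact (f.1 t).2.2
  choose φ hφ using key
  have ext2 : ∀ f g : Loop (Loop A), (∀ s t, (f.1 s).1 t = (g.1 s).1 t) → f = g :=
    fun f g h => Subtype.ext (funext fun s => Subtype.ext (funext fun t => h s t))
  refine ⟨{ toFun := φ, invFun := φ, left_inv := ?_, right_inv := ?_, map_mul' := ?_,
            map_add' := ?_, commutes' := ?_ }, hφ⟩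
  · intro f
    exact ext2 _ _ fun s t => by rw [hφ, hφ]
  · intro f
    exact ext2 _ _ fun s t => by rw [hφ, hφ]
  · intro f g
    refine ext2 _ _ fun s t => ?_
    rw [hφ]
    change (f.1 t).1 s * (g.1 t).1 s = ((φ f).1 s).1 t * ((φ g).1 s).1 t
    rw [hφ, hφ]
  · intro f g
    refine ext2 _ _ fun s t => ?_
    rw [hφ]
    change (f.1 t).1 s + (g.1 t).1 s = ((φ f).1 s).1 t + ((φ g).1 s).1 t
    rw [hφ, hφ]
  · intro c
    refine ext2 _ _ fun s t => ?_
    rw [hφ]
    rfl

/-- The flip of the two variables. -/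
noncomputable def flipE (A : Type) [Ring A] [Algebra ℂ A] : Loop (Loop A) ≃ₐ[ℂ] Loop (Loop A) :=
  (exists_flip A).choose

theorem flipE_apply (f : Loop (Loop A)) (s t : ℂ) : ((flipE A f).1 s).1 t = (f.1 t).1 s :=
  (exists_flip A).choose_spec f s t

end Pool.Agent.Lib.MP_e7fbd4_ag
end

section

/-! # S03 : Cone m (Loop A) = Loop (Cone m A) -/

set_option autoImplicit false
set_option linter.unusedSectionVars false
set_option linter.unusedVariables false

namespace Pool.Agent.Lib.MP_e7fbd4_ag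

open Matrix Pool.Agent.Lib.MP_c052b4_al

variable {A B : Type} [Ring A] [Algebra ℂ A] [Ring B] [Algebra ℂ B]

/-- `Cone m (Loop A) ≃ Loop (Cone m A)`, `(f(t))ᵢⱼ(s) ↦ (f(s))(t)ᵢⱼ`. -/
theorem exists_cl (m : ℕ) (A : Type) [Ring A] [Algebra ℂ A] :
    ∃ e : Cone m (Loop A) ≃ₐ[ℂ] Loop (Cone m A),
      ∀ f s t i j, ((e f).1 s).1 t i j = (f.1 t i j).1 s := by
  have key : ∀ f : Cone m (Loop A), ∃ g : Loop (Cone m A),
      ∀ s t i j, (g.1 s).1 t i j = (f.1 t i j).1 s := by
    intro f
    have h0 : ∀ i j, (fun t => f.1 t i j) ∈ Poly (Loop A) := poly_matrix_iff.mp f.2.1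
    have h1 : ∀ i j, (fun v t => (f.1 v i j).1 t) ∈ Poly2 A := fun i j =>
      poly2_of_W (W := Loop A) (fun x hx => hx.1) (h0 i j)
    have h2 : (fun v t => (Matrix.of fun i j => (f.1 t i j).1 v : Matrix (Fin m) (Fin m) A)) ∈
        Poly2 (Matrix (Fin m) (Fin m) A) :=
      poly2_matrix_iff.mpr fun i j => poly2_subst (h1 i j) poly2_snd poly2_fst
    have h3 : ∀ v, (fun t => (Matrix.of fun i j => (f.1 t i j).1 v : Matrix (Fin m) (Fin m) A)) ∈
        Cone m A := by
      intro v
      refine ⟨poly_matrix_iff.mpr fun i j => poly2_curve (h1 i j) poly_id (const_mem_poly v),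
        ?_, ?_⟩
      · obtain ⟨a, ha⟩ := f.2.2.1
        refine ⟨a.1 v, ?_⟩
        ext i j
        change (f.1 0 i j).1 v = _
        rw [ha, Matrix.scalar_apply, Matrix.scalar_apply, Matrix.diagonal_apply,
          Matrix.diagonal_apply]
        split_ifs <;> rfl
      · obtain ⟨a, ha⟩ := f.2.2.2
        refine ⟨a.1 v, ?_⟩
        ext i j
        change (f.1 1 i j).1 v = _
        rw [ha, Matrix.scalar_apply, Matrix.scalar_apply, Matrix.diagonal_apply,
          Matrix.diagonal_apply]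
        split_ifs <;> rfl
    refine ⟨⟨fun v => ⟨_, h3 v⟩, poly2_toW h2 h3, ?_⟩, fun s t i j => rfl⟩
    refine Subtype.ext (funext fun t => ?_)
    ext i j
    exact (f.1 t i j).2.2
  have key' : ∀ g : Loop (Cone m A), ∃ f : Cone m (Loop A),
      ∀ s t i j, (f.1 t i j).1 s = (g.1 s).1 t i j := by
    intro g
    have h1 : (fun v t => (g.1 v).1 t) ∈ Poly2 (Matrix (Fin m) (Fin m) A) :=
      poly2_of_W (W := Cone m A) (fun x hx => hx.1) g.2.1
    have h1' : ∀ i j, (fun v t => (g.1 v).1 t i j) ∈ Poly2 A := poly2_matrix_iff.mp h1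
    have h2 : ∀ i j, (fun t v => (g.1 v).1 t i j) ∈ Poly2 A := fun i j =>
      poly2_subst (h1' i j) poly2_snd poly2_fst
    have h3 : ∀ i j t, (fun v => (g.1 v).1 t i j) ∈ Loop A := by
      intro i j t
      refine ⟨poly2_curve (h1' i j) poly_id (const_mem_poly t), ?_⟩
      change (g.1 0).1 t i j = (g.1 1).1 t i j
      rw [g.2.2]
    have hsc : ∀ t₀ : ℂ, (∀ s, ∃ a : A, (g.1 s).1 t₀ = Matrix.scalar (Fin m) a) →
        ∃ a : Loop A, (Matrix.of fun i j => (⟨_, h3 i j t₀⟩ : Loop A)) =
          Matrix.scalar (Fin m) a := by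
      intro t₀ ht
      rcases Nat.eq_zero_or_pos m with hm | hm
      · refine ⟨0, ?_⟩
        ext i j
        subst hm
        exact i.elim0
      · refine ⟨⟨_, h3 ⟨0, hm⟩ ⟨0, hm⟩ t₀⟩, ?_⟩
        refine Matrix.ext fun i j => Subtype.ext (funext fun s => ?_)
        obtain ⟨a, ha⟩ := ht s
        change (g.1 s).1 t₀ i j = _
        rw [Matrix.scalar_apply, Matrix.diagonal_apply, ha]
        by_cases hij : i = j
        · rw [if_pos hij]
          change _ = (g.1 s).1 t₀ _ _
          rw [ha, hij]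
          simp
        · rw [if_neg hij]
          change _ = (0 : A)
          rw [Matrix.scalar_apply, Matrix.diagonal_apply_ne _ hij]
    refine ⟨⟨fun t => Matrix.of fun i j => (⟨_, h3 i j t⟩ : Loop A),
      poly_matrix_iff.mpr fun i j => poly2_toW (h2 i j) (h3 i j), hsc 0 fun s => (g.1 s).2.2.1,
      hsc 1 fun s => (g.1 s).2.2.2⟩, fun s t i j => rfl⟩
  choose φ hφ using key
  choose ψ hψ using key'
  have ext2 : ∀ f g : Loop (Cone m A), (∀ s t i j, (f.1 s).1 t i j = (g.1 s).1 t i j) → f = g :=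
    fun f g h => Subtype.ext (funext fun s => Subtype.ext (funext fun t =>
      Matrix.ext fun i j => h s t i j))
  have ext3 : ∀ f g : Cone m (Loop A), (∀ s t i j, (f.1 t i j).1 s = (g.1 t i j).1 s) → f = g :=
    fun f g h => Subtype.ext (funext fun t => Matrix.ext fun i j =>
      Subtype.ext (funext fun s => h s t i j))
  refine ⟨{ toFun := φ, invFun := ψ, left_inv := ?_, right_inv := ?_, map_mul' := ?_,
            map_add' := ?_, commutes' := ?_ }, hφ⟩
  · intro f
    exact ext3 _ _ fun s t i j => by rw [hψ, hφ]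
  · intro f
    exact ext2 _ _ fun s t i j => by rw [hφ, hψ]
  · intro f g
    refine ext2 _ _ fun s t i j => ?_
    rw [hφ]
    change ((f.1 t * g.1 t) i j).1 s = (((φ f).1 s).1 t * ((φ g).1 s).1 t) i j
    rw [Matrix.mul_apply, Matrix.mul_apply, AddSubmonoidClass.coe_finsetSum, Finset.sum_apply]
    refine Finset.sum_congr rfl fun k _ => ?_
    rw [hφ, hφ]
    rfl
  · intro f g
    refine ext2 _ _ fun s t i j => ?_
    rw [hφ]
    change (f.1 t i j).1 s + (g.1 t i j).1 s = ((φ f).1 s).1 t i j + ((φ g).1 s).1 t i j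
    rw [hφ, hφ]
  · intro c
    refine ext2 _ _ fun s t i j => ?_
    rw [hφ]
    change ((algebraMap ℂ (Matrix (Fin m) (Fin m) (Loop A)) c) i j).1 s =
      (algebraMap ℂ (Matrix (Fin m) (Fin m) A) c) i j
    rw [Matrix.algebraMap_matrix_apply, Matrix.algebraMap_matrix_apply]
    split_ifs <;> rfl

/-- `Cone m (Loop A) ≃ Loop (Cone m A)` -/
noncomputable def clE (m : ℕ) (A : Type) [Ring A] [Algebra ℂ A] :
    Cone m (Loop A) ≃ₐ[ℂ] Loop (Cone m A) := (exists_cl m A).choose

theorem clE_apply (m : ℕ) (f : Cone m (Loop A)) (s t : ℂ) (i j : Fin m) :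
    ((clE m A f).1 s).1 t i j = (f.1 t i j).1 s := (exists_cl m A).choose_spec f s t i j

end Pool.Agent.Lib.MP_e7fbd4_ag
end

section

/-!
# The reduced parts of the groups with coefficients (V1, V2)
-/

set_option autoImplicit false
set_option linter.unusedVariables false

namespace Pool.Agent.Lib.MP_e7fbd4_ag

open Pool.Agent.Lib.MP_c052b4_al

theorem mapmap (F : AlgFunctor) {A B C : Type} [Ring A] [Algebra ℂ A] [Ring B]
    [Algebra ℂ B] [Ring C] [Algebra ℂ C] (g : B →ₐ[ℂ] C) (f : A →ₐ[ℂ] B) (x : F.obj A) :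
    F.map g (F.map f x) = F.map (g.comp f) x := by
  rw [F.map_comp]; rfl

theorem mapid (F : AlgFunctor) {A : Type} [Ring A] [Algebra ℂ A] (x : F.obj A) :
    F.map (AlgHom.id ℂ A) x = x := by
  rw [F.map_id]; rfl

/-- the underlying element of `F(X A)` of an element of `(F.rel X)(A)` -/
noncomputable def rVal (F : AlgFunctor) (X : AlgOp) (A : Type) [Ring A] [Algebra ℂ A] :
    (F.rel X).obj A →+ F.obj (X.obj A) := (F.map (X.r A)).ker.subtype

theorem rVal_inj (F : AlgFunctor) (X : AlgOp) {A : Type} [Ring A] [Algebra ℂ A]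
    {x y : (F.rel X).obj A} (h : rVal F X A x = rVal F X A y) : x = y := Subtype.ext h

theorem rVal_ker (F : AlgFunctor) (X : AlgOp) {A : Type} [Ring A] [Algebra ℂ A]
    (x : (F.rel X).obj A) : F.map (X.r A) (rVal F X A x) = 0 := x.2

theorem exists_rVal (F : AlgFunctor) (X : AlgOp) {A : Type} [Ring A] [Algebra ℂ A]
    {y : F.obj (X.obj A)} (hy : F.map (X.r A) y = 0) : ∃ x, rVal F X A x = y := ⟨⟨y, hy⟩, rfl⟩

theorem rVal_map (F : AlgFunctor) (X : AlgOp) {A B : Type} [Ring A] [Algebra ℂ A] [Ring B]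
    [Algebra ℂ B] (f : A →ₐ[ℂ] B) (x : (F.rel X).obj A) :
    rVal F X B ((F.rel X).map f x) = F.map (X.map f) (rVal F X A x) := rfl

/-- A natural transformation of functors on algebras. -/
structure NatHom (F G : AlgFunctor) where
  /-- the components -/
  app : (A : Type) → [Ring A] → [Algebra ℂ A] → (F.obj A →+ G.obj A)
  nat : ∀ {A B : Type} [Ring A] [Algebra ℂ A] [Ring B] [Algebra ℂ B] (f : A →ₐ[ℂ] B)
    (x : F.obj A), app B (F.map f x) = G.map f (app A x)

/-! ### Maps of Laurent polynomial rings -/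

theorem tzMap_comp {I J K : Type} (g : (J → ℤ) →+ (K → ℤ)) (f : (I → ℤ) →+ (J → ℤ)) :
    (tzMap g).comp (tzMap f) = tzMap (g.comp f) := by
  unfold tzMap
  ext x
  simp

theorem tzMap_id {I : Type} : tzMap (AddMonoidHom.id (I → ℤ)) = AlgHom.id ℂ (TZ I) := by
  unfold tzMap
  ext x
  simp

theorem piZ_comm {I : Type} [DecidableEq I] (i j : I) :
    (piZ i : TZ I →ₐ[ℂ] TZ I).comp (piZ j) = (piZ j).comp (piZ i) := by
  unfold piZ
  rw [tzMap_comp, tzMap_comp]
  congr 1
  refine AddMonoidHom.ext fun v => funext fun k => ?_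
  change Function.update (Function.update v j 0) i 0 k = Function.update (Function.update v i 0) j 0 k
  by_cases h1 : k = i
  · by_cases h2 : k = j
    · subst h1; subst h2; rfl
    · subst h1; rw [Function.update_self, Function.update_of_ne h2, Function.update_self]
  · by_cases h2 : k = j
    · subst h2; rw [Function.update_of_ne h1, Function.update_self, Function.update_self]
    · rw [Function.update_of_ne h1, Function.update_of_ne h2, Function.update_of_ne h2,
        Function.update_of_ne h1]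

theorem piZ_idem {I : Type} [DecidableEq I] (i : I) :
    (piZ i : TZ I →ₐ[ℂ] TZ I).comp (piZ i) = piZ i := by
  unfold piZ
  rw [tzMap_comp]
  congr 1
  refine AddMonoidHom.ext fun v => funext fun k => ?_
  change Function.update (Function.update v i 0) i 0 k = Function.update v i 0 k
  rw [Function.update_idem]

theorem piZ_permZ {I : Type} [DecidableEq I] (σ : Equiv.Perm I) (i : I) :
    (piZ (σ i) : TZ I →ₐ[ℂ] TZ I).comp (permZ σ) = (permZ σ).comp (piZ i) := by
  unfold piZ permZ
  rw [tzMap_comp, tzMap_comp]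
  congr 1
  refine AddMonoidHom.ext fun v => funext fun k => ?_
  change Function.update (fun j => v (σ.symm j)) (σ i) 0 k = Function.update v i 0 (σ.symm k)
  by_cases h : k = σ i
  · subst h; simp
  · have h' : σ.symm k ≠ i := fun h' => h (by rw [← h', Equiv.apply_symm_apply])
    rw [Function.update_of_ne h, Function.update_of_ne h']

theorem permZ_mul {I : Type} (σ τ : Equiv.Perm I) :
    (permZ σ).comp (permZ τ) = permZ (σ * τ) := by
  unfold permZ
  rw [tzMap_comp]
  rfl

theorem permZ_one {I : Type} : permZ (1 : Equiv.Perm I) = AlgHom.id ℂ (TZ I) := tzMap_id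

/-! ### Projection to the reduced part -/

/-- `∏ (1 - π_i)` over a list of indices -/
noncomputable def redP (F : AlgFunctor) {I : Type} [DecidableEq I] :
    List I → (F.obj (TZ I) →+ F.obj (TZ I))
  | [] => AddMonoidHom.id _
  | i :: l => (AddMonoidHom.id _ - F.map (piZ i)).comp (redP F l)

theorem redP_cons (F : AlgFunctor) {I : Type} [DecidableEq I] (i : I) (l : List I)
    (x : F.obj (TZ I)) : redP F (i :: l) x = redP F l x - F.map (piZ i) (redP F l x) := rfl

theorem redP_comm (F : AlgFunctor) {I : Type} [DecidableEq I] (i : I) (l : List I)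
    (x : F.obj (TZ I)) : F.map (piZ i) (redP F l x) = redP F l (F.map (piZ i) x) := by
  induction l generalizing x with
  | nil => rfl
  | cons j l ih =>
    rw [redP_cons, redP_cons, map_sub, ih, mapmap, piZ_comm, ← mapmap, ih]

theorem redP_zero_of_mem (F : AlgFunctor) {I : Type} [DecidableEq I] (i : I) (l : List I)
    (hi : i ∈ l) (x : F.obj (TZ I)) : F.map (piZ i) (redP F l x) = 0 := by
  induction l with
  | nil => simp at hi
  | cons j l ih =>
    rw [redP_cons, map_sub]
    rcases List.mem_cons.1 hi with rfl | h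
    · rw [mapmap, piZ_idem, sub_self]
    · rw [ih h, mapmap, piZ_comm, ← mapmap, ih h, map_zero, sub_zero]

theorem redP_of_red (F : AlgFunctor) {I : Type} [DecidableEq I] (l : List I)
    {x : F.obj (TZ I)} (hx : ∀ i, F.map (piZ i) x = 0) : redP F l x = x := by
  induction l with
  | nil => rfl
  | cons j l ih => rw [redP_cons, ih, hx, sub_zero]

theorem redP_nat {F G : AlgFunctor} {I : Type} [DecidableEq I]
    (J : F.obj (TZ I) →+ G.obj (TZ I)) (hJ : ∀ i x, J (F.map (piZ i) x) = G.map (piZ i) (J x))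
    (l : List I) (x : F.obj (TZ I)) : J (redP F l x) = redP G l (J x) := by
  induction l with
  | nil => rfl
  | cons j l ih => rw [redP_cons, redP_cons, map_sub, hJ, ih]

/-- The projection to the reduced part. -/
noncomputable def redPr (F : AlgFunctor) (N : ℕ) : F.obj (TZ (Fin N)) →+ F.obj (TZ (Fin N)) :=
  redP F (List.finRange N)

theorem redPr_mem (F : AlgFunctor) (N : ℕ) (x : F.obj (TZ (Fin N))) :
    redPr F N x ∈ redZ F (Fin N) :=
  fun i => redP_zero_of_mem F i _ (List.mem_finRange i) x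

theorem redPr_of_mem (F : AlgFunctor) (N : ℕ) {x : F.obj (TZ (Fin N))} (hx : x ∈ redZ F (Fin N)) :
    redPr F N x = x := redP_of_red F _ hx

theorem redPr_nat {F G : AlgFunctor} (N : ℕ) (J : NatHom F G) (x : F.obj (TZ (Fin N))) :
    J.app _ (redPr F N x) = redPr G N (J.app _ x) :=
  redP_nat (J.app _) (fun i x => J.nat (piZ i) x) _ x

/-! ### The map from the loop functor to the functor with coefficients -/

theorem vvEv0_jHom (m : ℕ) [NeZero m] (A : Type) [Ring A] [Algebra ℂ A] :
    (coneEv0 m A).comp (jHom m A) = loopOp.r A := by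
  refine AlgHom.ext fun f => ?_
  change jF m f.1 0 0 0 = f.1 0
  simp [jF]

theorem vvEv1_jHom (m : ℕ) [NeZero m] (A : Type) [Ring A] [Algebra ℂ A] :
    (coneEv1 m A).comp (jHom m A) = loopOp.r A := by
  refine AlgHom.ext fun f => ?_
  change jF m f.1 1 0 0 = f.1 0
  simp [jF, f.2.2]

theorem jHom_nat (m : ℕ) [NeZero m] {A B : Type} [Ring A] [Algebra ℂ A] [Ring B] [Algebra ℂ B]
    (φ : A →ₐ[ℂ] B) : ((coneOp m).map φ).comp (jHom m A) = (jHom m B).comp (loopOp.map φ) := by
  refine AlgHom.ext fun f => Subtype.ext (funext fun t => ?_)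
  change φ.mapMatrix (jF m f.1 t) = jF m (fun t => φ (f.1 t)) t
  ext i j
  simp only [jF, AlgHom.mapMatrix_apply, Matrix.map_apply, Matrix.diagonal_apply]
  split_ifs <;> simp

/-- `F.rel loop → F.rel (cone m)`. -/
noncomputable def jNat (m : ℕ) [NeZero m] (F : AlgFunctor) :
    NatHom (F.rel loopOp) (F.rel (coneOp m)) where
  app A _ _ := ((F.map (jHom m A)).comp (rVal F loopOp A)).codRestrict
    (F.map ((coneOp m).r A)).ker (fun x => by
      have h1 := mapmap F (coneEv0 m A) (jHom m A) (rVal F loopOp A x)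
      rw [vvEv0_jHom] at h1
      exact h1.trans (rVal_ker F loopOp x))
  nat {A B} _ _ _ _ f x := by
    apply Subtype.ext
    have h1 := mapmap F (jHom m B) (loopOp.map f) (rVal F loopOp A x)
    have h2 := mapmap F ((coneOp m).map f) (jHom m A) (rVal F loopOp A x)
    rw [jHom_nat] at h2
    exact h1.trans h2.symm

theorem jNat_val (m : ℕ) [NeZero m] (F : AlgFunctor) {A : Type} [Ring A] [Algebra ℂ A]
    (x : (F.rel loopOp).obj A) :
    rVal F (coneOp m) A ((jNat m F).app A x) = F.map (jHom m A) (rVal F loopOp A x) := rfl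

/-- (V1) from (W1) and exactness -/
theorem v1_of (m : ℕ) [NeZero m] (hW : W1) (h3 : ∀ k, Ex3 m (KV k)) : V1 m := by
  intro k N hkN
  change ∀ x ∈ redZ ((KV k).rel (coneOp m)) (Fin N), x = 0
  intro x hx
  have h0 : (KV k).map (coneEv0 m (TZ (Fin N))) (rVal (KV k) (coneOp m) _ x) = 0 :=
    rVal_ker (KV k) (coneOp m) x
  have h1 : (KV k).map (coneEv1 m (TZ (Fin N))) (rVal (KV k) (coneOp m) _ x) = 0 := by
    apply hW k N (by omega)
    intro i
    have h4 : (KV k).map ((coneOp m).map (piZ i)) (rVal (KV k) (coneOp m) _ x) = 0 := by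
      rw [← rVal_map]
      have := hx i
      have h5 := congrArg (rVal (KV k) (coneOp m) (TZ (Fin N))) this
      exact h5.trans (map_zero _)
    have h5 := mapmap (KV k) (piZ i) (coneEv1 m (TZ (Fin N))) (rVal (KV k) (coneOp m) _ x)
    have h6 := mapmap (KV k) (coneEv1 m (TZ (Fin N))) ((coneOp m).map (piZ i))
      (rVal (KV k) (coneOp m) _ x)
    have h7 : (KV k).map (coneEv1 m (TZ (Fin N))) ((KV k).map ((coneOp m).map (piZ i))
      (rVal (KV k) (coneOp m) _ x)) = 0 := (congrArg _ h4).trans (map_zero _)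
    exact h5.trans (h6.symm.trans h7)
  obtain ⟨y, hy0, hy⟩ := h3 k (TZ (Fin N)) _ h0 h1
  obtain ⟨y', rfl⟩ := exists_rVal (KV k) loopOp hy0
  have hxy : (jNat m (KV k)).app _ y' = x := rVal_inj _ _ ((jNat_val m (KV k) y').trans hy)
  have h5 : redPr (KV (k + 1)) N y' = 0 := hW (k + 1) N (by omega) _ (redPr_mem _ _ _)
  have h6 : (jNat m (KV k)).app _ (redPr (KV (k + 1)) N y') =
    redPr (hK m k) N ((jNat m (KV k)).app _ y') := redPr_nat N (jNat m (KV k)) y'
  have h7 : (jNat m (KV k)).app _ (redPr (KV (k + 1)) N y') = 0 :=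
    (congrArg _ h5).trans (map_zero _)
  have h8 : redPr (hK m k) N x = 0 := by
    rw [← hxy]
    exact h6.symm.trans h7
  exact (redPr_of_mem (hK m k) N hx).symm.trans h8

/-- a permutation maps the reduced part to itself -/
theorem permZ_mem_redZ (F : AlgFunctor) {I : Type} [DecidableEq I] (σ : Equiv.Perm I)
    {x : F.obj (TZ I)} (hx : x ∈ redZ F I) : F.map (permZ σ) x ∈ redZ F I := by
  intro i
  have h1 := mapmap F (piZ i) (permZ σ) x
  have h2 := piZ_permZ σ (σ.symm i)
  rw [Equiv.apply_symm_apply] at h2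
  rw [h2] at h1
  have h3 := mapmap F (permZ σ) (piZ (σ.symm i)) x
  have h4 : F.map (permZ σ) (F.map (piZ (σ.symm i)) x) = 0 :=
    (congrArg _ (hx (σ.symm i))).trans (map_zero _)
  exact h1.trans (h3.symm.trans h4)

/-- the action of a permutation on the reduced part -/
noncomputable def permRed (F : AlgFunctor) {I : Type} [DecidableEq I] (σ : Equiv.Perm I) :
    redZ F I →+ redZ F I :=
  ((F.map (permZ σ)).comp (redZ F I).subtype).codRestrict (redZ F I)
    fun x => permZ_mem_redZ F σ x.2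

theorem permRed_pow (F : AlgFunctor) {I : Type} [DecidableEq I] (σ : Equiv.Perm I) (n : ℕ)
    (x : redZ F I) : ((permRed F σ)^[n] x).1 = F.map (permZ (σ ^ n)) x.1 := by
  induction n with
  | zero =>
    rw [pow_zero, permZ_one, mapid]
    rfl
  | succ n ih =>
    rw [Function.iterate_succ_apply']
    have h1 : (permRed F σ ((permRed F σ)^[n] x)).1 =
      F.map (permZ σ) ((permRed F σ)^[n] x).1 := rfl
    rw [h1, ih, mapmap, permZ_mul, pow_succ']

/-- an additive endomorphism of finite odd order of a group isomorphic to `ℤ` is trivial -/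
theorem eq_of_odd_iterate {A : Type} [AddCommGroup A] (e : A ≃+ ℤ) (f : A →+ A) (n : ℕ)
    (hn : Odd n) (hf : ∀ x, f^[n] x = x) (x : A) : f x = x := by
  obtain ⟨s, hs⟩ : ∃ s : ℤ, ∀ y, f y = s • y := by
    refine ⟨e (f (e.symm 1)), fun y => ?_⟩
    have h1 : y = (e y) • e.symm 1 := by
      apply e.injective
      rw [map_zsmul, e.apply_symm_apply, smul_eq_mul, mul_one]
    apply e.injective
    rw [map_zsmul]
    conv_lhs => rw [h1, map_zsmul, map_zsmul]
    rw [smul_eq_mul, smul_eq_mul, mul_comm]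
  have h2 : ∀ k : ℕ, ∀ y, f^[k] y = (s ^ k) • y := by
    intro k
    induction k with
    | zero => intro y; simp
    | succ k ih =>
      intro y
      rw [Function.iterate_succ_apply', ih, hs, smul_smul, pow_succ']
  have h3 : s ^ n = 1 := by
    have h4 := hf (e.symm 1)
    rw [h2] at h4
    have h5 := congrArg e h4
    rw [map_zsmul, e.apply_symm_apply, smul_eq_mul, mul_one] at h5
    exact h5
  have hn0 : n ≠ 0 := by
    rintro rfl
    exact absurd hn (by decide)
  have h6 : s = 1 := by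
    rcases Int.isUnit_iff.1 (IsUnit.of_pow_eq_one h3 hn0) with h | h
    · exact h
    · rw [h, hn.neg_one_pow] at h3
      exact absurd h3 (by decide)
  rw [hs, h6, one_smul]

/-- (V2), general form -/
theorem v2_gen (m : ℕ) [NeZero m] (F : AlgFunctor) (n : ℕ)
    (e : redZ (F.rel loopOp) (Fin n) ≃+ ℤ) (h4 : Ex4 m F) :
    ∃ u ∈ redZ (F.rel (coneOp m)) (Fin n),
      (∀ σ : Equiv.Perm (Fin n), Odd (orderOf σ) → (F.rel (coneOp m)).map (permZ σ) u = u) ∧
      ∀ c : ℕ, ¬ m ∣ c → c • u ≠ 0 := by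
  let t : redZ (F.rel loopOp) (Fin n) := e.symm 1
  have hJ : ∀ {B : Type} [Ring B] [Algebra ℂ B] (f : TZ (Fin n) →ₐ[ℂ] B)
      (y : (F.rel loopOp).obj (TZ (Fin n))), (jNat m F).app B ((F.rel loopOp).map f y) =
      (F.rel (coneOp m)).map f ((jNat m F).app _ y) := fun f y => (jNat m F).nat f y
  refine ⟨(jNat m F).app _ t.1, ?_, ?_, ?_⟩
  · intro i
    refine (hJ (piZ i) t.1).symm.trans ?_
    exact (congrArg _ (t.2 i)).trans (map_zero _)
  · intro σ hσ
    refine (hJ (permZ σ) t.1).symm.trans ?_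
    have h1 : permRed (F.rel loopOp) σ t = t := by
      refine eq_of_odd_iterate e _ (orderOf σ) hσ (fun x => Subtype.ext ?_) t
      rw [permRed_pow, pow_orderOf_eq_one, permZ_one, mapid]
    exact congrArg _ (congrArg Subtype.val h1)
  · intro c hc h
    apply hc
    have h5 : (jNat m F).app _ (c • t.1) = 0 := (map_nsmul _ _ _).trans h
    have h6 : F.map (jHom m (TZ (Fin n))) (rVal F loopOp _ (c • t.1)) = 0 := by
      rw [← jNat_val]
      exact (congrArg _ h5).trans (map_zero _)
    obtain ⟨b, hb0, hb⟩ := h4 _ _ (rVal_ker F loopOp (c • t.1)) h6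
    obtain ⟨b', rfl⟩ := exists_rVal F loopOp hb0
    have h7 : c • t.1 = m • b' := rVal_inj F loopOp (hb.trans (map_nsmul _ _ _).symm)
    have h8 : c • t = m • (⟨redPr (F.rel loopOp) n b', redPr_mem _ _ _⟩ :
        redZ (F.rel loopOp) (Fin n)) := by
      apply Subtype.ext
      change c • t.1 = m • redPr (F.rel loopOp) n b'
      have h9 := congrArg (redPr (F.rel loopOp) n) h7
      rw [map_nsmul, map_nsmul, redPr_of_mem (F.rel loopOp) n t.2] at h9
      exact h9
    have h9 := congrArg e h8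
    rw [map_nsmul, map_nsmul, e.apply_symm_apply] at h9
    refine Int.natCast_dvd_natCast.1
      ⟨e (⟨redPr (F.rel loopOp) n b', redPr_mem _ _ _⟩ : redZ (F.rel loopOp) (Fin n)), ?_⟩
    simpa using h9

/-- (V2) from (W2) and exactness -/
theorem v2_of (m : ℕ) [NeZero m] (hW : W2) (h4 : ∀ k, Ex4 m (KV k)) : V2 m := by
  intro k
  obtain ⟨e⟩ := hW (k + 1)
  exact v2_gen m (KV k) (k + 2) e (h4 k)

end Pool.Agent.Lib.MP_e7fbd4_ag
end

section

/-!
# The general argument
-/

set_option autoImplicit false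
set_option linter.unusedVariables false

namespace Pool.Agent.Lib.MP_e7fbd4_ag

open Pool.Agent.Lib.MP_c052b4_al

/-- An algebra `A` with homomorphisms `ι : ℂ[ℤ^N] → A` and `p : A → M_W(ℂ[ℤ^N])` such that `pι` is
the diagonal sum of `N` permutations of odd order of the variables and some constant maps. -/
structure RetractData (N : ℕ) (A : Type) [Ring A] [Algebra ℂ A] where
  /-- the index set -/
  W : Type
  [fin : Fintype W]
  [dec : DecidableEq W]
  /-- a base point -/
  w₀ : W
  /-- the homomorphism to `A` -/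
  ι : TZ (Fin N) →ₐ[ℂ] A
  /-- the homomorphism from `A` -/
  p : A →ₐ[ℂ] Matrix W W (TZ (Fin N))
  /-- the components of `pι` -/
  φ : W → (TZ (Fin N) →ₐ[ℂ] TZ (Fin N))
  p_ι : p.comp ι = diagHom φ
  /-- the places of the permutations -/
  S : Finset W
  /-- the permutations -/
  σ : W → Equiv.Perm (Fin N)
  φ_perm : ∀ w ∈ S, φ w = permZ (σ w)
  σ_odd : ∀ w ∈ S, Odd (orderOf (σ w))
  φ_const : ∀ w ∉ S, φ w = tzMap 0
  card_S : S.card = N

attribute [instance] RetractData.fin RetractData.dec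

theorem tzMap_zero_red (F : AlgFunctor) {N : ℕ} [NeZero N] {x : F.obj (TZ (Fin N))}
    (hx : x ∈ redZ F (Fin N)) : F.map (tzMap 0 : TZ (Fin N) →ₐ[ℂ] TZ (Fin N)) x = 0 := by
  have h1 : (tzMap 0 : TZ (Fin N) →ₐ[ℂ] TZ (Fin N)).comp (piZ 0) = tzMap 0 := by
    unfold piZ
    rw [tzMap_comp]
    rfl
  have h2 := mapmap F (tzMap 0 : TZ (Fin N) →ₐ[ℂ] TZ (Fin N)) (piZ 0) x
  rw [h1] at h2
  exact h2.symm.trans ((congrArg _ (hx 0)).trans (map_zero _))

theorem RetractData.sum_eq {N : ℕ} [NeZero N] {A : Type} [Ring A] [Algebra ℂ A]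
    (D : RetractData N A) (F : AlgFunctor) {x : F.obj (TZ (Fin N))} (hx : x ∈ redZ F (Fin N))
    (hσ : ∀ σ : Equiv.Perm (Fin N), Odd (orderOf σ) → F.map (permZ σ) x = x) :
    ∑ w, F.map (D.φ w) x = N • x := by
  classical
  have h1 : ∑ w, F.map (D.φ w) x = ∑ w ∈ D.S, x := by
    rw [← Finset.sum_subset (Finset.subset_univ D.S)]
    · refine Finset.sum_congr rfl fun w hw => ?_
      rw [D.φ_perm w hw]
      exact hσ _ (D.σ_odd w hw)
    · intro w _ hw
      rw [D.φ_const w hw]
      exact tzMap_zero_red F hx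
  rw [h1, Finset.sum_const, D.card_S]

/-- every element of `F(M_W(B))` comes from `F(B × B)` -/
abbrev GenProp (F : AlgFunctor) : Prop :=
  ∀ (B W : Type) [Ring B] [Algebra ℂ B] [Fintype W] [DecidableEq W] (w₀ : W)
    (x : F.obj (Matrix W W B)), ∃ z : F.obj (B × B), F.map (kapM B W w₀) z = x

/-- the trace property -/
abbrev TrProp (F : AlgFunctor) : Prop :=
  ∀ (C B W : Type) [Ring C] [Algebra ℂ C] [Ring B] [Algebra ℂ B] [Fintype W]
    [DecidableEq W] (w₀ : W) (φ : W → (C →ₐ[ℂ] B)) (x : F.obj C) (z : F.obj (B × B)),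
    F.map (diagHom φ) x = F.map (kapM B W w₀) z →
    ∑ w, F.map (φ w) x = F.map (AlgHom.fst ℂ B B) z +
      (Fintype.card W - 1) • F.map (AlgHom.snd ℂ B B) z

/-- The first form of the argument: no natural transformation `θ : F → G` is surjective at `A`. -/
theorem not_surjective {N : ℕ} [NeZero N] {A : Type} [Ring A] [Algebra ℂ A] (D : RetractData N A)
    {F G : AlgFunctor} (θ : NatHom F G) (hF : GenProp F) (hG : TrProp G)
    (hF0 : ∀ x ∈ redZ F (Fin N), x = 0) {u : G.obj (TZ (Fin N))} (hu : u ∈ redZ G (Fin N))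
    (hσ : ∀ σ : Equiv.Perm (Fin N), Odd (orderOf σ) → G.map (permZ σ) u = u)
    (hNu : N • u ≠ 0) : ¬ ∃ v, θ.app A v = G.map D.ι u := by
  rintro ⟨v, hv⟩
  obtain ⟨z, hz⟩ := hF (TZ (Fin N)) D.W D.w₀ (F.map D.p v)
  have h1 : G.map (diagHom D.φ) u = G.map (kapM (TZ (Fin N)) D.W D.w₀) (θ.app _ z) := by
    rw [← θ.nat, hz, θ.nat, hv, mapmap, D.p_ι]
  have h2 := hG (TZ (Fin N)) (TZ (Fin N)) D.W D.w₀ D.φ u (θ.app _ z) h1
  rw [D.sum_eq G hu hσ, ← θ.nat, ← θ.nat, ← map_nsmul, ← map_add] at h2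
  apply hNu
  have h3 := congrArg (redPr G N) h2
  rw [← redPr_nat, hF0 _ (redPr_mem F N _), map_zero, map_nsmul, redPr_of_mem G N hu] at h3
  exact h3

/-- The second form: a functor `T` (the topological groups in degree `N - 2`), with natural
transformations `F → T` and `G → T`. -/
theorem not_bijective {N : ℕ} [NeZero N] {A : Type} [Ring A] [Algebra ℂ A] (D : RetractData N A)
    {F G T : AlgFunctor} (θ : NatHom F T) (η : NatHom G T) (hF : GenProp F) (hG : TrProp G)
    (hT : TrProp T)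
    (hF0 : ∀ x ∈ redZ F (Fin N), x = 0) {u : G.obj (TZ (Fin N))} (hu : u ∈ redZ G (Fin N))
    (hσ : ∀ σ : Equiv.Perm (Fin N), Odd (orderOf σ) → G.map (permZ σ) u = u)
    (hNu : (N * N) • u ≠ 0) :
    ¬ (Function.Surjective (θ.app A) ∧ Function.Injective (η.app A)) := by
  rintro ⟨hs, hi⟩
  obtain ⟨v, hv⟩ := hs (η.app A (G.map D.ι u))
  have hηu : η.app _ u ∈ redZ T (Fin N) := by
    intro i
    rw [← η.nat]
    exact (congrArg _ (hu i)).trans (map_zero _)
  have hησ : ∀ σ : Equiv.Perm (Fin N), Odd (orderOf σ) →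
      T.map (permZ σ) (η.app _ u) = η.app _ u := by
    intro σ h
    rw [← η.nat, hσ σ h]
  have h1 : N • η.app _ u = 0 := by
    by_contra hne
    refine not_surjective D θ hF hT hF0 hηu hησ hne ⟨v, ?_⟩
    rw [hv, η.nat]
  have h2 : G.map D.ι (N • u) = 0 := by
    apply hi
    rw [η.nat, map_nsmul, h1, map_zero, map_zero]
  apply hNu
  have h3 : G.map (diagHom D.φ) (N • u) = G.map (kapM (TZ (Fin N)) D.W D.w₀) 0 := by
    rw [map_zero, ← D.p_ι, ← mapmap, h2, map_zero]
  have h4 := hG (TZ (Fin N)) (TZ (Fin N)) D.W D.w₀ D.φ (N • u) 0 h3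
  rw [map_zero, map_zero, smul_zero, add_zero] at h4
  rw [D.sum_eq G (x := N • u)] at h4
  · rw [mul_smul]
    exact h4
  · exact AddSubgroup.nsmul_mem _ hu N
  · intro σ h
    rw [map_nsmul, hσ σ h]

end Pool.Agent.Lib.MP_e7fbd4_ag
end

section

/-! # The Bott projection on the square, 3 -/

set_option autoImplicit false
set_option linter.unusedSectionVars false
set_option linter.unusedVariables false

namespace Pool.Agent.Lib.MP_e7fbd4_ag.O

open Pool.Agent.Lib.MP_c052b4_al ComplexConjugate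

variable {A B : Type} [Ring A] [Algebra ℂ A] [Ring B] [Algebra ℂ B] {c : Kind} {k l : ℕ}

theorem bottP_continuous (i j : Fin 2) :
    Continuous fun x : unitInterval × unitInterval => (bottP x.1 x.2).mat i j := by
  have h1 : Continuous fun x : unitInterval × unitInterval => ((x.1 : ℝ)) :=
    continuous_subtype_val.comp continuous_fst
  have h2 : Continuous fun x : unitInterval × unitInterval => ((x.2 : ℝ)) :=
    continuous_subtype_val.comp continuous_snd
  have hw : Continuous fun x : unitInterval × unitInterval => bw x.1 x.2 := by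
    have he : (fun x : unitInterval × unitInterval => bw x.1 x.2) =
        fun x => ((2 * (x.1 : ℝ) - 1 : ℝ) : ℂ) + ((2 * (x.2 : ℝ) - 1 : ℝ) : ℂ) * Complex.I := by
      funext x
      exact Complex.mk_eq_add_mul_I _ _
    rw [he]
    exact (Complex.continuous_ofReal.comp ((continuous_const.mul h1).sub continuous_const)).add
      ((Complex.continuous_ofReal.comp ((continuous_const.mul h2).sub continuous_const)).mul
        continuous_const)
  have hr : Continuous fun x : unitInterval × unitInterval => brho x.1 x.2 := by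
    unfold brho
    exact Complex.continuous_ofReal.comp ((h1.mul (continuous_const.sub h1)).mul
      (h2.mul (continuous_const.sub h2)))
  have hc : Continuous fun x : unitInterval × unitInterval => conj (bw x.1 x.2) :=
    Complex.continuous_conj.comp hw
  have hd : Continuous fun x : unitInterval × unitInterval =>
      (bw x.1 x.2 * conj (bw x.1 x.2) + brho x.1 x.2 * brho x.1 x.2)⁻¹ :=
    ((hw.mul hc).add (hr.mul hr)).inv₀ fun x => bott_denom x.1 x.2
  fin_cases i <;> fin_cases j
  · exact hd.mul (hw.mul hc)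
  · exact hd.mul (hw.mul hr)
  · exact hd.mul (hr.mul hc)
  · exact hd.mul (hr.mul hr)

end Pool.Agent.Lib.MP_e7fbd4_ag.O
end

section

/-! # The Bott construction on values, 2 -/

set_option autoImplicit false
set_option linter.unusedSectionVars false
set_option linter.unusedVariables false

namespace Pool.Agent.Lib.MP_e7fbd4_ag.O

open Pool.Agent.Lib.MP_c052b4_al ComplexConjugate

variable {A B : Type} [Ring A] [Algebra ℂ A] [Ring B] [Algebra ℂ B] {c : Kind} {k l : ℕ}

theorem map_bottVal (a b : unitInterval) (φ : A →ₐ[ℂ] B) (g : GLinf A) :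
    GLinf.map φ.toRingHom (bottVal a b g) = bottVal a b (GLinf.map φ.toRingHom g) := by
  unfold bottVal
  rw [map_mul, map_inv, map_twist, map_twist]

theorem dup_bottVal (m : ℕ) (a b : unitInterval) (g : GLinf A) :
    dup m A (bottVal a b g) = bottVal a b (dup m A g) := by
  unfold bottVal
  rw [map_mul, map_inv, dup_twist, dup_twist]

/-- The Bott construction preserves continuous cubes. -/
theorem IsCube.bott {g : Cube l → GLinf A} (hg : IsCube Kind.top g) {φ : Cube k → Cube l}
    (hφ : PolyMap φ) (i j : Fin k) :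
    IsCube Kind.top fun y => bottVal (y i) (y j) (g (φ y)) := by
  have hc : IsCube Kind.top fun y => g (φ y) := hg.comp hφ
  have h1 : ∀ a b, (fun y : Cube k => (bottP (y i) (y j)).mat a b) ∈ scal Kind.top k := by
    intro a b
    have h3 : Continuous fun y : Cube k => (y i, y j) :=
      (continuous_apply i).prodMk (continuous_apply j)
    have h4 := (bottP_continuous a b).comp h3
    simp only [Function.comp_def] at h4
    exact h4
  have h2 : ∀ a b, (fun _ : Cube k => bottP₀.mat a b) ∈ scal Kind.top k := by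
    intro a b
    exact (continuous_const : Continuous fun _ : Cube k => bottP₀.mat a b)
  have t1 := IsCube.twist (P := fun y : Cube k => bottP (y i) (y j)) h1 hc
  have t2 := IsCube.twist (P := fun _ : Cube k => bottP₀) h2 hc
  exact t1.mul t2.inv

end Pool.Agent.Lib.MP_e7fbd4_ag.O
end

section

/-! # The Bott projection on the square -/

set_option autoImplicit false
set_option linter.unusedSectionVars false
set_option linter.unusedVariables false

namespace Pool.Agent.Lib.MP_e7fbd4_ag.O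

open Pool.Agent.Lib.MP_c052b4_al

/-! This file collects the files `B1`, ..., `B5`. -/

end Pool.Agent.Lib.MP_e7fbd4_ag.O
end

section

/-! # Semi-topological and topological K-theory, the comparison map (definitions) -/

set_option autoImplicit false

namespace Pool.Agent.Lib.MP_e7fbd4_ag.O

open Pool.Agent.Lib.MP_c052b4_al

variable {A B : Type} [Ring A] [Algebra ℂ A] [Ring B] [Algebra ℂ B] {c : Kind} {m k l : ℕ}

/-- The polynomial pair `z`, regarded as a continuous pair. -/
def Pair.toTop (z : Pair Kind.alg m k A) : Pair Kind.top m k A where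
  g := z.g
  p := z.p
  hg := z.hg.top_of_alg
  hp := z.hp.top_of_alg
  bdry := z.bdry

/-- The comparison map from algebraic to semi-topological K-theory. -/
def toSt (m k : ℕ) (A : Type) [Ring A] [Algebra ℂ A] : KG Kind.alg m k A → KG Kind.top m k A :=
  Quot.map Pair.toTop (by
    rintro z w ⟨G, P, hG, hP, h⟩
    exact ⟨G, P, hG.top_of_alg, hP.top_of_alg, h⟩)

/-- The Bott construction on functions `g` on `I^k`: `(a, b, x) ↦ bottVal a b (g x)`. -/
noncomputable def bottG (g : Cube k → GLinf A) (y : Cube (k + 2)) : GLinf A :=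
  bottVal (y 0) (y 1) (g fun i => y i.succ.succ)

/-- The Bott construction on functions `p` on `I × I^k`: `(s, a, b, x) ↦ bottVal a b (p (s, x))`. -/
noncomputable def bottH (p : Cube (k + 1) → GLinf A) (y : Cube (k + 3)) : GLinf A :=
  bottVal (y 1) (y 2) (p (Fin.cons (y 0) fun i => y i.succ.succ.succ))

/-- The Bott construction on functions `P` on `I × I × I^k`:
`(t, s, a, b, x) ↦ bottVal a b (P (t, s, x))`. -/
noncomputable def bottHH (p : Cube (k + 2) → GLinf A) (y : Cube (k + 4)) : GLinf A :=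
  bottVal (y 2) (y 3) (p (Fin.cons (y 0) (Fin.cons (y 1) fun i => y i.succ.succ.succ.succ)))

private theorem bottG_bdry {k : ℕ} {g : Cube k → GLinf A} (h : ∀ x, OnBdry x → g x = 1)
    (y : Cube (k + 2)) (hy : OnBdry y) : bottG g y = 1 := by
  obtain ⟨i, hi⟩ := hy
  unfold bottG
  revert hi
  refine Fin.cases (fun hi => ?_) (fun i => ?_) i
  · exact bottVal_bdry (by tauto) _
  · refine Fin.cases (fun hi => ?_) (fun i hi => ?_) i
    · exact bottVal_bdry (by
        have hi' : y 1 = 0 ∨ y 1 = 1 := hi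
        tauto) _
    · rw [h _ ⟨i, hi⟩, bottVal_one]

theorem Bdry.bott {g : Cube k → GLinf A} {p : Cube (k + 1) → GLinf (Matrix (Fin m) (Fin m) A)}
    (h : Bdry m k g p) : Bdry m (k + 2) (bottG g) (bottH p) := by
  refine ⟨fun y hy => ?_, fun x => ?_, fun x => ?_, fun s x hx => ?_⟩
  · exact bottG_bdry (fun x hx => h.g_bdry x hx) y hy
  · change bottVal (x 0) (x 1) (p (Fin.cons 0 fun i => x i.succ.succ)) = 1
    rw [h.p_zero, bottVal_one]
  · change bottVal (x 0) (x 1) (p (Fin.cons 1 fun i => x i.succ.succ)) =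
      dup m A (bottVal (x 0) (x 1) (g fun i => x i.succ.succ))
    rw [h.p_one, dup_bottVal]
  · exact bottG_bdry (g := fun x => p (Fin.cons s x)) (fun x hx => h.p_bdry s x hx) x hx

theorem IsCube.bottG {g : Cube k → GLinf A} (hg : IsCube Kind.top g) :
    IsCube Kind.top (bottG g) := by
  exact hg.bott (φ := fun y i => y i.succ.succ)
    (polyMap_of fun i => Or.inl ⟨i.succ.succ, fun x => rfl⟩) 0 1

theorem IsCube.bottH {p : Cube (k + 1) → GLinf A} (hp : IsCube Kind.top p) :
    IsCube Kind.top (bottH p) := by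
  refine hp.bott (φ := fun y => Fin.cons (y 0) fun i => y i.succ.succ.succ)
    (polyMap_of fun i => ?_) 1 2
  refine Fin.cases ?_ (fun i => ?_) i
  · exact Or.inl ⟨0, fun x => rfl⟩
  · exact Or.inl ⟨i.succ.succ.succ, fun x => rfl⟩

theorem IsCube.bottHH {p : Cube (k + 2) → GLinf A} (hp : IsCube Kind.top p) :
    IsCube Kind.top (bottHH p) := by
  refine hp.bott (φ := fun y => Fin.cons (y 0) (Fin.cons (y 1) fun i => y i.succ.succ.succ.succ))
    (polyMap_of fun i => ?_) 2 3
  refine Fin.cases ?_ (fun i => ?_) i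
  · exact Or.inl ⟨0, fun x => rfl⟩
  · refine Fin.cases ?_ (fun i => ?_) i
    · exact Or.inl ⟨1, fun x => rfl⟩
    · exact Or.inl ⟨i.succ.succ.succ.succ, fun x => rfl⟩

/-- The Bott construction on pairs: the product with the Bott class `[P] - [P₀]` of the sphere
`I²/∂I²`. -/
noncomputable def Pair.bott (z : Pair Kind.top m k A) : Pair Kind.top m (k + 2) A where
  g := bottG z.g
  p := bottH z.p
  hg := z.hg.bottG
  hp := z.hp.bottH
  bdry := z.bdry.bott

theorem Homotopic.bott {z w : Pair Kind.top m k A} (h : Homotopic z w) :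
    Homotopic z.bott w.bott := by
  obtain ⟨G, P, hG, hP, hB, h1, h2, h3, h4⟩ := h
  refine ⟨bottH G, bottHH P, hG.bottH, hP.bottHH, fun t => (hB t).bott, fun x => ?_, fun y => ?_,
    fun x => ?_, fun y => ?_⟩
  · change bottVal (x 0) (x 1) (G (Fin.cons 0 fun i => x i.succ.succ)) = _
    rw [h1]
    rfl
  · change bottVal (y 1) (y 2) (P (Fin.cons 0 (Fin.cons (y 0) fun i => y i.succ.succ.succ))) = _
    rw [h2]
    rfl
  · change bottVal (x 0) (x 1) (G (Fin.cons 1 fun i => x i.succ.succ)) = _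
    rw [h3]
    rfl
  · change bottVal (y 1) (y 2) (P (Fin.cons 1 (Fin.cons (y 0) fun i => y i.succ.succ.succ))) = _
    rw [h4]
    rfl

/-- The Bott map `K^st_{k+2}(A; ℤ/m) → K^st_{k+4}(A; ℤ/m)`. -/
noncomputable def bott (m k : ℕ) (A : Type) [Ring A] [Algebra ℂ A] :
    KG Kind.top m k A → KG Kind.top m (k + 2) A :=
  Quot.map Pair.bott fun _ _ h => h.bott

/-- One step of the colimit defining topological K-theory. -/
def BottStep (m k : ℕ) (A : Type) [Ring A] [Algebra ℂ A] (x y : Σ j : ℕ, KG Kind.top m (k + 2 * j) A) :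
    Prop :=
  ∃ (j : ℕ) (z : KG Kind.top m (k + 2 * j) A),
    x = ⟨j, z⟩ ∧ y = ⟨j + 1, bott m (k + 2 * j) A z⟩

/-- Topological K-theory `K^top_{k+2}(A; ℤ/m) = colim_j K^st_{k+2+2j}(A; ℤ/m)`, the colimit along
the Bott maps. -/
def KTop (m k : ℕ) (A : Type) [Ring A] [Algebra ℂ A] : Type := Quot (BottStep m k A)

/-- The comparison map `K_{k+2}(A; ℤ/m) → K^top_{k+2}(A; ℤ/m)`. -/
def comparison (m k : ℕ) (A : Type) [Ring A] [Algebra ℂ A] (x : KG Kind.alg m k A) :
    KTop m k A :=
  Quot.mk _ ⟨0, toSt m k A x⟩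

end Pool.Agent.Lib.MP_e7fbd4_ag.O
end
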