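import Pool.Agent.Lib.MP_c052b4_al.BassK
import Pool.Agent.Lib.MP_c052b4_al.KOneCalc

section

/-!
# Karoubi-Villamayor K-theory of complex algebras (definitions)

All algebras are unital associative `ℂ`-algebras (in `Type`).
-/

set_option autoImplicit false
set_option linter.unusedVariables false

namespace Pool.Agent.Lib.MP_e7fbd4_ag

open Pool.Agent.Lib.MP_c052b4_al

/-- A functor from (unital, associative) complex algebras to abelian groups. -/
structure AlgFunctor where
  /-- the value on an algebra -/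
  obj : (A : Type) → [Ring A] → [Algebra ℂ A] → AddCommGrpCat.{0}
  /-- the induced homomorphisms -/
  map : {A B : Type} → [Ring A] → [Algebra ℂ A] → [Ring B] → [Algebra ℂ B] →
    (A →ₐ[ℂ] B) → (obj A →+ obj B)
  map_id : ∀ (A : Type) [Ring A] [Algebra ℂ A], map (AlgHom.id ℂ A) = AddMonoidHom.id _
  map_comp : ∀ {A B C : Type} [Ring A] [Algebra ℂ A] [Ring B] [Algebra ℂ B] [Ring C]
    [Algebra ℂ C] (g : B →ₐ[ℂ] C) (f : A →ₐ[ℂ] B), map (g.comp f) = (map g).comp (map f)

/-- A functor from algebras to algebras together with a natural retraction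
`r : X A → A` and a natural section `s : A → X A`. -/
structure AlgOp where
  /-- the value on an algebra -/
  obj : (A : Type) → [Ring A] → [Algebra ℂ A] → Type
  /-- it is a ring -/
  [ring : (A : Type) → [Ring A] → [Algebra ℂ A] → Ring (obj A)]
  /-- it is an algebra -/
  [alg : (A : Type) → [Ring A] → [Algebra ℂ A] → Algebra ℂ (obj A)]
  /-- the induced maps -/
  map : {A B : Type} → [Ring A] → [Algebra ℂ A] → [Ring B] → [Algebra ℂ B] →
    (A →ₐ[ℂ] B) → (obj A →ₐ[ℂ] obj B)
  map_id : ∀ (A : Type) [Ring A] [Algebra ℂ A], map (AlgHom.id ℂ A) = AlgHom.id ℂ (obj A)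
  map_comp : ∀ {A B C : Type} [Ring A] [Algebra ℂ A] [Ring B] [Algebra ℂ B] [Ring C]
    [Algebra ℂ C] (g : B →ₐ[ℂ] C) (f : A →ₐ[ℂ] B), map (g.comp f) = (map g).comp (map f)
  /-- the retraction -/
  r : (A : Type) → [Ring A] → [Algebra ℂ A] → (obj A →ₐ[ℂ] A)
  /-- the section -/
  s : (A : Type) → [Ring A] → [Algebra ℂ A] → (A →ₐ[ℂ] obj A)
  r_s : ∀ (A : Type) [Ring A] [Algebra ℂ A], (r A).comp (s A) = AlgHom.id ℂ A
  r_nat : ∀ {A B : Type} [Ring A] [Algebra ℂ A] [Ring B] [Algebra ℂ B] (f : A →ₐ[ℂ] B),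
    (r B).comp (map f) = f.comp (r A)
  s_nat : ∀ {A B : Type} [Ring A] [Algebra ℂ A] [Ring B] [Algebra ℂ B] (f : A →ₐ[ℂ] B),
    (map f).comp (s A) = (s B).comp f

attribute [instance] AlgOp.ring AlgOp.alg

/-- The functor `A ↦ ker (F (X A) → F A)`, the kernel of the map induced by the retraction. -/
noncomputable def AlgFunctor.rel (F : AlgFunctor) (X : AlgOp) : AlgFunctor where
  obj A _ _ := AddCommGrpCat.of (F.map (X.r A)).ker
  map {A B} _ _ _ _ f := ((F.map (X.map f)).comp (F.map (X.r A)).ker.subtype).codRestrict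
    (F.map (X.r B)).ker (by
      intro x
      rw [AddMonoidHom.mem_ker, AddMonoidHom.comp_apply, ← AddMonoidHom.comp_apply, ← F.map_comp,
        X.r_nat, F.map_comp, AddMonoidHom.comp_apply]
      have hx : F.map (X.r A) ((F.map (X.r A)).ker.subtype x) = 0 := x.2
      rw [hx, map_zero])
  map_id A _ _ := by
    apply AddMonoidHom.ext
    intro x
    apply Subtype.ext
    change F.map (X.map (AlgHom.id ℂ A)) _ = _
    rw [X.map_id, F.map_id]
    rfl
  map_comp {A B C} _ _ _ _ _ _ g f := by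
    apply AddMonoidHom.ext
    intro x
    apply Subtype.ext
    change F.map (X.map (g.comp f)) _ = _
    rw [X.map_comp, F.map_comp]
    rfl

/-! ### Polynomial functions, loops and mapping cones -/

/-- The algebra `A[t]`, realized as the algebra of polynomial functions `ℂ → A`: it is generated
by the constant functions and by the function `t ↦ t · 1`. -/
def Poly (A : Type) [Ring A] [Algebra ℂ A] : Subalgebra ℂ (ℂ → A) :=
  Algebra.adjoin ℂ (Set.range (fun (a : A) (_ : ℂ) => a) ∪ {fun t : ℂ => algebraMap ℂ A t})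

/-- `{f ∈ A[t] : f(0) = f(1)}`. -/
def Loop (A : Type) [Ring A] [Algebra ℂ A] : Subalgebra ℂ (ℂ → A) where
  carrier := {f | f ∈ Poly A ∧ f 0 = f 1}
  mul_mem' := fun {f g} hf hg => ⟨(Poly A).mul_mem hf.1 hg.1, by
    rw [Pi.mul_apply, Pi.mul_apply, hf.2, hg.2]⟩
  add_mem' := fun {f g} hf hg => ⟨(Poly A).add_mem hf.1 hg.1, by
    rw [Pi.add_apply, Pi.add_apply, hf.2, hg.2]⟩
  algebraMap_mem' := fun c => ⟨(Poly A).algebraMap_mem c, rfl⟩

/-- `{f ∈ M_m(A)[t] : f(0) and f(1) are scalar matrices}`, scalar matrices being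
the matrices `a · 1`, `a ∈ A`. -/
def Cone (m : ℕ) (A : Type) [Ring A] [Algebra ℂ A] :
    Subalgebra ℂ (ℂ → Matrix (Fin m) (Fin m) A) where
  carrier := {f | f ∈ Poly (Matrix (Fin m) (Fin m) A) ∧ (∃ a : A, f 0 = Matrix.scalar (Fin m) a) ∧
    ∃ b : A, f 1 = Matrix.scalar (Fin m) b}
  mul_mem' := by
    rintro f g ⟨hf, ⟨a, ha⟩, ⟨b, hb⟩⟩ ⟨hg, ⟨a', ha'⟩, ⟨b', hb'⟩⟩
    exact ⟨(Poly _).mul_mem hf hg, ⟨a * a', by rw [Pi.mul_apply, ha, ha', map_mul]⟩,
      ⟨b * b', by rw [Pi.mul_apply, hb, hb', map_mul]⟩⟩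
  add_mem' := by
    rintro f g ⟨hf, ⟨a, ha⟩, ⟨b, hb⟩⟩ ⟨hg, ⟨a', ha'⟩, ⟨b', hb'⟩⟩
    exact ⟨(Poly _).add_mem hf hg, ⟨a + a', by rw [Pi.add_apply, ha, ha', map_add]⟩,
      ⟨b + b', by rw [Pi.add_apply, hb, hb', map_add]⟩⟩
  algebraMap_mem' := fun c => ⟨(Poly _).algebraMap_mem c,
    ⟨algebraMap ℂ A c, by ext i j; simp [Matrix.algebraMap_matrix_apply, Matrix.diagonal_apply]⟩,
    ⟨algebraMap ℂ A c, by ext i j; simp [Matrix.algebraMap_matrix_apply, Matrix.diagonal_apply]⟩⟩

theorem const_mem_poly {A : Type} [Ring A] [Algebra ℂ A] (a : A) : (fun _ : ℂ => a) ∈ Poly A :=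
  Algebra.subset_adjoin (Or.inl ⟨a, rfl⟩)

theorem var_mem_poly (A : Type) [Ring A] [Algebra ℂ A] :
    (fun t : ℂ => algebraMap ℂ A t) ∈ Poly A :=
  Algebra.subset_adjoin (Or.inr rfl)

/-- Composition with an algebra homomorphism preserves polynomial functions. -/
theorem comp_mem_poly {A B : Type} [Ring A] [Algebra ℂ A] [Ring B] [Algebra ℂ B]
    (φ : A →ₐ[ℂ] B) {f : ℂ → A} (hf : f ∈ Poly A) : (fun t => φ (f t)) ∈ Poly B := by
  unfold Poly at hf
  induction hf using Algebra.adjoin_induction with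
  | mem x hx =>
    rcases hx with ⟨a, rfl⟩ | rfl
    · exact const_mem_poly (φ a)
    · simpa using var_mem_poly B
  | algebraMap c => simpa using const_mem_poly (algebraMap ℂ B c)
  | add x y _ _ hx hy =>
    have h : (fun t => φ ((x + y) t)) = (fun t => φ (x t)) + fun t => φ (y t) := by
      funext t; exact map_add φ _ _
    rw [h]; exact (Poly B).add_mem hx hy
  | mul x y _ _ hx hy =>
    have h : (fun t => φ ((x * y) t)) = (fun t => φ (x t)) * fun t => φ (y t) := by
      funext t; exact map_mul φ _ _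
    rw [h]; exact (Poly B).mul_mem hx hy

/-- The homomorphism on functions induced by a homomorphism. -/
def funMap (X : Type) {A B : Type} [Ring A] [Algebra ℂ A] [Ring B] [Algebra ℂ B]
    (φ : A →ₐ[ℂ] B) : (X → A) →ₐ[ℂ] (X → B) where
  toFun f := fun x => φ (f x)
  map_one' := by funext x; simp
  map_mul' f g := by funext x; simp
  map_zero' := by funext x; simp
  map_add' f g := by funext x; simp
  commutes' c := by funext x; simp

/-- Constant functions. -/
def constHom (X A : Type) [Ring A] [Algebra ℂ A] : A →ₐ[ℂ] (X → A) where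
  toFun a := fun _ => a
  map_one' := rfl
  map_mul' _ _ := rfl
  map_zero' := rfl
  map_add' _ _ := rfl
  commutes' _ := rfl

/-- Evaluation at a point. -/
def evalHom (X A : Type) [Ring A] [Algebra ℂ A] (x : X) : (X → A) →ₐ[ℂ] A where
  toFun f := f x
  map_one' := rfl
  map_mul' _ _ := rfl
  map_zero' := rfl
  map_add' _ _ := rfl
  commutes' _ := rfl

/-- `A ↦ A[t]`, with `r = ev₀`. -/
noncomputable def polyOp : AlgOp where
  obj A _ _ := Poly A
  ring A _ _ := inferInstanceAs (Ring (Poly A))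
  alg A _ _ := inferInstanceAs (Algebra ℂ (Poly A))
  map {A B} _ _ _ _ φ := ((funMap ℂ φ).comp (Poly A).val).codRestrict (Poly B)
    fun f => comp_mem_poly φ f.2
  map_id A _ _ := AlgHom.ext fun x => Subtype.ext rfl
  map_comp {A B C} _ _ _ _ _ _ g f := AlgHom.ext fun x => Subtype.ext rfl
  r A _ _ := (evalHom ℂ A 0).comp (Poly A).val
  s A _ _ := (constHom ℂ A).codRestrict (Poly A) fun a => const_mem_poly a
  r_s A _ _ := AlgHom.ext fun x => rfl
  r_nat {A B} _ _ _ _ f := AlgHom.ext fun x => rfl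
  s_nat {A B} _ _ _ _ f := AlgHom.ext fun x => Subtype.ext rfl

/-- `A ↦ {f ∈ A[t] : f(0) = f(1)}`, with `r = ev₀`. -/
noncomputable def loopOp : AlgOp where
  obj A _ _ := Loop A
  ring A _ _ := inferInstanceAs (Ring (Loop A))
  alg A _ _ := inferInstanceAs (Algebra ℂ (Loop A))
  map {A B} _ _ _ _ φ := ((funMap ℂ φ).comp (Loop A).val).codRestrict (Loop B)
    fun f => ⟨comp_mem_poly φ f.2.1, congrArg φ f.2.2⟩
  map_id A _ _ := AlgHom.ext fun x => Subtype.ext rfl
  map_comp {A B C} _ _ _ _ _ _ g f := AlgHom.ext fun x => Subtype.ext rfl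
  r A _ _ := (evalHom ℂ A 0).comp (Loop A).val
  s A _ _ := (constHom ℂ A).codRestrict (Loop A) fun a => ⟨const_mem_poly a, rfl⟩
  r_s A _ _ := AlgHom.ext fun x => rfl
  r_nat {A B} _ _ _ _ f := AlgHom.ext fun x => rfl
  s_nat {A B} _ _ _ _ f := AlgHom.ext fun x => Subtype.ext rfl

/-- The upper left entry of a scalar matrix, as a homomorphism on `Cone m A`: `f ↦ a` if
`f(t₀) = a · 1`, for `t₀ = 0` or `t₀ = 1`. -/
noncomputable def coneEval (m : ℕ) [NeZero m] (A : Type) [Ring A] [Algebra ℂ A] (t₀ : ℂ)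
    (h : ∀ f : Cone m A, ∃ a : A, f.1 t₀ = Matrix.scalar (Fin m) a) : Cone m A →ₐ[ℂ] A where
  toFun f := f.1 t₀ 0 0
  map_one' := by
    change (1 : Matrix (Fin m) (Fin m) A) 0 0 = 1
    simp
  map_mul' f g := by
    obtain ⟨a, ha⟩ := h f
    obtain ⟨b, hb⟩ := h g
    change (f.1 t₀ * g.1 t₀) 0 0 = _
    rw [ha, hb, ← map_mul]
    simp
  map_zero' := rfl
  map_add' _ _ := rfl
  commutes' c := by
    change (algebraMap ℂ (Matrix (Fin m) (Fin m) A) c) 0 0 = _
    simp [Matrix.algebraMap_matrix_apply]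

/-- `f ↦ a` if `f(0) = a · 1`. -/
noncomputable def coneEv0 (m : ℕ) [NeZero m] (A : Type) [Ring A] [Algebra ℂ A] :
    Cone m A →ₐ[ℂ] A := coneEval m A 0 fun f => f.2.2.1

/-- `f ↦ b` if `f(1) = b · 1`. -/
noncomputable def coneEv1 (m : ℕ) [NeZero m] (A : Type) [Ring A] [Algebra ℂ A] :
    Cone m A →ₐ[ℂ] A := coneEval m A 1 fun f => f.2.2.2

/-- The homomorphism `M_m(A) → M_m(B)` induced by a homomorphism `A → B`. -/
noncomputable def matMap (m : ℕ) {A B : Type} [Ring A] [Algebra ℂ A] [Ring B] [Algebra ℂ B]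
    (φ : A →ₐ[ℂ] B) : Matrix (Fin m) (Fin m) A →ₐ[ℂ] Matrix (Fin m) (Fin m) B := φ.mapMatrix

/-- Scalar matrices. -/
noncomputable def scalarHom (m : ℕ) (A : Type) [Ring A] [Algebra ℂ A] :
    A →ₐ[ℂ] Matrix (Fin m) (Fin m) A where
  toRingHom := Matrix.scalar (Fin m)
  commutes' c := by ext i j; simp [Matrix.algebraMap_matrix_apply, Matrix.diagonal_apply]

theorem mapMatrix_scalar (m : ℕ) {A B : Type} [Ring A] [Algebra ℂ A] [Ring B] [Algebra ℂ B]
    (φ : A →ₐ[ℂ] B) (a : A) :
    φ.mapMatrix (Matrix.scalar (Fin m) a) = Matrix.scalar (Fin m) (φ a) := by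
  ext i j
  simp only [AlgHom.mapMatrix_apply, Matrix.map_apply, Matrix.scalar_apply, Matrix.diagonal_apply]
  split_ifs <;> simp

/-- `A ↦ {f ∈ M_m(A)[t] : f(0), f(1) scalar}`, with `r = ev₀`. -/
noncomputable def coneOp (m : ℕ) [NeZero m] : AlgOp where
  obj A _ _ := Cone m A
  ring A _ _ := inferInstanceAs (Ring (Cone m A))
  alg A _ _ := inferInstanceAs (Algebra ℂ (Cone m A))
  map {A B} _ _ _ _ φ := ((funMap ℂ φ.mapMatrix).comp (Cone m A).val).codRestrict (Cone m B)
    fun f => ⟨comp_mem_poly _ f.2.1, by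
      obtain ⟨a, ha⟩ := f.2.2.1
      refine ⟨φ a, ?_⟩
      change φ.mapMatrix (f.1 0) = _
      rw [ha, mapMatrix_scalar], by
      obtain ⟨a, ha⟩ := f.2.2.2
      refine ⟨φ a, ?_⟩
      change φ.mapMatrix (f.1 1) = _
      rw [ha, mapMatrix_scalar]⟩
  map_id A _ _ := AlgHom.ext fun x => Subtype.ext rfl
  map_comp {A B C} _ _ _ _ _ _ g f := AlgHom.ext fun x => Subtype.ext rfl
  r A _ _ := coneEv0 m A
  s A _ _ := ((constHom ℂ _).comp (scalarHom m A)).codRestrict (Cone m A) fun a =>
    ⟨const_mem_poly _, ⟨a, rfl⟩, ⟨a, rfl⟩⟩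
  r_s A _ _ := AlgHom.ext fun a => by
    change (Matrix.scalar (Fin m) a) 0 0 = a
    simp
  r_nat {A B} _ _ _ _ f := AlgHom.ext fun x => rfl
  s_nat {A B} _ _ _ _ f := AlgHom.ext fun a => Subtype.ext (funext fun t => by
    change f.mapMatrix (Matrix.scalar (Fin m) a) = Matrix.scalar (Fin m) (f a)
    exact mapMatrix_scalar m f a)

/-- The homomorphism `A[z, z⁻¹] → A`, `z ↦ 1`. -/
noncomputable def lauAug (A : Type) [Ring A] [Algebra ℂ A] : Lau A →ₐ[ℂ] A :=
  MonoidAlgebra.liftNCAlgHom (AlgHom.id ℂ A) (1 : Multiplicative ℤ →* A)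
    (fun x _ => Commute.one_right x)

theorem lauAug_single {A : Type} [Ring A] [Algebra ℂ A] (g : Multiplicative ℤ) (a : A) :
    lauAug A (MonoidAlgebra.single g a) = a := by
  have h : (lauAug A : Lau A → A) = MonoidAlgebra.liftNC ((AlgHom.id ℂ A : A →ₐ[ℂ] A) : A →+ A)
      ((1 : Multiplicative ℤ →* A) : Multiplicative ℤ → A) := rfl
  rw [h, MonoidAlgebra.liftNC_single]
  simp

/-- `A ↦ A[z, z⁻¹]`, with `r` the homomorphism `z ↦ 1`. -/
noncomputable def lauOp : AlgOp where
  obj A _ _ := Lau A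
  ring A _ _ := inferInstanceAs (Ring (Lau A))
  alg A _ _ := inferInstanceAs (Algebra ℂ (Lau A))
  map {A B} _ _ _ _ φ := MonoidAlgebra.mapAlgHom (Multiplicative ℤ) φ
  map_id A _ _ := MonoidAlgebra.mapAlgHom_id
  map_comp {A B C} _ _ _ _ _ _ g f := by
    refine MonoidAlgebra.algHom_ext (fun m => ?_) (AlgHom.ext fun a => ?_)
    · simp
    · simp
  r A _ _ := lauAug A
  s A _ _ := MonoidAlgebra.singleOneAlgHom
  r_s A _ _ := AlgHom.ext fun a => lauAug_single 1 a
  r_nat {A B} _ _ _ _ f := by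
    refine MonoidAlgebra.algHom_ext (fun m => ?_) (AlgHom.ext fun a => ?_)
    · simp [lauAug_single]
    · simp [lauAug_single]
  s_nat {A B} _ _ _ _ f := AlgHom.ext fun a => by simp

/-! ### The functors -/

/-- The functor `K₀`. -/
noncomputable def K0F : AlgFunctor where
  obj A _ _ := AddCommGrpCat.of (KZero A)
  map {A B} _ _ _ _ f := KZero.map f.toRingHom
  map_id A _ _ := AddMonoidHom.ext fun x => KZero.map_id x
  map_comp {A B C} _ _ _ _ _ _ g f := AddMonoidHom.ext fun x => KZero.map_comp _ _ x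

/-- The functor `K₁`, `K₁(A) = GL(A)^{ab}`. -/
noncomputable def K1F : AlgFunctor where
  obj A _ _ := AddCommGrpCat.of (KOne A)
  map {A B} _ _ _ _ f := KOne.map f.toRingHom
  map_id A _ _ := AddMonoidHom.ext fun x => KOne.map_id x
  map_comp {A B C} _ _ _ _ _ _ g f := AddMonoidHom.ext fun x => KOne.map_comp _ _ x

/-- Evaluation of a polynomial function at a point. -/
def evP (A : Type) [Ring A] [Algebra ℂ A] (t : ℂ) : Poly A →ₐ[ℂ] A :=
  (evalHom ℂ A t).comp (Poly A).val

/-- The map `A[t] → B[t]`. -/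
def polyMap {A B : Type} [Ring A] [Algebra ℂ A] [Ring B] [Algebra ℂ B] (φ : A →ₐ[ℂ] B) :
    Poly A →ₐ[ℂ] Poly B :=
  ((funMap ℂ φ).comp (Poly A).val).codRestrict (Poly B) fun f => comp_mem_poly φ f.2

/-- The subgroup of `F(A)` of all differences `F(ev₁)(x) - F(ev₀)(x)`, `x ∈ F(A[t])`. -/
noncomputable def AlgFunctor.htpy (F : AlgFunctor) (A : Type) [Ring A] [Algebra ℂ A] :
    AddSubgroup (F.obj A) :=
  (F.map (evP A 1) - F.map (evP A 0)).range

theorem AlgFunctor.htpy_le (F : AlgFunctor) {A B : Type} [Ring A] [Algebra ℂ A] [Ring B]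
    [Algebra ℂ B] (f : A →ₐ[ℂ] B) : F.htpy A ≤ (F.htpy B).comap (F.map f) := by
  rintro _ ⟨x, rfl⟩
  refine ⟨F.map (polyMap f) x, ?_⟩
  rw [AddMonoidHom.sub_apply, AddMonoidHom.sub_apply, map_sub, ← AddMonoidHom.comp_apply,
    ← AddMonoidHom.comp_apply, ← AddMonoidHom.comp_apply, ← AddMonoidHom.comp_apply,
    ← F.map_comp, ← F.map_comp, ← F.map_comp, ← F.map_comp]
  rfl

/-- The functor `KV₁`: the quotient of `K₁(A)` by polynomial homotopies. -/
noncomputable def KV1F : AlgFunctor where
  obj A _ _ := AddCommGrpCat.of (K1F.obj A ⧸ K1F.htpy A)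
  map {A B} _ _ _ _ f := QuotientAddGroup.map (K1F.htpy A) (K1F.htpy B) (K1F.map f) (K1F.htpy_le f)
  map_id A _ _ := by
    apply AddMonoidHom.ext
    intro x
    obtain ⟨y, rfl⟩ := QuotientAddGroup.mk_surjective x
    change QuotientAddGroup.mk (K1F.map (AlgHom.id ℂ A) y) = _
    rw [K1F.map_id]
    rfl
  map_comp {A B C} _ _ _ _ _ _ g f := by
    apply AddMonoidHom.ext
    intro x
    obtain ⟨y, rfl⟩ := QuotientAddGroup.mk_surjective x
    change QuotientAddGroup.mk (K1F.map (g.comp f) y) = _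
    rw [K1F.map_comp]
    rfl

/-- The Karoubi-Villamayor functors: `KV k = KV_{k+1}`, where
`KV_{n+1}(A) = ker (KV_n({f ∈ A[t] : f(0) = f(1)}) → KV_n(A))`. -/
noncomputable def KV : ℕ → AlgFunctor
  | 0 => KV1F
  | k + 1 => (KV k).rel loopOp

/-- K-theory with `ℤ/m` coefficients: `hK m k` is `K_{k+2}(-; ℤ/m)`, where
`K_n(A; ℤ/m) = ker (KV_{n-1}({f ∈ M_m(A)[t] : f(0), f(1) scalar}) → KV_{n-1}(A))`. -/
noncomputable def hK (m : ℕ) [NeZero m] (k : ℕ) : AlgFunctor := (KV k).rel (coneOp m)

/-! ### The algebra `R` -/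

/-- The six generators. -/
inductive Gen | a | a' | r | r' | s | s'
  deriving DecidableEq

/-- a generator as an element of the free algebra -/
noncomputable def gx (i : Gen) : FreeAlgebra ℂ Gen := FreeAlgebra.ι ℂ i

/-- The eight relators. -/
noncomputable def relator : Fin 8 → FreeAlgebra ℂ Gen :=
  ![gx .a * gx .a' - 1, gx .a' * gx .a - 1, gx .r * gx .r' - 1, gx .r' * gx .r - 1,
    gx .s' * gx .s - 1, gx .r * gx .s - gx .s * gx .r,
    gx .a * gx .s - gx .s * (gx .r' * gx .a * gx .r) * gx .a',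
    gx .a * (gx .r' * gx .a * gx .r) - (gx .r' * gx .a * gx .r) * gx .a]

/-- the relations -/
inductive RRel : FreeAlgebra ℂ Gen → FreeAlgebra ℂ Gen → Prop
  | rel (k : Fin 8) : RRel (relator k) 0

/-- The algebra `R` with six generators `a, a', r, r', s, s'` and the relations
`a a' = a' a = 1`, `r r' = r' r = 1`, `s' s = 1`, `r s = s r`, `a s = s (r' a r) a'`,
`a (r' a r) = (r' a r) a`. -/
abbrev R : Type := RingQuot RRel

end Pool.Agent.Lib.MP_e7fbd4_ag
end

section

/-! # P01 : coefficient form of polynomial functions (adjoin induction) -/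

set_option autoImplicit false
set_option linter.unusedSectionVars false
set_option linter.unusedVariables false

namespace Pool.Agent.Lib.MP_e7fbd4_ag

open Matrix Pool.Agent.Lib.MP_c052b4_al

variable {A B : Type} [Ring A] [Algebra ℂ A] [Ring B] [Algebra ℂ B]
  {n m l : Type} [Fintype n] [Fintype m] [Fintype l] [DecidableEq n] [DecidableEq m] [DecidableEq l]

private theorem P01_aux {f : ℂ → A} (hf : f ∈ Poly A) :
    ∃ p : Polynomial A, ∀ t, f t = Polynomial.eval (algebraMap ℂ A t) p := by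
  unfold Poly at hf
  induction hf using Algebra.adjoin_induction with
  | mem x hx =>
    rcases hx with ⟨a, rfl⟩ | rfl
    · exact ⟨Polynomial.C a, fun t => (Polynomial.eval_C).symm⟩
    · exact ⟨Polynomial.X, fun t => (Polynomial.eval_X).symm⟩
  | algebraMap c => exact ⟨Polynomial.C (algebraMap ℂ A c), fun t => (Polynomial.eval_C).symm⟩
  | add x y _ _ hx hy =>
    obtain ⟨p, hp⟩ := hx
    obtain ⟨q, hq⟩ := hy
    exact ⟨p + q, fun t => by rw [Polynomial.eval_add, Pi.add_apply, hp, hq]⟩
  | mul x y _ _ hx hy =>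
    obtain ⟨p, hp⟩ := hx
    obtain ⟨q, hq⟩ := hy
    refine ⟨p * q, fun t => ?_⟩
    rw [Pi.mul_apply, hp, hq]
    exact (Polynomial.eval₂_mul_noncomm (RingHom.id A) (algebraMap ℂ A t)
      (fun k => (Algebra.commutes t (q.coeff k)).symm)).symm

/-- Coefficient form of polynomial functions. -/
theorem mem_poly_iff {f : ℂ → A} : f ∈ Poly A ↔
    ∃ (N : ℕ) (c : ℕ → A), ∀ t, f t = ∑ i ∈ Finset.range N, t ^ i • c i := by
  constructor
  · intro hf
    obtain ⟨p, hp⟩ := P01_aux hf
    refine ⟨p.natDegree + 1, p.coeff, fun t => ?_⟩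
    rw [hp, Polynomial.eval_eq_sum_range]
    apply Finset.sum_congr rfl
    intro i _
    rw [Algebra.smul_def, map_pow]
    have h1 : Commute (p.coeff i) (algebraMap ℂ A t) := (Algebra.commutes t (p.coeff i)).symm
    exact (h1.pow_right i).eq
  · rintro ⟨N, c, h⟩
    have h1 : f = ∑ i ∈ Finset.range N, (fun t : ℂ => algebraMap ℂ A t) ^ i * (fun _ : ℂ => c i) := by
      funext t
      rw [h, Finset.sum_apply]
      apply Finset.sum_congr rfl
      intro i _
      rw [Pi.mul_apply, Pi.pow_apply, Algebra.smul_def, map_pow]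
    rw [h1]
    exact (Poly A).sum_mem fun i _ => (Poly A).mul_mem ((Poly A).pow_mem (var_mem_poly A) i)
      (const_mem_poly (c i))

end Pool.Agent.Lib.MP_e7fbd4_ag
end

section

/-! # P04 : matrices of polynomial functions -/

set_option autoImplicit false
set_option linter.unusedSectionVars false
set_option linter.unusedVariables false

namespace Pool.Agent.Lib.MP_e7fbd4_ag

open Matrix Pool.Agent.Lib.MP_c052b4_al

variable {A B : Type} [Ring A] [Algebra ℂ A] [Ring B] [Algebra ℂ B]
  {n m l : Type} [Fintype n] [Fintype m] [Fintype l] [DecidableEq n] [DecidableEq m] [DecidableEq l]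

/-- Matrix valued functions with polynomial entries are closed under products. -/
theorem poly_matmul {F : ℂ → Matrix n m A} {G : ℂ → Matrix m l A}
    (hF : ∀ i j, (fun t => F t i j) ∈ Poly A) (hG : ∀ i j, (fun t => G t i j) ∈ Poly A) (i : n)
    (j : l) : (fun t => (F t * G t) i j) ∈ Poly A := by
  have h : (fun t => (F t * G t) i j) = ∑ k, (fun t => F t i k) * (fun t => G t k j) := by
    funext t
    rw [Finset.sum_apply, Matrix.mul_apply]
    rfl
  rw [h]
  exact Subalgebra.sum_mem _ fun k _ => (Poly A).mul_mem (hF i k) (hG k j)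

/-- A matrix valued function is polynomial if and only if its entries are. -/
theorem poly_matrix_iff {F : ℂ → Matrix n n A} :
    F ∈ Poly (Matrix n n A) ↔ ∀ i j, (fun t => F t i j) ∈ Poly A := by
  constructor
  · intro h i j
    obtain ⟨N, c, hc⟩ := mem_poly_iff.mp h
    refine mem_poly_iff.mpr ⟨N, fun k => c k i j, fun t => ?_⟩
    rw [hc t, Matrix.sum_apply]
    rfl
  · intro h
    have h1 : ∀ i j, (fun t => Matrix.single i j (F t i j)) ∈ Poly (Matrix n n A) := by
      intro i j
      obtain ⟨N, c, hc⟩ := mem_poly_iff.mp (h i j)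
      refine mem_poly_iff.mpr ⟨N, fun k => Matrix.single i j (c k), fun t => ?_⟩
      have h2 : F t i j = ∑ k ∈ Finset.range N, t ^ k • c k := hc t
      show Matrix.single i j (F t i j) = _
      rw [h2]
      rw [← Matrix.singleLinearMap_apply (R := ℂ), map_sum]
      refine Finset.sum_congr rfl fun k _ => ?_
      rw [map_smul, Matrix.singleLinearMap_apply]
    have h3 : F = ∑ i, ∑ j, (fun t => Matrix.single i j (F t i j)) := by
      funext t
      rw [Finset.sum_apply]
      conv_lhs => rw [Matrix.matrix_eq_sum_single (F t)]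
      refine Finset.sum_congr rfl fun i _ => ?_
      rw [Finset.sum_apply]
    rw [h3]
    exact Subalgebra.sum_mem _ fun i _ => Subalgebra.sum_mem _ fun j _ => h1 i j

end Pool.Agent.Lib.MP_e7fbd4_ag
end

section

/-! # P06 : polynomial functions of two variables: constants, coordinates -/

set_option autoImplicit false
set_option linter.unusedSectionVars false
set_option linter.unusedVariables false

namespace Pool.Agent.Lib.MP_e7fbd4_ag

open Matrix Pool.Agent.Lib.MP_c052b4_al

variable {A B : Type} [Ring A] [Algebra ℂ A] [Ring B] [Algebra ℂ B]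
  {n m l : Type} [Fintype n] [Fintype m] [Fintype l] [DecidableEq n] [DecidableEq m] [DecidableEq l]

/-- Polynomial functions of two variables. -/
def Poly2 (A : Type) [Ring A] [Algebra ℂ A] : Subalgebra ℂ (ℂ → ℂ → A) :=
  Algebra.adjoin ℂ (Set.range (fun (a : A) (_ _ : ℂ) => a) ∪
    {fun v _ => algebraMap ℂ A v, fun _ t => algebraMap ℂ A t})

theorem poly2_const (a : A) : (fun _ _ => a) ∈ Poly2 A :=
  Algebra.subset_adjoin (Or.inl ⟨a, rfl⟩)

theorem poly2_fst : (fun v _ : ℂ => v) ∈ Poly2 ℂ :=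
  Algebra.subset_adjoin (Or.inr (Or.inl rfl))

theorem poly2_snd : (fun _ t : ℂ => t) ∈ Poly2 ℂ :=
  Algebra.subset_adjoin (Or.inr (Or.inr rfl))

theorem poly2_of_poly_fst {f : ℂ → A} (hf : f ∈ Poly A) : (fun v _ => f v) ∈ Poly2 A := by
  unfold Poly at hf
  induction hf using Algebra.adjoin_induction with
  | mem x hx =>
    rcases hx with ⟨a, rfl⟩ | rfl
    · exact poly2_const a
    · exact Algebra.subset_adjoin (Or.inr (Or.inl rfl))
  | algebraMap c => exact poly2_const (algebraMap ℂ A c)
  | add x y _ _ hx hy => exact (Poly2 A).add_mem hx hy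
  | mul x y _ _ hx hy => exact (Poly2 A).mul_mem hx hy

theorem poly2_of_poly_snd {f : ℂ → A} (hf : f ∈ Poly A) : (fun _ t => f t) ∈ Poly2 A := by
  unfold Poly at hf
  induction hf using Algebra.adjoin_induction with
  | mem x hx =>
    rcases hx with ⟨a, rfl⟩ | rfl
    · exact poly2_const a
    · exact Algebra.subset_adjoin (Or.inr (Or.inr rfl))
  | algebraMap c => exact poly2_const (algebraMap ℂ A c)
  | add x y _ _ hx hy => exact (Poly2 A).add_mem hx hy
  | mul x y _ _ hx hy => exact (Poly2 A).mul_mem hx hy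

end Pool.Agent.Lib.MP_e7fbd4_ag
end

section

/-! # P07 : two variables: substitution, restriction to a curve, scalar multiplication -/

set_option autoImplicit false
set_option linter.unusedSectionVars false
set_option linter.unusedVariables false

namespace Pool.Agent.Lib.MP_e7fbd4_ag

open Matrix Pool.Agent.Lib.MP_c052b4_al

variable {A B : Type} [Ring A] [Algebra ℂ A] [Ring B] [Algebra ℂ B]
  {n m l : Type} [Fintype n] [Fintype m] [Fintype l] [DecidableEq n] [DecidableEq m] [DecidableEq l]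

private theorem P07_comp (φ : A →ₐ[ℂ] B) {F : ℂ → ℂ → A} (hF : F ∈ Poly2 A) :
    (fun v t => φ (F v t)) ∈ Poly2 B := by
  unfold Poly2 at hF
  induction hF using Algebra.adjoin_induction with
  | mem x hx =>
    rcases hx with ⟨a, rfl⟩ | rfl | rfl
    · exact poly2_const (φ a)
    · simp only [AlgHom.commutes]
      exact Algebra.subset_adjoin (Or.inr (Or.inl rfl))
    · simp only [AlgHom.commutes]
      exact Algebra.subset_adjoin (Or.inr (Or.inr rfl))
  | algebraMap c => exact poly2_const (φ (algebraMap ℂ A c))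
  | add x y _ _ hx hy =>
    have h : (fun v t => φ ((x + y) v t)) = (fun v t => φ (x v t)) + fun v t => φ (y v t) := by
      funext v t; exact map_add φ _ _
    rw [h]; exact (Poly2 B).add_mem hx hy
  | mul x y _ _ hx hy =>
    have h : (fun v t => φ ((x * y) v t)) = (fun v t => φ (x v t)) * fun v t => φ (y v t) := by
      funext v t; exact map_mul φ _ _
    rw [h]; exact (Poly2 B).mul_mem hx hy

/-- Substitution of two polynomials in two variables. -/
theorem poly2_subst {F : ℂ → ℂ → A} (hF : F ∈ Poly2 A) {p q : ℂ → ℂ → ℂ} (hp : p ∈ Poly2 ℂ)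
    (hq : q ∈ Poly2 ℂ) : (fun v t => F (p v t) (q v t)) ∈ Poly2 A := by
  unfold Poly2 at hF
  induction hF using Algebra.adjoin_induction with
  | mem x hx =>
    rcases hx with ⟨a, rfl⟩ | rfl | rfl
    · exact poly2_const a
    · exact P07_comp (Algebra.ofId ℂ A) hp
    · exact P07_comp (Algebra.ofId ℂ A) hq
  | algebraMap c => exact poly2_const (algebraMap ℂ A c)
  | add x y _ _ hx hy => exact (Poly2 A).add_mem hx hy
  | mul x y _ _ hx hy => exact (Poly2 A).mul_mem hx hy

/-- Restriction to a polynomial curve. -/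
theorem poly2_curve {F : ℂ → ℂ → A} (hF : F ∈ Poly2 A) {p q : ℂ → ℂ} (hp : p ∈ Poly ℂ)
    (hq : q ∈ Poly ℂ) : (fun t => F (p t) (q t)) ∈ Poly A := by
  unfold Poly2 at hF
  induction hF using Algebra.adjoin_induction with
  | mem x hx =>
    rcases hx with ⟨a, rfl⟩ | rfl | rfl
    · exact const_mem_poly a
    · exact comp_mem_poly (Algebra.ofId ℂ A) hp
    · exact comp_mem_poly (Algebra.ofId ℂ A) hq
  | algebraMap c => exact const_mem_poly (algebraMap ℂ A c)
  | add x y _ _ hx hy => exact (Poly A).add_mem hx hy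
  | mul x y _ _ hx hy => exact (Poly A).mul_mem hx hy

theorem poly2_smul {p : ℂ → ℂ → ℂ} (hp : p ∈ Poly2 ℂ) {F : ℂ → ℂ → A} (hF : F ∈ Poly2 A) :
    (fun v t => p v t • F v t) ∈ Poly2 A := by
  have h1 : (fun v t => p v t • F v t) = (fun v t => Algebra.ofId ℂ A (p v t)) * F := by
    funext v t
    exact Algebra.smul_def (p v t) (F v t)
  rw [h1]
  exact (Poly2 A).mul_mem (P07_comp (Algebra.ofId ℂ A) hp) hF

end Pool.Agent.Lib.MP_e7fbd4_ag
end

section

/-! # P08 : two variables: matrices -/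

set_option autoImplicit false
set_option linter.unusedSectionVars false
set_option linter.unusedVariables false

namespace Pool.Agent.Lib.MP_e7fbd4_ag

open Matrix Pool.Agent.Lib.MP_c052b4_al

variable {A B : Type} [Ring A] [Algebra ℂ A] [Ring B] [Algebra ℂ B]
  {n m l : Type} [Fintype n] [Fintype m] [Fintype l] [DecidableEq n] [DecidableEq m] [DecidableEq l]

theorem poly2_matmul {F : ℂ → ℂ → Matrix n m A} {G : ℂ → ℂ → Matrix m l A}
    (hF : ∀ i j, (fun v t => F v t i j) ∈ Poly2 A) (hG : ∀ i j, (fun v t => G v t i j) ∈ Poly2 A)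
    (i : n) (j : l) : (fun v t => (F v t * G v t) i j) ∈ Poly2 A := by
  have e : (fun v t => (F v t * G v t) i j) =
      ∑ k, (fun v t => F v t i k) * (fun v t => G v t k j) := by
    funext v t
    rw [Matrix.mul_apply, Finset.sum_apply, Finset.sum_apply]
    rfl
  rw [e]
  exact sum_mem fun k _ => mul_mem (hF i k) (hG k j)

private theorem P08_fst : (fun v _ => algebraMap ℂ A v : ℂ → ℂ → A) ∈ Poly2 A :=
  Algebra.subset_adjoin (Or.inr (Or.inl rfl))

private theorem P08_snd : (fun _ t => algebraMap ℂ A t : ℂ → ℂ → A) ∈ Poly2 A :=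
  Algebra.subset_adjoin (Or.inr (Or.inr rfl))

private theorem P08_entry {F : ℂ → ℂ → Matrix n n A} (hF : F ∈ Poly2 (Matrix n n A)) :
    ∀ i j, (fun v t => F v t i j) ∈ Poly2 A := by
  unfold Poly2 at hF
  induction hF using Algebra.adjoin_induction with
  | mem x hx =>
    intro i j
    rcases hx with ⟨a, rfl⟩ | rfl | rfl
    · exact poly2_const (a i j)
    · by_cases h : i = j
      · have e : (fun v t => (fun v _ => algebraMap ℂ (Matrix n n A) v : ℂ → ℂ → Matrix n n A)
            v t i j) = (fun v _ => algebraMap ℂ A v : ℂ → ℂ → A) := by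
          funext v t
          exact (Matrix.algebraMap_matrix_apply (r := v) (i := i) (j := j)).trans (if_pos h)
        rw [e]
        exact P08_fst
      · have e : (fun v t => (fun v _ => algebraMap ℂ (Matrix n n A) v : ℂ → ℂ → Matrix n n A)
            v t i j) = (fun _ _ => 0 : ℂ → ℂ → A) := by
          funext v t
          exact (Matrix.algebraMap_matrix_apply (r := v) (i := i) (j := j)).trans (if_neg h)
        rw [e]
        exact poly2_const 0
    · by_cases h : i = j
      · have e : (fun v t => (fun _ t => algebraMap ℂ (Matrix n n A) t : ℂ → ℂ → Matrix n n A)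
            v t i j) = (fun _ t => algebraMap ℂ A t : ℂ → ℂ → A) := by
          funext v t
          exact (Matrix.algebraMap_matrix_apply (r := t) (i := i) (j := j)).trans (if_pos h)
        rw [e]
        exact P08_snd
      · have e : (fun v t => (fun _ t => algebraMap ℂ (Matrix n n A) t : ℂ → ℂ → Matrix n n A)
            v t i j) = (fun _ _ => 0 : ℂ → ℂ → A) := by
          funext v t
          exact (Matrix.algebraMap_matrix_apply (r := t) (i := i) (j := j)).trans (if_neg h)
        rw [e]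
        exact poly2_const 0
  | algebraMap r =>
    intro i j
    exact poly2_const ((algebraMap ℂ (Matrix n n A) r) i j)
  | add x y _ _ hx hy =>
    intro i j
    exact add_mem (hx i j) (hy i j)
  | mul x y _ _ hx hy =>
    intro i j
    exact poly2_matmul hx hy i j

private theorem P08_single {G : ℂ → ℂ → A} (hG : G ∈ Poly2 A) :
    ∀ i j : n, (fun v t => Matrix.single i j (G v t)) ∈ Poly2 (Matrix n n A) := by
  unfold Poly2 at hG
  induction hG using Algebra.adjoin_induction with
  | mem x hx =>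
    intro i j
    rcases hx with ⟨a, rfl⟩ | rfl | rfl
    · exact poly2_const (Matrix.single i j a)
    · have e : (fun v t => Matrix.single i j ((fun v _ => algebraMap ℂ A v : ℂ → ℂ → A) v t)) =
          (fun v _ => algebraMap ℂ (Matrix n n A) v : ℂ → ℂ → Matrix n n A) *
            (fun _ _ => Matrix.single i j 1) := by
        funext v t
        change Matrix.single i j (algebraMap ℂ A v) =
          algebraMap ℂ (Matrix n n A) v * Matrix.single i j 1
        rw [← Algebra.smul_def, Matrix.smul_single, Algebra.algebraMap_eq_smul_one]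
      rw [e]
      exact mul_mem P08_fst (poly2_const _)
    · have e : (fun v t => Matrix.single i j ((fun _ t => algebraMap ℂ A t : ℂ → ℂ → A) v t)) =
          (fun _ t => algebraMap ℂ (Matrix n n A) t : ℂ → ℂ → Matrix n n A) *
            (fun _ _ => Matrix.single i j 1) := by
        funext v t
        change Matrix.single i j (algebraMap ℂ A t) =
          algebraMap ℂ (Matrix n n A) t * Matrix.single i j 1
        rw [← Algebra.smul_def, Matrix.smul_single, Algebra.algebraMap_eq_smul_one]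
      rw [e]
      exact mul_mem P08_snd (poly2_const _)
  | algebraMap r =>
    intro i j
    exact poly2_const (Matrix.single i j (algebraMap ℂ A r))
  | add x y _ _ hx hy =>
    intro i j
    have e : (fun v t => Matrix.single i j ((x + y) v t)) =
        (fun v t => Matrix.single i j (x v t)) + fun v t => Matrix.single i j (y v t) := by
      funext v t
      exact Matrix.single_add i j (x v t) (y v t)
    rw [e]
    exact add_mem (hx i j) (hy i j)
  | mul x y _ _ hx hy =>
    intro i j
    have e : (fun v t => Matrix.single i j ((x * y) v t)) =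
        (fun v t => Matrix.single i j (x v t)) * fun v t => Matrix.single j j (y v t) := by
      funext v t
      exact (Matrix.single_mul_single_same (i := i) (j := j) (k := j) (c := x v t) (d := y v t)).symm
    rw [e]
    exact mul_mem (hx i j) (hy j j)

theorem poly2_matrix_iff {F : ℂ → ℂ → Matrix n n A} :
    F ∈ Poly2 (Matrix n n A) ↔ ∀ i j, (fun v t => F v t i j) ∈ Poly2 A := by
  refine ⟨P08_entry, fun h => ?_⟩
  have e : F = ∑ i, ∑ j, fun v t => Matrix.single i j (F v t i j) := by
    funext v t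
    rw [Finset.sum_apply, Finset.sum_apply]
    conv_lhs => rw [Matrix.matrix_eq_sum_single (F v t)]
    refine Finset.sum_congr rfl fun i _ => ?_
    rw [Finset.sum_apply, Finset.sum_apply]
  rw [e]
  exact sum_mem fun i _ => sum_mem fun j _ => P08_single (h i j) i j

end Pool.Agent.Lib.MP_e7fbd4_ag
end

section

/-! # P02 : coefficients lie in the span of values (Lagrange/Vandermonde); uniqueness of coefficients -/

set_option autoImplicit false
set_option linter.unusedSectionVars false
set_option linter.unusedVariables false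

namespace Pool.Agent.Lib.MP_e7fbd4_ag

open Matrix Pool.Agent.Lib.MP_c052b4_al

variable {A B : Type} [Ring A] [Algebra ℂ A] [Ring B] [Algebra ℂ B]
  {n m l : Type} [Fintype n] [Fintype m] [Fintype l] [DecidableEq n] [DecidableEq m] [DecidableEq l]

private theorem P02_scalar {N : ℕ} {c : ℕ → ℂ}
    (h : ∀ t : ℂ, ∑ i ∈ Finset.range N, t ^ i * c i = 0) : ∀ i < N, c i = 0 := by
  have h1 : (∑ i ∈ Finset.range N, Polynomial.C (c i) * Polynomial.X ^ i) = 0 := by
    apply Polynomial.funext
    intro t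
    rw [Polynomial.eval_finsetSum, Polynomial.eval_zero, ← h t]
    apply Finset.sum_congr rfl
    intro i _
    rw [Polynomial.eval_mul, Polynomial.eval_C, Polynomial.eval_pow, Polynomial.eval_X, mul_comm]
  intro i hi
  have h2 := congrArg (fun p => Polynomial.coeff p i) h1
  simp only [Polynomial.finsetSum_coeff, Polynomial.coeff_C_mul_X_pow, Polynomial.coeff_zero] at h2
  rw [Finset.sum_ite_eq, if_pos (Finset.mem_range.2 hi)] at h2
  exact h2

private theorem P02_module {M : Type} [AddCommGroup M] [Module ℂ M] {N : ℕ} {c : ℕ → M}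
    (h : ∀ t : ℂ, ∑ i ∈ Finset.range N, t ^ i • c i = 0) : ∀ i < N, c i = 0 := by
  intro i hi
  rw [← Module.forall_dual_apply_eq_zero_iff ℂ]
  intro φ
  refine P02_scalar (c := fun i => φ (c i)) (fun t => ?_) i hi
  have h1 := congrArg φ (h t)
  rw [map_sum, map_zero] at h1
  rw [← h1]
  apply Finset.sum_congr rfl
  intro j _
  rw [map_smul, smul_eq_mul]

/-- If a polynomial function takes values in a linear subspace then it has coefficients in that
subspace. (Its coefficients are linear combinations of values: take `N` distinct points and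
Vandermonde, or Lagrange interpolation.) -/
theorem exists_coeff_mem {f : ℂ → A} (hf : f ∈ Poly A) (V : Submodule ℂ A) (hV : ∀ t, f t ∈ V) :
    ∃ (N : ℕ) (c : ℕ → A), (∀ i, c i ∈ V) ∧ ∀ t, f t = ∑ i ∈ Finset.range N, t ^ i • c i := by
  obtain ⟨N, c, hc⟩ := mem_poly_iff.1 hf
  have h1 : ∀ i < N, c i ∈ V := by
    intro i hi
    rw [← Submodule.Quotient.mk_eq_zero (p := V)]
    refine P02_module (c := fun i => (Submodule.Quotient.mk (c i) : A ⧸ V)) (fun t => ?_) i hi
    have h2 := (Submodule.Quotient.mk_eq_zero V).2 (hV t)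
    rw [hc t] at h2
    have h3 : V.mkQ (∑ i ∈ Finset.range N, t ^ i • c i) = 0 := h2
    rw [map_sum] at h3
    rw [← h3]
    apply Finset.sum_congr rfl
    intro j _
    rw [map_smul]
    rfl
  refine ⟨N, fun i => if i < N then c i else 0, fun i => ?_, fun t => ?_⟩
  · dsimp only
    split_ifs with h
    · exact h1 i h
    · exact V.zero_mem
  · rw [hc t]
    apply Finset.sum_congr rfl
    intro i hi
    dsimp only
    rw [if_pos (Finset.mem_range.1 hi)]

/-- Uniqueness of coefficients. -/
theorem coeff_unique {N : ℕ} {c : ℕ → A} (h : ∀ t : ℂ, ∑ i ∈ Finset.range N, t ^ i • c i = 0) :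
    ∀ i < N, c i = 0 := P02_module h

end Pool.Agent.Lib.MP_e7fbd4_ag
end
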