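import Pool.Agent.Lib.MP_e7fbd4_ag.Mg.G003
import Pool.Agent.Lib.MP_e7fbd4_ag.Mg.G005

section

/-! # W10 : equality in KV_1; stabilization -/

set_option autoImplicit false
set_option linter.unusedSectionVars false
set_option linter.unusedVariables false

namespace Pool.Agent.Lib.MP_e7fbd4_ag

open Matrix Pool.Agent.Lib.MP_c052b4_al

variable {A B : Type} [Ring A] [Algebra ℂ A] [Ring B] [Algebra ℂ B]
  {n m l : Type} [Fintype n] [Fintype m] [Fintype l] [DecidableEq n] [DecidableEq m] [DecidableEq l]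

/-- Two matrices have the same class in `KV₁` if and only if they are joined after
stabilization. -/
theorem kv_eq_iff (g h : (Matrix n n A)ˣ) : kv g = kv h ↔
    ∃ p : ℕ, PathTo (bl g (1 : (Matrix (Fin p) (Fin p) A)ˣ)) (bl h 1) := by
  constructor
  · intro hgh
    have h0 : kv (rU (Fintype.equivFin n) (g * h⁻¹)) = 0 := by
      rw [kv_rU, kv_mul, kv_inv, hgh, add_neg_cancel]
    obtain ⟨p, hp⟩ := pathTo_of_kv _ h0
    refine ⟨p, ?_⟩
    have h1 : PathTo 1 (bl (g * h⁻¹) (1 : (Matrix (Fin p) (Fin p) A)ˣ)) := by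
      rw [← W08_rU_refl (1 : (Matrix (Fin p) (Fin p) A)ˣ), W08_bl_rU_rU] at hp
      exact W08_unrU _ hp
    have h2 := h1.mul (PathTo.refl (bl h (1 : (Matrix (Fin p) (Fin p) A)ˣ)))
    rw [one_mul, ← bl_mul, inv_mul_cancel_right, one_mul] at h2
    exact h2.symm
  · rintro ⟨p, H⟩
    have h1 := H.kv_eq
    rw [kv_bl_one, kv_bl_one] at h1
    exact h1

/-- stabilization by an arbitrary larger number is possible as well -/
theorem pathTo_stab {g h : (Matrix n n A)ˣ} {p q : ℕ} (hpq : p ≤ q)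
    (H : PathTo (bl g (1 : (Matrix (Fin p) (Fin p) A)ˣ)) (bl h 1)) :
    PathTo (bl g (1 : (Matrix (Fin q) (Fin q) A)ˣ)) (bl h 1) := by
  obtain ⟨r, rfl⟩ := Nat.exists_eq_add_of_le hpq
  have h1 := H.bl (PathTo.refl (1 : (Matrix (Fin r) (Fin r) A)ˣ))
  have e : ∀ x : (Matrix n n A)ˣ,
      bl (bl x (1 : (Matrix (Fin p) (Fin p) A)ˣ)) (1 : (Matrix (Fin r) (Fin r) A)ˣ) =
      rU ((Equiv.sumCongr (Equiv.refl n) finSumFinEquiv.symm).trans
        ((Equiv.sumAssoc n (Fin p) (Fin r)).symm.trans (Equiv.sumCongr (Equiv.refl (n ⊕ Fin p))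
          (Equiv.refl (Fin r)))))
        (bl x (1 : (Matrix (Fin (p + r)) (Fin (p + r)) A)ˣ)) := fun x => by
    rw [← W08_bl_rU, W08_rU_refl]
  rw [e, e] at h1
  have h2 := h1.rU (((Equiv.sumCongr (Equiv.refl n) finSumFinEquiv.symm).trans
        ((Equiv.sumAssoc n (Fin p) (Fin r)).symm.trans (Equiv.sumCongr (Equiv.refl (n ⊕ Fin p))
          (Equiv.refl (Fin r)))))).symm
  rw [rU_rU, rU_rU, Equiv.self_trans_symm, W08_rU_refl, W08_rU_refl] at h2
  exact h2

end Pool.Agent.Lib.MP_e7fbd4_ag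
end

section

/-!
# The general form of the theorem, from (V1), (V2), the matrix property and the retractions
-/

set_option autoImplicit false
set_option linter.unusedVariables false

namespace Pool.Agent.Lib.MP_e7fbd4_ag

open Pool.Agent.Lib.MP_c052b4_al

/-- A functor has traces if for every algebra `B` and every finite set `W` there is a homomorphism
`tr : T(M_W(B)) → T(B)` which maps `diag(φ_w)_* x` to `∑ (φ_w)_* x`, for all homomorphisms
`φ_w : C → B`. -/
def HasTrace (T : AlgFunctor) : Prop :=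
  ∀ (B W : Type) [Ring B] [Algebra ℂ B] [Fintype W] [DecidableEq W],
    ∃ tr : T.obj (Matrix W W B) →+ T.obj B,
      ∀ (C : Type) [Ring C] [Algebra ℂ C] (φ : W → (C →ₐ[ℂ] B)) (x : T.obj C),
        tr (T.map (diagHom φ) x) = ∑ w, T.map (φ w) x

theorem HasTrace.tr {T : AlgFunctor} (hT : HasTrace T) (C B W : Type) [Ring C] [Algebra ℂ C]
    [Ring B] [Algebra ℂ B] [Fintype W] [DecidableEq W] (w₀ : W) (φ : W → (C →ₐ[ℂ] B))
    (x : T.obj C) (z : T.obj (B × B)) (h : T.map (diagHom φ) x = T.map (kapM B W w₀) z) :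
    ∑ w, T.map (φ w) x = T.map (AlgHom.fst ℂ B B) z +
      (Fintype.card W - 1) • T.map (AlgHom.snd ℂ B B) z := by
  obtain ⟨tr, htr⟩ := hT B W
  have h1 := congrArg tr h
  rw [htr] at h1
  have h2 := htr (B × B) (fun w => if w = w₀ then AlgHom.fst ℂ B B else AlgHom.snd ℂ B B) z
  rw [h1]
  refine h2.trans ?_
  rw [← Finset.add_sum_erase _ _ (Finset.mem_univ w₀)]
  rw [if_pos rfl]
  congr 1
  rw [Finset.sum_congr rfl (g := fun _ => T.map (AlgHom.snd ℂ B B) z), Finset.sum_const,
    Finset.card_erase_of_mem (Finset.mem_univ w₀), Finset.card_univ]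
  intro w hw
  rw [if_neg (Finset.ne_of_mem_erase hw)]

/-- A natural isomorphism. -/
structure NatIso (F G : AlgFunctor) extends NatHom F G where
  bij : ∀ (A : Type) [Ring A] [Algebra ℂ A], Function.Bijective (app A)

/-- The inverse. -/
noncomputable def NatIso.inv {F G : AlgFunctor} (e : NatIso F G) : NatHom G F where
  app A _ _ := (AddEquiv.ofBijective (e.app A) (e.bij A)).symm.toAddMonoidHom
  nat {A B} _ _ _ _ f x := by
    apply (e.bij B).1
    have h1 : e.app B ((AddEquiv.ofBijective (e.app B) (e.bij B)).symm (G.map f x)) = G.map f x :=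
      (AddEquiv.ofBijective (e.app B) (e.bij B)).apply_symm_apply _
    have h2 : e.app A ((AddEquiv.ofBijective (e.app A) (e.bij A)).symm x) = x :=
      (AddEquiv.ofBijective (e.app A) (e.bij A)).apply_symm_apply _
    refine h1.trans ?_
    exact ((e.nat f _).trans (congrArg _ h2)).symm

theorem NatIso.inv_inj {F G : AlgFunctor} (e : NatIso F G) (A : Type) [Ring A] [Algebra ℂ A] :
    Function.Injective (e.inv.app A) :=
  (AddEquiv.ofBijective (e.app A) (e.bij A)).symm.injective

/-- Composition. -/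
def NatHom.comp {F G H : AlgFunctor} (η : NatHom G H) (θ : NatHom F G) : NatHom F H where
  app A _ _ := (η.app A).comp (θ.app A)
  nat {A B} _ _ _ _ f x := (congrArg _ (θ.nat f x)).trans (η.nat f _)

/-- The general statement, for one odd number `N = k + 4`. -/
theorem general_one (m : ℕ) [NeZero m] (k : ℕ) (hm : ¬ m ∣ (k + 4) * (k + 4)) {A : Type} [Ring A]
    [Algebra ℂ A] (D : RetractData (k + 4) A) (hV1 : V1 m) (hV2 : V2 m)
    (hM : ∀ k, MatProp (hK m k)) {T T' : AlgFunctor} (β : NatIso T T') (hT : TrProp T)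
    (θ : NatHom (hK m k) T) (η : NatHom (hK m (k + 2)) T') :
    ¬ (Function.Surjective (θ.app A) ∧ Function.Injective (η.app A)) := by
  obtain ⟨u, hu, hσ, hc⟩ := hV2 (k + 2)
  rintro ⟨h1, h2⟩
  have : NeZero (k + 4) := ⟨by omega⟩
  refine not_bijective (N := k + 4) D θ (β.inv.comp η) (hM k).gen (hM (k + 2)).tr hT
    (hV1 k (k + 4) (by omega)) hu hσ (hc _ hm) ⟨h1, ?_⟩
  exact (β.inv_inj A).comp h2

/-- The general statement with a natural transformation `θ`. -/
theorem general_theta (m : ℕ) [NeZero m] (k : ℕ) (hm : ¬ m ∣ k + 4) {A : Type} [Ring A]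
    [Algebra ℂ A] (D : RetractData (k + 4) A) (hV1 : V1 m) (hV2 : V2 m)
    (hM : ∀ k, MatProp (hK m k)) (θ : NatHom (hK m k) (hK m (k + 2))) :
    ¬ Function.Surjective (θ.app A) := by
  obtain ⟨u, hu, hσ, hc⟩ := hV2 (k + 2)
  intro h1
  have : NeZero (k + 4) := ⟨by omega⟩
  exact not_surjective (N := k + 4) D θ (hM k).gen (hM (k + 2)).tr
    (hV1 k (k + 4) (by omega)) hu hσ (hc _ hm) (h1 _)

/-- a large odd number whose square is not divisible by `m` -/
theorem exists_large (m : ℕ) (hm : 2 ≤ m) (d : ℕ) :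
    ∃ k, d ≤ k ∧ Odd (k + 4) ∧ ¬ m ∣ (k + 4) * (k + 4) ∧ ¬ m ∣ k + 4 := by
  obtain ⟨p, hp, hpp⟩ := Nat.exists_infinite_primes (d + m + 5)
  have h2 : p ≠ 2 := by omega
  refine ⟨p - 4, by omega, ?_, ?_, ?_⟩
  · rw [Nat.sub_add_cancel (by omega)]
    exact hpp.odd_of_ne_two h2
  · rw [Nat.sub_add_cancel (by omega)]
    intro h
    rw [← pow_two] at h
    obtain ⟨j, hj, rfl⟩ := (Nat.dvd_prime_pow hpp).1 h
    rcases j with _ | j
    · rw [pow_zero] at hm; omega
    · have : p ≤ p ^ (j + 1) := Nat.le_self_pow (by omega) p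
      omega
  · rw [Nat.sub_add_cancel (by omega)]
    intro h
    rcases (Nat.dvd_prime hpp).1 h with h | h <;> omega

/-- The general statement for a periodic family. -/
theorem general_family (m : ℕ) [NeZero m] (hm : 2 ≤ m) {A : Type} [Ring A] [Algebra ℂ A]
    (D : ∀ N : ℕ, Odd N → Nonempty (RetractData N A)) (hV1 : V1 m) (hV2 : V2 m)
    (hM : ∀ k, MatProp (hK m k)) (T : ℕ → AlgFunctor) (β : ∀ k, NatIso (T k) (T (k + 2)))
    (hT : ∀ k, TrProp (T k)) (comp : ∀ k, NatHom (hK m k) (T k)) (d : ℕ) :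
    ∃ k, d ≤ k ∧ ¬ Function.Bijective ((comp k).app A) := by
  obtain ⟨k, hk, hodd, hmk, -⟩ := exists_large m hm d
  obtain ⟨R⟩ := D (k + 4) hodd
  by_contra hcon
  push Not at hcon
  exact general_one m k hmk R hV1 hV2 hM (β k) (hT k) (comp k) (comp (k + 2))
    ⟨(hcon k hk).2, (hcon (k + 2) (by omega)).1⟩

/-- The general statement for natural transformations. -/
theorem general_bott (m : ℕ) [NeZero m] (hm : 2 ≤ m) {A : Type} [Ring A] [Algebra ℂ A]
    (D : ∀ N : ℕ, Odd N → Nonempty (RetractData N A)) (hV1 : V1 m) (hV2 : V2 m)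
    (hM : ∀ k, MatProp (hK m k)) (θ : ∀ k, NatHom (hK m k) (hK m (k + 2))) (d : ℕ) :
    ∃ k, d ≤ k ∧ ¬ Function.Surjective ((θ k).app A) := by
  obtain ⟨k, hk, hodd, -, hmk⟩ := exists_large m hm d
  obtain ⟨R⟩ := D (k + 4) hodd
  exact ⟨k, hk, general_theta m k hmk R hV1 hV2 hM (θ k)⟩

end Pool.Agent.Lib.MP_e7fbd4_ag
end

section

/-!
# Colimits of sequences of functors along maps of degree two
-/

set_option autoImplicit false
set_option linter.unusedVariables false

namespace Pool.Agent.Lib.MP_e7fbd4_ag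

open Pool.Agent.Lib.MP_c052b4_al

/-- the zero map -/
noncomputable def NatHom.zero (F G : AlgFunctor) : NatHom F G where
  app A _ _ := 0
  nat {A B} _ _ _ _ f x := (map_zero _).symm

/-- the identity -/
noncomputable def NatHom.refl (F : AlgFunctor) : NatHom F F where
  app A _ _ := AddMonoidHom.id _
  nat {A B} _ _ _ _ f x := rfl

/-- equal indices -/
noncomputable def NatHom.ofEq (F : ℕ → AlgFunctor) {k n : ℕ} (h : k = n) : NatHom (F k) (F n) :=
  h ▸ NatHom.refl (F k)

theorem NatHom.ofEq_rfl (F : ℕ → AlgFunctor) (k : ℕ) : NatHom.ofEq F (rfl : k = k) =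
  NatHom.refl (F k) := rfl

section

variable (F : ℕ → AlgFunctor) (b : ∀ n, NatHom (F n) (F (n + 2)))

/-- Sequences `(x_n)`, `x_n ∈ F_n(A)`, with `b x_n = x_{n+2}` for all large `n` with `n ≡ e (2)`. -/
noncomputable def evComp (e : ℕ) (A : Type) [Ring A] [Algebra ℂ A] :
    AddSubgroup (∀ n, (F n).obj A) where
  carrier := {x | ∃ N, ∀ n, N ≤ n → n % 2 = e → (b n).app A (x n) = x (n + 2)}
  zero_mem' := ⟨0, fun n _ _ => map_zero _⟩
  add_mem' := by
    rintro x y ⟨N, hx⟩ ⟨M, hy⟩
    refine ⟨max N M, fun n hn he => ?_⟩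
    have h : (b n).app A (x n + y n) = x (n + 2) + y (n + 2) := by
      rw [map_add, hx n (le_trans (le_max_left _ _) hn) he, hy n (le_trans (le_max_right _ _) hn) he]
    exact h
  neg_mem' := by
    rintro x ⟨N, hx⟩
    refine ⟨N, fun n hn he => ?_⟩
    have h : (b n).app A (-(x n)) = -(x (n + 2)) := by rw [map_neg, hx n hn he]
    exact h

/-- Sequences with `x_n = 0` for all large `n` with `n ≡ e (2)`. -/
noncomputable def evZero (e : ℕ) (A : Type) [Ring A] [Algebra ℂ A] :
    AddSubgroup (evComp F b e A) where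
  carrier := {x | ∃ N, ∀ n, N ≤ n → n % 2 = e → x.1 n = 0}
  zero_mem' := ⟨0, fun n _ _ => rfl⟩
  add_mem' := by
    rintro x y ⟨N, hx⟩ ⟨M, hy⟩
    refine ⟨max N M, fun n hn he => ?_⟩
    have h : x.1 n + y.1 n = 0 := by
      rw [hx n (le_trans (le_max_left _ _) hn) he, hy n (le_trans (le_max_right _ _) hn) he,
        add_zero]
    exact h
  neg_mem' := by
    rintro x ⟨N, hx⟩
    refine ⟨N, fun n hn he => ?_⟩
    have h : -(x.1 n) = 0 := by rw [hx n hn he, neg_zero]
    exact h

/-- the induced map on sequences -/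
noncomputable def evMap (e : ℕ) {A B : Type} [Ring A] [Algebra ℂ A] [Ring B] [Algebra ℂ B]
    (f : A →ₐ[ℂ] B) : evComp F b e A →+ evComp F b e B where
  toFun x := ⟨fun n => (F n).map f (x.1 n), by
    obtain ⟨N, hN⟩ := x.2
    exact ⟨N, fun n hn he => by rw [(b n).nat, hN n hn he]⟩⟩
  map_zero' := Subtype.ext (funext fun n => map_zero _)
  map_add' x y := Subtype.ext (funext fun n => map_add _ _ _)

theorem evMap_le (e : ℕ) {A B : Type} [Ring A] [Algebra ℂ A] [Ring B] [Algebra ℂ B]
    (f : A →ₐ[ℂ] B) : evZero F b e A ≤ (evZero F b e B).comap (evMap F b e f) := by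
  rintro x ⟨N, hN⟩
  refine ⟨N, fun n hn he => ?_⟩
  have h : (F n).map f (x.1 n) = 0 := by rw [hN n hn he, map_zero]
  exact h

/-- The colimit of `F_n → F_{n+2} → F_{n+4} → ⋯`, `n ≡ e (2)`: eventually compatible sequences
modulo eventually vanishing ones. -/
noncomputable def colimF (e : ℕ) : AlgFunctor where
  obj A _ _ := AddCommGrpCat.of (evComp F b e A ⧸ evZero F b e A)
  map {A B} _ _ _ _ f :=
    QuotientAddGroup.map (evZero F b e A) (evZero F b e B) (evMap F b e f) (evMap_le F b e f)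
  map_id A _ _ := by
    apply AddMonoidHom.ext
    intro x
    obtain ⟨y, rfl⟩ := QuotientAddGroup.mk_surjective x
    refine congrArg QuotientAddGroup.mk ?_
    exact Subtype.ext (funext fun n => mapid (F n) (y.1 n))
  map_comp {A B C} _ _ _ _ _ _ g f := by
    apply AddMonoidHom.ext
    intro x
    obtain ⟨y, rfl⟩ := QuotientAddGroup.mk_surjective x
    refine congrArg QuotientAddGroup.mk ?_
    exact Subtype.ext (funext fun n => (mapmap (F n) g f (y.1 n)).symm)

/-- the class of a sequence -/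
noncomputable def cls (e : ℕ) (A : Type) [Ring A] [Algebra ℂ A] :
    evComp F b e A →+ (colimF F b e).obj A := QuotientAddGroup.mk' (evZero F b e A)

theorem cls_surjective (e : ℕ) (A : Type) [Ring A] [Algebra ℂ A] :
    Function.Surjective (cls F b e A) := QuotientAddGroup.mk'_surjective _

theorem cls_eq_zero (e : ℕ) {A : Type} [Ring A] [Algebra ℂ A] (x : evComp F b e A) :
    cls F b e A x = 0 ↔ ∃ N, ∀ n, N ≤ n → n % 2 = e → x.1 n = 0 :=
  QuotientAddGroup.eq_zero_iff _

theorem cls_eq (e : ℕ) {A : Type} [Ring A] [Algebra ℂ A] (x y : evComp F b e A) :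
    cls F b e A x = cls F b e A y ↔ ∃ N, ∀ n, N ≤ n → n % 2 = e → x.1 n = y.1 n := by
  rw [← sub_eq_zero, ← map_sub, cls_eq_zero]
  constructor
  · rintro ⟨N, hN⟩
    exact ⟨N, fun n hn he => sub_eq_zero.1 (hN n hn he)⟩
  · rintro ⟨N, hN⟩
    exact ⟨N, fun n hn he => sub_eq_zero.2 (hN n hn he)⟩

theorem map_cls (e : ℕ) {A B : Type} [Ring A] [Algebra ℂ A] [Ring B] [Algebra ℂ B]
    (f : A →ₐ[ℂ] B) (x : evComp F b e A) :
    (colimF F b e).map f (cls F b e A x) = cls F b e B (evMap F b e f x) := rfl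

/-- `b^j : F_k → F_n` for `n = k + 2 j`, zero otherwise -/
noncomputable def extN (k : ℕ) : (n : ℕ) → NatHom (F k) (F n)
  | 0 => if h : k = 0 then NatHom.ofEq F h else NatHom.zero _ _
  | 1 => if h : k = 1 then NatHom.ofEq F h else NatHom.zero _ _
  | n + 2 => if h : k = n + 2 then NatHom.ofEq F h else (b n).comp (extN k n)

theorem extN_step {k n : ℕ} (h : k ≤ n) (A : Type) [Ring A] [Algebra ℂ A] (x : (F k).obj A) :
    (b n).app A ((extN F b k n).app A x) = (extN F b k (n + 2)).app A x := by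
  have h1 : extN F b k (n + 2) = (b n).comp (extN F b k n) := by
    rw [extN, dif_neg (by omega)]
  rw [h1]
  rfl

theorem extN_self (k : ℕ) : extN F b k k = NatHom.refl (F k) := by
  rcases k with _ | _ | k
  · rw [extN, dif_pos rfl]; rfl
  · rw [extN, dif_pos rfl]; rfl
  · rw [extN, dif_pos rfl]; rfl

/-- The map `F_k → colim` for `k ≡ e (2)`. -/
noncomputable def toColim (e k : ℕ) : NatHom (F k) (colimF F b e) where
  app A _ _ := (cls F b e A).comp
    { toFun := fun x => ⟨fun n => (extN F b k n).app A x, k, fun n hn _ => extN_step F b hn A x⟩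
      map_zero' := Subtype.ext (funext fun n => map_zero _)
      map_add' := fun x y => Subtype.ext (funext fun n => map_add _ _ _) }
  nat {A B} _ _ _ _ f x := by
    refine congrArg (cls F b e B) ?_
    exact Subtype.ext (funext fun n => (extN F b k n).nat f x)

/-- The trace property passes to the colimit. -/
theorem colimF_tr (e : ℕ) (hF : ∀ n, TrProp (F n)) : TrProp (colimF F b e) := by
  intro C B W _ _ _ _ _ _ w₀ φ x z h
  obtain ⟨x, rfl⟩ := cls_surjective F b e C x
  obtain ⟨z, rfl⟩ := cls_surjective F b e (B × B) z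
  rw [map_cls, map_cls, cls_eq] at h
  obtain ⟨N, hN⟩ := h
  simp only [map_cls]
  rw [← map_nsmul, ← map_add, ← map_sum, cls_eq]
  refine ⟨N, fun n hn he => ?_⟩
  have h1 := hF n C B W w₀ φ (x.1 n) (z.1 n) (hN n hn he)
  have h2 : (∑ w, evMap F b e (φ w) x).1 n = ∑ w, (F n).map (φ w) (x.1 n) := by
    rw [AddSubgroup.val_finsetSum, Finset.sum_apply]
    rfl
  rw [h2, h1]
  rfl

/-- The colimit in degree `k`. -/
noncomputable def colimT (k : ℕ) : AlgFunctor := colimF F b (k % 2)

/-- The canonical map. -/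
noncomputable def toColimT (k : ℕ) : NatHom (F k) (colimT F b k) := toColim F b (k % 2) k

/-- equal functors are isomorphic -/
noncomputable def NatIso.ofEq {F G : AlgFunctor} (h : F = G) : NatIso F G :=
  h ▸ { toNatHom := NatHom.refl F, bij := fun A _ _ => Function.bijective_id }

/-- The colimit is periodic. -/
noncomputable def colimPer (k : ℕ) : NatIso (colimT F b k) (colimT F b (k + 2)) :=
  NatIso.ofEq (by
    unfold colimT
    rw [Nat.add_mod_right])

theorem colimT_tr (hF : ∀ n, TrProp (F n)) (k : ℕ) : TrProp (colimT F b k) :=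
  colimF_tr F b (k % 2) hF

/-! ### Sanity checks -/

/-- For `n ≥ k`, `n ≡ k ≡ e (2)`, a sequence which is compatible from `k` on is determined by its
value at `k`. -/
theorem extN_eq {e k : ℕ} (hk : k % 2 = e) {A : Type} [Ring A] [Algebra ℂ A]
    {x : ∀ n, (F n).obj A} (hx : ∀ n, k ≤ n → n % 2 = e → (b n).app A (x n) = x (n + 2)) :
    ∀ n, k ≤ n → n % 2 = e → (extN F b k n).app A (x k) = x n := by
  have main : ∀ j, (extN F b k (k + 2 * j)).app A (x k) = x (k + 2 * j) := by
    intro j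
    induction j with
    | zero =>
      change (extN F b k k).app A (x k) = x k
      rw [extN_self]
      rfl
    | succ j ih =>
      change (extN F b k (k + 2 * j + 2)).app A (x k) = x (k + 2 * j + 2)
      rw [← extN_step F b (by omega), ih, hx _ (by omega) (by omega)]
  intro n hn he
  obtain ⟨j, rfl⟩ : ∃ j, n = k + 2 * j := ⟨(n - k) / 2, by omega⟩
  exact main j

/-- Every element of the colimit comes from some `F_k(A)`, with `k ≥ K`. -/
theorem exists_toColim (e : ℕ) (he : e < 2) (K : ℕ) {A : Type} [Ring A] [Algebra ℂ A]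
    (y : (colimF F b e).obj A) :
    ∃ k, K ≤ k ∧ k % 2 = e ∧ ∃ x : (F k).obj A, (toColim F b e k).app A x = y := by
  obtain ⟨x, rfl⟩ := cls_surjective F b e A y
  obtain ⟨N, hN⟩ := x.2
  refine ⟨2 * (N + K) + e, by omega, by omega, x.1 _, ?_⟩
  have h : ∀ n, 2 * (N + K) + e ≤ n → n % 2 = e →
      (extN F b (2 * (N + K) + e) n).app A (x.1 _) = x.1 n :=
    extN_eq F b (by omega) fun n hn he => hN n (by omega) he
  exact (cls_eq F b e _ _).2 ⟨_, h⟩

/-- The canonical maps are compatible with `b`. -/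
theorem toColim_step (e k : ℕ) (hk : k % 2 = e) {A : Type} [Ring A] [Algebra ℂ A]
    (x : (F k).obj A) :
    (toColim F b e (k + 2)).app A ((b k).app A x) = (toColim F b e k).app A x := by
  refine (cls_eq F b e _ _).2 ⟨k + 2, fun n hn he => ?_⟩
  have h : ∀ n, k ≤ n → n % 2 = e → (b n).app A ((extN F b k n).app A x) =
      (extN F b k (n + 2)).app A x := fun n hn _ => extN_step F b hn A x
  have h1 := extN_eq F b (e := e) (k := k + 2) (by omega)
    (x := fun n => (extN F b k n).app A x) (fun n hn he => h n (by omega) he) n hn he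
  have h2 : (extN F b k (k + 2)).app A x = (b k).app A x := by
    rw [← extN_step F b (le_refl k), extN_self]
    rfl
  rw [h2] at h1
  exact h1

end

end Pool.Agent.Lib.MP_e7fbd4_ag
end
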