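import Pool.Agent.Lib.MP_e7fbd4_ag.Mg.G015

section

open scoped TensorProduct

set_option autoImplicit false

namespace Pool.Agent.Lib.MP_e7fbd4_ag

variable {X J : Type}

/-- A dg algebra structure on the free algebra on a graded set of letters. -/
structure Cell (X : Type) where
  /-- degrees of the letters -/
  deg : X → ℤ
  /-- the differential -/
  d : FreeAlgebra ℂ X →ₗ[ℂ] FreeAlgebra ℂ X
  d_mul : ∀ a b, d (a * b) = d a * b + sg deg a * d b
  d_ι_mem : ∀ x, d (FreeAlgebra.ι ℂ x) ∈ fgr deg (deg x - 1)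
  d_d_ι : ∀ x, d (d (FreeAlgebra.ι ℂ x)) = 0

namespace Cell

variable (C : Cell X)

theorem d_one : C.d 1 = 0 := by
  have h := C.d_mul 1 1
  rw [mul_one, mul_one, map_one (sg C.deg), one_mul] at h
  exact left_eq_add.mp h

theorem d_mem (n : ℤ) (a : FreeAlgebra ℂ X) (ha : a ∈ fgr C.deg n) :
    C.d a ∈ fgr C.deg (n - 1) := by
  have key : ∀ u : FreeMonoid X, C.d (word u) ∈ fgr C.deg ((wdeg C.deg u).toAdd - 1) := by
    intro u
    induction u using FreeMonoid.inductionOn' with
    | one => rw [map_one word, d_one]; exact Submodule.zero_mem _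
    | of_mul x xs ih =>
      rw [map_mul word, C.d_mul, map_mul (wdeg C.deg), toAdd_mul, word_of, wdeg,
        FreeMonoid.lift_eval_of, toAdd_ofAdd, ← wdeg]
      refine Submodule.add_mem _ ?_ ?_
      · have h := mul_mem_fgr C.deg (C.d_ι_mem x) (word_mem_fgr C.deg xs)
        have e : C.deg x + (wdeg C.deg xs).toAdd - 1 = C.deg x - 1 + (wdeg C.deg xs).toAdd := by
          ring
        rw [e]; exact h
      · have h := mul_mem_fgr C.deg (ι_mem_fgr C.deg x) ih
        rw [sg_ι, smul_mul_assoc]
        refine Submodule.smul_mem _ _ ?_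
        have e : C.deg x + (wdeg C.deg xs).toAdd - 1 = C.deg x + ((wdeg C.deg xs).toAdd - 1) := by
          ring
        rw [e]; exact h
  unfold fgr at ha
  induction ha using Submodule.span_induction with
  | mem x hx =>
    obtain ⟨u, hu, rfl⟩ := hx
    simp only [Set.mem_ofPred_eq] at hu
    rw [← hu]
    exact key u
  | zero => rw [map_zero]; exact Submodule.zero_mem _
  | add y z _ _ hy hz => rw [map_add]; exact Submodule.add_mem _ hy hz
  | smul c y _ hy => rw [map_smul]; exact Submodule.smul_mem _ _ hy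

theorem d_sg (a : FreeAlgebra ℂ X) : C.d (sg C.deg a) = (-1 : ℂ) • sg C.deg (C.d a) := by
  have h : C.d ∘ₗ (sg C.deg).toLinearMap = (-1 : ℂ) • (sg C.deg).toLinearMap ∘ₗ C.d := by
    refine eq_of_gr (fgr C.deg) (fgr_span C.deg) _ _ ?_
    intro n m hm
    have h1 := sg_of_mem C.deg n hm
    have h2 := sg_of_mem C.deg (n - 1) (C.d_mem n m hm)
    simp only [LinearMap.comp_apply, AlgHom.toLinearMap_apply, LinearMap.smul_apply]
    rw [h1, h2, map_smul, smul_smul]
    congr 1
    rw [zpow_sub₀ (by norm_num)]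
    simp [div_neg]
  exact DFunLike.congr_fun h a

theorem d_d (a : FreeAlgebra ℂ X) : C.d (C.d a) = 0 := by
  induction a using FreeAlgebra.induction with
  | grade0 c =>
    rw [Algebra.algebraMap_eq_smul_one, map_smul, d_one, smul_zero, map_zero]
  | grade1 x => exact C.d_d_ι x
  | mul a b ha hb =>
    rw [C.d_mul, map_add, C.d_mul, C.d_mul, ha, hb, d_sg]
    simp
  | add a b ha hb => rw [map_add, map_add, ha, hb, add_zero]

theorem exists_uD : ∃ D : FreeAlgebra ℂ X →ₗ[ℂ] FB (Option X) X,
    (∀ x, D (FreeAlgebra.ι ℂ x) = el (some x) 1 1) ∧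
      ∀ a b, D (a * b) = ract b (D a) + lact (sg C.deg a) (D b) :=
  exists_skewDer lact ract one_lact one_ract mul_lact mul_ract lact_ract (sg C.deg)
    (fun x => el (some x) 1 1)

/-- the universal derivation -/
noncomputable def uD : FreeAlgebra ℂ X →ₗ[ℂ] FB (Option X) X := C.exists_uD.choose

theorem uD_ι (x : X) : C.uD (FreeAlgebra.ι ℂ x) = el (some x) 1 1 := C.exists_uD.choose_spec.1 x

theorem uD_mul (a b : FreeAlgebra ℂ X) :
    C.uD (a * b) = ract b (C.uD a) + lact (sg C.deg a) (C.uD b) := C.exists_uD.choose_spec.2 a b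

theorem uD_one : C.uD 1 = 0 := by
  have h := C.uD_mul 1 1
  rw [mul_one, one_ract, map_one (sg C.deg), one_lact] at h
  have h2 := congrArg (fun z => z + (-1 : ℂ) • C.uD 1) h
  have h3 : ∀ z : FB (Option X) X, z + (-1 : ℂ) • z = 0 := by
    intro z
    have : z + (-1 : ℂ) • z = ((1 : ℂ) + (-1 : ℂ)) • z := by rw [add_smul, one_smul]
    rw [this, add_neg_cancel, zero_smul]
  rw [h3, add_assoc, h3, add_zero] at h2
  exact h2.symm

/-- degrees of the generators of the resolution -/
def del : Option X → ℤ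
  | none => 0
  | some x => C.deg x + 1

theorem uD_mem (n : ℤ) (a : FreeAlgebra ℂ X) (ha : a ∈ fgr C.deg n) :
    C.uD a ∈ gP C.deg C.del (n + 1) := by
  have key : ∀ u : FreeMonoid X, C.uD (word u) ∈ gP C.deg C.del ((wdeg C.deg u).toAdd + 1) := by
    intro u
    induction u using FreeMonoid.inductionOn' with
    | one => rw [map_one word, uD_one]; exact Submodule.zero_mem _
    | of_mul x xs ih =>
      rw [map_mul word, C.uD_mul, map_mul (wdeg C.deg), toAdd_mul, word_of, wdeg,
        FreeMonoid.lift_eval_of, toAdd_ofAdd, ← wdeg, uD_ι]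
      refine Submodule.add_mem _ ?_ ?_
      · have h := ract_mem_gP C.deg C.del (word_mem_fgr C.deg xs)
          (el_mem_gP C.deg C.del (some x) (one_mem_fgr C.deg) (one_mem_fgr C.deg))
        have e : C.deg x + (wdeg C.deg xs).toAdd + 1 =
            C.del (some x) + 0 + 0 + (wdeg C.deg xs).toAdd := by
          simp only [del]; ring
        rw [e]; exact h
      · have h := lact_mem_gP C.deg C.del (ι_mem_fgr C.deg x) ih
        rw [sg_ι, map_smul, LinearMap.smul_apply]
        refine Submodule.smul_mem _ _ ?_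
        have e : C.deg x + (wdeg C.deg xs).toAdd + 1 = C.deg x + ((wdeg C.deg xs).toAdd + 1) := by
          ring
        rw [e]; exact h
  unfold fgr at ha
  induction ha using Submodule.span_induction with
  | mem x hx =>
    obtain ⟨u, hu, rfl⟩ := hx
    simp only [Set.mem_ofPred_eq] at hu
    rw [← hu]
    exact key u
  | zero => rw [map_zero]; exact Submodule.zero_mem _
  | add y z _ _ hy hz => rw [map_add]; exact Submodule.add_mem _ hy hz
  | smul c y _ hy => rw [map_smul]; exact Submodule.smul_mem _ _ hy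

theorem sP_uD (a : FreeAlgebra ℂ X) :
    sP C.deg C.del (C.uD a) = (-1 : ℂ) • C.uD (sg C.deg a) := by
  have h : sP C.deg C.del ∘ₗ C.uD = (-1 : ℂ) • C.uD ∘ₗ (sg C.deg).toLinearMap := by
    refine eq_of_gr (fgr C.deg) (fgr_span C.deg) _ _ ?_
    intro n m hm
    have h1 := sg_of_mem C.deg n hm
    have h2 := sP_of_mem C.deg C.del (n + 1) (C.uD_mem n m hm)
    simp only [LinearMap.comp_apply, AlgHom.toLinearMap_apply, LinearMap.smul_apply]
    rw [h1, h2, map_smul, smul_smul]
    congr 1
    rw [zpow_add₀ (by norm_num)]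
    norm_num
  exact DFunLike.congr_fun h a

/-- the differentials of the generators of the resolution -/
noncomputable def w : Option X → FB (Option X) X
  | none => 0
  | some x => el none (FreeAlgebra.ι ℂ x) 1 + (-1 : ℂ) • el none 1 (FreeAlgebra.ι ℂ x) +
      (-1 : ℂ) • C.uD (C.d (FreeAlgebra.ι ℂ x))

theorem w_mem (j : Option X) : C.w j ∈ gP C.deg C.del (C.del j - 1) := by
  cases j with
  | none => exact Submodule.zero_mem _
  | some x =>
    have e : C.del (some x) - 1 = C.deg x := by simp only [del]; ring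
    rw [e]
    simp only [w]
    refine Submodule.add_mem _ (Submodule.add_mem _ ?_ (Submodule.smul_mem _ _ ?_))
      (Submodule.smul_mem _ _ ?_)
    · have h := el_mem_gP C.deg C.del none (ι_mem_fgr C.deg x) (one_mem_fgr C.deg)
      have e2 : C.del none + C.deg x + 0 = C.deg x := by simp only [del]; ring
      rw [e2] at h; exact h
    · have h := el_mem_gP C.deg C.del none (one_mem_fgr C.deg) (ι_mem_fgr C.deg x)
      have e2 : C.del none + 0 + C.deg x = C.deg x := by simp only [del]; ring
      rw [e2] at h; exact h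
    · have h := C.uD_mem _ _ (C.d_ι_mem x)
      have e2 : C.deg x - 1 + 1 = C.deg x := by ring
      rw [e2] at h; exact h

/-- the differential of the resolution -/
noncomputable def dP : FB (Option X) X →ₗ[ℂ] FB (Option X) X :=
  mkLin (fun j => (el j).compl₁₂ C.d LinearMap.id +
    ((-1 : ℂ) ^ (C.del j)) • (el j).compl₁₂ (sg C.deg).toLinearMap C.d +
    lact.compl₁₂ (sg C.deg).toLinearMap (ract.flip (C.w j)))

theorem dP_el (j : Option X) (a b : FreeAlgebra ℂ X) :
    C.dP (el j a b) = el j (C.d a) b + ((-1 : ℂ) ^ (C.del j)) • el j (sg C.deg a) (C.d b) +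
      lact (sg C.deg a) (ract b (C.w j)) := by
  rw [dP, mkLin_el]
  rfl

/-! ### the identities -/

theorem dP_lact (a : FreeAlgebra ℂ X) (p : FB (Option X) X) :
    C.dP (lact a p) = lact (C.d a) p + lact (sg C.deg a) (C.dP p) := by
  have h : C.dP ∘ₗ lact a = lact (C.d a) + lact (sg C.deg a) ∘ₗ C.dP := by
    apply FB_ext
    intro j u v
    simp only [LinearMap.comp_apply, LinearMap.add_apply, lact_el, dP_el, C.d_mul, map_add,
      map_smul, map_mul (sg C.deg), mul_lact]
    abel
  exact DFunLike.congr_fun h p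

theorem dP_ract (b : FreeAlgebra ℂ X) (p : FB (Option X) X) :
    C.dP (ract b p) = ract b (C.dP p) + ract (C.d b) (sP C.deg C.del p) := by
  have h : C.dP ∘ₗ ract b = ract b ∘ₗ C.dP + ract (C.d b) ∘ₗ sP C.deg C.del := by
    apply FB_ext
    intro j u v
    simp only [LinearMap.comp_apply, LinearMap.add_apply, ract_el, dP_el, C.d_mul, map_add,
      map_smul, sP_el, mul_ract, smul_add, lact_ract]
    abel
  exact DFunLike.congr_fun h p

theorem dP_gen (j : Option X) : C.dP (el j 1 1) = C.w j := by
  rw [dP_el, d_one]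
  simp [one_lact, one_ract]

theorem dP_mem (n : ℤ) (p : FB (Option X) X) (hp : p ∈ gP C.deg C.del n) :
    C.dP p ∈ gP C.deg C.del (n - 1) := by
  unfold gP at hp
  induction hp using Submodule.span_induction with
  | mem x hx =>
    obtain ⟨j, u, v, huv, rfl⟩ := hx
    rw [dP_el]
    refine Submodule.add_mem _ (Submodule.add_mem _ ?_ (Submodule.smul_mem _ _ ?_)) ?_
    · have h := el_mem_gP C.deg C.del j (C.d_mem _ _ (word_mem_fgr C.deg u))
        (word_mem_fgr C.deg v)
      have e : n - 1 = C.del j + ((wdeg C.deg u).toAdd - 1) + (wdeg C.deg v).toAdd := by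
        rw [← huv]; ring
      rw [e]; exact h
    · have h := el_mem_gP C.deg C.del j (word_mem_fgr C.deg u)
        (C.d_mem _ _ (word_mem_fgr C.deg v))
      rw [sg_word, map_smul, LinearMap.smul_apply]
      refine Submodule.smul_mem _ _ ?_
      have e : n - 1 = C.del j + (wdeg C.deg u).toAdd + ((wdeg C.deg v).toAdd - 1) := by
        rw [← huv]; ring
      rw [e]; exact h
    · rw [sg_word, map_smul, LinearMap.smul_apply]
      refine Submodule.smul_mem _ _ ?_
      have h := lact_mem_gP C.deg C.del (word_mem_fgr C.deg u)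
        (ract_mem_gP C.deg C.del (word_mem_fgr C.deg v) (C.w_mem j))
      have e : n - 1 = (wdeg C.deg u).toAdd + (C.del j - 1 + (wdeg C.deg v).toAdd) := by
        rw [← huv]; ring
      rw [e]; exact h
  | zero => rw [map_zero]; exact Submodule.zero_mem _
  | add y z _ _ hy hz => rw [map_add]; exact Submodule.add_mem _ hy hz
  | smul c y _ hy => rw [map_smul]; exact Submodule.smul_mem _ _ hy

theorem gP_span : (⨆ n, gP C.deg C.del n) = ⊤ := by
  rw [eq_top_iff]
  intro p _
  let _ : AddCommGroup (FB (Option X) X) := Module.addCommMonoidToAddCommGroup ℂ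
  rw [(gP_internal C.deg C.del).submodule_iSup_eq_top]
  exact Submodule.mem_top

theorem sP_dP (p : FB (Option X) X) :
    sP C.deg C.del (C.dP p) = (-1 : ℂ) • C.dP (sP C.deg C.del p) := by
  have h : sP C.deg C.del ∘ₗ C.dP = (-1 : ℂ) • C.dP ∘ₗ sP C.deg C.del := by
    refine eq_of_gr (gP C.deg C.del) C.gP_span _ _ ?_
    intro n m hm
    have h1 := sP_of_mem C.deg C.del n hm
    have h2 := sP_of_mem C.deg C.del (n - 1) (C.dP_mem n m hm)
    simp only [LinearMap.comp_apply, LinearMap.smul_apply]
    rw [h1, h2, map_smul, smul_smul]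
    congr 1
    rw [zpow_sub₀ (by norm_num)]
    simp [div_neg]
  exact DFunLike.congr_fun h p

/-- `d D a + D d a = a e - e a` -/
theorem dP_uD (a : FreeAlgebra ℂ X) :
    C.dP (C.uD a) + C.uD (C.d a) = el none a 1 + (-1 : ℂ) • el none 1 a := by
  induction a using FreeAlgebra.induction with
  | grade0 c =>
    rw [Algebra.algebraMap_eq_smul_one, map_smul, map_smul, map_smul, map_smul, uD_one, d_one,
      map_smul, LinearMap.smul_apply, map_smul]
    simp only [map_zero, smul_zero, add_zero]
    rw [smul_comm (-1 : ℂ) c, ← smul_add]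
    have : ∀ z : FB (Option X) X, z + (-1 : ℂ) • z = 0 := by
      intro z
      have : z + (-1 : ℂ) • z = ((1 : ℂ) + (-1 : ℂ)) • z := by rw [add_smul, one_smul]
      rw [this, add_neg_cancel, zero_smul]
    rw [this, smul_zero]
  | grade1 x =>
    rw [uD_ι, dP_gen]
    simp only [w]
    have : ∀ y z : FB (Option X) X, y + (-1 : ℂ) • z + z = y := by
      intro y z
      have : y + (-1 : ℂ) • z + z = y + ((-1 : ℂ) + (1 : ℂ)) • z := by
        rw [add_smul, one_smul, add_assoc]
      rw [this, neg_add_cancel, zero_smul, add_zero]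
    rw [this]
  | mul a b ha hb =>
    have e1 : C.dP (C.uD (a * b)) + C.uD (C.d (a * b)) =
        ract b (C.dP (C.uD a) + C.uD (C.d a)) + lact a (C.dP (C.uD b) + C.uD (C.d b)) := by
      rw [C.uD_mul, C.d_mul, map_add, map_add, C.dP_ract, C.dP_lact, C.uD_mul, C.uD_mul, sP_uD,
        sg_sg, C.d_sg]
      simp only [map_add, map_smul, LinearMap.smul_apply]
      module
    rw [e1, ha, hb]
    simp only [map_add, map_smul, ract_el, lact_el, one_mul, mul_one]
    module
  | add a b ha hb =>
    have e1 : C.dP (C.uD (a + b)) + C.uD (C.d (a + b)) =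
        (C.dP (C.uD a) + C.uD (C.d a)) + (C.dP (C.uD b) + C.uD (C.d b)) := by
      simp only [map_add]
      abel
    rw [e1, ha, hb]
    simp only [map_add, LinearMap.add_apply, smul_add]
    abel

theorem uD_zero_of (j : Option X) : C.dP (C.w j) = 0 := by
  cases j with
  | none => simp only [w, map_zero]
  | some x =>
    have h := C.dP_uD (C.d (FreeAlgebra.ι ℂ x))
    rw [C.d_d, map_zero, add_zero] at h
    simp only [w]
    rw [map_add, map_add, map_smul, map_smul, h, dP_el, dP_el, d_one]
    simp only [w, map_zero, LinearMap.zero_apply, add_zero, zero_add, del, zpow_zero, one_smul,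
      map_one, smul_add]
    module

theorem dP_dP (p : FB (Option X) X) : C.dP (C.dP p) = 0 := by
  have hl : ∀ a p, C.dP (C.dP (lact a p)) = lact a (C.dP (C.dP p)) := by
    intro a p
    rw [C.dP_lact, map_add, C.dP_lact, C.dP_lact, C.d_d, C.d_sg, sg_sg]
    simp only [map_zero, LinearMap.zero_apply, map_smul, LinearMap.smul_apply]
    module
  have hr : ∀ b p, C.dP (C.dP (ract b p)) = ract b (C.dP (C.dP p)) := by
    intro b p
    rw [C.dP_ract, map_add, C.dP_ract, C.dP_ract, C.d_d, C.sP_dP]
    simp only [map_zero, LinearMap.zero_apply, map_smul]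
    module
  have h : C.dP ∘ₗ C.dP = 0 := by
    apply FB_ext
    intro j a b
    rw [LinearMap.comp_apply, el_eq_act, hl, hr, dP_gen, uD_zero_of, map_zero, map_zero,
      LinearMap.zero_apply]
  exact DFunLike.congr_fun h p

/-! ### the map to the diagonal bimodule -/

/-- the augmentation `e ↦ 1` -/
noncomputable def fP : FB (Option X) X →ₗ[ℂ] FreeAlgebra ℂ X :=
  mkLin (fun j => match j with
    | none => LinearMap.mul ℂ (FreeAlgebra ℂ X)
    | some _ => 0)

theorem fP_none (a b : FreeAlgebra ℂ X) : fP (el none a b) = a * b := by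
  rw [fP, mkLin_el]
  rfl

theorem fP_some (x : X) (a b : FreeAlgebra ℂ X) : fP (el (some x) a b) = 0 := by
  rw [fP, mkLin_el]
  rfl

theorem fP_lact (a : FreeAlgebra ℂ X) (p : FB (Option X) X) : fP (lact a p) = a * fP p := by
  have h : fP ∘ₗ lact a = LinearMap.mulLeft ℂ a ∘ₗ (fP (X := X)) := by
    apply FB_ext
    intro j u v
    simp only [LinearMap.comp_apply, LinearMap.mulLeft_apply, lact_el]
    cases j with
    | none => rw [fP_none, fP_none, mul_assoc]
    | some x => rw [fP_some, fP_some, mul_zero]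
  exact DFunLike.congr_fun h p

theorem fP_ract (b : FreeAlgebra ℂ X) (p : FB (Option X) X) : fP (ract b p) = fP p * b := by
  have h : fP ∘ₗ ract b = LinearMap.mulRight ℂ b ∘ₗ (fP (X := X)) := by
    apply FB_ext
    intro j u v
    simp only [LinearMap.comp_apply, LinearMap.mulRight_apply, ract_el]
    cases j with
    | none => rw [fP_none, fP_none, mul_assoc]
    | some x => rw [fP_some, fP_some, zero_mul]
  exact DFunLike.congr_fun h p

/-- the subbimodule generated by the `ε_x`, `x ∈ T` -/
noncomputable def SS (T : Set X) : Submodule ℂ (FB (Option X) X) :=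
  Submodule.span ℂ {p | ∃ x ∈ T, ∃ u v : FreeAlgebra ℂ X, p = el (some x) u v}

theorem lact_mem_SS (T : Set X) (a : FreeAlgebra ℂ X) (p : FB (Option X) X) (hp : p ∈ SS T) :
    lact a p ∈ SS T := by
  unfold SS at hp
  induction hp using Submodule.span_induction with
  | mem x hx =>
    obtain ⟨x, hx, u, v, rfl⟩ := hx
    rw [lact_el]
    exact Submodule.subset_span ⟨x, hx, _, _, rfl⟩
  | zero => rw [map_zero]; exact Submodule.zero_mem _
  | add y z _ _ hy hz => rw [map_add]; exact Submodule.add_mem _ hy hz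
  | smul c y _ hy => rw [map_smul]; exact Submodule.smul_mem _ _ hy

theorem ract_mem_SS (T : Set X) (a : FreeAlgebra ℂ X) (p : FB (Option X) X) (hp : p ∈ SS T) :
    ract a p ∈ SS T := by
  unfold SS at hp
  induction hp using Submodule.span_induction with
  | mem x hx =>
    obtain ⟨x, hx, u, v, rfl⟩ := hx
    rw [ract_el]
    exact Submodule.subset_span ⟨x, hx, _, _, rfl⟩
  | zero => rw [map_zero]; exact Submodule.zero_mem _
  | add y z _ _ hy hz => rw [map_add]; exact Submodule.add_mem _ hy hz
  | smul c y _ hy => rw [map_smul]; exact Submodule.smul_mem _ _ hy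

theorem uD_mem_SS (T : Set X) (a : FreeAlgebra ℂ X)
    (ha : a ∈ Algebra.adjoin ℂ (FreeAlgebra.ι ℂ '' T)) : C.uD a ∈ SS T := by
  induction ha using Algebra.adjoin_induction with
  | mem x hx =>
    obtain ⟨x, hx, rfl⟩ := hx
    rw [uD_ι]
    exact Submodule.subset_span ⟨x, hx, _, _, rfl⟩
  | algebraMap c =>
    rw [Algebra.algebraMap_eq_smul_one, map_smul, uD_one, smul_zero]
    exact Submodule.zero_mem _
  | add x y _ _ hx hy => rw [map_add]; exact Submodule.add_mem _ hx hy
  | mul x y _ _ hx hy =>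
    rw [uD_mul]
    exact Submodule.add_mem _ (ract_mem_SS _ _ _ hx) (lact_mem_SS _ _ _ hy)

theorem uD_mem_SS_univ (a : FreeAlgebra ℂ X) : C.uD a ∈ SS (Set.univ : Set X) := by
  apply uD_mem_SS
  rw [Set.image_univ, FreeAlgebra.adjoin_range_ι]
  exact Algebra.mem_top

theorem fP_SS (p : FB (Option X) X) (hp : p ∈ SS (Set.univ : Set X)) : fP p = 0 := by
  unfold SS at hp
  induction hp using Submodule.span_induction with
  | mem x hx =>
    obtain ⟨x, hx, u, v, rfl⟩ := hx
    rw [fP_some]
  | zero => rw [map_zero]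
  | add y z _ _ hy hz => rw [map_add, hy, hz, add_zero]
  | smul c y _ hy => rw [map_smul, hy, smul_zero]

theorem fP_dP (p : FB (Option X) X) : fP (C.dP p) = C.d (fP p) := by
  have h : fP ∘ₗ C.dP = C.d ∘ₗ fP := by
    apply FB_ext
    intro j u v
    simp only [LinearMap.comp_apply]
    rw [dP_el, map_add, map_add, map_smul, fP_lact, fP_ract]
    cases j with
    | none =>
      rw [fP_none, fP_none, fP_none, C.d_mul]
      simp only [w, map_zero, zero_mul, mul_zero, add_zero, del, zpow_zero, one_smul]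
    | some x =>
      rw [fP_some, fP_some, fP_some]
      simp only [w, map_add, map_smul, fP_none, fP_SS _ (C.uD_mem_SS_univ _)]
      simp
  exact DFunLike.congr_fun h p

theorem fP_mem (n : ℤ) (p : FB (Option X) X) (hp : p ∈ gP C.deg C.del n) :
    fP p ∈ fgr C.deg n := by
  unfold gP at hp
  induction hp using Submodule.span_induction with
  | mem x hx =>
    obtain ⟨j, u, v, huv, rfl⟩ := hx
    cases j with
    | none =>
      rw [fP_none]
      have h := mul_mem_fgr C.deg (word_mem_fgr C.deg u) (word_mem_fgr C.deg v)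
      have e : (wdeg C.deg u).toAdd + (wdeg C.deg v).toAdd = n := by
        rw [← huv]; simp only [del]; ring
      rw [e] at h; exact h
    | some x => rw [fP_some]; exact Submodule.zero_mem _
  | zero => rw [map_zero]; exact Submodule.zero_mem _
  | add y z _ _ hy hz => rw [map_add]; exact Submodule.add_mem _ hy hz
  | smul c y _ hy => rw [map_smul]; exact Submodule.smul_mem _ _ hy

/-! ### the contracting homotopy -/

/-- the contracting homotopy `a e b ↦ (D a) b`, `a ε_x b ↦ 0` -/
noncomputable def hP : FB (Option X) X →ₗ[ℂ] FB (Option X) X :=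
  mkLin (fun j => match j with
    | none => ract.flip ∘ₗ C.uD
    | some _ => 0)

theorem hP_none (a b : FreeAlgebra ℂ X) : C.hP (el none a b) = ract b (C.uD a) := by
  rw [hP, mkLin_el]
  rfl

theorem hP_some (x : X) (a b : FreeAlgebra ℂ X) : C.hP (el (some x) a b) = 0 := by
  rw [hP, mkLin_el]
  rfl

theorem hP_SS (p : FB (Option X) X) (hp : p ∈ SS (Set.univ : Set X)) : C.hP p = 0 := by
  unfold SS at hp
  induction hp using Submodule.span_induction with
  | mem x hx =>
    obtain ⟨x, hx, u, v, rfl⟩ := hx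
    rw [hP_some]
  | zero => rw [map_zero]
  | add y z _ _ hy hz => rw [map_add, hy, hz, add_zero]
  | smul c y _ hy => rw [map_smul, hy, smul_zero]

theorem hP_ract (b : FreeAlgebra ℂ X) (p : FB (Option X) X) :
    C.hP (ract b p) = ract b (C.hP p) := by
  have h : C.hP ∘ₗ ract b = ract b ∘ₗ C.hP := by
    apply FB_ext
    intro j u v
    simp only [LinearMap.comp_apply, ract_el]
    cases j with
    | none => rw [hP_none, hP_none, mul_ract]
    | some x => rw [hP_some, hP_some, map_zero]
  exact DFunLike.congr_fun h p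

theorem homotopy (p : FB (Option X) X) :
    C.dP (C.hP p) + C.hP (C.dP p) + el none 1 (fP p) = p := by
  have h : C.dP ∘ₗ C.hP + C.hP ∘ₗ C.dP + (el none 1) ∘ₗ fP = LinearMap.id := by
    apply FB_ext
    intro j a b
    simp only [LinearMap.comp_apply, LinearMap.add_apply, LinearMap.id_apply]
    cases j with
    | none =>
      have h1 := congrArg (fun z => ract b z) (C.dP_uD a)
      simp only [map_add, map_smul, ract_el, one_mul] at h1
      rw [hP_none, dP_ract, sP_uD, dP_el, fP_none]
      simp only [w, map_zero, add_zero, map_add, map_smul, hP_none, del, zpow_zero, one_smul]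
      have h2 : (ract b (C.dP (C.uD a)) + (-1 : ℂ) • ract (C.d b) (C.uD (sg C.deg a)) +
          (ract b (C.uD (C.d a)) + ract (C.d b) (C.uD (sg C.deg a))) + el none 1 (a * b)) =
          (ract b (C.dP (C.uD a)) + ract b (C.uD (C.d a))) + el none 1 (a * b) := by module
      rw [h2, h1]
      module
    | some x =>
      rw [hP_some, fP_some, dP_el, map_zero, map_zero, map_add, map_add, map_smul, hP_some,
        hP_some]
      simp only [w, map_add, map_smul, ract_el, lact_el]
      rw [hP_none, hP_none, C.hP_SS _ (lact_mem_SS _ _ _ (ract_mem_SS _ _ _ (C.uD_mem_SS_univ _))),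
        C.uD_mul, sg_sg, uD_ι]
      simp only [map_add, ract_el, lact_el, one_mul, mul_one, mul_ract]
      module
  exact DFunLike.congr_fun h p

end Cell

end Pool.Agent.Lib.MP_e7fbd4_ag
end

section

open scoped TensorProduct

set_option autoImplicit false

namespace Pool.Agent.Lib.MP_e7fbd4_ag

variable {X : Type}

theorem Cell.d_mul' (C : Cell X) (n : ℤ) (a b : FreeAlgebra ℂ X) (ha : a ∈ fgr C.deg n) :
    C.d (a * b) = C.d a * b + (-1 : ℂ) ^ n • (a * C.d b) := by
  rw [C.d_mul, sg_of_mem C.deg n ha, smul_mul_assoc]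

theorem Cell.dP_l (C : Cell X) (i : ℤ) (a : FreeAlgebra ℂ X) (m : FB (Option X) X)
    (ha : a ∈ fgr C.deg i) :
    C.dP (lact a m) = lact (C.d a) m + (-1 : ℂ) ^ i • lact a (C.dP m) := by
  have h := C.dP_lact a m
  rw [sg_of_mem C.deg i ha, map_smul] at h
  exact h

theorem Cell.dP_r (C : Cell X) (n : ℤ) (b : FreeAlgebra ℂ X) (m : FB (Option X) X)
    (hm : m ∈ gP C.deg C.del n) :
    C.dP (ract b m) = ract b (C.dP m) + (-1 : ℂ) ^ n • ract (C.d b) m := by
  have h := C.dP_ract b m
  rw [sP_of_mem C.deg C.del n hm, map_smul] at h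
  exact h

theorem Cell.dP_none_one (C : Cell X) (n : FreeAlgebra ℂ X) :
    C.dP (el none 1 n) = el none 1 (C.d n) := by
  rw [Cell.dP_el]
  simp [Cell.w, C.d_one, Cell.del]

theorem Cell.inj_aux (C : Cell X) (p : FB (Option X) X) (hp : C.dP p = 0) (q : FreeAlgebra ℂ X)
    (hq : Cell.fP p = C.d q) : p = C.dP (C.hP p + el none 1 q) := by
  have h2 := C.homotopy p
  rw [hp, map_zero, add_zero, hq, ← dP_none_one, ← map_add] at h2
  exact h2.symm

/-- the dg algebra of a cell structure -/
noncomputable def Cell.toDG (C : Cell X) : DGAlgebra where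
  A := FreeAlgebra ℂ X
  gr := fgr C.deg
  internal := fgr_internal C.deg
  one_mem := one_mem_fgr C.deg
  mul_mem := fun _ _ _ _ ha hb => mul_mem_fgr C.deg ha hb
  d := C.d
  d_mem := C.d_mem
  d_d := C.d_d
  d_mul := C.d_mul'

/-- the finite semi-free resolution of the diagonal bimodule -/
noncomputable def Cell.res (C : Cell X) : DGBimodule C.toDG where
  M := FB (Option X) X
  acg := Module.addCommMonoidToAddCommGroup ℂ
  l := lact
  r := ract
  one_l := one_lact
  one_r := one_ract
  mul_l := mul_lact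
  mul_r := mul_ract
  l_r := lact_ract
  gr := gP C.deg C.del
  internal := gP_internal C.deg C.del
  l_mem := fun _ _ _ _ ha hm => lact_mem_gP C.deg C.del ha hm
  r_mem := fun _ _ _ _ ha hm => ract_mem_gP C.deg C.del ha hm
  d := C.dP
  d_mem := C.dP_mem
  d_d := C.dP_dP
  d_l := C.dP_l
  d_r := C.dP_r

theorem Cell.isQuasiIso (C : Cell X) : IsQuasiIso C.res C.toDG.diag (Cell.fP (X := X)) where
  map_l := fun a m => Cell.fP_lact a m
  map_r := fun b m => Cell.fP_ract b m
  map_gr := fun n m hm => C.fP_mem n m hm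
  map_d := fun m => C.fP_dP m
  surj := by
    intro (n : FreeAlgebra ℂ X) hn
    have hn' : C.d n = 0 := hn
    have h1 : C.dP (el none 1 n) = 0 := by rw [C.dP_none_one, hn', map_zero]
    have h2 : n = Cell.fP (el none 1 n) + C.d 0 := by
      rw [Cell.fP_none, one_mul, map_zero, add_zero]
    exact ⟨el none 1 n, h1, 0, h2⟩
  inj := by
    intro p hp ⟨q, hq⟩
    exact ⟨_, C.inj_aux p hp q hq⟩

theorem el_gen_eq (j : Option X) : (LinearMap.mk₂ ℂ (fun a b : FreeAlgebra ℂ X =>
      lact a (ract b (el j 1 1)))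
      (by intro a a' b; simp) (by intro c a b; simp)
      (by intro a b b'; simp) (by intro c a b; simp) :
      FreeAlgebra ℂ X →ₗ[ℂ] FreeAlgebra ℂ X →ₗ[ℂ] FB (Option X) X) = el j := by
  apply LinearMap.ext₂
  intro a b
  rw [el_eq_act j a b]
  rfl

theorem sandwich_gen (C : Cell X) (j : Option X) (t : FreeAlgebra ℂ X ⊗[ℂ] FreeAlgebra ℂ X) :
    C.res.sandwich (el j 1 1) t = Finsupp.single j t := by
  have h : C.res.sandwich (el j 1 1) = TensorProduct.lift (el j) :=
    congrArg TensorProduct.lift (el_gen_eq j)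
  rw [h]
  have h2 : TensorProduct.lift (el j) =
      (Finsupp.lsingle j : FreeAlgebra ℂ X ⊗[ℂ] FreeAlgebra ℂ X →ₗ[ℂ] FB (Option X) X) := by
    apply TensorProduct.ext'
    intro a b
    rfl
  rw [h2]
  rfl

theorem sum_single_eq {J M : Type} [Fintype J] [AddCommMonoid M] (t : J → M) :
    ∑ j, Finsupp.single j (t j) = Finsupp.equivFunOnFinite.symm t := by
  classical
  ext i
  rw [Finsupp.finsetSum_apply]
  simp [Finsupp.single_apply]

theorem Cell.bij (C : Cell X) [Fintype X] :
    Function.Bijective (fun t : Option X → C.toDG.A ⊗[ℂ] C.toDG.A =>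
      ∑ j, C.res.sandwich (el j 1 1) (t j)) := by
  have hf : (fun t : Option X → FreeAlgebra ℂ X ⊗[ℂ] FreeAlgebra ℂ X =>
        ∑ j, (Finsupp.single j (t j) : FB (Option X) X)) = Finsupp.equivFunOnFinite.symm :=
    funext fun t => sum_single_eq t
  have h2 : (fun t : Option X → C.toDG.A ⊗[ℂ] C.toDG.A =>
      ∑ j, C.res.sandwich (el j 1 1) (t j)) = Finsupp.equivFunOnFinite.symm := by
    refine Eq.trans ?_ hf
    funext t
    exact Finset.sum_congr rfl fun j _ => sandwich_gen C j (t j)
  rw [h2]
  exact Finsupp.equivFunOnFinite.symm.bijective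

/-- the rank function of the resolution -/
def rkP (rk : X → ℕ) : Option X → ℕ
  | none => 0
  | some x => rk x + 1

theorem Cell.w_mem_span (C : Cell X) (rk : X → ℕ)
    (hrk : ∀ x, C.d (FreeAlgebra.ι ℂ x) ∈
      Algebra.adjoin ℂ (FreeAlgebra.ι ℂ '' {y | rk y < rk x})) (j : Option X) :
    C.w j ∈ Submodule.span ℂ {m : FB (Option X) X | ∃ i : Option X, rkP rk i < rkP rk j ∧
      ∃ a b : FreeAlgebra ℂ X, m = lact a (ract b (el i 1 1))} := by
  cases j with
  | none => exact Submodule.zero_mem _
  | some x =>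
    simp only [w]
    refine Submodule.add_mem _ (Submodule.add_mem _ ?_ (Submodule.smul_mem _ _ ?_))
      (Submodule.smul_mem _ _ ?_)
    · exact Submodule.subset_span ⟨none, Nat.succ_pos _, _, _, el_eq_act _ _ _⟩
    · exact Submodule.subset_span ⟨none, Nat.succ_pos _, _, _, el_eq_act _ _ _⟩
    · have h := C.uD_mem_SS _ _ (hrk x)
      unfold SS at h
      refine Submodule.span_mono ?_ h
      rintro p ⟨y, hy, u, v, rfl⟩
      exact ⟨some y, Nat.succ_lt_succ hy, u, v, el_eq_act _ _ _⟩

theorem Cell.finiteSemifree [Fintype X] (C : Cell X) (rk : X → ℕ)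
    (hrk : ∀ x, C.d (FreeAlgebra.ι ℂ x) ∈
      Algebra.adjoin ℂ (FreeAlgebra.ι ℂ '' {y | rk y < rk x})) :
    C.res.FiniteSemifree := by
  refine ⟨Option X, inferInstance, fun j => el j 1 1, C.del, rkP rk, ?_, C.bij, ?_⟩
  · intro j
    have h := el_mem_gP C.deg C.del j (one_mem_fgr C.deg) (one_mem_fgr C.deg)
    rw [add_zero, add_zero] at h
    exact h
  · intro j
    have e : C.res.d (el j 1 1) = C.w j := C.dP_gen j
    have h := C.w_mem_span rk hrk j
    exact e ▸ h

theorem Cell.isSmooth [Fintype X] (C : Cell X) (rk : X → ℕ)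
    (hrk : ∀ x, C.d (FreeAlgebra.ι ℂ x) ∈
      Algebra.adjoin ℂ (FreeAlgebra.ι ℂ '' {y | rk y < rk x})) :
    C.toDG.IsSmooth :=
  ⟨C.res, C.finiteSemifree rk hrk, Cell.fP, C.isQuasiIso⟩

end Pool.Agent.Lib.MP_e7fbd4_ag
end
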