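import Pool.Agent.Lib.MP_e7fbd4_ag.O.E1
import Pool.Agent.Lib.MP_e7fbd4_ag.O.Basic
import Pool.Agent.Lib.MP_e7fbd4_ag.Mg.G016

section

/-! # Entries of elements of the infinite general linear group, 2 -/

set_option autoImplicit false
set_option linter.unusedSectionVars false
set_option linter.unusedVariables false

namespace Pool.Agent.Lib.MP_e7fbd4_ag.O

open Pool.Agent.Lib.MP_c052b4_al

variable {A B : Type} [Ring A] [Ring B]

private theorem ent_tr (i j : ℕ) {k : ℕ} (G : (Matrix (Fin k) (Fin k) A)ˣ) (l : ℕ) (h : k ≤ l) :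
    entM (Omega.tr (stabHom A) k l h G).val i j = entM G.val i j := by
  induction l, h using Nat.le_induction with
  | base => rw [Omega.tr_self]; rfl
  | succ n hn ih =>
    rw [Omega.tr_succ _ k n hn]
    change entM (stabHom A n (Omega.tr (stabHom A) k n hn G)).val i j = _
    rw [entM_stab, ih]

private theorem stab_injective (k : ℕ) : Function.Injective (stabHom A k) := by
  intro G H h
  refine Units.ext (entM_injective fun i j => ?_)
  rw [← entM_stab, ← entM_stab H, h]

/-- Two invertible matrices with the same entries define the same element of `GL(A)`. -/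
theorem toGL_eq_of_ent {k l : ℕ} {G : (Matrix (Fin k) (Fin k) A)ˣ}
    {H : (Matrix (Fin l) (Fin l) A)ˣ} (h : ∀ i j, entM G.val i j = entM H.val i j) :
    toGL A k G = toGL A l H := by
  have h1 : Omega.tr (stabHom A) k (max k l) (le_max_left k l) G =
      Omega.tr (stabHom A) l (max k l) (le_max_right k l) H := by
    refine Units.ext (entM_injective fun i j => ?_)
    rw [ent_tr, ent_tr, h]
  have h2 := Omega.toLim_tr (stabHom A) k (max k l) (le_max_left k l) G
  have h3 := Omega.toLim_tr (stabHom A) l (max k l) (le_max_right k l) H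
  unfold toGL
  exact h2.symm.trans ((congrArg _ h1).trans h3)

/-- And conversely. -/
theorem ent_eq_of_toGL {k l : ℕ} {G : (Matrix (Fin k) (Fin k) A)ˣ}
    {H : (Matrix (Fin l) (Fin l) A)ˣ} (h : toGL A k G = toGL A l H) (i j : ℕ) :
    entM G.val i j = entM H.val i j := by
  have h2 := Omega.toLim_tr (stabHom A) k (max k l) (le_max_left k l) G
  have h3 := Omega.toLim_tr (stabHom A) l (max k l) (le_max_right k l) H
  unfold toGL at h
  have h4 := Omega.toLim_injective (f := stabHom A) stab_injective (max k l)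
    (h2.trans (h.trans h3.symm))
  rw [← ent_tr i j G _ (le_max_left k l), h4, ent_tr]

end Pool.Agent.Lib.MP_e7fbd4_ag.O
end

section

/-! # Scalar functions, 1 -/

set_option autoImplicit false
set_option linter.unusedSectionVars false
set_option linter.unusedVariables false

namespace Pool.Agent.Lib.MP_e7fbd4_ag.O

open Pool.Agent.Lib.MP_c052b4_al

variable {A B : Type} [Ring A] [Algebra ℂ A] [Ring B] [Algebra ℂ B] {c : Kind} {k l : ℕ}

/-! ### Scalar functions -/

theorem coord_mem (c : Kind) (k : ℕ) (i : Fin k) : coord k i ∈ scal c k := by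
  cases c with
  | alg => exact Algebra.subset_adjoin ⟨i, rfl⟩
  | top =>
    exact (Complex.continuous_ofReal.comp (continuous_subtype_val.comp (continuous_apply i)) :
      Continuous (coord k i))

theorem scal_alg_le_top (k : ℕ) : scal Kind.alg k ≤ scal Kind.top k := by
  refine Algebra.adjoin_le ?_
  rintro f ⟨i, rfl⟩
  exact coord_mem Kind.top k i

/-- All coordinates of `φ` are polynomial functions. -/
def PolyMap {l k : ℕ} (φ : Cube l → Cube k) : Prop :=
  ∀ i, (fun x => coord k i (φ x)) ∈ scal Kind.alg l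

theorem PolyMap.continuous {φ : Cube l → Cube k} (h : PolyMap φ) : Continuous φ := by
  refine continuous_pi fun i => ?_
  have h1 : Continuous fun x => coord k i (φ x) := scal_alg_le_top l (h i)
  have h2 : Continuous fun x => ((φ x i : unitInterval) : ℝ) := Complex.continuous_re.comp h1
  exact continuous_induced_rng.mpr h2

end Pool.Agent.Lib.MP_e7fbd4_ag.O
end

section

/-! # Scalar functions, 2 -/

set_option autoImplicit false
set_option linter.unusedSectionVars false
set_option linter.unusedVariables false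

namespace Pool.Agent.Lib.MP_e7fbd4_ag.O

open Pool.Agent.Lib.MP_c052b4_al

variable {A B : Type} [Ring A] [Algebra ℂ A] [Ring B] [Algebra ℂ B] {c : Kind} {k l : ℕ}

private theorem scal_comp_alg {k l : ℕ} {φ : Cube l → Cube k} (h : PolyMap φ) {f : Cube k → ℂ}
    (hf : f ∈ scal Kind.alg k) : (fun x => f (φ x)) ∈ scal Kind.alg l := by
  have hf' : f ∈ Algebra.adjoin ℂ (Set.range (coord k)) := hf
  clear hf
  induction hf' using Algebra.adjoin_induction with
  | mem f hf =>
    obtain ⟨i, rfl⟩ := hf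
    exact h i
  | algebraMap r => exact Subalgebra.algebraMap_mem _ r
  | add f g _ _ ihf ihg => exact Subalgebra.add_mem _ ihf ihg
  | mul f g _ _ ihf ihg => exact Subalgebra.mul_mem _ ihf ihg

theorem PolyMap.comp {n : ℕ} {φ : Cube l → Cube k} {ψ : Cube n → Cube l} (h : PolyMap φ)
    (h' : PolyMap ψ) : PolyMap fun x => φ (ψ x) := by
  exact fun i => scal_comp_alg h' (h i)

/-- All coordinates of `φ` are coordinates or constants or products of two coordinates. -/
theorem polyMap_of {φ : Cube l → Cube k}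
    (h : ∀ i, (∃ j, ∀ x, φ x i = x j) ∨ (∃ a, ∀ x, φ x i = a) ∨ (∃ j j', ∀ x, φ x i = x j * x j')) :
    PolyMap φ := by
  intro i
  rcases h i with ⟨j, hj⟩ | ⟨a, ha⟩ | ⟨j, j', hj⟩
  · have h1 : (fun x => coord k i (φ x)) = coord l j := by
      funext x
      simp only [coord, hj x]
    rw [h1]
    exact coord_mem Kind.alg l j
  · have h1 : (fun x => coord k i (φ x)) = algebraMap ℂ (Cube l → ℂ) ((a : ℝ) : ℂ) := by
      funext x
      simp only [coord, ha x]
      rfl
    rw [h1]
    exact Subalgebra.algebraMap_mem _ _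
  · have h1 : (fun x => coord k i (φ x)) = coord l j * coord l j' := by
      funext x
      simp only [coord, hj x, Pi.mul_apply]
      push_cast
      rfl
    rw [h1]
    exact Subalgebra.mul_mem _ (coord_mem Kind.alg l j) (coord_mem Kind.alg l j')

theorem scal_comp {φ : Cube l → Cube k} (h : PolyMap φ) {f : Cube k → ℂ} (hf : f ∈ scal c k) :
    (fun x => f (φ x)) ∈ scal c l := by
  cases c with
  | alg => exact scal_comp_alg h hf
  | top =>
    have hf' : Continuous f := hf
    exact (hf'.comp h.continuous : Continuous fun x => f (φ x))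

end Pool.Agent.Lib.MP_e7fbd4_ag.O
end

section

/-! # Functions with values in an algebra, 1 -/

set_option autoImplicit false
set_option linter.unusedSectionVars false
set_option linter.unusedVariables false

namespace Pool.Agent.Lib.MP_e7fbd4_ag.O

open Pool.Agent.Lib.MP_c052b4_al

variable {A B : Type} [Ring A] [Algebra ℂ A] [Ring B] [Algebra ℂ B] {c : Kind} {k l : ℕ}

theorem fn_mul {F G : Cube k → A} (hF : F ∈ fn c k A) (hG : G ∈ fn c k A) :
    (fun x => F x * G x) ∈ fn c k A := by
  have h1 : ∀ G ∈ fn c k A, (fun x => F x * G x) ∈ fn c k A := by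
    unfold fn at hF
    induction hF using Submodule.span_induction with
    | mem F h =>
      obtain ⟨f, hf, a, rfl⟩ := h
      intro G hG
      unfold fn at hG
      induction hG using Submodule.span_induction with
      | mem G h' =>
        obtain ⟨g, hg, b, rfl⟩ := h'
        refine Submodule.subset_span ⟨f * g, Subalgebra.mul_mem _ hf hg, a * b, ?_⟩
        funext x
        rw [smul_mul_smul_comm]
        rfl
      | zero =>
        have h2 : (fun x => f x • a * (0 : Cube k → A) x) = 0 := by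
          funext x
          simp
        rw [h2]
        exact Submodule.zero_mem _
      | add G H _ _ ihG ihH =>
        have h2 : (fun x => f x • a * (G + H) x) =
            (fun x => f x • a * G x) + fun x => f x • a * H x := by
          funext x
          simp [mul_add]
        rw [h2]
        exact Submodule.add_mem _ ihG ihH
      | smul r G _ ihG =>
        have h2 : (fun x => f x • a * (r • G) x) = r • fun x => f x • a * G x := by
          funext x
          simp
        rw [h2]
        exact Submodule.smul_mem _ r ihG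
    | zero =>
      intro G _
      have h2 : (fun x => (0 : Cube k → A) x * G x) = 0 := by
        funext x
        simp
      rw [h2]
      exact Submodule.zero_mem _
    | add F H _ _ ihF ihH =>
      intro G hG
      have h2 : (fun x => (F + H) x * G x) = (fun x => F x * G x) + fun x => H x * G x := by
        funext x
        simp [add_mul]
      rw [h2]
      exact Submodule.add_mem _ (ihF G hG) (ihH G hG)
    | smul r F _ ihF =>
      intro G hG
      have h2 : (fun x => (r • F) x * G x) = r • fun x => F x * G x := by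
        funext x
        simp
      rw [h2]
      exact Submodule.smul_mem _ r (ihF G hG)
  exact h1 G hG

theorem fn_const (a : A) : (fun _ => a) ∈ fn c k A := by
  refine Submodule.subset_span ⟨1, Subalgebra.one_mem _, a, ?_⟩
  funext x
  simp

theorem fn_comp {φ : Cube l → Cube k} (h : PolyMap φ) {F : Cube k → A} (hF : F ∈ fn c k A) :
    (fun x => F (φ x)) ∈ fn c l A := by
  unfold fn at hF
  induction hF using Submodule.span_induction with
  | mem F h' =>
    obtain ⟨f, hf, a, rfl⟩ := h'
    exact Submodule.subset_span ⟨fun x => f (φ x), scal_comp h hf, a, rfl⟩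
  | zero => exact Submodule.zero_mem _
  | add F H _ _ ihF ihH => exact Submodule.add_mem _ ihF ihH
  | smul r F _ ihF => exact Submodule.smul_mem _ r ihF

end Pool.Agent.Lib.MP_e7fbd4_ag.O
end

section

set_option autoImplicit false

namespace Pool.Agent.Lib.MP_e7fbd4_ag

variable {X Y : Type}

/-- degrees of the letters: `0` on `X` and `1` on `Y` -/
def deg01 : X ⊕ Y → ℤ := Sum.elim (fun _ => 0) (fun _ => 1)

/-- the inclusion of the free algebra on `X` in the free algebra on `X ⊕ Y` -/
noncomputable def inc : FreeAlgebra ℂ X →ₐ[ℂ] FreeAlgebra ℂ (X ⊕ Y) :=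
  FreeAlgebra.lift ℂ (fun x => FreeAlgebra.ι ℂ (Sum.inl x))

theorem inc_ι (x : X) :
    inc (Y := Y) (FreeAlgebra.ι ℂ x) = FreeAlgebra.ι ℂ (Sum.inl x) := by
  simp [inc]

theorem inc_mem (a : FreeAlgebra ℂ X) : inc a ∈ fgr (deg01 (X := X) (Y := Y)) 0 := by
  induction a using FreeAlgebra.induction with
  | grade0 c =>
    rw [Algebra.algebraMap_eq_smul_one, map_smul, map_one]
    exact Submodule.smul_mem _ _ (one_mem_fgr _)
  | grade1 x =>
    rw [inc_ι]
    exact ι_mem_fgr deg01 (Sum.inl x)
  | mul a b ha hb =>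
    rw [map_mul]
    have h := mul_mem_fgr deg01 ha hb
    rwa [add_zero] at h
  | add a b ha hb => rw [map_add]; exact Submodule.add_mem _ ha hb

theorem inc_adjoin (a : FreeAlgebra ℂ X) :
    inc a ∈ Algebra.adjoin ℂ (FreeAlgebra.ι ℂ '' (Set.range (Sum.inl : X → X ⊕ Y))) := by
  induction a using FreeAlgebra.induction with
  | grade0 c => rw [AlgHom.commutes]; exact Subalgebra.algebraMap_mem _ _
  | grade1 x =>
    rw [inc_ι]
    exact Algebra.subset_adjoin ⟨_, ⟨x, rfl⟩, rfl⟩
  | mul a b ha hb => rw [map_mul]; exact Subalgebra.mul_mem _ ha hb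
  | add a b ha hb => rw [map_add]; exact Subalgebra.add_mem _ ha hb

theorem exists_cell (rel : Y → FreeAlgebra ℂ X) :
    ∃ C : Cell (X ⊕ Y), C.deg = deg01 ∧ (∀ x, C.d (FreeAlgebra.ι ℂ (Sum.inl x)) = 0) ∧
      ∀ y, C.d (FreeAlgebra.ι ℂ (Sum.inr y)) = inc (rel y) := by
  obtain ⟨D, hD1, hD2⟩ := exists_skewDer (LinearMap.mul ℂ (FreeAlgebra ℂ (X ⊕ Y)))
    (LinearMap.mul ℂ (FreeAlgebra ℂ (X ⊕ Y))).flip (by intro p; simp) (by intro p; simp)
    (by intro a b p; simp [mul_assoc]) (by intro a b p; simp [mul_assoc])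
    (by intro a b p; simp [mul_assoc]) (sg deg01)
    (Sum.elim (fun _ => 0) (fun y => inc (rel y)))
  have hmul : ∀ a b, D (a * b) = D a * b + sg deg01 a * D b := hD2
  have hone : D 1 = 0 := by
    have h := hmul 1 1
    rw [mul_one, mul_one, map_one (sg deg01), one_mul] at h
    exact left_eq_add.mp h
  have hinc : ∀ a, D (inc a) = 0 := by
    intro a
    induction a using FreeAlgebra.induction with
    | grade0 c => rw [Algebra.algebraMap_eq_smul_one, map_smul, map_one, map_smul, hone, smul_zero]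
    | grade1 x => rw [inc_ι, hD1]; rfl
    | mul a b ha hb => rw [map_mul, hmul, ha, hb, zero_mul, mul_zero, add_zero]
    | add a b ha hb => rw [map_add, map_add, ha, hb, add_zero]
  refine ⟨⟨deg01, D, hmul, ?_, ?_⟩, rfl, fun x => hD1 (Sum.inl x), fun y => hD1 (Sum.inr y)⟩
  · intro x
    rw [hD1]
    rcases x with x | y
    · exact Submodule.zero_mem _
    · exact inc_mem (rel y)
  · intro x
    rw [hD1]
    rcases x with x | y
    · exact map_zero D
    · exact hinc (rel y)

theorem word_deg01 (u : FreeMonoid (X ⊕ Y)) :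
    0 ≤ (wdeg deg01 u).toAdd ∧ ((wdeg deg01 u).toAdd = 0 → ∃ a : FreeAlgebra ℂ X, inc a = word u) := by
  induction u using FreeMonoid.inductionOn' with
  | one => exact ⟨le_refl _, fun _ => ⟨1, by rw [map_one, map_one word]⟩⟩
  | of_mul x xs ih =>
    have h1 : (wdeg deg01 (FreeMonoid.of x * xs)).toAdd = deg01 x + (wdeg deg01 xs).toAdd := by
      rw [map_mul (wdeg deg01), toAdd_mul, wdeg, FreeMonoid.lift_eval_of, toAdd_ofAdd]
    rw [h1]
    rcases x with x | y
    · have h2 : (deg01 (Sum.inl x : X ⊕ Y)) = 0 := rfl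
      rw [h2, zero_add]
      refine ⟨ih.1, fun h => ?_⟩
      obtain ⟨a, ha⟩ := ih.2 h
      exact ⟨FreeAlgebra.ι ℂ x * a, by rw [map_mul, ha, inc_ι, map_mul word, word_of]⟩
    · have h2 : (deg01 (Sum.inr y : X ⊕ Y)) = 1 := rfl
      rw [h2]
      refine ⟨by linarith [ih.1], fun h => ?_⟩
      exfalso
      linarith [ih.1]

theorem fgr_neg (n : ℤ) (hn : n < 0) : fgr (deg01 (X := X) (Y := Y)) n = ⊥ := by
  rw [eq_bot_iff]
  unfold fgr
  rw [Submodule.span_le]
  rintro _ ⟨u, hu, rfl⟩
  exfalso
  have hu' : (wdeg deg01 u).toAdd = n := hu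
  have h := (word_deg01 u).1
  rw [hu'] at h
  linarith

theorem fgr_zero (a : FreeAlgebra ℂ (X ⊕ Y)) (ha : a ∈ fgr (deg01 (X := X) (Y := Y)) 0) :
    ∃ b : FreeAlgebra ℂ X, inc b = a := by
  have h : fgr (deg01 (X := X) (Y := Y)) 0 ≤ LinearMap.range (inc (X := X) (Y := Y)).toLinearMap := by
    unfold fgr
    rw [Submodule.span_le]
    rintro _ ⟨u, hu, rfl⟩
    obtain ⟨b, hb⟩ := (word_deg01 u).2 hu
    exact ⟨b, hb⟩
  exact h ha

/-- the projection to `R` -/
noncomputable def prj {R : Type} [Ring R] [Algebra ℂ R] (p : FreeAlgebra ℂ X →ₐ[ℂ] R) :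
    FreeAlgebra ℂ (X ⊕ Y) →ₐ[ℂ] R :=
  FreeAlgebra.lift ℂ (Sum.elim (fun x => p (FreeAlgebra.ι ℂ x)) (fun _ => 0))

theorem prj_inl {R : Type} [Ring R] [Algebra ℂ R] (p : FreeAlgebra ℂ X →ₐ[ℂ] R) (x : X) :
    prj (Y := Y) p (FreeAlgebra.ι ℂ (Sum.inl x)) = p (FreeAlgebra.ι ℂ x) := by
  simp [prj]

theorem prj_inr {R : Type} [Ring R] [Algebra ℂ R] (p : FreeAlgebra ℂ X →ₐ[ℂ] R) (y : Y) :
    prj p (FreeAlgebra.ι ℂ (Sum.inr y)) = 0 := by
  simp [prj]

theorem prj_inc {R : Type} [Ring R] [Algebra ℂ R] (p : FreeAlgebra ℂ X →ₐ[ℂ] R)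
    (a : FreeAlgebra ℂ X) : prj (Y := Y) p (inc a) = p a := by
  have h : (prj (Y := Y) p).comp inc = p := by
    apply FreeAlgebra.hom_ext
    funext x
    simp only [Function.comp_apply, AlgHom.comp_apply, inc_ι, prj_inl]
  exact DFunLike.congr_fun h a

theorem prj_word {R : Type} [Ring R] [Algebra ℂ R] (p : FreeAlgebra ℂ X →ₐ[ℂ] R)
    (u : FreeMonoid (X ⊕ Y)) : prj p (word u) = 0 ∨ (wdeg deg01 u).toAdd = 0 := by
  induction u using FreeMonoid.inductionOn' with
  | one => exact Or.inr rfl
  | of_mul x xs ih =>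
    have h1 : (wdeg deg01 (FreeMonoid.of x * xs)).toAdd = deg01 x + (wdeg deg01 xs).toAdd := by
      rw [map_mul (wdeg deg01), toAdd_mul, wdeg, FreeMonoid.lift_eval_of, toAdd_ofAdd]
    rw [h1, map_mul word, map_mul, word_of]
    rcases x with x | y
    · have h2 : (deg01 (Sum.inl x : X ⊕ Y)) = 0 := rfl
      rw [h2, zero_add]
      rcases ih with ih | ih
      · left; rw [ih, mul_zero]
      · right; exact ih
    · left; rw [prj_inr, zero_mul]

theorem prj_deg {R : Type} [Ring R] [Algebra ℂ R] (p : FreeAlgebra ℂ X →ₐ[ℂ] R) (n : ℤ)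
    (a : FreeAlgebra ℂ (X ⊕ Y)) (hn : n ≠ 0) (ha : a ∈ fgr deg01 n) : prj p a = 0 := by
  have h : fgr (deg01 (X := X) (Y := Y)) n ≤ LinearMap.ker (prj (Y := Y) p).toLinearMap := by
    unfold fgr
    rw [Submodule.span_le]
    rintro _ ⟨u, hu, rfl⟩
    have hu' : (wdeg deg01 u).toAdd = n := hu
    rcases prj_word p u with h | h
    · exact h
    · exact absurd (hu'.symm.trans h) hn
  exact h ha

theorem prj_d {R : Type} [Ring R] [Algebra ℂ R] (p : FreeAlgebra ℂ X →ₐ[ℂ] R)
    (rel : Y → FreeAlgebra ℂ X) (hp : ∀ y, p (rel y) = 0) (C : Cell (X ⊕ Y))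
    (h0 : ∀ x, C.d (FreeAlgebra.ι ℂ (Sum.inl x)) = 0)
    (h1 : ∀ y, C.d (FreeAlgebra.ι ℂ (Sum.inr y)) = inc (rel y)) (a : FreeAlgebra ℂ (X ⊕ Y)) :
    prj p (C.d a) = 0 := by
  induction a using FreeAlgebra.induction with
  | grade0 c => rw [Algebra.algebraMap_eq_smul_one, map_smul, C.d_one, smul_zero, map_zero]
  | grade1 x =>
    rcases x with x | y
    · rw [h0, map_zero]
    · rw [h1, prj_inc, hp]
  | mul a b ha hb => rw [C.d_mul, map_add, map_mul, map_mul, ha, hb, zero_mul, mul_zero, add_zero]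
  | add a b ha hb => rw [map_add, map_add, ha, hb, add_zero]

/-- the two-sided ideal of elements of the free algebra on `X` which are boundaries -/
noncomputable def bdIdeal (C : Cell (X ⊕ Y)) (hdeg : C.deg = deg01)
    (h0 : ∀ x, C.d (FreeAlgebra.ι ℂ (Sum.inl x)) = 0) : TwoSidedIdeal (FreeAlgebra ℂ X) :=
  TwoSidedIdeal.mk' {a | ∃ b ∈ fgr (deg01 (X := X) (Y := Y)) 1, C.d b = inc a}
    ⟨0, Submodule.zero_mem _, by rw [map_zero, map_zero]⟩
    (by
      rintro a b ⟨a', ha', ha⟩ ⟨b', hb', hb⟩
      exact ⟨a' + b', Submodule.add_mem _ ha' hb', by rw [map_add, map_add, ha, hb]⟩)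
    (by
      rintro a ⟨a', ha', ha⟩
      exact ⟨-a', Submodule.neg_mem _ ha', by rw [map_neg, map_neg, ha]⟩)
    (by
      rintro c a ⟨a', ha', ha⟩
      have hc : C.d (inc c) = 0 := by
        induction c using FreeAlgebra.induction with
        | grade0 c =>
          rw [Algebra.algebraMap_eq_smul_one, map_smul, map_one, map_smul, C.d_one, smul_zero]
        | grade1 x => rw [inc_ι, h0]
        | mul a b ha hb => rw [map_mul, C.d_mul, ha, hb, zero_mul, mul_zero, add_zero]
        | add a b ha hb => rw [map_add, map_add, ha, hb, add_zero]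
      refine ⟨inc c * a', ?_, ?_⟩
      · have h := mul_mem_fgr deg01 (inc_mem (Y := Y) c) ha'
        rwa [zero_add] at h
      · rw [C.d_mul, hc, zero_mul, zero_add, hdeg, sg_of_mem deg01 0 (inc_mem c), zpow_zero,
          one_smul, ha, map_mul])
    (by
      rintro a c ⟨a', ha', ha⟩
      have hc : C.d (inc c) = 0 := by
        induction c using FreeAlgebra.induction with
        | grade0 c =>
          rw [Algebra.algebraMap_eq_smul_one, map_smul, map_one, map_smul, C.d_one, smul_zero]
        | grade1 x => rw [inc_ι, h0]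
        | mul a b ha hb => rw [map_mul, C.d_mul, ha, hb, zero_mul, mul_zero, add_zero]
        | add a b ha hb => rw [map_add, map_add, ha, hb, add_zero]
      refine ⟨a' * inc c, ?_, ?_⟩
      · have h := mul_mem_fgr deg01 ha' (inc_mem (Y := Y) c)
        rwa [add_zero] at h
      · rw [C.d_mul, hc, mul_zero, add_zero, ha, map_mul])

theorem mem_bdIdeal (C : Cell (X ⊕ Y)) (hdeg : C.deg = deg01)
    (h0 : ∀ x, C.d (FreeAlgebra.ι ℂ (Sum.inl x)) = 0) (a : FreeAlgebra ℂ X) :
    a ∈ bdIdeal C hdeg h0 ↔ ∃ b ∈ fgr (deg01 (X := X) (Y := Y)) 1, C.d b = inc a := by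
  rw [bdIdeal, TwoSidedIdeal.mem_mk']
  rfl

/-- elements of the free algebra which vanish in the quotient by relations `rel y = 0` lie in
every two-sided ideal which contains the `rel y` -/
theorem mem_of_mkAlgHom_eq_zero (s : FreeAlgebra ℂ X → FreeAlgebra ℂ X → Prop)
    (I : TwoSidedIdeal (FreeAlgebra ℂ X)) (hI : ∀ a b, s a b → a - b ∈ I) (a : FreeAlgebra ℂ X)
    (ha : RingQuot.mkAlgHom ℂ s a = 0) : a ∈ I := by
  have h1 : RingQuot.mkRingHom s a = 0 := by
    rw [← RingQuot.mkAlgHom_coe ℂ s]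
    exact ha
  let g := RingQuot.lift (r := s) ⟨I.ringCon.mk', by
    intro x y hxy
    exact (RingCon.eq _).2 (I.rel_iff _ _ |>.2 (hI x y hxy))⟩
  have h2 : g (RingQuot.mkRingHom s a) = I.ringCon.mk' a := RingQuot.lift_mkRingHom_apply _ _ _
  rw [h1, map_zero] at h2
  have h3 : I.ringCon.mk' a = I.ringCon.mk' 0 := by rw [← h2, map_zero]
  have h4 := (RingCon.eq _).1 h3
  exact (I.mem_iff _).2 h4

/-- **Finite presentations and smooth dg algebras.** Let `X`, `Y` be finite sets, let `rel y`,
`y ∈ Y`, be elements of the free algebra on `X` and let `R` be the quotient of the free algebra by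
the relations `rel y = 0`. Then there is a smooth connective dg algebra `A` with `H_0(A) = R`. -/
theorem exists_smooth_H0 [Fintype X] [Fintype Y] (rel : Y → FreeAlgebra ℂ X)
    (s : FreeAlgebra ℂ X → FreeAlgebra ℂ X → Prop)
    (hs : ∀ a b, s a b ↔ ∃ y, a = rel y ∧ b = 0) :
    ∃ A : DGAlgebra, A.IsSmooth ∧ A.IsConnective ∧ ∃ π : A.A →ₐ[ℂ] RingQuot s, A.IsH0 π := by
  obtain ⟨C, hdeg, h0, h1⟩ := exists_cell rel
  have hp : ∀ y, RingQuot.mkAlgHom ℂ s (rel y) = 0 := by
    intro y
    have h := RingQuot.mkAlgHom_rel ℂ ((hs (rel y) 0).2 ⟨y, rfl, rfl⟩)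
    rw [h, map_zero]
  refine ⟨C.toDG, C.isSmooth (Sum.elim (fun _ => 0) (fun _ => 1)) ?_, ?_,
    prj (RingQuot.mkAlgHom ℂ s), ?_, ?_, ?_, ?_⟩
  · intro x
    rcases x with x | y
    · rw [h0]; exact Subalgebra.zero_mem _
    · rw [h1]
      refine Algebra.adjoin_mono (Set.image_mono ?_) (inc_adjoin (Y := Y) (rel y))
      rintro _ ⟨x, rfl⟩
      exact Nat.one_pos
  · intro n hn
    have h : fgr C.deg n = ⊥ := by rw [hdeg]; exact fgr_neg n hn
    exact h
  · intro n a hn ha
    have ha' : a ∈ fgr C.deg n := ha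
    rw [hdeg] at ha'
    exact prj_deg _ n a hn ha'
  · intro a
    exact prj_d _ rel hp C h0 h1 a
  · intro x
    obtain ⟨a, rfl⟩ := RingQuot.mkAlgHom_surjective ℂ s x
    refine ⟨inc a, ?_, prj_inc _ a⟩
    have h : inc a ∈ fgr C.deg 0 := by rw [hdeg]; exact inc_mem a
    exact h
  · intro a ha hpa
    have ha' : a ∈ fgr C.deg 0 := ha
    rw [hdeg] at ha'
    obtain ⟨b, rfl⟩ := fgr_zero a ha'
    have hb : RingQuot.mkAlgHom ℂ s b = 0 := (prj_inc (Y := Y) _ b).symm.trans hpa
    have hI : b ∈ bdIdeal C hdeg h0 := by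
      refine mem_of_mkAlgHom_eq_zero s _ ?_ b hb
      intro x z hxz
      obtain ⟨y, rfl, rfl⟩ := (hs x z).1 hxz
      rw [sub_zero, mem_bdIdeal]
      exact ⟨FreeAlgebra.ι ℂ (Sum.inr y), ι_mem_fgr deg01 (Sum.inr y), h1 y⟩
    obtain ⟨c, hc, hc2⟩ := (mem_bdIdeal C hdeg h0 b).1 hI
    refine ⟨c, ?_, hc2⟩
    have h : c ∈ fgr C.deg 1 := by rw [hdeg]; exact hc
    exact h

end Pool.Agent.Lib.MP_e7fbd4_ag
end
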