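import Pool.Agent.Lib.MP_e7fbd4_ag.Mg.G001
import Pool.Agent.Lib.MP_e7fbd4_ag.Mg.G009
import Pool.Agent.Lib.MP_e7fbd4_ag.Mg.G005
import Pool.Agent.Lib.MP_e7fbd4_ag.Mg.G008
import Pool.Agent.Lib.MP_e7fbd4_ag.X.Alg

section

/-! # Spheres in `GL(A)` -/

set_option autoImplicit false
set_option linter.unusedSectionVars false
set_option linter.unusedVariables false

namespace Pool.Agent.Lib.MP_e7fbd4_ag.O

open Pool.Agent.Lib.MP_c052b4_al

variable {A B C : Type} [Ring A] [Algebra ℂ A] [Ring B] [Algebra ℂ B] [Ring C] [Algebra ℂ C]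
  {c : Kind} {m k l : ℕ}

/-- Polynomial functions `g : I^k → GL(A)` with `g = 1` on the boundary. -/
structure Sph (k : ℕ) (A : Type) [Ring A] [Algebra ℂ A] where
  g : Cube k → GLinf A
  hg : IsCube Kind.alg g
  bdry : ∀ x, OnBdry x → g x = 1

theorem Sph.ext' {z w : Sph k A} (h : ∀ x, z.g x = w.g x) : z = w := by
  obtain ⟨zg, _, _⟩ := z
  obtain ⟨wg, _, _⟩ := w
  obtain rfl : zg = wg := funext h
  rfl

noncomputable instance : Mul (Sph k A) where
  mul z w := ⟨fun x => z.g x * w.g x, z.hg.mul w.hg, fun x hx => by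
    rw [z.bdry x hx, w.bdry x hx, one_mul]⟩

noncomputable instance : Inv (Sph k A) where
  inv z := ⟨fun x => (z.g x)⁻¹, z.hg.inv, fun x hx => by rw [z.bdry x hx, inv_one]⟩

noncomputable instance : One (Sph k A) where
  one := ⟨fun _ => 1, IsCube.const 1, fun _ _ => rfl⟩

theorem Sph.mul_g (z w : Sph k A) (x : Cube k) : (z * w).g x = z.g x * w.g x := rfl
theorem Sph.inv_g (z : Sph k A) (x : Cube k) : (z⁻¹).g x = (z.g x)⁻¹ := rfl
theorem Sph.one_g (x : Cube k) : (1 : Sph k A).g x = 1 := rfl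

/-- The map induced by an algebra homomorphism. -/
noncomputable def Sph.map (f : A →ₐ[ℂ] B) (z : Sph k A) : Sph k B :=
  ⟨fun x => GLinf.map f.toRingHom (z.g x), IsCube.map z.hg f, fun x hx => by
    rw [z.bdry x hx, map_one]⟩

theorem Sph.map_g (f : A →ₐ[ℂ] B) (z : Sph k A) (x : Cube k) :
    (z.map f).g x = GLinf.map f.toRingHom (z.g x) := rfl

/-- `z` is homotopic to `1`. -/
def Null (z : Sph k A) : Prop :=
  ∃ G : Cube (k + 1) → GLinf A, IsCube Kind.alg G ∧
    (∀ (t : unitInterval) (x : Cube k), OnBdry x → G (Fin.cons t x) = 1) ∧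
    (∀ x, G (Fin.cons 0 x) = 1) ∧ ∀ x, G (Fin.cons 1 x) = z.g x

theorem loop_le (A : Type) [Ring A] [Algebra ℂ A] : Loop A ≤ Poly A := fun _ h => h.1

theorem cone_le (m : ℕ) (A : Type) [Ring A] [Algebra ℂ A] :
    Cone m A ≤ Poly (Matrix (Fin m) (Fin m) A) := fun _ h => h.1

theorem onBdry_cons {t : unitInterval} {x : Cube k} (h : OnBdry x) :
    OnBdry (Fin.cons t x : Cube (k + 1)) := by
  obtain ⟨i, hi⟩ := h
  exact ⟨i.succ, by simpa using hi⟩

theorem onBdry_cons_zero (x : Cube k) : OnBdry (Fin.cons 0 x : Cube (k + 1)) :=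
  ⟨0, Or.inl rfl⟩

theorem onBdry_cons_one (x : Cube k) : OnBdry (Fin.cons 1 x : Cube (k + 1)) :=
  ⟨0, Or.inr rfl⟩

theorem onBdry_cons_iff {t : unitInterval} {x : Cube k} :
    OnBdry (Fin.cons t x : Cube (k + 1)) ↔ t = 0 ∨ t = 1 ∨ OnBdry x := by
  constructor
  · rintro ⟨i, hi⟩
    refine Fin.cases (motive := fun i => ((Fin.cons t x : Cube (k + 1)) i = 0 ∨
      (Fin.cons t x : Cube (k + 1)) i = 1) → t = 0 ∨ t = 1 ∨ OnBdry x) ?_ (fun j => ?_) i hi
    · intro h
      rcases h with h | h
      · exact Or.inl h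
      · exact Or.inr (Or.inl h)
    · intro h
      exact Or.inr (Or.inr ⟨j, h⟩)
  · rintro (rfl | rfl | h)
    · exact onBdry_cons_zero x
    · exact onBdry_cons_one x
    · exact onBdry_cons h

end Pool.Agent.Lib.MP_e7fbd4_ag.O
end

section

/-! # Reindexing -/

set_option autoImplicit false
set_option linter.unusedSectionVars false
set_option linter.unusedVariables false

namespace Pool.Agent.Lib.MP_e7fbd4_ag.O

open Pool.Agent.Lib.MP_c052b4_al

variable {A B C : Type} [Ring A] [Algebra ℂ A] [Ring B] [Algebra ℂ B] [Ring C] [Algebra ℂ C]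
  {c : Kind} {m k l : ℕ}

/-- The diagonal idempotent with a `1` at the place `w`. -/
def Ew {r : ℕ} (w : Fin r) : Idem r where
  mat := Matrix.single w w 1
  idem := by rw [Matrix.single_mul_single_same, mul_one]

/-- The permutation matrix. -/
private def h6_perm (S : Type) [Ring S] {N : ℕ} (σ : Equiv.Perm (Fin N)) : (Matrix (Fin N) (Fin N) S)ˣ where
  val := (1 : Matrix (Fin N) (Fin N) S).submatrix σ.symm id
  inv := (1 : Matrix (Fin N) (Fin N) S).submatrix id σ.symm
  val_inv := by
    have h := Matrix.submatrix_mul_equiv (1 : Matrix (Fin N) (Fin N) S) (1 : Matrix (Fin N) (Fin N) S) σ.symm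
      (Equiv.refl (Fin N)) σ.symm
    rw [Equiv.coe_refl] at h
    rw [h, Matrix.one_mul, Matrix.submatrix_one_equiv]
  inv_val := by
    have h := Matrix.submatrix_mul_equiv (1 : Matrix (Fin N) (Fin N) S) (1 : Matrix (Fin N) (Fin N) S) id σ.symm id
    rw [h, Matrix.one_mul, Matrix.submatrix_id_id]

private theorem h6_conj {S : Type} [Ring S] {N : ℕ} (σ : Equiv.Perm (Fin N)) (M : (Matrix (Fin N) (Fin N) S)ˣ) :
    h6_perm S σ * M * (h6_perm S σ)⁻¹ = rU σ M := by
  symm
  rw [eq_mul_inv_iff_mul_eq]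
  apply Units.ext
  rw [Units.val_mul, Units.val_mul, coe_rU]
  change _ * (1 : Matrix (Fin N) (Fin N) S).submatrix σ.symm id = (1 : Matrix (Fin N) (Fin N) S).submatrix σ.symm id * _
  rw [Matrix.submatrix_mul_equiv (M : Matrix (Fin N) (Fin N) S) (1 : Matrix (Fin N) (Fin N) S) σ.symm σ.symm id,
    Matrix.mul_one]
  have h := Matrix.submatrix_mul_equiv (1 : Matrix (Fin N) (Fin N) S) (M : Matrix (Fin N) (Fin N) S) σ.symm
    (Equiv.refl (Fin N)) id
  rw [Equiv.coe_refl, Matrix.submatrix_id_id, Matrix.one_mul] at h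
  rw [h]

private theorem h6_map {S T : Type} [Ring S] [Ring T] (φ : S →+* T) {N : ℕ} (σ : Equiv.Perm (Fin N)) :
    mU φ (h6_perm S σ) = h6_perm T σ := by
  apply Units.ext
  ext a b
  show φ ((1 : Matrix (Fin N) (Fin N) S) (σ.symm a) b) = (1 : Matrix (Fin N) (Fin N) T) (σ.symm a) b
  rw [Matrix.one_apply, Matrix.one_apply]
  split_ifs
  · exact map_one φ
  · exact map_zero φ

private theorem h6_sigma {r : ℕ} (w : Fin r) (n : ℕ) : ∃ σ : Equiv.Perm (Fin (n * r)),
    (∀ a : Fin (n * r), a.val < n → (σ a).val = a.val * r + w.val) ∧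
      ∀ a : Fin (n * r), ¬ a.val < n → (σ a).val % r ≠ w.val := by
  have hr : 0 < r := w.pos
  let e : {x : Fin (n * r) // x.val < n} ≃ {x : Fin (n * r) // x.val % r = w.val} :=
    { toFun := fun x => ⟨⟨x.1.val * r + w.val, by
          have h1 : x.1.val * r + w.val < (x.1.val + 1) * r := by
            rw [Nat.add_mul, one_mul]; exact Nat.add_lt_add_left w.isLt _
          exact lt_of_lt_of_le h1 (Nat.mul_le_mul_right r x.2)⟩, by
            show (x.1.val * r + w.val) % r = w.val
            rw [Nat.mul_add_mod', Nat.mod_eq_of_lt w.isLt]⟩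
      invFun := fun y => ⟨⟨y.1.val / r, by
          have h1 : y.1.val / r < n := Nat.div_lt_of_lt_mul (lt_of_lt_of_eq y.1.isLt (mul_comm n r))
          exact lt_of_lt_of_le h1 (Nat.le_mul_of_pos_right n hr)⟩, by
            exact Nat.div_lt_of_lt_mul (lt_of_lt_of_eq y.1.isLt (mul_comm n r))⟩
      left_inv := fun x => by
        apply Subtype.ext
        apply Fin.ext
        show (x.1.val * r + w.val) / r = x.1.val
        rw [mul_comm, Nat.mul_add_div hr, Nat.div_eq_of_lt w.isLt, add_zero]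
      right_inv := fun y => by
        apply Subtype.ext
        apply Fin.ext
        show y.1.val / r * r + w.val = y.1.val
        have h1 := Nat.div_add_mod y.1.val r
        rw [y.2, mul_comm] at h1
        exact h1 }
  refine ⟨e.extendSubtype, fun a ha => ?_, fun a ha => ?_⟩
  · rw [e.extendSubtype_apply_of_mem a ha]
    rfl
  · exact e.extendSubtype_not_mem a ha

/-- A permutation matrix `v` of size `n * r` with `i ↦ i * r + w` for `i < n`, that is
`finProdFinEquiv (i, w)`. -/
theorem exists_perm {r : ℕ} (w : Fin r) (n : ℕ) : ∃ v : GLinf ℂ,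
    ∀ (A : Type) [Ring A] [Algebra ℂ A] (G : (Matrix (Fin n) (Fin n) A)ˣ),
      sc A v * toGL A n G * (sc A v)⁻¹ = twist (Ew w) (toGL A n G) := by
  have hr : 0 < r := w.pos
  obtain ⟨σ, hσ1, hσ2⟩ := h6_sigma w n
  refine ⟨toGL ℂ (n * r) (h6_perm ℂ σ), ?_⟩
  intro A _ _ G
  obtain ⟨E, hE, hEent⟩ := exists_enlarge (A := A) (Nat.le_mul_of_pos_right n hr)
  have e1 : sc A (toGL ℂ (n * r) (h6_perm ℂ σ)) = toGL A (n * r) (h6_perm A σ) := by
    rw [← h6_map (algebraMap ℂ A) σ]
    rfl
  rw [e1, ← hE G, ← map_mul, ← map_inv, ← map_mul, h6_conj, hE G, twist_toGL]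
  congr 1
  apply Units.ext
  have hval : ∀ a b : Fin (n * r), (E G).val a b = entM G.val a.val b.val := by
    intro a b
    rw [← hEent G a.val b.val]
    unfold entM
    rw [dif_pos ⟨a.isLt, b.isLt⟩]
  have hent : ∀ x y : Fin (n * r), (rU finProdFinEquiv (twU (Ew w) G)).val x y =
      (Ew w).mat ⟨x.val % r, Nat.mod_lt _ hr⟩ ⟨y.val % r, Nat.mod_lt _ hr⟩ • entM G.val (x.val / r) (y.val / r) +
        (1 - (Ew w).mat) ⟨x.val % r, Nat.mod_lt _ hr⟩ ⟨y.val % r, Nat.mod_lt _ hr⟩ •
          (if x.val / r = y.val / r then (1 : A) else 0) := by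
    intro x y
    rw [← entM_tw (Ew w) G x.val y.val hr]
    unfold entM
    rw [dif_pos ⟨x.isLt, y.isLt⟩]
  ext x y
  obtain ⟨a, rfl⟩ := σ.surjective x
  obtain ⟨b, rfl⟩ := σ.surjective y
  rw [hent, coe_rU, Matrix.submatrix_apply, Equiv.symm_apply_apply, Equiv.symm_apply_apply, hval]
  have hw : ∀ c : Fin (n * r), c.val < n → (σ c).val % r = w.val ∧ (σ c).val / r = c.val := by
    intro c hc
    rw [hσ1 c hc]
    constructor
    · rw [Nat.mul_add_mod', Nat.mod_eq_of_lt w.isLt]
    · rw [mul_comm, Nat.mul_add_div hr, Nat.div_eq_of_lt w.isLt, add_zero]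
  have hEw : ∀ s t : Fin r, (Ew w).mat s t = if s = w ∧ t = w then 1 else 0 := by
    intro s t
    show Matrix.single w w (1 : ℂ) s t = _
    rw [Matrix.single_apply]
    congr 1
    apply propext
    constructor
    · rintro ⟨h1, h2⟩; exact ⟨h1.symm, h2.symm⟩
    · rintro ⟨h1, h2⟩; exact ⟨h1.symm, h2.symm⟩
  rw [Matrix.sub_apply, hEw]
  by_cases ha : a.val < n
  · obtain ⟨ha1, ha2⟩ := hw a ha
    have ha3 : (⟨(σ a).val % r, Nat.mod_lt _ hr⟩ : Fin r) = w := Fin.ext ha1
    by_cases hb : b.val < n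
    · obtain ⟨hb1, hb2⟩ := hw b hb
      have hb3 : (⟨(σ b).val % r, Nat.mod_lt _ hr⟩ : Fin r) = w := Fin.ext hb1
      rw [ha3, hb3, if_pos ⟨rfl, rfl⟩, Matrix.one_apply_eq, sub_self, zero_smul, add_zero, one_smul, ha2, hb2]
    · have hb3 : (⟨(σ b).val % r, Nat.mod_lt _ hr⟩ : Fin r) ≠ w := fun h => hσ2 b hb (congrArg Fin.val h)
      rw [ha3, if_neg (fun h => hb3 h.2), Matrix.one_apply_ne (Ne.symm hb3), sub_self, zero_smul, zero_smul, add_zero]
      unfold entM
      rw [dif_neg (fun h => hb h.2), if_neg (by omega)]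
  · have ha3 : (⟨(σ a).val % r, Nat.mod_lt _ hr⟩ : Fin r) ≠ w := fun h => hσ2 a ha (congrArg Fin.val h)
    rw [if_neg (fun h => ha3 h.1), zero_smul, zero_add, sub_zero]
    unfold entM
    rw [dif_neg (fun h => ha h.1), Matrix.one_apply]
    by_cases hab : a = b
    · subst hab
      rw [if_pos rfl, if_pos rfl, if_pos rfl, one_smul]
    · rw [if_neg (fun h => hab (Fin.ext h))]
      by_cases h1 : (⟨(σ a).val % r, Nat.mod_lt _ hr⟩ : Fin r) = ⟨(σ b).val % r, Nat.mod_lt _ hr⟩
      · rw [if_pos h1]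
        have h2 : (σ a).val / r ≠ (σ b).val / r := by
          intro h3
          apply hab
          apply σ.injective
          apply Fin.ext
          have h4 := Nat.div_add_mod (σ a).val r
          have h5 := Nat.div_add_mod (σ b).val r
          have h6 : (σ a).val % r = (σ b).val % r := congrArg Fin.val h1
          rw [h3, h6] at h4
          rw [← h4, h5]
        rw [if_neg h2, smul_zero]
      · rw [if_neg h1, zero_smul]

end Pool.Agent.Lib.MP_e7fbd4_ag.O
end

section

/-! # Commuting elements -/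

set_option autoImplicit false
set_option linter.unusedSectionVars false
set_option linter.unusedVariables false

namespace Pool.Agent.Lib.MP_e7fbd4_ag.O

open Pool.Agent.Lib.MP_c052b4_al

variable {A B C : Type} [Ring A] [Algebra ℂ A] [Ring B] [Algebra ℂ B] [Ring C] [Algebra ℂ C]
  {c : Kind} {m k l : ℕ}

/-- `P ⊗ M`. -/
private def H8_kr {r : ℕ} (P : Matrix (Fin r) (Fin r) ℂ) {n : Type} (M : Matrix n n A) :
    Matrix (n × Fin r) (n × Fin r) A :=
  Matrix.of fun x y => P x.2 y.2 • M x.1 y.1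

private theorem H8_kr_mul {r : ℕ} (P Q : Matrix (Fin r) (Fin r) ℂ) {n : Type} [Fintype n]
    (M N : Matrix n n A) : H8_kr P M * H8_kr Q N = H8_kr (P * Q) (M * N) := by
  ext x y
  rw [Matrix.mul_apply, Fintype.sum_prod_type]
  show _ = (P * Q) x.2 y.2 • (M * N) x.1 y.1
  rw [Matrix.mul_apply, Matrix.mul_apply, Finset.sum_smul_sum, Finset.sum_comm]
  apply Finset.sum_congr rfl
  intro b _
  apply Finset.sum_congr rfl
  intro a _
  show (P x.2 b • M x.1 a) * (Q b y.2 • N a y.1) = _
  rw [smul_mul_smul_comm]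

private theorem H8_twM {r : ℕ} (P : Idem r) {n : Type} [DecidableEq n] (M : Matrix n n A) :
    twM P M = 1 + H8_kr P.mat (M - 1) := by
  ext x y
  show P.mat x.2 y.2 • M x.1 y.1 + (1 - P.mat) x.2 y.2 • (1 : Matrix n n A) x.1 y.1 =
    (1 : Matrix (n × Fin r) (n × Fin r) A) x y + P.mat x.2 y.2 • (M - 1) x.1 y.1
  rw [Matrix.sub_apply, Matrix.sub_apply, sub_smul, smul_sub]
  have h : (1 : Matrix (Fin r) (Fin r) ℂ) x.2 y.2 • (1 : Matrix n n A) x.1 y.1 =
      (1 : Matrix (n × Fin r) (n × Fin r) A) x y := by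
    rw [Matrix.one_apply, Matrix.one_apply, Matrix.one_apply]
    by_cases h1 : x.1 = y.1
    · by_cases h2 : x.2 = y.2
      · rw [if_pos h1, if_pos h2, if_pos (Prod.ext h1 h2), one_smul]
      · rw [if_neg h2, if_neg (fun h => h2 (congrArg Prod.snd h)), zero_smul]
    · rw [if_neg h1, if_neg (fun h => h1 (congrArg Prod.fst h)), smul_zero]
  rw [h]
  abel

/-- If `(M - 1) (N - 1) = 0 = (N - 1) (M - 1)` then the matrices `P ⊗ M + (1 - P) ⊗ 1` and
`P' ⊗ N + (1 - P') ⊗ 1` commute. -/
private theorem H8_comm {s : ℕ} (P P' : Idem s) {n : Type} [Fintype n] [DecidableEq n]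
    (M N : (Matrix n n A)ˣ) (h : (M.val - 1) * (N.val - 1) = 0) (h' : (N.val - 1) * (M.val - 1) = 0) :
    twU P M * twU P' N = twU P' N * twU P M := by
  apply Units.ext
  show twM P M.val * twM P' N.val = twM P' N.val * twM P M.val
  rw [H8_twM, H8_twM, add_mul, mul_add, mul_add, add_mul, mul_add, mul_add, H8_kr_mul, H8_kr_mul, h, h']
  have h0 : ∀ Q : Matrix (Fin s) (Fin s) ℂ, H8_kr Q (0 : Matrix n n A) = 0 := by
    intro Q
    ext x y
    exact smul_zero (Q x.2 y.2)
  rw [h0, h0]
  simp only [one_mul, mul_one, add_zero]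
  abel

private theorem H8_disj {r : ℕ} {w w' : Fin r} (hw : w ≠ w') {n : Type} [Fintype n] [DecidableEq n]
    (M N : (Matrix n n A)ˣ) :
    ((twU (Ew w) M).val - 1) * ((twU (Ew w') N).val - 1) = 0 := by
  show (twM (Ew w) M.val - 1) * (twM (Ew w') N.val - 1) = 0
  rw [H8_twM, H8_twM, add_sub_cancel_left, add_sub_cancel_left, H8_kr_mul]
  have h : (Ew w).mat * (Ew w').mat = 0 := by
    show Matrix.single w w 1 * Matrix.single w' w' (1 : ℂ) = 0
    rw [Matrix.single_mul_single_of_ne _ _ _ _ hw]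
  rw [h]
  ext x y
  exact zero_smul ℂ (((M.val - 1) * (N.val - 1)) x.1 y.1)

private theorem H8_rU {m n : Type} [Fintype m] [Fintype n] [DecidableEq m] [DecidableEq n] (σ : m ≃ n)
    (M N : (Matrix m m A)ˣ) (h : (M.val - 1) * (N.val - 1) = 0) :
    ((rU σ M).val - 1) * ((rU σ N).val - 1) = 0 := by
  have e : ∀ K : (Matrix m m A)ˣ, (rU σ K).val - 1 = (K.val - 1).submatrix σ.symm σ.symm := by
    intro K
    rw [coe_rU, Matrix.submatrix_sub]
    show _ = K.val.submatrix σ.symm σ.symm - (1 : Matrix m m A).submatrix σ.symm σ.symm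
    rw [Matrix.submatrix_one_equiv]
  rw [e, e, Matrix.submatrix_mul_equiv, h]
  rfl

private theorem H8_common (g h : GLinf A) : ∃ (n : ℕ) (G H : (Matrix (Fin n) (Fin n) A)ˣ),
    toGL A n G = g ∧ toGL A n H = h := by
  obtain ⟨k, G, rfl⟩ := exists_toGL g
  obtain ⟨l, H, rfl⟩ := exists_toGL h
  obtain ⟨E, hE, -⟩ := exists_enlarge (A := A) (le_max_left k l)
  obtain ⟨E', hE', -⟩ := exists_enlarge (A := A) (le_max_right k l)
  exact ⟨max k l, E G, E' H, hE G, hE' H⟩

/-- Block-disjoint elements commute, also after applying `twist P`, `twist P'`: on the level of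
matrices of a common size (`exists_enlarge`) the matrices are `1 + P ⊗ E_w ⊗ (G - 1)` and
`1 + P' ⊗ E_w' ⊗ (H - 1)` and the products of the second summands vanish. -/
theorem twist_twist_comm {r s : ℕ} {w w' : Fin r} (hw : w ≠ w') (P P' : Idem s) (g h : GLinf A) :
    twist P (twist (Ew w) g) * twist P' (twist (Ew w') h) =
      twist P' (twist (Ew w') h) * twist P (twist (Ew w) g) := by
  obtain ⟨n, G, H, rfl, rfl⟩ := H8_common g h
  rw [twist_toGL, twist_toGL, twist_toGL, twist_toGL, ← map_mul, ← map_mul, ← rU_mul, ← rU_mul]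
  rw [H8_comm P P' _ _ (H8_rU _ _ _ (H8_disj hw G H)) (H8_rU _ _ _ (H8_disj hw.symm H G))]

theorem twist_comm {r : ℕ} {w w' : Fin r} (hw : w ≠ w') (g h : GLinf A) :
    twist (Ew w) g * twist (Ew w') h = twist (Ew w') h * twist (Ew w) g := by
  obtain ⟨n, G, H, rfl, rfl⟩ := H8_common g h
  rw [twist_toGL, twist_toGL, ← map_mul, ← map_mul, ← rU_mul, ← rU_mul]
  have e : twU (Ew w) G * twU (Ew w') H = twU (Ew w') H * twU (Ew w) G := by
    apply Units.ext
    have h1 := H8_disj hw G H
    have h2 := H8_disj hw.symm H G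
    rw [sub_mul, mul_sub, mul_one, one_mul, sub_eq_zero] at h1 h2
    rw [Units.val_mul, Units.val_mul]
    have h3 : (twU (Ew w) G).val * (twU (Ew w') H).val =
        (twU (Ew w) G).val + ((twU (Ew w') H).val - 1) := by
      rw [← h1]
      abel
    have h4 : (twU (Ew w') H).val * (twU (Ew w) G).val =
        (twU (Ew w') H).val + ((twU (Ew w) G).val - 1) := by
      rw [← h2]
      abel
    rw [h3, h4]
    abel
  rw [e]

end Pool.Agent.Lib.MP_e7fbd4_ag.O
end

section

/-! # The Morita map and diagonal homomorphisms -/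

set_option autoImplicit false
set_option linter.unusedSectionVars false
set_option linter.unusedVariables false

namespace Pool.Agent.Lib.MP_e7fbd4_ag.O

open Pool.Agent.Lib.MP_c052b4_al

variable {A B C : Type} [Ring A] [Algebra ℂ A] [Ring B] [Algebra ℂ B] [Ring C] [Algebra ℂ C]
  {c : Kind} {m k l : ℕ}

/-- block diagonal matrices -/
private noncomputable def bdU (n : Type) [Fintype n] [DecidableEq n] (r : ℕ) (B : Type) [Ring B] :
    (Fin r → (Matrix n n B)ˣ) →* (Matrix (n × Fin r) (n × Fin r) B)ˣ :=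
  (Units.map (Matrix.blockDiagonalRingHom n (Fin r) B).toMonoidHom).comp
    (MulEquiv.piUnits (M := fun _ : Fin r => Matrix n n B)).symm.toMonoidHom

private theorem bdU_val {n : Type} [Fintype n] [DecidableEq n] {r : ℕ}
    (M : Fin r → (Matrix n n B)ˣ) :
    (bdU n r B M).val = Matrix.blockDiagonal fun w => (M w).val := rfl

private theorem twU_Ew {n : Type} [Fintype n] [DecidableEq n] {r : ℕ} (w : Fin r) (M : (Matrix n n B)ˣ) :
    twU (Ew w) M = bdU n r B (Pi.mulSingle w M) := by
  apply Units.ext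
  rw [bdU_val]
  ext x y
  change (Matrix.single w w (1 : ℂ)) x.2 y.2 • M.val x.1 y.1 +
    (1 - Matrix.single w w (1 : ℂ)) x.2 y.2 • (1 : Matrix n n B) x.1 y.1 = _
  rw [Matrix.blockDiagonal_apply, Matrix.sub_apply, Matrix.single_apply, Matrix.one_apply]
  by_cases h : x.2 = y.2
  · rw [if_pos h, if_pos h]
    by_cases hw : x.2 = w
    · rw [if_pos ⟨hw.symm, hw.symm.trans h⟩]
      subst hw
      simp
    · rw [if_neg (fun h' => hw h'.1.symm), Pi.mulSingle_eq_of_ne hw]
      simp
  · rw [if_neg h, if_neg h, if_neg (fun h' => h (h'.1.symm.trans h'.2))]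
    simp

private theorem list_prod_ite {M : Type} [Monoid M] {r : ℕ} (L : List (Fin r)) (hL : L.Nodup) (a : Fin r)
    (x : M) : (L.map fun w => if a = w then x else 1).prod = if a ∈ L then x else 1 := by
  induction L with
  | nil => simp
  | cons b L ih =>
    rw [List.nodup_cons] at hL
    rw [List.map_cons, List.prod_cons, ih hL.2]
    by_cases hab : a = b
    · subst hab
      simp [hL.1]
    · simp [hab]

private theorem prod_ofFn_mulSingle {M : Type} [Monoid M] {r : ℕ} (f : Fin r → M) :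
    (List.ofFn fun w => (Pi.mulSingle w (f w) : Fin r → M)).prod = f := by
  funext a
  have h1 : (List.ofFn fun w => (Pi.mulSingle w (f w) : Fin r → M)).prod a =
      ((List.ofFn fun w => (Pi.mulSingle w (f w) : Fin r → M)).map fun g => g a).prod := by
    exact map_list_prod (Pi.evalMonoidHom (fun _ : Fin r => M) a) _
  rw [h1, List.map_ofFn]
  have h2 : (List.ofFn ((fun g : Fin r → M => g a) ∘ fun w => Pi.mulSingle w (f w))) =
      (List.finRange r).map fun w => if a = w then f a else 1 := by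
    rw [List.ofFn_eq_map]
    apply List.map_congr_left
    intro w _
    by_cases h : a = w
    · subst h
      simp
    · simp [h]
  rw [h2, list_prod_ite _ (List.nodup_finRange r), if_pos (List.mem_finRange a)]

/-- The matrix `E_w ⊗ G + (1 - E_w) ⊗ 1 = 1 + E_w ⊗ (G - 1)`; the product over `w` of
`1 + E_w ⊗ (G_w - 1)` is `1 + ∑ E_w ⊗ (G_w - 1)`, which is `flat` of the diagonal matrices. -/
theorem flat_diag {r : ℕ} (φ : Fin r → (C →ₐ[ℂ] B)) (g : GLinf C) :
    flat r B (GLinf.map (diagHom φ).toRingHom g) =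
      (List.ofFn fun w => twist (Ew w) (GLinf.map (φ w).toRingHom g)).prod := by
  obtain ⟨n, G, rfl⟩ := exists_toGL g
  have h1 : flat r B (GLinf.map (diagHom φ).toRingHom (toGL C n G)) =
      toGL B (n * r) (rUHom finProdFinEquiv (flU r n (mU (diagHom φ).toRingHom G))) := rfl
  have h2 : (List.ofFn fun w => twist (Ew w) (GLinf.map (φ w).toRingHom (toGL C n G))) =
      (List.ofFn fun w => Pi.mulSingle w (mU (φ w).toRingHom G)).map
        (((toGL B (n * r)).comp (rUHom finProdFinEquiv)).comp (bdU (Fin n) r B)) := by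
    rw [List.map_ofFn]
    congr 1
    funext w
    change toGL B (n * r) (rU finProdFinEquiv (twU (Ew w) (mU (φ w).toRingHom G))) =
      toGL B (n * r) (rU finProdFinEquiv (bdU (Fin n) r B (Pi.mulSingle w (mU (φ w).toRingHom G))))
    rw [twU_Ew]
  rw [h1, h2, ← map_list_prod, prod_ofFn_mulSingle]
  change _ = toGL B (n * r) (rU finProdFinEquiv (bdU (Fin n) r B fun w => mU (φ w).toRingHom G))
  rfl

end Pool.Agent.Lib.MP_e7fbd4_ag.O
end

section

/-!
# Homomorphisms out of the group ring of `ℤ^I`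
-/

set_option autoImplicit false
set_option linter.unusedSectionVars false
set_option linter.deprecated false

namespace Pool.Agent.Lib.MP_e7fbd4_ag.X

variable {I : Type} [Fintype I] [DecidableEq I]

/-- The variable `z_i` as an element of the group. -/
def zG (i : I) : Multiplicative (I → ℤ) := Multiplicative.ofAdd (Pi.single i 1)

/-- The variable `z_i` as an element of the group ring. -/
noncomputable def zR (i : I) : TZ I := MonoidAlgebra.of ℂ _ (zG i)

/-- Commuting units define a homomorphism. -/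
theorem exists_hom_of_comm {M : Type} [Group M] (u : I → M) (hu : ∀ i j, u i * u j = u j * u i) :
    ∃ f : Multiplicative (I → ℤ) →* M, ∀ i, f (zG i) = u i := by
  have hc : ∀ x ∈ Set.range u, ∀ y ∈ Set.range u, x * y = y * x := by
    rintro _ ⟨i, rfl⟩ _ ⟨j, rfl⟩
    exact hu i j
  let _ : CommGroup (Subgroup.closure (Set.range u)) := Subgroup.closureCommGroupOfComm hc
  let w : I → Subgroup.closure (Set.range u) := fun i => ⟨u i, Subgroup.subset_closure ⟨i, rfl⟩⟩
  let f : Multiplicative (I → ℤ) →* Subgroup.closure (Set.range u) :=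
    { toFun := fun v => ∏ i, w i ^ (Multiplicative.toAdd v i)
      map_one' := by simp
      map_mul' := fun v v' => by
        rw [← Finset.prod_mul_distrib]
        refine Finset.prod_congr rfl fun i _ => ?_
        rw [toAdd_mul, Pi.add_apply, zpow_add] }
  refine ⟨(Subgroup.closure (Set.range u)).subtype.comp f, fun i => ?_⟩
  have h : f (zG i) = w i := by
    change ∏ j, w j ^ ((Pi.single i 1 : I → ℤ) j) = w i
    rw [Finset.prod_eq_single i]
    · rw [Pi.single_eq_same, zpow_one]
    · intro j _ hj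
      rw [Pi.single_eq_of_ne hj, zpow_zero]
    · intro h
      exact absurd (Finset.mem_univ i) h
  rw [MonoidHom.comp_apply, h]
  rfl

/-- Homomorphisms from `ℤ^I` are determined by the images of the generators. -/
theorem hom_ext_zG {M : Type} [Group M] {f g : Multiplicative (I → ℤ) →* M}
    (h : ∀ i, f (zG i) = g (zG i)) : f = g := by
  have key : ∀ v : I → ℤ, f (Multiplicative.ofAdd v) = g (Multiplicative.ofAdd v) := by
    intro v
    let P : AddSubgroup (I → ℤ) :=
      { carrier := {v | f (Multiplicative.ofAdd v) = g (Multiplicative.ofAdd v)}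
        zero_mem' := by
          change f 1 = g 1
          rw [map_one, map_one]
        add_mem' := fun {v w} hv hw => by
          change f (Multiplicative.ofAdd v * Multiplicative.ofAdd w) =
            g (Multiplicative.ofAdd v * Multiplicative.ofAdd w)
          rw [map_mul, map_mul, hv, hw]
        neg_mem' := fun {v} hv => by
          change f (Multiplicative.ofAdd v)⁻¹ = g (Multiplicative.ofAdd v)⁻¹
          rw [map_inv, map_inv, hv] }
    have h1 : ∀ i, (Pi.single i 1 : I → ℤ) ∈ P := h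
    have h2 : ∑ i, v i • (Pi.single i 1 : I → ℤ) ∈ P :=
      sum_mem fun i _ => zsmul_mem (h1 i) (v i)
    have h3 : ∑ i, v i • (Pi.single i 1 : I → ℤ) = v := by
      funext j
      rw [Finset.sum_apply, Finset.sum_eq_single j]
      · simp
      · intro i _ hi
        simp [Pi.single_eq_of_ne (Ne.symm hi)]
      · intro hj
        exact absurd (Finset.mem_univ j) hj
    rw [h3] at h2
    exact h2
  exact MonoidHom.ext fun v => key (Multiplicative.toAdd v)

/-- Homomorphisms from the group ring of `ℤ^I` are determined by the images of the variables. -/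
theorem tz_ext {S : Type} [Ring S] [Algebra ℂ S] {f g : TZ I →ₐ[ℂ] S}
    (h : ∀ i, f (zR i) = g (zR i)) : f = g := by
  have h1 : (((f : TZ I →* S).comp (MonoidAlgebra.of ℂ (Multiplicative (I → ℤ)))).toHomUnits) =
      (((g : TZ I →* S).comp (MonoidAlgebra.of ℂ (Multiplicative (I → ℤ)))).toHomUnits) :=
    hom_ext_zG fun i => Units.ext (h i)
  have h3 : ∀ v : Multiplicative (I → ℤ), f (MonoidAlgebra.of ℂ _ v) = g (MonoidAlgebra.of ℂ _ v) := by
    intro v
    have h2 := congrArg (fun F : Multiplicative (I → ℤ) →* Sˣ => ((F v : Sˣ) : S)) h1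
    exact h2
  exact MonoidAlgebra.algHom_ext h3 (Subsingleton.elim _ _)

/-- Commuting units define a homomorphism from the group ring. -/
theorem exists_algHom_of_comm {S : Type} [Ring S] [Algebra ℂ S] (u : I → Sˣ)
    (hu : ∀ i j, u i * u j = u j * u i) :
    ∃ f : TZ I →ₐ[ℂ] S, ∀ i, f (zR i) = (u i : S) := by
  obtain ⟨f, hf⟩ := exists_hom_of_comm u hu
  refine ⟨MonoidAlgebra.lift ℂ S (Multiplicative (I → ℤ)) ((Units.coeHom S).comp f), fun i => ?_⟩
  have h : MonoidAlgebra.lift ℂ S (Multiplicative (I → ℤ)) ((Units.coeHom S).comp f)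
      (MonoidAlgebra.of ℂ _ (zG i)) = (Units.coeHom S).comp f (zG i) := MonoidAlgebra.lift_of _ _
  exact h.trans (congrArg (fun x : Sˣ => (x : S)) (hf i))

theorem tzMap_zR {J : Type} (f : (I → ℤ) →+ (J → ℤ)) (i : I) :
    tzMap f (zR i) = MonoidAlgebra.of ℂ _ (Multiplicative.ofAdd (f (Pi.single i 1))) := by
  unfold tzMap zR
  simp [zG]

theorem permZ_zR (σ : Equiv.Perm I) (i : I) : permZ σ (zR i) = zR (σ i) := by
  unfold permZ
  rw [tzMap_zR]
  have h : permExp σ (Pi.single i 1) = Pi.single (σ i) 1 := by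
    funext j
    change (Pi.single i 1 : I → ℤ) (σ.symm j) = _
    by_cases hj : j = σ i
    · subst hj
      simp
    · rw [Pi.single_eq_of_ne hj, Pi.single_eq_of_ne]
      intro h
      exact hj (by rw [← h, Equiv.apply_symm_apply])
  rw [h]
  rfl

theorem zero_zR (i : I) : tzMap (0 : (I → ℤ) →+ (I → ℤ)) (zR i) = 1 := by
  rw [tzMap_zR]
  exact map_one _

/-- The variable `z_i` as a unit. -/
noncomputable def zU (i : I) : (TZ I)ˣ := (MonoidAlgebra.of ℂ (Multiplicative (I → ℤ))).toHomUnits (zG i)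

theorem coe_zU (i : I) : ((zU i : (TZ I)ˣ) : TZ I) = zR i := rfl

end Pool.Agent.Lib.MP_e7fbd4_ag.X
end

section

/-!
# The example: the homomorphisms `ι : ℂ[ℤ^N] → A` and `p : A → M_{N²}(ℂ[ℤ^N])`
-/

set_option autoImplicit false
set_option linter.unusedSectionVars false

namespace Pool.Agent.Lib.MP_e7fbd4_ag.X

/-- There is a smooth connective dg algebra (a finite cell dg algebra, with the nine letters in
degree `0` and one letter in degree `1` for each of the seventeen relators) with `H_0 = A`. -/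
theorem exists_smooth_AX :
    ∃ R : DGAlgebra, R.IsSmooth ∧ R.IsConnective ∧ ∃ π : R.A →ₐ[ℂ] AX, R.IsH0 π :=
  exists_smooth_H0 relX RelX (by
    intro a b
    constructor
    · rintro ⟨k⟩
      exact ⟨k, rfl, rfl⟩
    · rintro ⟨k, rfl, rfl⟩
      exact RelX.rel k)

section Mat

variable {W : Type} [Fintype W] [DecidableEq W] {B : Type} [CommRing B]

/-- permutation matrices: `e_j ↦ e_{σ j}` -/
def pmx (σ : Equiv.Perm W) : (Matrix W W B)ˣ where
  val := Matrix.of fun i j => if i = σ j then 1 else 0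
  inv := Matrix.of fun i j => if i = σ.symm j then 1 else 0
  val_inv := by
    ext i j
    rw [Matrix.mul_apply, Finset.sum_eq_single (σ.symm j)]
    · simp [Matrix.one_apply]
    · intro k _ hk
      simp [hk]
    · intro h
      exact absurd (Finset.mem_univ _) h
  inv_val := by
    ext i j
    rw [Matrix.mul_apply, Finset.sum_eq_single (σ j)]
    · simp [Matrix.one_apply]
    · intro k _ hk
      simp [hk]
    · intro h
      exact absurd (Finset.mem_univ _) h

theorem pmx_apply (σ : Equiv.Perm W) (i j : W) :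
    (pmx σ : (Matrix W W B)ˣ).val i j = if i = σ j then 1 else 0 := rfl

theorem pmx_mul (σ τ : Equiv.Perm W) : (pmx σ * pmx τ : (Matrix W W B)ˣ) = pmx (σ * τ) := by
  refine Units.ext (Matrix.ext fun i j => ?_)
  rw [Units.val_mul, Matrix.mul_apply, Finset.sum_eq_single (τ j)]
  · rw [pmx_apply, pmx_apply, pmx_apply, if_pos rfl, mul_one]
    rfl
  · intro k _ hk
    simp [pmx_apply, hk]
  · intro h
    exact absurd (Finset.mem_univ _) h

theorem pmx_one : (pmx 1 : (Matrix W W B)ˣ) = 1 := by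
  refine Units.ext (Matrix.ext fun i j => ?_)
  rw [pmx_apply, Units.val_one, Matrix.one_apply]
  rfl

theorem pmx_pow (σ : Equiv.Perm W) (k : ℕ) : (pmx σ : (Matrix W W B)ˣ) ^ k = pmx (σ ^ k) := by
  induction k with
  | zero => rw [pow_zero, pow_zero, pmx_one]
  | succ k ih => rw [pow_succ, pow_succ, ih, pmx_mul]

theorem pmx_diag (σ : Equiv.Perm W) (f : W → B) :
    Matrix.diagonal f * (pmx σ : (Matrix W W B)ˣ).val =
      (pmx σ : (Matrix W W B)ˣ).val * Matrix.diagonal (fun w => f (σ w)) := by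
  ext i j
  rw [Matrix.diagonal_mul, Matrix.mul_diagonal, pmx_apply]
  split_ifs with h
  · rw [h]; ring
  · simp

/-- diagonal unit -/
def dgU (f : W → Bˣ) : (Matrix W W B)ˣ where
  val := Matrix.diagonal fun w => (f w : B)
  inv := Matrix.diagonal fun w => ((f w)⁻¹ : Bˣ)
  val_inv := by
    rw [Matrix.diagonal_mul_diagonal]
    simp
  inv_val := by
    rw [Matrix.diagonal_mul_diagonal]
    simp

theorem dgU_comm (f g : W → Bˣ) : (dgU f * dgU g : (Matrix W W B)ˣ) = dgU g * dgU f := by
  refine Units.ext ?_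
  change Matrix.diagonal _ * Matrix.diagonal _ = Matrix.diagonal _ * Matrix.diagonal _
  rw [Matrix.diagonal_mul_diagonal, Matrix.diagonal_mul_diagonal]
  congr 1
  funext w
  ring

theorem dgU_pmx (σ : Equiv.Perm W) (f : W → Bˣ) :
    (dgU f * pmx σ : (Matrix W W B)ˣ) = pmx σ * dgU fun w => f (σ w) :=
  Units.ext (pmx_diag σ fun w => (f w : B))

/-- conjugation of a diagonal matrix by a permutation matrix -/
theorem conj_dgU (σ : Equiv.Perm W) (f : W → Bˣ) :
    ((pmx σ)⁻¹ * dgU f * pmx σ : (Matrix W W B)ˣ) = dgU fun w => f (σ w) := by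
  rw [mul_assoc, dgU_pmx, inv_mul_cancel_left]

end Mat

section Rep

open scoped Fin.CommRing

variable (N : ℕ) [NeZero N]

/-- `(a, b) ↦ (a + 1, b)` -/
def sh1 : Equiv.Perm (Fin N × Fin N) := (Equiv.addRight (1 : Fin N)).prodCongr (Equiv.refl _)

/-- `(a, b) ↦ (a, b + 1)` -/
def sh2 : Equiv.Perm (Fin N × Fin N) := (Equiv.refl _).prodCongr (Equiv.addRight (1 : Fin N))

theorem sh1_apply (w : Fin N × Fin N) : sh1 N w = (w.1 + 1, w.2) := rfl

theorem sh2_apply (w : Fin N × Fin N) : sh2 N w = (w.1, w.2 + 1) := rfl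

theorem sh1_pow (k : ℕ) (w : Fin N × Fin N) : (sh1 N ^ k) w = (w.1 + (k : Fin N), w.2) := by
  induction k generalizing w with
  | zero => simp
  | succ k ih =>
    rw [pow_succ, Equiv.Perm.mul_apply, ih, sh1_apply]
    simp only [Nat.cast_succ]
    rw [add_assoc, add_comm (1 : Fin N)]

/-- the diagonal idempotent -/
noncomputable def matE : Matrix (Fin N × Fin N) (Fin N × Fin N) (TZ (Fin N)) :=
  Matrix.diagonal fun w => if w.1 = w.2 then 1 else 0

/-- The matrices satisfying the relations: `x e_{a,b} = e_{a+1,b}`, `x' e_{a,b} = e_{a,b+1}`,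
`D e_{a,b} = z_a e_{a,b}`, `D' e_{a,b} = z_b e_{a,b}`, `E e_{a,b} = δ_{a,b} e_{a,b}`. -/
noncomputable def datM : Dat (Matrix (Fin N × Fin N) (Fin N × Fin N) (TZ (Fin N))) where
  x := pmx (sh1 N)
  x' := pmx (sh2 N)
  D := dgU fun w => zU w.1
  D' := dgU fun w => zU w.2
  E := matE N
  xx' := by
    change pmx (sh1 N) * pmx (sh2 N) = pmx (sh2 N) * pmx (sh1 N)
    rw [pmx_mul, pmx_mul]
    rfl
  xD' := by
    change pmx (sh1 N) * dgU _ = dgU _ * pmx (sh1 N)
    rw [dgU_pmx]
    rfl
  x'D := by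
    change pmx (sh2 N) * dgU _ = dgU _ * pmx (sh2 N)
    rw [dgU_pmx]
    rfl
  DD' := dgU_comm _ _
  EE := by
    unfold matE
    rw [Matrix.diagonal_mul_diagonal]
    congr 1
    funext w
    split_ifs <;> simp
  Exx' := by
    change matE N * (pmx (sh1 N) * pmx (sh2 N)).val = (pmx (sh1 N) * pmx (sh2 N)).val * matE N
    rw [pmx_mul]
    unfold matE
    rw [pmx_diag]
    congr 2
    funext w
    have h : ((sh1 N * sh2 N) w).1 = ((sh1 N * sh2 N) w).2 ↔ w.1 = w.2 := by
      change w.1 + 1 = w.2 + 1 ↔ _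
      exact add_left_inj 1
    simp only [h]
  ED := by
    change Matrix.diagonal _ * Matrix.diagonal _ = Matrix.diagonal _ * Matrix.diagonal _
    rw [Matrix.diagonal_mul_diagonal, Matrix.diagonal_mul_diagonal]
    congr 1
    funext w
    exact mul_comm _ _
  ED' := by
    change Matrix.diagonal _ * Matrix.diagonal _ = Matrix.diagonal _ * Matrix.diagonal _
    rw [Matrix.diagonal_mul_diagonal, Matrix.diagonal_mul_diagonal]
    congr 1
    funext w
    exact mul_comm _ _
  DE := by
    change Matrix.diagonal _ * Matrix.diagonal _ = Matrix.diagonal _ * Matrix.diagonal _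
    rw [Matrix.diagonal_mul_diagonal, Matrix.diagonal_mul_diagonal]
    congr 1
    funext w
    split_ifs with h
    · change ((zU w.1 : (TZ (Fin N))ˣ) : TZ (Fin N)) * 1 = ((zU w.2 : (TZ (Fin N))ˣ) : TZ (Fin N)) * 1
      rw [h]
    · simp

/-- The representation `p : A → M_{N²}(ℂ[ℤ^N])`. -/
noncomputable def pX : AX →ₐ[ℂ] Matrix (Fin N × Fin N) (Fin N × Fin N) (TZ (Fin N)) :=
  (datM N).hom

theorem exists_iX : ∃ f : TZ (Fin N) →ₐ[ℂ] AX, ∀ i, f (zR i) = (datX.tau i.val : AX) :=
  exists_algHom_of_comm (fun i : Fin N => datX.tau i.val) fun _ _ => datX.tau_comm _ _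

/-- The homomorphism `ι : ℂ[ℤ^N] → A`, `z_i ↦ τ_i = 1 - E + x⁻ⁱ D xⁱ E`. -/
noncomputable def iX : TZ (Fin N) →ₐ[ℂ] AX := (exists_iX N).choose

theorem iX_zR (i : Fin N) : iX N (zR i) = (datX.tau i.val : AX) := (exists_iX N).choose_spec i

/-- The diagonal entries of `p ∘ ι`: the cyclic permutations of the variables at the places
`(a, a)`, the trivial homomorphism `z_i ↦ 1` at the places `(a, b)` with `a ≠ b`. -/
noncomputable def phiX (w : Fin N × Fin N) : TZ (Fin N) →ₐ[ℂ] TZ (Fin N) :=
  if w.1 = w.2 then permZ (Equiv.addLeft w.1) else tzMap 0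

theorem datM_dd (i : Fin N) : (datM N).dd i.val = dgU fun w => zU (w.1 + i) := by
  change (pmx (sh1 N) ^ i.val)⁻¹ * dgU (fun w : Fin N × Fin N => zU w.1) * pmx (sh1 N) ^ i.val = _
  rw [pmx_pow, conj_dgU]
  congr 1
  funext w
  rw [sh1_pow]
  simp

/-- **The composite `p ∘ ι`.** -/
theorem pX_iX : (pX N).comp (iX N) = diagHom (phiX N) := by
  refine tz_ext fun i => ?_
  change pX N (iX N (zR i)) = Matrix.diagonal fun w => phiX N w (zR i)
  rw [iX_zR]
  have h : pX N (datX.tau i.val : AX) = ((datM N).tau i.val).val :=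
    congrArg (fun u : (Matrix (Fin N × Fin N) (Fin N × Fin N) (TZ (Fin N)))ˣ => u.val)
      ((datM N).hom_tau i.val)
  rw [h]
  change 1 - matE N + ((datM N).dd i.val).val * matE N = _
  rw [datM_dd]
  unfold matE
  change 1 - _ + Matrix.diagonal _ * _ = _
  rw [Matrix.diagonal_mul_diagonal, ← Matrix.diagonal_one, Matrix.diagonal_sub,
    Matrix.diagonal_add]
  congr 1
  funext w
  unfold phiX
  by_cases hw : w.1 = w.2
  · rw [if_pos hw, if_pos hw, permZ_zR, coe_zU, sub_self, zero_add, mul_one]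
    rfl
  · rw [if_neg hw, if_neg hw, zero_zR, sub_zero, mul_zero, add_zero]

theorem shift_pow (a : Fin N) : (Equiv.addLeft a) ^ N = 1 := by
  have h : ∀ (k : ℕ) (b : Fin N), ((Equiv.addLeft a) ^ k) b = (k : Fin N) * a + b := by
    intro k
    induction k with
    | zero => intro b; simp
    | succ k ih =>
      intro b
      rw [pow_succ, Equiv.Perm.mul_apply, ih, Equiv.coe_addLeft]
      push_cast
      ring
  ext b
  rw [h N b]
  simp

/-- For odd `N` the cyclic permutations have odd order. -/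
theorem shift_odd (hN : Odd N) (a : Fin N) : Odd (orderOf (Equiv.addLeft a : Equiv.Perm (Fin N))) :=
  hN.of_dvd_nat (orderOf_dvd_of_pow_eq_one (shift_pow N a))

end Rep

end Pool.Agent.Lib.MP_e7fbd4_ag.X
end

section

/-!
# The retraction data of the example
-/

set_option autoImplicit false

namespace Pool.Agent.Lib.MP_e7fbd4_ag

open X

/-- The retraction data of the example algebra. -/
noncomputable def retX (N : ℕ) [NeZero N] (hN : Odd N) : RetractData N AX where
  W := Fin N × Fin N
  w₀ := (0, 0)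
  ι := iX N
  p := pX N
  φ := phiX N
  p_ι := pX_iX N
  S := Finset.univ.filter fun w => w.1 = w.2
  σ w := Equiv.addLeft w.1
  φ_perm w hw := by
    rw [Finset.mem_filter] at hw
    unfold phiX
    rw [if_pos hw.2]
  σ_odd w _ := shift_odd N hN w.1
  φ_const w hw := by
    rw [Finset.mem_filter, not_and] at hw
    unfold phiX
    rw [if_neg (hw (Finset.mem_univ _))]
  card_S := by
    have h : (Finset.univ.filter fun w : Fin N × Fin N => w.1 = w.2) =
        Finset.univ.image fun a : Fin N => (a, a) := by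
      ext w
      simp only [Finset.mem_filter, Finset.mem_univ, true_and, Finset.mem_image]
      constructor
      · intro h
        exact ⟨w.1, Prod.ext rfl h⟩
      · rintro ⟨a, rfl⟩
        rfl
    rw [h, Finset.card_image_of_injective _ (fun a b hab => congrArg Prod.fst hab),
      Finset.card_univ, Fintype.card_fin]

theorem exists_retX (N : ℕ) (hN : Odd N) : Nonempty (RetractData N AX) := by
  have : NeZero N := ⟨by rintro rfl; exact absurd hN (by decide)⟩
  exact ⟨retX N hN⟩

end Pool.Agent.Lib.MP_e7fbd4_ag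
end
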