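import Pool.Agent.Lib.MP_e7fbd4_ag.Mg.G010
import Pool.Agent.Lib.MP_e7fbd4_ag.Mg.G002
import Pool.Agent.Lib.MP_e7fbd4_ag.Mg.G001
import Pool.Agent.Lib.MP_e7fbd4_ag.Mg.G009
import Pool.Agent.Lib.MP_e7fbd4_ag.Mg.G012

section

/-! # Whitehead lemma -/

set_option autoImplicit false
set_option linter.unusedSectionVars false
set_option linter.unusedVariables false

namespace Pool.Agent.Lib.MP_e7fbd4_ag.O

open Pool.Agent.Lib.MP_c052b4_al

variable {A B C : Type} [Ring A] [Algebra ℂ A] [Ring B] [Algebra ℂ B] [Ring C] [Algebra ℂ C]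
  {c : Kind} {m k l : ℕ}

/-- A polynomial function on `ℂ` restricted to a coordinate of the cube. -/
theorem fn_of_poly {f : ℂ → A} (hf : f ∈ Poly A) (i : Fin k) :
    (fun x => f (coord k i x)) ∈ fn Kind.alg k A := by
  unfold Poly at hf
  induction hf using Algebra.adjoin_induction with
  | mem f hf =>
    rcases hf with ⟨a, rfl⟩ | hf
    · exact fn_const a
    · rw [Set.mem_singleton_iff] at hf
      subst hf
      apply Submodule.subset_span
      refine ⟨coord k i, coord_mem _ _ _, 1, ?_⟩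
      funext x
      exact Algebra.algebraMap_eq_smul_one (coord k i x)
  | algebraMap r => exact fn_const (algebraMap ℂ A r)
  | add f g _ _ hf hg => exact Submodule.add_mem _ hf hg
  | mul f g _ _ hf hg => exact fn_mul hf hg

/-- A matrix joined to `1` by a polynomial path (in the sense of `PathTo`) is in `Conn`. -/
theorem conn_of_pathTo {n : ℕ} {g : (Matrix (Fin n) (Fin n) ℂ)ˣ} (h : PathTo 1 g) :
    toGL ℂ n g ∈ Conn := by
  obtain ⟨G, h0, h1⟩ := h
  refine ⟨fun x => toGL ℂ n (mA (evP ℂ (coord 1 0 x)) G), ?_, ?_, ?_⟩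
  · refine ⟨n, fun x => mA (evP ℂ (coord 1 0 x)) G, ?_, ?_, fun _ => rfl⟩
    · intro i j
      exact fn_of_poly (G.val i j).2 0
    · intro i j
      exact fn_of_poly (G⁻¹.val i j).2 0
  · have e : coord 1 0 (fun _ => 0) = 0 := by
      unfold coord
      simp
    simp only [e, h0]
    exact map_one (toGL ℂ n)
  · have e : coord 1 0 (fun _ => 1) = 1 := by
      unfold coord
      simp
    simp only [e, h1]

end Pool.Agent.Lib.MP_e7fbd4_ag.O
end

section

/-! # Currying of polynomial functions -/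

set_option autoImplicit false
set_option linter.unusedSectionVars false
set_option linter.unusedVariables false

namespace Pool.Agent.Lib.MP_e7fbd4_ag.O

open Pool.Agent.Lib.MP_c052b4_al

variable {A B C : Type} [Ring A] [Algebra ℂ A] [Ring B] [Algebra ℂ B] [Ring C] [Algebra ℂ C]
  {c : Kind} {m k l : ℕ}

/-- a point of the unit interval as a complex number -/
def cI (t : unitInterval) : ℂ := ((t : ℝ) : ℂ)

/-- scalar multiples of an element of `A` as a linear map on polynomial functions -/
private noncomputable def L1_iota (a : A) : Poly ℂ →ₗ[ℂ] Poly A where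
  toFun p := ⟨fun t => p.1 t • a, poly_smul p.2 (const_mem_poly a)⟩
  map_add' p q := Subtype.ext (funext fun t => add_smul (p.1 t) (q.1 t) a)
  map_smul' c p := Subtype.ext (funext fun t => smul_assoc c (p.1 t) a)

private theorem L1_scal {f : Cube (k + 1) → ℂ} (hf : f ∈ scal Kind.alg (k + 1)) :
    ∃ Φ : Cube k → Poly ℂ, Φ ∈ fn Kind.alg k (Poly ℂ) ∧
      ∀ (t : unitInterval) (x : Cube k), (Φ x).1 (cI t) = f (Fin.cons t x) := by
  change f ∈ Algebra.adjoin ℂ (Set.range (coord (k + 1))) at hf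
  induction hf using Algebra.adjoin_induction with
  | mem f hf =>
    obtain ⟨i, rfl⟩ := hf
    refine Fin.cases ?_ (fun j => ?_) i
    · exact ⟨fun _ => ⟨fun t => t, poly_id⟩, fn_const _, fun t x => rfl⟩
    · refine ⟨fun x => coord k j x • (1 : Poly ℂ), fn_smul (coord_mem _ _ _) (fn_const _),
        fun t x => ?_⟩
      change coord k j x • (1 : ℂ) = coord (k + 1) j.succ (Fin.cons t x)
      rw [smul_eq_mul, mul_one]
      rfl
  | algebraMap c =>
    exact ⟨fun _ => algebraMap ℂ (Poly ℂ) c, fn_const _, fun t x => rfl⟩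
  | add f g _ _ hf hg =>
    obtain ⟨Φ, h1, h2⟩ := hf
    obtain ⟨Ψ, h3, h4⟩ := hg
    refine ⟨Φ + Ψ, Submodule.add_mem _ h1 h3, fun t x => ?_⟩
    change (Φ x).1 (cI t) + (Ψ x).1 (cI t) = _
    rw [h2, h4]
    rfl
  | mul f g _ _ hf hg =>
    obtain ⟨Φ, h1, h2⟩ := hf
    obtain ⟨Ψ, h3, h4⟩ := hg
    refine ⟨fun x => Φ x * Ψ x, fn_mul h1 h3, fun t x => ?_⟩
    change (Φ x).1 (cI t) * (Ψ x).1 (cI t) = _
    rw [h2, h4]
    rfl

private theorem L1_tail : PolyMap fun (y : Cube (k + 1)) (i : Fin k) => y i.succ :=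
  polyMap_of fun i => Or.inl ⟨i.succ, fun _ => rfl⟩

/-- A polynomial function on `I^{k+1}` as a polynomial function on `I^k` with values in `A[t]`, the
first coordinate being the variable `t`. -/
theorem fn_curry {F : Cube (k + 1) → A} (hF : F ∈ fn Kind.alg (k + 1) A) :
    ∃ Φ : Cube k → Poly A, Φ ∈ fn Kind.alg k (Poly A) ∧
      ∀ (t : unitInterval) (x : Cube k), (Φ x).1 (cI t) = F (Fin.cons t x) := by
  unfold fn at hF
  induction hF using Submodule.span_induction with
  | mem F hF =>
    obtain ⟨f, hf, a, rfl⟩ := hF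
    obtain ⟨Φ, h1, h2⟩ := L1_scal hf
    refine ⟨fun x => L1_iota a (Φ x), fn_map (L1_iota a) h1, fun t x => ?_⟩
    change (Φ x).1 (cI t) • a = _
    rw [h2]
  | zero => exact ⟨0, Submodule.zero_mem _, fun t x => rfl⟩
  | add F G _ _ hF hG =>
    obtain ⟨Φ, h1, h2⟩ := hF
    obtain ⟨Ψ, h3, h4⟩ := hG
    refine ⟨Φ + Ψ, Submodule.add_mem _ h1 h3, fun t x => ?_⟩
    change (Φ x).1 (cI t) + (Ψ x).1 (cI t) = _
    rw [h2, h4]
    rfl
  | smul c F _ hF =>
    obtain ⟨Φ, h1, h2⟩ := hF
    refine ⟨c • Φ, Submodule.smul_mem _ c h1, fun t x => ?_⟩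
    change c • (Φ x).1 (cI t) = _
    rw [h2]
    rfl

/-- and conversely. -/
theorem fn_uncurry {Φ : Cube k → Poly A} (h : Φ ∈ fn Kind.alg k (Poly A)) :
    (fun y : Cube (k + 1) => (Φ fun i => y i.succ).1 (cI (y 0))) ∈ fn Kind.alg (k + 1) A := by
  unfold fn at h
  induction h using Submodule.span_induction with
  | mem F hF =>
    obtain ⟨f, hf, p, rfl⟩ := hF
    exact fn_smul (scal_comp L1_tail hf) (fn_of_poly p.2 (0 : Fin (k + 1)))
  | zero => exact Submodule.zero_mem _
  | add F G _ _ hF hG => exact Submodule.add_mem _ hF hG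
  | smul c F _ hF => exact Submodule.smul_mem _ c hF

end Pool.Agent.Lib.MP_e7fbd4_ag.O
end

section

/-! # Uniqueness of polynomial functions -/

set_option autoImplicit false
set_option linter.unusedSectionVars false
set_option linter.unusedVariables false

namespace Pool.Agent.Lib.MP_e7fbd4_ag.O

open Pool.Agent.Lib.MP_c052b4_al

variable {A B C : Type} [Ring A] [Algebra ℂ A] [Ring B] [Algebra ℂ B] [Ring C] [Algebra ℂ C]
  {c : Kind} {m k l : ℕ}

/-- A polynomial function vanishing on `[0,1]` vanishes. -/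
theorem poly_ext {f g : Poly A} (h : ∀ t : unitInterval, f.1 (cI t) = g.1 (cI t)) : f = g := by
  apply Subtype.ext
  funext t
  obtain ⟨N, c, hc⟩ := mem_poly_iff.mp (f - g).2
  have hfg : (f - g).1 t = 0 := by
    rw [← Module.forall_dual_apply_eq_zero_iff ℂ]
    intro φ
    set P : Polynomial ℂ := ∑ i ∈ Finset.range N, Polynomial.C (φ (c i)) * Polynomial.X ^ i with hP
    have hev : ∀ s : ℂ, φ ((f - g).1 s) = P.eval s := by
      intro s
      rw [hc, map_sum, hP, Polynomial.eval_finsetSum]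
      refine Finset.sum_congr rfl fun i _ => ?_
      rw [map_smul, smul_eq_mul, Polynomial.eval_mul, Polynomial.eval_C, Polynomial.eval_pow,
        Polynomial.eval_X, mul_comm]
    have hinj : Function.Injective cI := by
      intro a b hab
      apply Subtype.ext
      exact Complex.ofReal_injective hab
    have hinf : Infinite unitInterval := Set.Icc.infinite (zero_lt_one : (0 : ℝ) < 1)
    have hP0 : P = 0 := by
      apply Polynomial.eq_zero_of_infinite_isRoot
      apply (Set.infinite_range_of_injective hinj).mono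
      rintro _ ⟨s, rfl⟩
      change P.eval (cI s) = 0
      rw [← hev]
      have h0 : (f - g).1 (cI s) = 0 := by
        change f.1 (cI s) - g.1 (cI s) = 0
        rw [h s, sub_self]
      rw [h0, map_zero]
    rw [hev, hP0, Polynomial.eval_zero]
  exact sub_eq_zero.mp hfg

/-- A function with values in `W` is of kind `c` if it is so after an injective linear map: compose
with a linear left inverse (`LinearMap.exists_leftInverse_of_injective`) and use `fn_map`. -/
theorem fn_of_injective {W : Type} [Ring W] [Algebra ℂ W] (i : W →ₗ[ℂ] B)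
    (hi : Function.Injective i) {Φ : Cube k → W} (h : (fun x => i (Φ x)) ∈ fn c k B) :
    Φ ∈ fn c k W := by
  obtain ⟨r, hr⟩ := i.exists_leftInverse_of_injective (LinearMap.ker_eq_bot.mpr hi)
  have h1 := fn_map r h
  have h2 : (fun x => r (i (Φ x))) = Φ := by
    funext x
    exact LinearMap.congr_fun hr (Φ x)
  rw [h2] at h1
  exact h1

end Pool.Agent.Lib.MP_e7fbd4_ag.O
end

section

/-! # Invertible matrices over algebras of polynomial functions -/

set_option autoImplicit false
set_option linter.unusedSectionVars false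
set_option linter.unusedVariables false

namespace Pool.Agent.Lib.MP_e7fbd4_ag.O

open Pool.Agent.Lib.MP_c052b4_al

variable {A B C : Type} [Ring A] [Algebra ℂ A] [Ring B] [Algebra ℂ B] [Ring C] [Algebra ℂ C]
  {c : Kind} {m k l : ℕ}

variable {W : Subalgebra ℂ (ℂ → A)}

private theorem L3_ent {k : ℕ} (M : Matrix (Fin k) (Fin k) W) (t : ℂ) (i j : ℕ) :
    (entM M i j).1 t = entM (M.map (evW W t)) i j := by
  unfold entM
  split_ifs <;> rfl

/-- Elements of `GL(W)`, `W` an algebra of polynomial functions, are determined by their values on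
`[0,1]` (compare entries: `ent_eq_of_toGL`, `toGL_eq_of_ent`, `poly_ext`). -/
theorem glw_ext (hW : W ≤ Poly A) {g h : GLinf W}
    (H : ∀ t : unitInterval, GLinf.map (evW W (cI t)).toRingHom g =
      GLinf.map (evW W (cI t)).toRingHom h) : g = h := by
  obtain ⟨k, G, rfl⟩ := exists_toGL g
  obtain ⟨l, G', rfl⟩ := exists_toGL h
  apply toGL_eq_of_ent
  intro i j
  have h1 : (⟨(entM G.val i j).1, hW (entM G.val i j).2⟩ : Poly A) =
      ⟨(entM G'.val i j).1, hW (entM G'.val i j).2⟩ := by
    apply poly_ext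
    intro t
    change (entM G.val i j).1 (cI t) = (entM G'.val i j).1 (cI t)
    rw [L3_ent, L3_ent]
    exact ent_eq_of_toGL (H t) i j
  exact Subtype.ext (Subtype.mk.inj h1)

/-- A cube in `GL(W)` gives a cube in `GL(A)` of one dimension more. -/
theorem IsCube.uncurry (hW : W ≤ Poly A) {Γ : Cube k → GLinf W} (h : IsCube Kind.alg Γ) :
    IsCube Kind.alg fun y : Cube (k + 1) =>
      GLinf.map (evW W (cI (y 0))).toRingHom (Γ fun i => y i.succ) := by
  obtain ⟨r, G, h1, h2, h3⟩ := h
  refine ⟨r, fun y => mU (evW W (cI (y 0))).toRingHom (G fun i => y i.succ), fun i j => ?_,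
    fun i j => ?_, fun y => ?_⟩
  · exact fn_uncurry (fn_map (Subalgebra.inclusion hW).toLinearMap (h1 i j))
  · exact fn_uncurry (fn_map (Subalgebra.inclusion hW).toLinearMap (h2 i j))
  · change GLinf.map _ (Γ fun i => y i.succ) = _
    rw [h3]
    rfl

end Pool.Agent.Lib.MP_e7fbd4_ag.O
end

section

/-! # Currying of cubes -/

set_option autoImplicit false
set_option linter.unusedSectionVars false
set_option linter.unusedVariables false

namespace Pool.Agent.Lib.MP_e7fbd4_ag.O

open Pool.Agent.Lib.MP_c052b4_al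

variable {A B C : Type} [Ring A] [Algebra ℂ A] [Ring B] [Algebra ℂ B] [Ring C] [Algebra ℂ C]
  {c : Kind} {m k l : ℕ}

variable {W : Subalgebra ℂ (ℂ → A)}

/-- The general form: a matrix cube `G` of size `r` such that the entries of `G (·, x)` and of the
inverse, as polynomial functions, belong to `W`. Here `hW` says that a polynomial function belongs
to `W` if its values at `0` and `1` satisfy the condition `R`. -/
theorem exists_curry_aux {R : A → A → Prop} (hW : ∀ f ∈ Poly A, R (f 0) (f 1) → f ∈ W)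
    {r : ℕ} {G : Cube (k + 1) → (Matrix (Fin r) (Fin r) A)ˣ} (hG : IsCubeM Kind.alg G)
    (h : ∀ x i j, R ((G (Fin.cons 0 x)).val i j) ((G (Fin.cons 1 x)).val i j))
    (h' : ∀ x i j, R ((G (Fin.cons 0 x))⁻¹.val i j) ((G (Fin.cons 1 x))⁻¹.val i j)) :
    ∃ Γ : Cube k → (Matrix (Fin r) (Fin r) W)ˣ, IsCubeM Kind.alg Γ ∧
      ∀ (t : unitInterval) x, mU (evW W (cI t)).toRingHom (Γ x) = G (Fin.cons t x) := by
  have hc0 : cI 0 = 0 := by simp [cI]
  have hc1 : cI 1 = 1 := by simp [cI]
  choose Φ hΦ hΦv using fun i j => fn_curry (hG.1 i j)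
  choose Ψ hΨ hΨv using fun i j => fn_curry (hG.2 i j)
  have hΦW : ∀ i j x, (Φ i j x).1 ∈ W := by
    intro i j x
    refine hW _ (Φ i j x).2 ?_
    have h1 := hΦv i j 0 x
    have h2 := hΦv i j 1 x
    rw [hc0] at h1
    rw [hc1] at h2
    rw [h1, h2]
    exact h x i j
  have hΨW : ∀ i j x, (Ψ i j x).1 ∈ W := by
    intro i j x
    refine hW _ (Ψ i j x).2 ?_
    have h1 := hΨv i j 0 x
    have h2 := hΨv i j 1 x
    rw [hc0] at h1
    rw [hc1] at h2
    rw [h1, h2]
    exact h' x i j
  have e1 : ∀ x i j, (∑ l, (Φ i l x).1 * (Ψ l j x).1) =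
      (if i = j then (1 : ℂ → A) else 0) := by
    intro x i j
    have h1 : (∑ l, Φ i l x * Ψ l j x) = (if i = j then (1 : Poly A) else 0) := by
      apply poly_ext
      intro t
      rw [AddSubmonoidClass.coe_finsetSum, Finset.sum_apply]
      have h2 : ((G (Fin.cons t x)).val * (G (Fin.cons t x))⁻¹.val) i j =
          (1 : Matrix (Fin r) (Fin r) A) i j := by rw [Units.mul_inv]
      rw [Matrix.mul_apply, Matrix.one_apply] at h2
      refine Eq.trans (Finset.sum_congr rfl fun l _ => ?_) (h2.trans ?_)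
      · exact congrArg₂ (· * ·) (hΦv i l t x) (hΨv l j t x)
      · split_ifs <;> rfl
    have h3 := congrArg Subtype.val h1
    rw [AddSubmonoidClass.coe_finsetSum] at h3
    refine Eq.trans h3 ?_
    split_ifs <;> rfl
  have e2 : ∀ x i j, (∑ l, (Ψ i l x).1 * (Φ l j x).1) =
      (if i = j then (1 : ℂ → A) else 0) := by
    intro x i j
    have h1 : (∑ l, Ψ i l x * Φ l j x) = (if i = j then (1 : Poly A) else 0) := by
      apply poly_ext
      intro t
      rw [AddSubmonoidClass.coe_finsetSum, Finset.sum_apply]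
      have h2 : ((G (Fin.cons t x))⁻¹.val * (G (Fin.cons t x)).val) i j =
          (1 : Matrix (Fin r) (Fin r) A) i j := by rw [Units.inv_mul]
      rw [Matrix.mul_apply, Matrix.one_apply] at h2
      refine Eq.trans (Finset.sum_congr rfl fun l _ => ?_) (h2.trans ?_)
      · exact congrArg₂ (· * ·) (hΨv i l t x) (hΦv l j t x)
      · split_ifs <;> rfl
    have h3 := congrArg Subtype.val h1
    rw [AddSubmonoidClass.coe_finsetSum] at h3
    refine Eq.trans h3 ?_
    split_ifs <;> rfl
  let Γ : Cube k → (Matrix (Fin r) (Fin r) W)ˣ := fun x =>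
    { val := Matrix.of fun i j => ⟨(Φ i j x).1, hΦW i j x⟩
      inv := Matrix.of fun i j => ⟨(Ψ i j x).1, hΨW i j x⟩
      val_inv := by
        refine Matrix.ext fun i j => Subtype.ext ?_
        rw [Matrix.mul_apply, AddSubmonoidClass.coe_finsetSum, Matrix.one_apply]
        refine Eq.trans (e1 x i j) ?_
        split_ifs <;> rfl
      inv_val := by
        refine Matrix.ext fun i j => Subtype.ext ?_
        rw [Matrix.mul_apply, AddSubmonoidClass.coe_finsetSum, Matrix.one_apply]
        refine Eq.trans (e2 x i j) ?_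
        split_ifs <;> rfl }
  refine ⟨Γ, ⟨fun i j => ?_, fun i j => ?_⟩, fun t x => Units.ext (Matrix.ext fun i j => ?_)⟩
  · refine fn_of_injective W.val.toLinearMap Subtype.val_injective ?_
    exact fn_map (Poly A).val.toLinearMap (hΦ i j)
  · refine fn_of_injective W.val.toLinearMap Subtype.val_injective ?_
    exact fn_map (Poly A).val.toLinearMap (hΨ i j)
  · exact hΦv i j t x

end Pool.Agent.Lib.MP_e7fbd4_ag.O
end

section

/-! # Conjugation by scalar elements -/

set_option autoImplicit false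
set_option linter.unusedSectionVars false
set_option linter.unusedVariables false

namespace Pool.Agent.Lib.MP_e7fbd4_ag.O

open Pool.Agent.Lib.MP_c052b4_al

variable {A B C : Type} [Ring A] [Algebra ℂ A] [Ring B] [Algebra ℂ B] [Ring C] [Algebra ℂ C]
  {c : Kind} {m k l : ℕ}

private theorem h4_rU_inv {S : Type} [Ring S] {m n : Type} [Fintype m] [Fintype n] [DecidableEq m] [DecidableEq n]
    (σ : m ≃ n) (M : (Matrix m m S)ˣ) : (rU σ M)⁻¹ = rU σ M⁻¹ := by
  rw [inv_eq_iff_mul_eq_one, ← rU_mul, mul_inv_cancel, rU_one]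

private theorem h4_bl_inv {S : Type} [Ring S] {m n : Type} [Fintype m] [Fintype n] [DecidableEq m] [DecidableEq n]
    (M : (Matrix m m S)ˣ) (N : (Matrix n n S)ˣ) : (bl M N)⁻¹ = bl M⁻¹ N⁻¹ := by
  rw [inv_eq_iff_mul_eq_one, ← bl_mul, mul_inv_cancel, mul_inv_cancel, bl_one]

private theorem h4_double {S : Type} [Ring S] (n : ℕ) (M : (Matrix (Fin n) (Fin n) S)ˣ) :
    toGL S n M = toGL S (n + n) (rU finSumFinEquiv (bl M 1)) := by
  apply toGL_eq_of_ent
  intro i j
  unfold entM
  by_cases hi : i < n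
  · have hi2 : i < n + n := by omega
    by_cases hj : j < n
    · have hj2 : j < n + n := by omega
      rw [dif_pos ⟨hi, hj⟩, dif_pos ⟨hi2, hj2⟩, coe_rU, coe_bl, Matrix.submatrix_apply]
      have e1 : finSumFinEquiv.symm (⟨i, hi2⟩ : Fin (n + n)) = Sum.inl ⟨i, hi⟩ := by
        rw [Equiv.symm_apply_eq]; rfl
      have e2 : finSumFinEquiv.symm (⟨j, hj2⟩ : Fin (n + n)) = Sum.inl ⟨j, hj⟩ := by
        rw [Equiv.symm_apply_eq]; rfl
      rw [e1, e2]
      rfl
    · rw [dif_neg (fun h => hj h.2)]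
      have hij : i ≠ j := by omega
      rw [if_neg hij]
      by_cases hj2 : j < n + n
      · rw [dif_pos ⟨hi2, hj2⟩, coe_rU, coe_bl, Matrix.submatrix_apply]
        have e1 : finSumFinEquiv.symm (⟨i, hi2⟩ : Fin (n + n)) = Sum.inl ⟨i, hi⟩ := by
          rw [Equiv.symm_apply_eq]; rfl
        have e2 : finSumFinEquiv.symm (⟨j, hj2⟩ : Fin (n + n)) = Sum.inr ⟨j - n, by omega⟩ := by
          rw [Equiv.symm_apply_eq]
          apply Fin.ext
          simp only [finSumFinEquiv_apply_right, Fin.val_natAdd]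
          omega
        rw [e1, e2]
        rfl
      · rw [dif_neg (fun h => hj2 h.2)]
  · rw [dif_neg (fun h => hi h.1)]
    by_cases hi2 : i < n + n
    · by_cases hj2 : j < n + n
      · rw [dif_pos ⟨hi2, hj2⟩, coe_rU, coe_bl, Matrix.submatrix_apply]
        have e1 : finSumFinEquiv.symm (⟨i, hi2⟩ : Fin (n + n)) = Sum.inr ⟨i - n, by omega⟩ := by
          rw [Equiv.symm_apply_eq]
          apply Fin.ext
          simp only [finSumFinEquiv_apply_right, Fin.val_natAdd]
          omega
        by_cases hj : j < n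
        · have e2 : finSumFinEquiv.symm (⟨j, hj2⟩ : Fin (n + n)) = Sum.inl ⟨j, hj⟩ := by
            rw [Equiv.symm_apply_eq]; rfl
          rw [e1, e2, if_neg (by omega)]
          rfl
        · have e2 : finSumFinEquiv.symm (⟨j, hj2⟩ : Fin (n + n)) = Sum.inr ⟨j - n, by omega⟩ := by
            rw [Equiv.symm_apply_eq]
            apply Fin.ext
            simp only [finSumFinEquiv_apply_right, Fin.val_natAdd]
            omega
          rw [e1, e2, Matrix.fromBlocks_apply₂₂, Units.val_one, Matrix.one_apply]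
          by_cases hij : i = j
          · subst hij
            rw [if_pos rfl, if_pos rfl]
          · rw [if_neg hij, if_neg]
            intro h
            have := congrArg Fin.val h
            simp only at this
            omega
      · rw [dif_neg (fun h => hj2 h.2)]
    · rw [dif_neg (fun h => hi2 h.1)]

private theorem h4_mU_rU {S T : Type} [Ring S] [Ring T] (φ : S →+* T) {m n : Type} [Fintype m] [Fintype n]
    [DecidableEq m] [DecidableEq n] (σ : m ≃ n) (M : (Matrix m m S)ˣ) : mU φ (rU σ M) = rU σ (mU φ M) := by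
  apply Units.ext
  rfl

private theorem h4_mU_bl {S T : Type} [Ring S] [Ring T] (φ : S →+* T) {m n : Type} [Fintype m] [Fintype n]
    [DecidableEq m] [DecidableEq n] (M : (Matrix m m S)ˣ) (N : (Matrix n n S)ˣ) :
    mU φ (bl M N) = bl (mU φ M) (mU φ N) := by
  apply Units.ext
  ext i j
  rcases i with i | i <;> rcases j with j | j
  · rfl
  · exact map_zero φ
  · exact map_zero φ
  · rfl

/-- `v = toGL ℂ n V` with `n ≥ n₀` (enlarge), `u = toGL ℂ (n + n) (rU finSumFinEquiv (bl V V⁻¹))`
is in `Conn` by `pathTo_wh` (and `PathTo.rU`, or reindex the path directly), and `toGL A n G =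
toGL A (n + n) (rU finSumFinEquiv (bl G 1))` (compare entries, `toGL_eq_of_ent`); `bl V V⁻¹`
conjugates `bl G 1` to `bl (V G V⁻¹) 1`. -/
theorem exists_conn (n₀ : ℕ) (v : GLinf ℂ) : ∃ n, n₀ ≤ n ∧ ∃ u ∈ Conn,
    ∀ (A : Type) [Ring A] [Algebra ℂ A] (G : (Matrix (Fin n) (Fin n) A)ˣ),
      sc A v * toGL A n G * (sc A v)⁻¹ = sc A u * toGL A n G * (sc A u)⁻¹ := by
  obtain ⟨k, V₀, hV₀⟩ := exists_toGL v
  obtain ⟨E, hE, -⟩ := exists_enlarge (A := ℂ) (le_max_left k n₀)
  obtain ⟨V, hV⟩ : ∃ V, V = E V₀ := ⟨_, rfl⟩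
  have hv : v = toGL ℂ (max k n₀) V := by rw [hV, hE, hV₀]
  refine ⟨max k n₀, le_max_right _ _, toGL ℂ (max k n₀ + max k n₀) (rU finSumFinEquiv (bl V V⁻¹)), ?_, ?_⟩
  · have h1 := (pathTo_wh V).rU (finSumFinEquiv (m := max k n₀) (n := max k n₀))
    rw [rU_one] at h1
    exact conn_of_pathTo h1
  · intro A _ _ G
    have e1 : sc A v = toGL A (max k n₀) (mU (algebraMap ℂ A) V) := by rw [hv]; rfl
    have e2 : sc A (toGL ℂ (max k n₀ + max k n₀) (rU finSumFinEquiv (bl V V⁻¹))) =
        toGL A (max k n₀ + max k n₀) (rU finSumFinEquiv (bl (mU (algebraMap ℂ A) V) (mU (algebraMap ℂ A) V)⁻¹)) := by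
      rw [← map_inv, ← h4_mU_bl, ← h4_mU_rU]
      rfl
    obtain ⟨W, hW⟩ : ∃ W, W = mU (algebraMap ℂ A) V := ⟨_, rfl⟩
    rw [← hW] at e1 e2
    have e3 : toGL A (max k n₀) W * toGL A (max k n₀) G * (toGL A (max k n₀) W)⁻¹ =
        toGL A (max k n₀) (W * G * W⁻¹) := by rw [map_mul, map_mul, map_inv]
    rw [e1, e2, e3, h4_double, h4_double (max k n₀) G, ← map_inv, ← map_mul, ← map_mul,
      h4_rU_inv, ← rU_mul, ← rU_mul, h4_bl_inv, ← bl_mul, ← bl_mul, mul_one, mul_inv_cancel]

end Pool.Agent.Lib.MP_e7fbd4_ag.O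
end

section

/-! # Conjugation by scalar elements, 2 -/

set_option autoImplicit false
set_option linter.unusedSectionVars false
set_option linter.unusedVariables false

namespace Pool.Agent.Lib.MP_e7fbd4_ag.O

open Pool.Agent.Lib.MP_c052b4_al

variable {A B C : Type} [Ring A] [Algebra ℂ A] [Ring B] [Algebra ℂ B] [Ring C] [Algebra ℂ C]
  {c : Kind} {m k l : ℕ}

/-- Conjugation by a scalar element does not change the homotopy class: choose representatives of
`z.g` and `z.p` of a common size `n` (`IsCube.exists_rep`) and `u ∈ Conn` by `exists_conn`; then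
`z.conj v = z.conj u`. -/
theorem homotopic_conj (v : GLinf ℂ) (z : Pair c m k A) : Homotopic z (z.conj v) := by
  obtain ⟨r, hr⟩ := z.hg.exists_rep
  obtain ⟨r', hr'⟩ := z.hp.exists_rep
  obtain ⟨n, hn, u, hu, huv⟩ := exists_conn (max r r') v
  obtain ⟨G, -, hG⟩ := hr n ((le_max_left _ _).trans hn)
  obtain ⟨P, -, hP⟩ := hr' n ((le_max_right _ _).trans hn)
  have h : z.conj v = z.conj u := by
    apply Pair.ext'
    · funext x
      show sc A v * z.g x * (sc A v)⁻¹ = sc A u * z.g x * (sc A u)⁻¹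
      rw [hG x]
      exact huv A (G x)
    · funext y
      show sc _ v * z.p y * (sc _ v)⁻¹ = sc _ u * z.p y * (sc _ u)⁻¹
      rw [hP y]
      exact huv _ (P y)
  rw [h]
  exact homotopic_conj_of_conn hu z

end Pool.Agent.Lib.MP_e7fbd4_ag.O
end

section

/-! # Reindexing, 2 -/

set_option autoImplicit false
set_option linter.unusedSectionVars false
set_option linter.unusedVariables false

namespace Pool.Agent.Lib.MP_e7fbd4_ag.O

open Pool.Agent.Lib.MP_c052b4_al

variable {A B C : Type} [Ring A] [Algebra ℂ A] [Ring B] [Algebra ℂ B] [Ring C] [Algebra ℂ C]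
  {c : Kind} {m k l : ℕ}

/-- `twist P` on pairs. -/
noncomputable def Pair.tw {r : ℕ} (P : Idem r) (z : Pair c m k A) : Pair c m k A where
  g x := twist P (z.g x)
  p y := twist P (z.p y)
  hg := z.hg.twist (P := fun _ => P) fun i j => (scal c k).algebraMap_mem (P.mat i j)
  hp := z.hp.twist (P := fun _ => P) fun i j => (scal c (k + 1)).algebraMap_mem (P.mat i j)
  bdry :=
    { g_bdry := fun x hx => by rw [z.bdry.g_bdry x hx, map_one]
      p_zero := fun x => by rw [z.bdry.p_zero, map_one]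
      p_one := fun x => by rw [z.bdry.p_one, dup_twist]
      p_bdry := fun s x hx => by rw [z.bdry.p_bdry s x hx, map_one] }

/-- Choose representatives of a common size `n` and `v` by `exists_perm`: `z.tw (Ew w) =
z.conj v`. -/
theorem homotopic_tw {r : ℕ} (w : Fin r) (z : Pair c m k A) : Homotopic z (z.tw (Ew w)) := by
  obtain ⟨r₀, h₀⟩ := z.hg.exists_rep
  obtain ⟨r₁, h₁⟩ := z.hp.exists_rep
  obtain ⟨G, -, hG⟩ := h₀ (max r₀ r₁) (le_max_left _ _)
  obtain ⟨Q, -, hQ⟩ := h₁ (max r₀ r₁) (le_max_right _ _)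
  obtain ⟨v, hv⟩ := exists_perm w (max r₀ r₁)
  have h2 : z.conj v = z.tw (Ew w) := by
    refine Pair.ext' (funext fun x => ?_) (funext fun y => ?_)
    · show sc A v * z.g x * (sc A v)⁻¹ = twist (Ew w) (z.g x)
      rw [hG x]
      exact hv A (G x)
    · show sc _ v * z.p y * (sc _ v)⁻¹ = twist (Ew w) (z.p y)
      rw [hQ y]
      exact hv _ (Q y)
  rw [← h2]
  exact homotopic_conj v z

end Pool.Agent.Lib.MP_e7fbd4_ag.O
end
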