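import Pool.Agent.Lib.MP_e7fbd4_ag.Mg.G004
import Pool.Agent.Lib.MP_e7fbd4_ag.Mg.G011
import Pool.Agent.Lib.MP_e7fbd4_ag.Mg.G012
import Pool.Agent.Lib.MP_e7fbd4_ag.Mg.G001
import Pool.Agent.Lib.MP_e7fbd4_ag.Mg.G002
import Pool.Agent.Lib.MP_e7fbd4_ag.Mg.G005
import Pool.Agent.Lib.MP_e7fbd4_ag.Mg.G003

section

/-! # W11 : construction of homomorphisms out of KV_1 -/

set_option autoImplicit false
set_option linter.unusedSectionVars false
set_option linter.unusedVariables false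

namespace Pool.Agent.Lib.MP_e7fbd4_ag

open Matrix Pool.Agent.Lib.MP_c052b4_al

variable {A B : Type} [Ring A] [Algebra ℂ A] [Ring B] [Algebra ℂ B]
  {n m l : Type} [Fintype n] [Fintype m] [Fintype l] [DecidableEq n] [DecidableEq m] [DecidableEq l]

/-- **Construction of homomorphisms out of `KV₁(A)`.** -/
theorem exists_kvHom {H : Type} [AddCommGroup H]
    (φ : ∀ (n : Type) [Fintype n] [DecidableEq n], (Matrix n n A)ˣ → H)
    (hmul : ∀ (n : Type) [Fintype n] [DecidableEq n] (g h : (Matrix n n A)ˣ),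
      φ n (g * h) = φ n g + φ n h)
    (hbl : ∀ (n m : Type) [Fintype n] [DecidableEq n] [Fintype m] [DecidableEq m]
      (g : (Matrix n n A)ˣ), φ (n ⊕ m) (bl g 1) = φ n g)
    (hrU : ∀ (n m : Type) [Fintype n] [DecidableEq n] [Fintype m] [DecidableEq m] (σ : n ≃ m)
      (g : (Matrix n n A)ˣ), φ m (rU σ g) = φ n g)
    (hpath : ∀ (n : Type) [Fintype n] [DecidableEq n] (g : (Matrix n n A)ˣ),
      PathTo 1 g → φ n g = 0) :
    ∃ Φ : KV1F.obj A →+ H, ∀ (n : Type) [Fintype n] [DecidableEq n] (g : (Matrix n n A)ˣ),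
      Φ (kv g) = φ n g := by
  have hone : ∀ (n : Type) [Fintype n] [DecidableEq n], φ n 1 = 0 := by
    intro n _ _
    have h1 := hmul n 1 1
    rw [mul_one] at h1
    exact (add_eq_left.mp h1.symm)
  have hinv : ∀ (n : Type) [Fintype n] [DecidableEq n] (g : (Matrix n n A)ˣ),
      φ n g⁻¹ = - φ n g := by
    intro n _ _ g
    rw [eq_neg_iff_add_eq_zero, ← hmul, inv_mul_cancel, hone]
  have hpath' : ∀ (n : Type) [Fintype n] [DecidableEq n] (g h : (Matrix n n A)ˣ),
      PathTo g h → φ n g = φ n h := by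
    intro n _ _ g h H
    have h1 := (PathTo.refl g⁻¹).mul H
    rw [inv_mul_cancel] at h1
    have h2 := hpath n _ h1
    rw [hmul, hinv, neg_add_eq_zero] at h2
    exact h2
  have hcomm : ∀ (n m : Type) [Fintype n] [DecidableEq n] [Fintype m] [DecidableEq m]
      (h : (Matrix m m A)ˣ), φ (n ⊕ m) (bl 1 h) = φ m h := by
    intro n m _ _ _ _ h
    rw [← hbl m n h, ← hrU (m ⊕ n) (n ⊕ m) (Equiv.sumComm m n) (bl h 1)]
    congr 1
    apply Units.ext
    rw [coe_rU, coe_bl, coe_bl]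
    ext i j
    rcases i with i | i <;> rcases j with j | j <;> simp
  have hadd : ∀ (n m : Type) [Fintype n] [DecidableEq n] [Fintype m] [DecidableEq m]
      (g : (Matrix n n A)ˣ) (h : (Matrix m m A)ˣ), φ (n ⊕ m) (bl g h) = φ n g + φ m h := by
    intro n m _ _ _ _ g h
    have e : bl g h = bl g 1 * bl 1 h := by rw [← bl_mul, mul_one, one_mul]
    rw [e, hmul, hbl, hcomm]
  have hwd : ∀ (n m : Type) [Fintype n] [DecidableEq n] [Fintype m] [DecidableEq m]
      (g : (Matrix n n A)ˣ) (h : (Matrix m m A)ˣ), kv g = kv h → φ n g = φ m h := by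
    intro n m _ _ _ _ g h hgh
    have h1 : kv (bl g (1 : (Matrix m m A)ˣ)) = kv (bl (1 : (Matrix n n A)ˣ) h) := by
      rw [kv_bl_one, kv_one_bl, hgh]
    obtain ⟨p, hp⟩ := (kv_eq_iff _ _).mp h1
    have h2 := hpath' _ _ _ hp
    rw [hbl, hbl, hbl, hcomm] at h2
    exact h2
  have hex : ∀ x : KV1F.obj A, ∃ g : (Σ k : ℕ, (Matrix (Fin k) (Fin k) A)ˣ), kv g.2 = x := by
    intro x
    obtain ⟨k, g, hg⟩ := exists_kv x
    exact ⟨⟨k, g⟩, hg⟩
  choose r hr using hex
  refine ⟨{ toFun := fun x => φ (Fin (r x).1) (r x).2, map_zero' := ?_, map_add' := ?_ }, ?_⟩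
  · rw [← hone (Fin 0)]
    exact hwd _ _ _ _ (by rw [hr, kv_one])
  · intro x y
    rw [← hadd]
    exact hwd _ _ _ _ (by rw [hr, kv_bl, hr, hr])
  · intro n _ _ g
    exact hwd _ _ _ _ (hr _)

end Pool.Agent.Lib.MP_e7fbd4_ag
end

section

/-! # Currying of cubes, 2 -/

set_option autoImplicit false
set_option linter.unusedSectionVars false
set_option linter.unusedVariables false

namespace Pool.Agent.Lib.MP_e7fbd4_ag.O

open Pool.Agent.Lib.MP_c052b4_al

variable {A B C : Type} [Ring A] [Algebra ℂ A] [Ring B] [Algebra ℂ B] [Ring C] [Algebra ℂ C]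
  {c : Kind} {m k l : ℕ}

theorem exists_curry_loop {G : Cube (k + 1) → GLinf A} (hG : IsCube Kind.alg G)
    (h : ∀ x, G (Fin.cons 0 x) = G (Fin.cons 1 x)) :
    ∃ Γ : Cube k → GLinf (Loop A), IsCube Kind.alg Γ ∧
      ∀ (t : unitInterval) x, GLinf.map (evW (Loop A) (cI t)).toRingHom (Γ x) =
        G (Fin.cons t x) := by
  obtain ⟨r, G', hG', hGG⟩ := isCube_iff.1 hG
  have h1 : ∀ x, G' (Fin.cons 0 x) = G' (Fin.cons 1 x) := by
    intro x
    refine Units.ext (entM_injective fun i j => ?_)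
    exact ent_eq_of_toGL (by rw [← hGG, ← hGG, h x]) i j
  obtain ⟨Γ, hΓ, hΓv⟩ := exists_curry_aux (W := Loop A) (R := fun a b => a = b)
    (fun f hf hf' => ⟨hf, hf'⟩) hG' (fun x i j => by rw [h1 x]) (fun x i j => by rw [h1 x])
  refine ⟨fun x => toGL (Loop A) r (Γ x), isCube_iff.2 ⟨r, Γ, hΓ, fun x => rfl⟩, fun t x => ?_⟩
  rw [map_toGL, hΓv, hGG]

private theorem L5_scalar {r : ℕ} {X : (Matrix (Fin r) (Fin r) (Matrix (Fin m) (Fin m) A))ˣ}
    {a : GLinf A} (h : toGL _ r X = dup m A a) (i j : Fin r) :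
    ∃ s : A, X.val i j = Matrix.scalar (Fin m) s := by
  obtain ⟨l, H, rfl⟩ := exists_toGL a
  have h0 : dup m A (toGL A l H) = toGL _ l (mU (Matrix.scalar (Fin m)) H) := by
    unfold dup
    rw [map_toGL]
  rw [h0] at h
  have h1 := ent_eq_of_toGL h i j
  have h2 : entM X.val i j = X.val i j := by
    unfold entM
    rw [dif_pos ⟨i.2, j.2⟩]
  rw [← h2, h1]
  unfold entM
  by_cases h3 : (i : ℕ) < l ∧ (j : ℕ) < l
  · rw [dif_pos h3]
    exact ⟨H.val ⟨i, h3.1⟩ ⟨j, h3.2⟩, rfl⟩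
  · rw [dif_neg h3]
    by_cases h4 : (i : ℕ) = j
    · rw [if_pos h4]
      exact ⟨1, (map_one _).symm⟩
    · rw [if_neg h4]
      exact ⟨0, (map_zero _).symm⟩

theorem exists_curry_cone {P : Cube (k + 1) → GLinf (Matrix (Fin m) (Fin m) A)}
    (hP : IsCube Kind.alg P) {a b : Cube k → GLinf A} (h0 : ∀ x, P (Fin.cons 0 x) = dup m A (a x))
    (h1 : ∀ x, P (Fin.cons 1 x) = dup m A (b x)) :
    ∃ Γ : Cube k → GLinf (Cone m A), IsCube Kind.alg Γ ∧
      ∀ (t : unitInterval) x, GLinf.map (evW (Cone m A) (cI t)).toRingHom (Γ x) =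
        P (Fin.cons t x) := by
  obtain ⟨r, P', hP', hPP⟩ := isCube_iff.1 hP
  have h2 : ∀ x i j, ∃ s : A, (P' (Fin.cons 0 x)).val i j = Matrix.scalar (Fin m) s :=
    fun x i j => L5_scalar (by rw [← hPP, h0 x]) i j
  have h3 : ∀ x i j, ∃ s : A, (P' (Fin.cons 1 x)).val i j = Matrix.scalar (Fin m) s :=
    fun x i j => L5_scalar (by rw [← hPP, h1 x]) i j
  have h4 : ∀ x i j, ∃ s : A, (P' (Fin.cons 0 x))⁻¹.val i j = Matrix.scalar (Fin m) s :=
    fun x i j => L5_scalar (a := (a x)⁻¹) (by rw [map_inv, ← hPP, h0 x, map_inv]) i j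
  have h5 : ∀ x i j, ∃ s : A, (P' (Fin.cons 1 x))⁻¹.val i j = Matrix.scalar (Fin m) s :=
    fun x i j => L5_scalar (a := (b x)⁻¹) (by rw [map_inv, ← hPP, h1 x, map_inv]) i j
  obtain ⟨Γ, hΓ, hΓv⟩ := exists_curry_aux (W := Cone m A)
    (R := fun X Y => (∃ s : A, X = Matrix.scalar (Fin m) s) ∧ ∃ s : A, Y = Matrix.scalar (Fin m) s)
    (fun f hf hf' => ⟨hf, hf'.1, hf'.2⟩) hP' (fun x i j => ⟨h2 x i j, h3 x i j⟩)
    (fun x i j => ⟨h4 x i j, h5 x i j⟩)
  refine ⟨fun x => toGL (Cone m A) r (Γ x), isCube_iff.2 ⟨r, Γ, hΓ, fun x => rfl⟩, fun t x => ?_⟩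
  rw [map_toGL, hΓv, hPP]

end Pool.Agent.Lib.MP_e7fbd4_ag.O
end

section

/-! # Spheres over the loop algebra -/

set_option autoImplicit false
set_option linter.unusedSectionVars false
set_option linter.unusedVariables false

namespace Pool.Agent.Lib.MP_e7fbd4_ag.O

open Pool.Agent.Lib.MP_c052b4_al

variable {A B C : Type} [Ring A] [Algebra ℂ A] [Ring B] [Algebra ℂ B] [Ring C] [Algebra ℂ C]
  {c : Kind} {m k l : ℕ}

theorem exists_lam_aux (z : Sph (k + 1) A) : ∃ w : Sph k (Loop A),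
    ∀ (t : unitInterval) x, GLinf.map (evW (Loop A) (cI t)).toRingHom (w.g x) =
      z.g (Fin.cons t x) := by
  obtain ⟨Γ, hΓ, hΓv⟩ := exists_curry_loop z.hg (fun x => by
    rw [z.bdry _ (onBdry_cons_zero x), z.bdry _ (onBdry_cons_one x)])
  refine ⟨⟨Γ, hΓ, fun x hx => ?_⟩, hΓv⟩
  apply glw_ext (loop_le A)
  intro t
  rw [hΓv, z.bdry _ (onBdry_cons hx), map_one]

/-- A sphere of dimension `k + 1` in `GL(A)` as a sphere of dimension `k` in `GL(Loop A)`. -/
noncomputable def Sph.lam (z : Sph (k + 1) A) : Sph k (Loop A) := (exists_lam_aux z).choose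

theorem Sph.lam_ev (z : Sph (k + 1) A) (t : unitInterval) (x : Cube k) :
    GLinf.map (evW (Loop A) (cI t)).toRingHom (z.lam.g x) = z.g (Fin.cons t x) :=
  (exists_lam_aux z).choose_spec t x

theorem Sph.lam_mul (z w : Sph (k + 1) A) : (z * w).lam = z.lam * w.lam := by
  refine Sph.ext' fun x => ?_
  apply glw_ext (loop_le A)
  intro t
  rw [Sph.lam_ev, Sph.mul_g, Sph.mul_g, map_mul, Sph.lam_ev, Sph.lam_ev]

theorem Sph.lam_map (f : A →ₐ[ℂ] B) (z : Sph (k + 1) A) :
    (z.map f).lam = z.lam.map (loopOp.map f) := by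
  refine Sph.ext' fun x => ?_
  apply glw_ext (loop_le B)
  intro t
  rw [Sph.lam_ev, Sph.map_g, ← z.lam_ev t x]
  have h1 : (z.lam.map (loopOp.map f)).g x =
    GLinf.map (loopOp.map f).toRingHom (z.lam.g x) := rfl
  refine Eq.trans (GLinf_map_comp _ _ _) (Eq.trans ?_ (congrArg _ h1.symm))
  exact (GLinf_map_comp (evW (Loop B) (cI t)).toRingHom (loopOp.map f).toRingHom (z.lam.g x)).symm

theorem Sph.lam_r (z : Sph (k + 1) A) : z.lam.map (loopOp.r A) = 1 := by
  refine Sph.ext' fun x => ?_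
  have hc0 : cI 0 = 0 := by simp [cI]
  have h1 : (z.lam.map (loopOp.r A)).g x =
    GLinf.map (evW (Loop A) (cI 0)).toRingHom (z.lam.g x) := by
    rw [hc0]
    rfl
  rw [Sph.one_g]
  refine h1.trans ?_
  rw [Sph.lam_ev, z.bdry _ (onBdry_cons_zero x)]

end Pool.Agent.Lib.MP_e7fbd4_ag.O
end

section

/-! # Spheres over the loop algebra, 2 -/

set_option autoImplicit false
set_option linter.unusedSectionVars false
set_option linter.unusedVariables false

namespace Pool.Agent.Lib.MP_e7fbd4_ag.O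

open Pool.Agent.Lib.MP_c052b4_al

variable {A B C : Type} [Ring A] [Algebra ℂ A] [Ring B] [Algebra ℂ B] [Ring C] [Algebra ℂ C]
  {c : Kind} {m k l : ℕ}

private theorem L8_ev0 (A : Type) [Ring A] [Algebra ℂ A] :
    evW (Loop A) (cI 0) = evW (Loop A) (cI 1) := by
  apply AlgHom.ext
  intro f
  show f.1 (cI 0) = f.1 (cI 1)
  have h0 : cI 0 = 0 := by simp [cI]
  have h1 : cI 1 = 1 := by simp [cI]
  rw [h0, h1]
  exact f.2.2

private theorem L8_r (A : Type) [Ring A] [Algebra ℂ A] (g : GLinf (Loop A)) :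
    GLinf.map (evW (Loop A) (cI 0)).toRingHom g = GLinf.map (loopOp.r A).toRingHom g := by
  have h0 : cI 0 = 0 := by simp [cI]
  rw [h0]
  rfl

/-- A sphere in `GL(Loop A)` which is `1` at `t = 0` comes from a sphere in `GL(A)`
(`IsCube.uncurry`). -/
theorem exists_lam (w : Sph k (Loop A)) (h : w.map (loopOp.r A) = 1) : ∃ z, Sph.lam z = w := by
  have h1 : ∀ x, GLinf.map (evW (Loop A) (cI 0)).toRingHom (w.g x) = 1 := by
    intro x
    rw [L8_r]
    have h2 := congrArg (fun z : Sph k A => z.g x) h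
    exact h2
  let z : Sph (k + 1) A :=
    { g := fun y => GLinf.map (evW (Loop A) (cI (y 0))).toRingHom (w.g fun i => y i.succ)
      hg := IsCube.uncurry (loop_le A) w.hg
      bdry := by
        intro y hy
        rw [← Fin.cons_self_tail y, onBdry_cons_iff] at hy
        rcases hy with hy | hy | hy
        · rw [hy, h1]
        · rw [hy, ← L8_ev0, h1]
        · have h3 : w.g (fun i => y i.succ) = 1 := w.bdry _ hy
          rw [h3, map_one] }
  refine ⟨z, ?_⟩
  apply Sph.ext'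
  intro x
  apply glw_ext (loop_le A)
  intro t
  rw [Sph.lam_ev]
  show GLinf.map (evW (Loop A) (cI ((Fin.cons t x : Cube (k + 1)) 0))).toRingHom
    (w.g fun i => (Fin.cons t x : Cube (k + 1)) i.succ) = _
  simp only [Fin.cons_zero, Fin.cons_succ]

private def L8_sw (Y : Cube (k + 2)) : Cube (k + 2) :=
  Fin.cons (Y 1) (Fin.cons (Y 0) fun i => Y i.succ.succ)

private theorem L8_sw_cons (s t : unitInterval) (x : Cube k) :
    L8_sw (Fin.cons s (Fin.cons t x : Cube (k + 1)) : Cube (k + 2)) =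
      Fin.cons t (Fin.cons s x : Cube (k + 1)) := rfl

private theorem L8_sw_poly : PolyMap (L8_sw (k := k)) := by
  apply polyMap_of
  intro i
  left
  refine Fin.cases ⟨1, fun x => rfl⟩ (fun i => ?_) i
  refine Fin.cases ⟨0, fun x => rfl⟩ (fun i => ?_) i
  exact ⟨i.succ.succ, fun x => rfl⟩

private def L8_dr (Y : Cube (k + 2)) : Cube (k + 1) := Fin.cons (Y 0) fun i => Y i.succ.succ

private theorem L8_dr_cons (s t : unitInterval) (x : Cube k) :
    L8_dr (Fin.cons s (Fin.cons t x : Cube (k + 1)) : Cube (k + 2)) = Fin.cons s x := rfl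

private theorem L8_dr_poly : PolyMap (L8_dr (k := k)) := by
  apply polyMap_of
  intro i
  left
  refine Fin.cases ⟨0, fun x => rfl⟩ (fun i => ?_) i
  exact ⟨i.succ.succ, fun x => rfl⟩

private theorem L8_up (G : Cube (k + 1) → GLinf (Loop A)) (hG : IsCube Kind.alg G) :
    ∃ H : Cube (k + 2) → GLinf A, IsCube Kind.alg H ∧
      ∀ (s t : unitInterval) (x : Cube k), H (Fin.cons s (Fin.cons t x : Cube (k + 1))) =
        GLinf.map (evW (Loop A) (cI t)).toRingHom (G (Fin.cons s x)) *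
        (GLinf.map (evW (Loop A) (cI 0)).toRingHom (G (Fin.cons s x)))⁻¹ := by
  have c1 := (IsCube.uncurry (loop_le A) hG).comp (L8_sw_poly (k := k))
  have c2 := (IsCube.map hG (evW (Loop A) (cI 0))).comp (L8_dr_poly (k := k))
  refine ⟨_, c1.mul c2.inv, ?_⟩
  intro s t x
  show GLinf.map (evW (Loop A) (cI (L8_sw (Fin.cons s (Fin.cons t x : Cube (k + 1)) : Cube (k + 2)) 0))).toRingHom
      (G fun i => L8_sw (Fin.cons s (Fin.cons t x : Cube (k + 1)) : Cube (k + 2)) i.succ) *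
    (GLinf.map (evW (Loop A) (cI 0)).toRingHom
      (G (L8_dr (Fin.cons s (Fin.cons t x : Cube (k + 1)) : Cube (k + 2)))))⁻¹ = _
  rw [L8_sw_cons, L8_dr_cons]
  simp only [Fin.cons_zero, Fin.cons_succ]

/-- `→`: the homotopy `G(s, x)(t)` from `1` to `z.lam` is corrected to `G(s, x)(t) G(s, x)(0)⁻¹`
and uncurried; interchange the coordinates `s` and `t`. `←`: curry (`exists_curry_loop`), after the
interchange of coordinates. -/
theorem null_lam_iff (z : Sph (k + 1) A) : Null z.lam ↔ Null z := by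
  constructor
  · rintro ⟨G, hG, hb, h0, h1⟩
    have hcons : ∀ (s : unitInterval) (y : Cube (k + 1)), ∃ (t : unitInterval) (x : Cube k),
        y = Fin.cons t x := fun s y => ⟨y 0, Fin.tail y, (Fin.cons_self_tail y).symm⟩
    obtain ⟨H, hHc, hH⟩ := L8_up G hG
    refine ⟨H, hHc, ?_, ?_, ?_⟩
    · intro s y hy
      obtain ⟨t, x, rfl⟩ := hcons s y
      rw [hH]
      rw [onBdry_cons_iff] at hy
      rcases hy with hy | hy | hy
      · rw [hy, mul_inv_cancel]
      · rw [hy, ← L8_ev0, mul_inv_cancel]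
      · rw [hb s x hy, map_one, map_one, inv_one, mul_one]
    · intro y
      obtain ⟨t, x, rfl⟩ := hcons 0 y
      rw [hH, h0, map_one, map_one, inv_one, mul_one]
    · intro y
      obtain ⟨t, x, rfl⟩ := hcons 0 y
      rw [hH, h1, Sph.lam_ev, Sph.lam_ev, z.bdry _ (onBdry_cons_zero x), inv_one, mul_one]
  · rintro ⟨H, hH, hb, h0, h1⟩
    have hsw := hH.comp (L8_sw_poly (k := k))
    have hends : ∀ y : Cube (k + 1), H (L8_sw (Fin.cons 0 y : Cube (k + 2))) =
        H (L8_sw (Fin.cons 1 y : Cube (k + 2))) := by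
      intro y
      obtain ⟨s, x, rfl⟩ : ∃ (s : unitInterval) (x : Cube k), y = Fin.cons s x :=
        ⟨y 0, Fin.tail y, (Fin.cons_self_tail y).symm⟩
      rw [L8_sw_cons, L8_sw_cons, hb _ _ (onBdry_cons_zero x), hb _ _ (onBdry_cons_one x)]
    obtain ⟨Γ, hΓ, hev⟩ := exists_curry_loop hsw hends
    refine ⟨Γ, hΓ, ?_, ?_, ?_⟩
    · intro s x hx
      apply glw_ext (loop_le A)
      intro t
      rw [hev, L8_sw_cons, hb _ _ (onBdry_cons hx), map_one]
    · intro x
      apply glw_ext (loop_le A)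
      intro t
      rw [hev, L8_sw_cons, h0, map_one]
    · intro x
      apply glw_ext (loop_le A)
      intro t
      rw [hev, L8_sw_cons, h1, Sph.lam_ev]

end Pool.Agent.Lib.MP_e7fbd4_ag.O
end

section

/-! # The case `k = 0` -/

set_option autoImplicit false
set_option linter.unusedSectionVars false
set_option linter.unusedVariables false

namespace Pool.Agent.Lib.MP_e7fbd4_ag.O

open Pool.Agent.Lib.MP_c052b4_al

variable {A B C : Type} [Ring A] [Algebra ℂ A] [Ring B] [Algebra ℂ B] [Ring C] [Algebra ℂ C]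
  {c : Kind} {m k l : ℕ}

/-- The class in `KV₁(A)` of an element of `GL(A)`. -/
noncomputable def kvG (A : Type) [Ring A] [Algebra ℂ A] (g : GLinf A) : KV1F.obj A :=
  toKV A (Multiplicative.toAdd (clGL A g) : KOne A)

theorem kvG_toGL {n : ℕ} (G : (Matrix (Fin n) (Fin n) A)ˣ) : kvG A (toGL A n G) = kv G :=
  congrArg (toKV A) (k1_fin G).symm

theorem kvG_mul (g h : GLinf A) : kvG A (g * h) = kvG A g + kvG A h := by
  obtain ⟨x, hx⟩ : ∃ x : KOne A, x = Multiplicative.toAdd (clGL A g) := ⟨_, rfl⟩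
  obtain ⟨y, hy⟩ : ∃ y : KOne A, y = Multiplicative.toAdd (clGL A h) := ⟨_, rfl⟩
  have h1 : (Multiplicative.toAdd (clGL A (g * h)) : KOne A) = x + y := by
    rw [map_mul, toAdd_mul, hx, hy]
  unfold kvG
  rw [h1, ← hx, ← hy]
  exact map_add (toKV A) x y

theorem map_kvG (f : A →ₐ[ℂ] B) (g : GLinf A) :
    KV1F.map f (kvG A g) = kvG B (GLinf.map f.toRingHom g) := by
  obtain ⟨k, G, rfl⟩ := exists_toGL g
  rw [kvG_toGL, map_kv, map_toGL, kvG_toGL]
  rfl

end Pool.Agent.Lib.MP_e7fbd4_ag.O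
end

section

/-! # The case `k = 0`, 2 -/

set_option autoImplicit false
set_option linter.unusedSectionVars false
set_option linter.unusedVariables false

namespace Pool.Agent.Lib.MP_e7fbd4_ag.O

open Pool.Agent.Lib.MP_c052b4_al

variable {A B C : Type} [Ring A] [Algebra ℂ A] [Ring B] [Algebra ℂ B] [Ring C] [Algebra ℂ C]
  {c : Kind} {m k l : ℕ}

private theorem L10_cI_zero : cI 0 = 0 := by
  unfold cI
  norm_num

private theorem L10_cI_one : cI 1 = 1 := by
  unfold cI
  norm_num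

/-- the stabilized matrix, reindexed, defines the same element of `GL(A)` -/
private theorem L10_toGL_bl (n p : ℕ) (G : (Matrix (Fin n) (Fin n) A)ˣ) :
    toGL A (n + p) (rU finSumFinEquiv (bl G (1 : (Matrix (Fin p) (Fin p) A)ˣ))) =
      toGL A n G := by
  apply toGL_eq_of_ent
  intro i j
  rw [coe_rU, coe_bl]
  unfold entM
  by_cases hi : i < n
  · have ei : (finSumFinEquiv.symm (⟨i, by omega⟩ : Fin (n + p)) : Fin n ⊕ Fin p) =
        Sum.inl ⟨i, hi⟩ := by
      rw [Equiv.symm_apply_eq]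
      rfl
    by_cases hj : j < n
    · have ej : (finSumFinEquiv.symm (⟨j, by omega⟩ : Fin (n + p)) : Fin n ⊕ Fin p) =
          Sum.inl ⟨j, hj⟩ := by
        rw [Equiv.symm_apply_eq]
        rfl
      rw [dif_pos ⟨by omega, by omega⟩, dif_pos ⟨hi, hj⟩]
      simp [ei, ej]
    · rw [dif_neg (show ¬ (i < n ∧ j < n) from fun h => hj h.2), if_neg (by omega)]
      by_cases hj' : j < n + p
      · obtain ⟨j', rfl⟩ : ∃ j', j = n + j' := ⟨j - n, by omega⟩
        have ej : (finSumFinEquiv.symm (⟨n + j', by omega⟩ : Fin (n + p)) : Fin n ⊕ Fin p) =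
            Sum.inr ⟨j', by omega⟩ := by
          rw [Equiv.symm_apply_eq]
          rfl
        rw [dif_pos ⟨by omega, by omega⟩]
        simp [ei, ej]
      · rw [dif_neg (fun h => hj' h.2)]
  · rw [dif_neg (show ¬ (i < n ∧ j < n) from fun h => hi h.1)]
    by_cases hi' : i < n + p
    · obtain ⟨i', rfl⟩ : ∃ i', i = n + i' := ⟨i - n, by omega⟩
      have ei : (finSumFinEquiv.symm (⟨n + i', by omega⟩ : Fin (n + p)) : Fin n ⊕ Fin p) =
          Sum.inr ⟨i', by omega⟩ := by
        rw [Equiv.symm_apply_eq]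
        rfl
      by_cases hj : j < n
      · have ej : (finSumFinEquiv.symm (⟨j, by omega⟩ : Fin (n + p)) : Fin n ⊕ Fin p) =
            Sum.inl ⟨j, hj⟩ := by
          rw [Equiv.symm_apply_eq]
          rfl
        rw [dif_pos ⟨by omega, by omega⟩, if_neg (by omega)]
        simp [ei, ej]
      · by_cases hj' : j < n + p
        · obtain ⟨j', rfl⟩ : ∃ j', j = n + j' := ⟨j - n, by omega⟩
          have ej : (finSumFinEquiv.symm (⟨n + j', by omega⟩ : Fin (n + p)) : Fin n ⊕ Fin p) =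
              Sum.inr ⟨j', by omega⟩ := by
            rw [Equiv.symm_apply_eq]
            rfl
          rw [dif_pos ⟨by omega, by omega⟩]
          simp [ei, ej, Matrix.one_apply]
        · rw [dif_neg (fun h => hj' h.2)]
    · rw [dif_neg (fun h => hi' h.1)]

private theorem L10_kvG_one : kvG A (1 : GLinf A) = 0 := by
  have h := kvG_mul (1 : GLinf A) 1
  rw [mul_one] at h
  exact left_eq_add.mp h

/-- `z` is a point of `GL(A)`; it is homotopic to `1` if and only if its class in `KV₁` is zero: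
`→` `kv_ends` for the matrix over `A[t]` of the homotopy (`exists_curry_aux` with `R` trivial, or
`fn_curry`), `←` `pathTo_of_kv`. -/
theorem null_iff_kvG (z : Sph 0 A) : Null z ↔ kvG A (z.g fun i => i.elim0) = 0 := by
  constructor
  · rintro ⟨G, hG, hb, h0, h1⟩
    obtain ⟨r, M, hM, hMG⟩ := isCube_iff.mp hG
    obtain ⟨Γ, hΓ, hev⟩ := exists_curry_aux (W := Poly A) (R := fun _ _ => True)
      (fun f hf _ => hf) hM (fun _ _ _ => trivial) (fun _ _ _ => trivial)
    set x₀ : Cube 0 := fun i => i.elim0 with hx₀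
    have e0 : mA (evP A 0) (Γ x₀) = M (Fin.cons 0 x₀) := by
      have h2 := hev 0 x₀
      rw [L10_cI_zero] at h2
      exact h2
    have e1 : mA (evP A 1) (Γ x₀) = M (Fin.cons 1 x₀) := by
      have h2 := hev 1 x₀
      rw [L10_cI_one] at h2
      exact h2
    have e2 := kv_ends (Γ x₀)
    rw [e0, e1, ← kvG_toGL, ← kvG_toGL, ← hMG, ← hMG, h0, h1, L10_kvG_one] at e2
    exact e2
  · intro h
    set x₀ : Cube 0 := fun i => i.elim0 with hx₀
    obtain ⟨n, G, hG⟩ := exists_toGL (z.g x₀)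
    rw [← hG, kvG_toGL] at h
    obtain ⟨p, hp⟩ := pathTo_of_kv G h
    obtain ⟨H, hH0, hH1⟩ := hp.rU finSumFinEquiv
    refine ⟨fun y => GLinf.map (evW (Poly A) (cI (y 0))).toRingHom (toGL (Poly A) (n + p) H),
      IsCube.uncurry (le_refl _) (IsCube.const _), ?_, ?_, ?_⟩
    · rintro t x ⟨i, _⟩
      exact i.elim0
    · intro x
      have h2 : mU (evW (Poly A) 0).toRingHom H = 1 := by
        refine Eq.trans hH0 ?_
        exact rU_one _
      change GLinf.map (evW (Poly A) (cI 0)).toRingHom (toGL (Poly A) (n + p) H) = 1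
      rw [L10_cI_zero, map_toGL, h2, map_one]
    · intro x
      have h2 : mU (evW (Poly A) 1).toRingHom H =
          rU finSumFinEquiv (bl G (1 : (Matrix (Fin p) (Fin p) A)ˣ)) := hH1
      change GLinf.map (evW (Poly A) (cI 1)).toRingHom (toGL (Poly A) (n + p) H) = z.g x
      rw [L10_cI_one, map_toGL, h2, L10_toGL_bl, hG]
      congr 1
      exact funext fun i => i.elim0

end Pool.Agent.Lib.MP_e7fbd4_ag.O
end

section

/-! # Spheres and `KV` -/

set_option autoImplicit false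
set_option linter.unusedSectionVars false
set_option linter.unusedVariables false

namespace Pool.Agent.Lib.MP_e7fbd4_ag.O

open Pool.Agent.Lib.MP_c052b4_al

variable {A B C : Type} [Ring A] [Algebra ℂ A] [Ring B] [Algebra ℂ B] [Ring C] [Algebra ℂ C]
  {c : Kind} {m k l : ℕ}

/-- A natural surjective homomorphism from spheres to `KV k` with kernel the null-homotopic
spheres. -/
structure ThetaData (k : ℕ) where
  th : (A : Type) → [Ring A] → [Algebra ℂ A] → Sph k A → (KV k).obj A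
  mul : ∀ (A : Type) [Ring A] [Algebra ℂ A] (z w : Sph k A), th A (z * w) = th A z + th A w
  nat : ∀ (A B : Type) [Ring A] [Algebra ℂ A] [Ring B] [Algebra ℂ B] (f : A →ₐ[ℂ] B)
    (z : Sph k A), (KV k).map f (th A z) = th B (z.map f)
  surj : ∀ (A : Type) [Ring A] [Algebra ℂ A] (x : (KV k).obj A), ∃ z, th A z = x
  null : ∀ (A : Type) [Ring A] [Algebra ℂ A] (z : Sph k A), th A z = 0 ↔ Null z

theorem ThetaData.one {k : ℕ} (T : ThetaData k) (A : Type) [Ring A] [Algebra ℂ A] :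
    T.th A 1 = 0 := by
  have h := T.mul A 1 1
  have h1 : (1 : Sph k A) * 1 = 1 := Sph.ext' fun x => one_mul _
  rw [h1] at h
  exact left_eq_add.mp h

theorem ThetaData.inv {k : ℕ} (T : ThetaData k) {A : Type} [Ring A] [Algebra ℂ A] (z : Sph k A) :
    T.th A z⁻¹ = - T.th A z := by
  have h := T.mul A z⁻¹ z
  have h1 : z⁻¹ * z = 1 := Sph.ext' fun x => inv_mul_cancel _
  rw [h1, T.one] at h
  exact eq_neg_of_add_eq_zero_left h.symm

/-- `th A z = kvG A (z.g pt)`. -/
theorem theta_zero : Nonempty (ThetaData 0) := by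
  refine ⟨{ th := fun A _ _ z => kvG A (z.g fun i => i.elim0), mul := ?_, nat := ?_, surj := ?_,
            null := ?_ }⟩
  · intro A _ _ z w
    exact kvG_mul _ _
  · intro A B _ _ _ _ f z
    exact map_kvG f _
  · intro A _ _ x
    obtain ⟨n, G, hG⟩ := exists_kv (A := A) x
    refine ⟨⟨fun _ => toGL A n G, IsCube.const _, ?_⟩, ?_⟩
    · rintro x ⟨i, _⟩
      exact i.elim0
    · exact (kvG_toGL G).trans hG
  · intro A _ _ z
    exact (null_iff_kvG z).symm

end Pool.Agent.Lib.MP_e7fbd4_ag.O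
end
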