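import Pool.Agent.Lib.MP_e7fbd4_ag.Mg.G003
import Pool.Agent.Lib.MP_e7fbd4_ag.Mg.G004
import Pool.Agent.Lib.MP_e7fbd4_ag.Mg.G005
import Pool.Agent.Lib.MP_e7fbd4_ag.Mg.G007

section

/-!
# (Ex3) for `KV₁`
-/

set_option autoImplicit false
set_option linter.unusedSectionVars false
set_option linter.unusedVariables false

namespace Pool.Agent.Lib.MP_e7fbd4_ag

open Matrix Pool.Agent.Lib.MP_c052b4_al

variable {A B : Type} [Ring A] [Algebra ℂ A] [Ring B] [Algebra ℂ B]
  {n l : Type} [Fintype n] [Fintype l] [DecidableEq n] [DecidableEq l]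

/-- the decomposition of `n × Fin m` -/
def sgE (m : ℕ) [NeZero m] (n : Type) : n ⊕ (n × {c : Fin m // c ≠ 0}) ≃ n × Fin m where
  toFun x := Sum.elim (fun i => (i, 0)) (fun p => (p.1, p.2.1)) x
  invFun p := if h : p.2 = 0 then Sum.inl p.1 else Sum.inr (p.1, ⟨p.2, h⟩)
  left_inv x := by
    rcases x with i | ⟨i, c, hc⟩
    · simp
    · simp [hc]
  right_inv p := by
    rcases p with ⟨i, c⟩
    by_cases h : c = 0
    · subst h; simp
    · simp [h]

/-- `diag(g, 1, ..., 1)` in `GL_{n × m}(A)` -/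
def dg (m : ℕ) [NeZero m] (g : (Matrix n n A)ˣ) : (Matrix (n × Fin m) (n × Fin m) A)ˣ :=
  rU (sgE m n) (bl g 1)

theorem dg_apply (m : ℕ) [NeZero m] (g : (Matrix n n A)ˣ) (i j : n) (c d : Fin m) :
    (dg m g).val (i, c) (j, d) =
      if c = d then (if c = 0 then g.val i j else (1 : Matrix n n A) i j) else 0 := by
  unfold dg
  rw [coe_rU, Matrix.submatrix_apply]
  by_cases hc : c = 0
  · by_cases hd : d = 0
    · subst hc; subst hd
      have e1 : (sgE m n).symm (i, 0) = Sum.inl i := by simp [sgE]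
      have e2 : (sgE m n).symm (j, 0) = Sum.inl j := by simp [sgE]
      rw [e1, e2, if_pos rfl, if_pos rfl]
      rfl
    · subst hc
      have e1 : (sgE m n).symm (i, 0) = Sum.inl i := by simp [sgE]
      have e2 : (sgE m n).symm (j, d) = Sum.inr (j, ⟨d, hd⟩) := by simp [sgE, hd]
      rw [e1, e2, if_neg (fun h => hd h.symm)]
      rfl
  · by_cases hd : d = 0
    · subst hd
      have e1 : (sgE m n).symm (i, c) = Sum.inr (i, ⟨c, hc⟩) := by simp [sgE, hc]
      have e2 : (sgE m n).symm (j, 0) = Sum.inl j := by simp [sgE]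
      rw [e1, e2, if_neg hc]
      rfl
    · have e1 : (sgE m n).symm (i, c) = Sum.inr (i, ⟨c, hc⟩) := by simp [sgE, hc]
      have e2 : (sgE m n).symm (j, d) = Sum.inr (j, ⟨d, hd⟩) := by simp [sgE, hd]
      rw [e1, e2, if_neg hc]
      change (1 : Matrix (n × {c : Fin m // c ≠ 0}) (n × {c : Fin m // c ≠ 0}) A)
        (i, ⟨c, hc⟩) (j, ⟨d, hd⟩) = _
      rw [Matrix.one_apply, Matrix.one_apply]
      by_cases hcd : c = d
      · subst hcd
        by_cases hij : i = j
        · subst hij; simp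
        · rw [if_neg, if_pos rfl, if_neg hij]
          intro h
          exact hij (Prod.mk.inj h).1
      · rw [if_neg, if_neg hcd]
        intro h
        exact hcd (Subtype.mk.inj (Prod.mk.inj h).2)

theorem kv_dg (m : ℕ) [NeZero m] (g : (Matrix n n A)ˣ) : kv (dg m g) = kv g := by
  unfold dg
  rw [kv_rU, kv_bl_one]

theorem mA_dg (m : ℕ) [NeZero m] (φ : A →ₐ[ℂ] B) (g : (Matrix n n A)ˣ) :
    mA φ (dg m g) = dg m (mA φ g) := by
  unfold dg
  rw [mA_rU, mA_bl, map_one]

theorem cone_at0 (m : ℕ) [NeZero m] (f : Cone m A) : f.1 0 = scalarHom m A (coneEv0 m A f) := by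
  obtain ⟨a, ha⟩ := f.2.2.1
  have h : coneEv0 m A f = a := by
    change f.1 0 0 0 = a
    rw [ha]
    simp
  rw [h]
  exact ha

theorem cone_at1 (m : ℕ) [NeZero m] (f : Cone m A) : f.1 1 = scalarHom m A (coneEv1 m A f) := by
  obtain ⟨a, ha⟩ := f.2.2.2
  have h : coneEv1 m A f = a := by
    change f.1 1 0 0 = a
    rw [ha]
    simp
  rw [h]
  exact ha

theorem mA_cone_at0 (m : ℕ) [NeZero m] (H : (Matrix n n (Cone m A))ˣ) :
    mA (evW (Cone m A) 0) H = mA (scalarHom m A) (mA (coneEv0 m A) H) :=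
  Units.ext (Matrix.ext fun i j => cone_at0 m (H.val i j))

theorem mA_cone_at1 (m : ℕ) [NeZero m] (H : (Matrix n n (Cone m A))ˣ) :
    mA (evW (Cone m A) 1) H = mA (scalarHom m A) (mA (coneEv1 m A) H) :=
  Units.ext (Matrix.ext fun i j => cone_at1 m (H.val i j))

/-- the values of `jHom` -/
theorem fl_jHom (m : ℕ) [NeZero m] (x : (Matrix n n (Loop A))ˣ) (h0 : mA (evW (Loop A) 0) x = 1)
    (t : ℂ) : fl n (Fin m) A (mA (evW (Cone m A) t) (mA (jHom m A) x)) =
      dg m (mA (evW (Loop A) t) x) := by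
  refine Units.ext (Matrix.ext fun p q => ?_)
  obtain ⟨i, c⟩ := p
  obtain ⟨j, d⟩ := q
  rw [dg_apply, fl_apply]
  change Matrix.diagonal (fun c : Fin m => if c = 0 then (x.val i j).1 t else (x.val i j).1 0) c d
    = _
  have h1 : (x.val i j).1 0 = (1 : Matrix n n A) i j := by
    have h2 : (mA (evW (Loop A) 0) x).val i j = (1 : (Matrix n n A)ˣ).val i j := by rw [h0]
    exact h2
  rw [Matrix.diagonal_apply, h1]
  rfl

/-- **A normalization**: an element of `KV₁(Cone m A)` vanishing at both ends is represented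
by a matrix with values `1` at both ends. -/
theorem exists_normal (m : ℕ) [NeZero m] (z : KV1F.obj (Cone m A))
    (h0 : KV1F.map (coneEv0 m A) z = 0) (h1 : KV1F.map (coneEv1 m A) z = 0) :
    ∃ (k p : ℕ) (U : (Matrix (Fin k ⊕ Fin p) (Fin k ⊕ Fin p) (Cone m A))ˣ), kv U = z ∧
      mA (evW (Cone m A) 0) U = 1 ∧ mA (evW (Cone m A) 1) U = 1 := by
  obtain ⟨k, H, rfl⟩ := exists_kv z
  rw [map_kv] at h0 h1
  obtain ⟨p0, hp0⟩ := pathTo_of_kv _ h0
  obtain ⟨p1, hp1⟩ := pathTo_of_kv _ h1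
  rw [← bl_one] at hp0 hp1
  have hq0 := pathTo_stab (le_max_left p0 p1) hp0
  have hq1 := pathTo_stab (le_max_right p0 p1) hp1
  rw [bl_one] at hq0 hq1
  set p := max p0 p1 with hp
  let H' : (Matrix (Fin k ⊕ Fin p) (Fin k ⊕ Fin p) (Cone m A))ˣ := bl H 1
  have e0 : bl (mA (coneEv0 m A) H) 1 = mA (coneEv0 m A) H' := by
    rw [mA_bl, map_one]
  have e1 : bl (mA (coneEv1 m A) H) 1 = mA (coneEv1 m A) H' := by
    rw [mA_bl, map_one]
  rw [e0] at hq0
  rw [e1] at hq1
  obtain ⟨Q0, hQ00, hQ01⟩ := hq0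
  obtain ⟨Q1, hQ10, hQ11⟩ := hq1
  have hS0 : PU (fun s => mA (scalarHom m A) (mA (evP A s) Q0)) :=
    (PU.ofW (W := Poly A) le_rfl Q0).map (scalarHom m A)
  have hS1 : PU (fun s => mA (scalarHom m A) (mA (evP A s) Q1)) :=
    (PU.ofW (W := Poly A) le_rfl Q1).map (scalarHom m A)
  have hHt : PU (fun t => mA (evW (Cone m A) t) H') := PU.ofW (cone_le m A) H'
  have hq1 : (fun v t : ℂ => v * (1 - t)) ∈ Poly2 ℂ :=
    (Poly2 ℂ).mul_mem poly2_fst ((Poly2 ℂ).sub_mem (Poly2 ℂ).one_mem poly2_snd)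
  have hq2 : (fun v t : ℂ => v * t) ∈ Poly2 ℂ := (Poly2 ℂ).mul_mem poly2_fst poly2_snd
  let F : ℂ → ℂ → (Matrix (Fin k ⊕ Fin p) (Fin k ⊕ Fin p) (Matrix (Fin m) (Fin m) A))ˣ :=
    fun v t => (mA (scalarHom m A) (mA (evP A (v * (1 - t))) Q0))⁻¹ *
      mA (evW (Cone m A) t) H' * (mA (scalarHom m A) (mA (evP A (v * t)) Q1))⁻¹
  have hF : PU2 F := ((hS0.subst2 hq1).inv.mul (PU2.ofP hHt)).mul (hS1.subst2 hq2).inv
  have hF0 : ∀ v, F v 0 = mA (scalarHom m A) ((mA (evP A v) Q0)⁻¹ * mA (coneEv0 m A) H') := by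
    intro v
    change (mA (scalarHom m A) (mA (evP A (v * (1 - 0))) Q0))⁻¹ *
      mA (evW (Cone m A) 0) H' * (mA (scalarHom m A) (mA (evP A (v * 0)) Q1))⁻¹ = _
    rw [sub_zero, mul_one, mul_zero, hQ10, map_one, inv_one, mul_one, mA_cone_at0, map_mul,
      map_inv]
  have hF1 : ∀ v, F v 1 = mA (scalarHom m A) (mA (coneEv1 m A) H' * (mA (evP A v) Q1)⁻¹) := by
    intro v
    change (mA (scalarHom m A) (mA (evP A (v * (1 - 1))) Q0))⁻¹ *
      mA (evW (Cone m A) 1) H' * (mA (scalarHom m A) (mA (evP A (v * 1)) Q1))⁻¹ = _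
    rw [sub_self, mul_one, mul_zero, hQ00, map_one, inv_one, one_mul, mA_cone_at1, map_mul,
      map_inv]
  have hF01 : F 1 0 = 1 := by
    rw [hF0, hQ01, inv_mul_cancel, map_one]
  have hF11 : F 1 1 = 1 := by
    rw [hF1, hQ11, mul_inv_cancel, map_one]
  refine ⟨k, p, coneU m (F 1) (hF.at_fst 1) ⟨_, hF0 1⟩ ⟨_, hF1 1⟩, ?_, ?_, ?_⟩
  · rw [← kv_bl_one (m := Fin p) H]
    symm
    refine kv_cone_hom m F hF (fun v => ⟨_, hF0 v⟩) (fun v => ⟨_, hF1 v⟩) _ _ (fun t => ?_)
      (fun t => coneU_ev _ _ _ _ _ _)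
    change mA (evW (Cone m A) t) H' =
      (mA (scalarHom m A) (mA (evP A (0 * (1 - t))) Q0))⁻¹ *
      mA (evW (Cone m A) t) H' * (mA (scalarHom m A) (mA (evP A (0 * t)) Q1))⁻¹
    rw [zero_mul, zero_mul, hQ00, hQ10, map_one, inv_one, one_mul, mul_one]
  · rw [coneU_ev, hF01]
  · rw [coneU_ev, hF11]

/-- the flip of the last two factors -/
def flipI (n l : Type) : (n × l) × l ≃ (n × l) × l where
  toFun x := ((x.1.1, x.2), x.1.2)
  invFun x := ((x.1.1, x.2), x.1.2)
  left_inv _ := rfl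
  right_inv _ := rfl

theorem ex3_KV1 (m : ℕ) [NeZero m] : Ex3 m KV1F := by
  intro A _ _ z h0 h1
  obtain ⟨k, p, U, rfl, hU0, hU1⟩ := exists_normal m z h0 h1
  have hU : PU (fun t => mA (evW (Cone m A) t) U) := PU.ofW (cone_le m A) U
  let x : (Matrix ((Fin k ⊕ Fin p) × Fin m) ((Fin k ⊕ Fin p) × Fin m) (Loop A))ˣ :=
    loopU (fun t => fl _ (Fin m) A (mA (evW (Cone m A) t) U)) hU.fl (by rw [hU0, hU1])
  have hx : ∀ t, mA (evW (Loop A) t) x = fl _ (Fin m) A (mA (evW (Cone m A) t) U) :=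
    fun t => loopU_ev _ _ _ t
  have hx0 : mA (evW (Loop A) 0) x = 1 := by rw [hx, hU0, map_one]
  refine ⟨kv x, ?_, ?_⟩
  · change KV1F.map (evW (Loop A) 0) (kv x) = 0
    rw [map_kv, hx0, kv_one]
  · rw [map_kv, ← kv_dg m U]
    obtain ⟨P, hP⟩ := exists_conj (S := A) (flipI (Fin k ⊕ Fin p) (Fin m))
    symm
    refine kv_cone_conj m ((fl ((Fin k ⊕ Fin p) × Fin m) (Fin m) A).symm P) _ _ ?_ ?_ ?_
    · rw [mA_dg, hU0]
      unfold dg
      rw [bl_one, rU_one]
    · rw [mA_dg, hU1]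
      unfold dg
      rw [bl_one, rU_one]
    · intro t
      apply (fl ((Fin k ⊕ Fin p) × Fin m) (Fin m) A).injective
      rw [map_mul, map_mul, map_inv, MulEquiv.apply_symm_apply, ← hP, fl_jHom m x hx0, hx, mA_dg]
      refine Units.ext (Matrix.ext fun a b => ?_)
      obtain ⟨⟨i, a⟩, c⟩ := a
      obtain ⟨⟨j, b⟩, d⟩ := b
      rw [dg_apply, coe_rU, Matrix.submatrix_apply, fl_apply, fl_apply]
      change _ = (dg m (mA (evW (Cone m A) t) U)).val (i, c) (j, d) a b
      rw [dg_apply]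
      by_cases hcd : c = d
      · subst hcd
        rw [if_pos rfl, if_pos rfl]
        by_cases hc : c = 0
        · rw [if_pos hc, if_pos hc]
        · rw [if_neg hc, if_neg hc, Matrix.one_apply, Matrix.one_apply]
          by_cases hij : i = j
          · subst hij
            rw [if_pos rfl]
            by_cases hab : a = b
            · subst hab; simp
            · rw [if_neg, Matrix.one_apply, if_neg hab]
              intro h
              exact hab (Prod.mk.inj h).2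
          · rw [if_neg, if_neg hij]
            · rfl
            · intro h
              exact hij (Prod.mk.inj h).1
      · rw [if_neg hcd, if_neg hcd]
        rfl

end Pool.Agent.Lib.MP_e7fbd4_ag
end

section

/-!
# (Ex4) for `KV₁`
-/

set_option autoImplicit false
set_option linter.unusedSectionVars false
set_option linter.unusedVariables false

namespace Pool.Agent.Lib.MP_e7fbd4_ag

open Matrix Pool.Agent.Lib.MP_c052b4_al

variable {A B : Type} [Ring A] [Algebra ℂ A] [Ring B] [Algebra ℂ B]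
  {n l : Type} [Fintype n] [Fintype l] [DecidableEq n] [DecidableEq l]

/-- `diag(g, ..., g)` in `GL_{n × m}(A)` -/
noncomputable def sd (m : ℕ) (g : (Matrix n n A)ˣ) : (Matrix (n × Fin m) (n × Fin m) A)ˣ :=
  fl n (Fin m) A (mA (scalarHom m A) g)

theorem sd_apply (m : ℕ) (g : (Matrix n n A)ˣ) (i j : n) (c d : Fin m) :
    (sd m g).val (i, c) (j, d) = if c = d then g.val i j else 0 := by
  unfold sd
  rw [fl_apply]
  change (Matrix.scalar (Fin m) (g.val i j)) c d = _
  rw [Matrix.scalar_apply, Matrix.diagonal_apply]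

theorem sd_one (m : ℕ) : sd m (1 : (Matrix n n A)ˣ) = 1 := by
  unfold sd
  rw [map_one, map_one]

theorem mA_sd (m : ℕ) (φ : A →ₐ[ℂ] B) (g : (Matrix n n A)ˣ) :
    mA φ (sd m g) = sd m (mA φ g) := by
  refine Units.ext (Matrix.ext fun p q => ?_)
  obtain ⟨i, c⟩ := p
  obtain ⟨j, d⟩ := q
  rw [sd_apply]
  change φ ((sd m g).val (i, c) (j, d)) = _
  rw [sd_apply]
  split_ifs
  · rfl
  · exact map_zero φ

/-- the decomposition `n × (m + 1) = n ⊕ n × m` -/
def ndE (m : ℕ) (n : Type) : n ⊕ (n × Fin m) ≃ n × Fin (m + 1) where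
  toFun x := Sum.elim (fun i => (i, 0)) (fun p => (p.1, p.2.succ)) x
  invFun p := Fin.cases (Sum.inl p.1) (fun c => Sum.inr (p.1, c)) p.2
  left_inv x := by
    rcases x with i | ⟨i, c⟩
    · simp
    · simp
  right_inv p := by
    rcases p with ⟨i, c⟩
    refine Fin.cases ?_ (fun c => ?_) c
    · simp
    · simp

theorem sd_succ (m : ℕ) (g : (Matrix n n A)ˣ) : sd (m + 1) g = rU (ndE m n) (bl g (sd m g)) := by
  refine Units.ext (Matrix.ext fun p q => ?_)
  obtain ⟨i, c⟩ := p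
  obtain ⟨j, d⟩ := q
  rw [sd_apply, coe_rU, Matrix.submatrix_apply]
  refine Fin.cases ?_ (fun c => ?_) c
  · refine Fin.cases ?_ (fun d => ?_) d
    · rw [if_pos rfl]; rfl
    · rw [if_neg (Fin.succ_ne_zero d).symm]; rfl
  · refine Fin.cases ?_ (fun d => ?_) d
    · rw [if_neg (Fin.succ_ne_zero c)]; rfl
    · change _ = (sd m g).val (i, c) (j, d)
      rw [sd_apply]
      by_cases h : c = d
      · subst h; simp
      · rw [if_neg h, if_neg]
        intro h'
        exact h (Fin.succ_injective _ h')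

theorem kv_sd (m : ℕ) (g : (Matrix n n A)ˣ) : kv (sd m g) = m • kv g := by
  induction m with
  | zero =>
    rw [zero_smul]
    have : sd 0 g = 1 := Units.ext (Matrix.ext fun p q => p.2.elim0)
    rw [this, kv_one]
  | succ m ih => rw [sd_succ, kv_rU, kv_bl, ih, succ_nsmul']

/-- constant loops -/
noncomputable def loopC (A : Type) [Ring A] [Algebra ℂ A] : A →ₐ[ℂ] Loop A := loopOp.s A

/-- An element of `KV₁(Loop A)` vanishing at the base point is represented by a matrix with value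
`1` at the base point. -/
theorem exists_loop_normal (x : KV1F.obj (Loop A)) (h0 : KV1F.map (evW (Loop A) 0) x = 0) :
    ∃ (k : ℕ) (g : (Matrix (Fin k) (Fin k) (Loop A))ˣ), kv g = x ∧ mA (evW (Loop A) 0) g = 1 := by
  obtain ⟨k, g, rfl⟩ := exists_kv x
  rw [map_kv] at h0
  have h1 : kv (mA (loopC A) (mA (evW (Loop A) 0) g)) = 0 := by
    rw [← map_kv, h0, map_zero]
  refine ⟨k, (mA (loopC A) (mA (evW (Loop A) 0) g))⁻¹ * g, ?_, ?_⟩
  · rw [kv_mul, kv_inv, h1, neg_zero, zero_add]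
  · rw [map_mul, map_inv]
    have h3 : mA (evW (Loop A) 0) (mA (loopC A) (mA (evW (Loop A) 0) g)) =
      mA (evW (Loop A) 0) g := rfl
    rw [h3, inv_mul_cancel]

theorem loop_at1 (g : (Matrix n n (Loop A))ˣ) : mA (evW (Loop A) 1) g = mA (evW (Loop A) 0) g :=
  Units.ext (Matrix.ext fun i j => (g.val i j).2.2.symm)

theorem coneEv0_jHom (m : ℕ) [NeZero m] (x : (Matrix n n (Loop A))ˣ) :
    mA (coneEv0 m A) (mA (jHom m A) x) = mA (evW (Loop A) 0) x := by
  refine Units.ext (Matrix.ext fun i j => ?_)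
  change Matrix.diagonal (fun i' : Fin m => if i' = 0 then (x.val i j).1 0 else (x.val i j).1 0)
    0 0 = (x.val i j).1 0
  simp

theorem coneEv1_jHom (m : ℕ) [NeZero m] (x : (Matrix n n (Loop A))ˣ) :
    mA (coneEv1 m A) (mA (jHom m A) x) = mA (evW (Loop A) 0) x := by
  refine Units.ext (Matrix.ext fun i j => ?_)
  change Matrix.diagonal (fun i' : Fin m => if i' = 0 then (x.val i j).1 1 else (x.val i j).1 0)
    0 0 = (x.val i j).1 0
  rw [Matrix.diagonal_apply, if_pos rfl, if_pos rfl]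
  exact (x.val i j).2.2.symm

/-- the value of a path -/
noncomputable def pev {C : Type} [Ring C] [Algebra ℂ C] (G : (Matrix n n (Poly C))ˣ) (s : ℂ) :
    (Matrix n n C)ˣ := mA (evP C s) G

/-- the core of (Ex4) -/
theorem ex4_core (m : ℕ) [NeZero m] (g : (Matrix n n (Loop A))ˣ)
    (hg : mA (evW (Loop A) 0) g = 1) (hP : PathTo 1 (mA (jHom m A) g)) :
    ∃ c : (Matrix n n (Loop A))ˣ, mA (evW (Loop A) 0) c = 1 ∧ kv g = m • kv c := by
  obtain ⟨G, hG0, hG1⟩ := hP
  change pev G 0 = 1 at hG0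
  change pev G 1 = _ at hG1
  let a : ℂ → (Matrix n n A)ˣ := fun s => mA (coneEv0 m A) (pev G s)
  let b : ℂ → (Matrix n n A)ˣ := fun s => mA (coneEv1 m A) (pev G s)
  have hPG : PU (fun s => pev G s) :=
    PU.ofW (W := Poly (Cone m A)) le_rfl G
  have ha : PU a := hPG.map (coneEv0 m A)
  have hb : PU b := hPG.map (coneEv1 m A)
  have ha0 : a 0 = 1 := by
    change mA (coneEv0 m A) (pev G 0) = 1
    rw [hG0, map_one]
  have hb0 : b 0 = 1 := by
    change mA (coneEv1 m A) (pev G 0) = 1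
    rw [hG0, map_one]
  have ha1 : a 1 = 1 := by
    change mA (coneEv0 m A) (pev G 1) = 1
    rw [hG1, coneEv0_jHom, hg]
  have hb1 : b 1 = 1 := by
    change mA (coneEv1 m A) (pev G 1) = 1
    rw [hG1, coneEv1_jHom, hg]
  let c : ℂ → (Matrix n n A)ˣ := fun s => (a s)⁻¹ * b s
  have hc : PU c := ha.inv.mul hb
  have hc0 : c 0 = 1 := by
    change (a 0)⁻¹ * b 0 = 1
    rw [ha0, hb0, inv_one, one_mul]
  have hc1 : c 1 = 1 := by
    change (a 1)⁻¹ * b 1 = 1
    rw [ha1, hb1, inv_one, one_mul]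
  -- the family with values in `GL_{n × m}(A)`
  let E : ℂ → ℂ → (Matrix (n × Fin m) (n × Fin m) A)ˣ := fun s t =>
    (sd m (a s))⁻¹ * fl n (Fin m) A (mA (evW (Cone m A) t) (pev G s))
  have hE : PU2 E := by
    refine PU2.mul ?_ ?_
    · exact ((ha.map (scalarHom m A)).fl.subst2 poly2_fst).inv
    · exact (PU2.ofW (cone_le m A) G).fl
  have hE0 : ∀ t, E 0 t = 1 := by
    intro t
    change (sd m (a 0))⁻¹ * fl n (Fin m) A (mA (evW (Cone m A) t) (pev G 0)) = 1
    rw [ha0, hG0, sd_one, inv_one, one_mul, map_one, map_one]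
  have hE1 : ∀ t, E 1 t = dg m (mA (evW (Loop A) t) g) := by
    intro t
    change (sd m (a 1))⁻¹ * fl n (Fin m) A (mA (evW (Cone m A) t) (pev G 1)) = _
    rw [ha1, hG1, sd_one, inv_one, one_mul, fl_jHom m g hg]
  have hEt0 : ∀ s, E s 0 = 1 := by
    intro s
    change (sd m (a s))⁻¹ * fl n (Fin m) A (mA (evW (Cone m A) 0) (pev G s)) = 1
    rw [mA_cone_at0]
    exact inv_mul_cancel (sd m (a s))
  have hEt1 : ∀ s, E s 1 = sd m (c s) := by
    intro s
    change (sd m (a s))⁻¹ * fl n (Fin m) A (mA (evW (Cone m A) 1) (pev G s)) = _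
    rw [mA_cone_at1]
    unfold sd
    rw [← map_inv, ← map_inv, ← map_mul, ← map_mul]
  have hE11 : E 1 1 = 1 := by rw [hEt1, hc1, sd_one]
  -- the loops
  let C : (Matrix n n (Loop A))ˣ := loopU c hc (by rw [hc0, hc1])
  have hC : ∀ t, mA (evW (Loop A) t) C = c t := fun t => loopU_ev _ _ _ t
  have hD : PU (fun t => E t t) := hE.curve poly_id poly_id
  let D : (Matrix (n × Fin m) (n × Fin m) (Loop A))ˣ := loopU (fun t => E t t) hD
    (by rw [hE0, hE11])
  have hDt : ∀ t, mA (evW (Loop A) t) D = E t t := fun t => loopU_ev _ _ _ t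
  have hq : (fun v t : ℂ => v + (1 - v) * t) ∈ Poly2 ℂ :=
    (Poly2 ℂ).add_mem poly2_fst ((Poly2 ℂ).mul_mem
      ((Poly2 ℂ).sub_mem (Poly2 ℂ).one_mem poly2_fst) poly2_snd)
  refine ⟨C, by rw [hC, hc0], ?_⟩
  rw [← kv_dg m g, ← kv_sd m C]
  trans kv D
  · symm
    refine kv_loop_hom (fun v t => E (v + (1 - v) * t) t) (hE.subst hq poly2_snd) (fun v => ?_)
      _ _ (fun t => ?_) (fun t => ?_)
    · change E (v + (1 - v) * 0) 0 = E (v + (1 - v) * 1) 1
      have e : v + (1 - v) * 1 = 1 := by ring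
      rw [e, hE11, hEt0]
    · change _ = E (0 + (1 - 0) * t) t
      have e : (0 : ℂ) + (1 - 0) * t = t := by ring
      rw [e, hDt]
    · change _ = E (1 + (1 - 1) * t) t
      have e : (1 : ℂ) + (1 - 1) * t = 1 := by ring
      rw [e, hE1, mA_dg]
  · refine kv_loop_hom (fun v t => E t (v + (1 - v) * t)) (hE.subst poly2_snd hq) (fun v => ?_)
      _ _ (fun t => ?_) (fun t => ?_)
    · change E 0 (v + (1 - v) * 0) = E 1 (v + (1 - v) * 1)
      have e : v + (1 - v) * 1 = 1 := by ring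
      rw [e, hE11, hE0]
    · change _ = E t (0 + (1 - 0) * t)
      have e : (0 : ℂ) + (1 - 0) * t = t := by ring
      rw [e, hDt]
    · change _ = E t (1 + (1 - 1) * t)
      have e : (1 : ℂ) + (1 - 1) * t = 1 := by ring
      rw [e, hEt1, mA_sd, hC]

theorem ex4_KV1 (m : ℕ) [NeZero m] : Ex4 m KV1F := by
  intro A _ _ x h0 h1
  obtain ⟨k, g, rfl, hg⟩ := exists_loop_normal x h0
  rw [map_kv] at h1
  obtain ⟨p, hp⟩ := pathTo_of_kv _ h1
  let g' : (Matrix (Fin k ⊕ Fin p) (Fin k ⊕ Fin p) (Loop A))ˣ := bl g 1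
  have e : bl (mA (jHom m A) g) 1 = mA (jHom m A) g' := by
    rw [mA_bl, map_one]
  rw [e] at hp
  have hg' : mA (evW (Loop A) 0) g' = 1 := by
    change mA (evW (Loop A) 0) (bl g 1) = 1
    rw [mA_bl, map_one, hg, bl_one]
  obtain ⟨c, hc, hgc⟩ := ex4_core m g' hg' hp
  refine ⟨kv c, ?_, ?_⟩
  · change KV1F.map (evW (Loop A) 0) (kv c) = 0
    rw [map_kv, hc, kv_one]
  · rw [← hgc]
    exact (kv_bl_one g).symm

end Pool.Agent.Lib.MP_e7fbd4_ag
end

section

/-! # Spheres and `KV`, the induction -/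

set_option autoImplicit false
set_option linter.unusedSectionVars false
set_option linter.unusedVariables false

namespace Pool.Agent.Lib.MP_e7fbd4_ag.O

open Pool.Agent.Lib.MP_c052b4_al

variable {A B C : Type} [Ring A] [Algebra ℂ A] [Ring B] [Algebra ℂ B] [Ring C] [Algebra ℂ C]
  {c : Kind} {m k l : ℕ}

private theorem L12_map_map {F : AlgFunctor} {A B C : Type} [Ring A] [Algebra ℂ A] [Ring B]
    [Algebra ℂ B] [Ring C] [Algebra ℂ C] (g : B →ₐ[ℂ] C) (f : A →ₐ[ℂ] B) (x : F.obj A) :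
    F.map (g.comp f) x = F.map g (F.map f x) := by
  rw [F.map_comp]; rfl

/-- the underlying element -/
private noncomputable def L12_rv (F : AlgFunctor) (X : AlgOp) (A : Type) [Ring A] [Algebra ℂ A] :
    (F.rel X).obj A →+ F.obj (X.obj A) := (F.map (X.r A)).ker.subtype

private theorem L12_rv_injective (F : AlgFunctor) (X : AlgOp) (A : Type) [Ring A] [Algebra ℂ A] :
    Function.Injective (L12_rv F X A) := Subtype.val_injective

private theorem L12_rv_ker (F : AlgFunctor) (X : AlgOp) (A : Type) [Ring A] [Algebra ℂ A]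
    (x : (F.rel X).obj A) : F.map (X.r A) (L12_rv F X A x) = 0 := x.2

/-- an element of the relative group -/
private noncomputable def L12_mk (F : AlgFunctor) (X : AlgOp) (A : Type) [Ring A] [Algebra ℂ A]
    (y : F.obj (X.obj A)) (hy : F.map (X.r A) y = 0) : (F.rel X).obj A :=
  (⟨y, hy⟩ : (F.map (X.r A)).ker)

private theorem L12_rv_mk (F : AlgFunctor) (X : AlgOp) (A : Type) [Ring A] [Algebra ℂ A]
    (y : F.obj (X.obj A)) (hy : F.map (X.r A) y = 0) : L12_rv F X A (L12_mk F X A y hy) = y := rfl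

private theorem L12_map_map_sph {A B C : Type} [Ring A] [Algebra ℂ A] [Ring B]
    [Algebra ℂ B] [Ring C] [Algebra ℂ C] (g : B →ₐ[ℂ] C) (f : A →ₐ[ℂ] B) (z : Sph k A) :
    (z.map f).map g = z.map (g.comp f) := Sph.ext' fun x => by
  rw [Sph.map_g, Sph.map_g, Sph.map_g, GLinf_map_comp]
  rfl

private theorem L12_map_mul (f : A →ₐ[ℂ] B) (z w : Sph k A) :
    (z * w).map f = z.map f * w.map f := Sph.ext' fun x => by
  rw [Sph.map_g, Sph.mul_g, map_mul, Sph.mul_g, Sph.map_g, Sph.map_g]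

private theorem L12_map_inv (f : A →ₐ[ℂ] B) (z : Sph k A) :
    (z⁻¹).map f = (z.map f)⁻¹ := Sph.ext' fun x => by
  rw [Sph.map_g, Sph.inv_g, map_inv, Sph.inv_g, Sph.map_g]

private theorem L12_mul_inv (z : Sph k A) : z * z⁻¹ = 1 := Sph.ext' fun x => by
  rw [Sph.mul_g, Sph.inv_g, mul_inv_cancel, Sph.one_g]

/-- the class over the loop algebra, with the bundled type -/
private noncomputable def L12_th {k : ℕ} (T : ThetaData k) (A : Type) [Ring A] [Algebra ℂ A]
    (w : Sph k (Loop A)) : (KV k).obj (loopOp.obj A) := T.th (Loop A) w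

private theorem L12_th_r {k : ℕ} (T : ThetaData k) (A : Type) [Ring A] [Algebra ℂ A]
    (w : Sph k (Loop A)) : (KV k).map (loopOp.r A) (L12_th T A w) = T.th A (w.map (loopOp.r A)) :=
  T.nat (Loop A) A (loopOp.r A) w

/-- `th A z = ⟨th (Loop A) z.lam, _⟩`. Surjectivity: for `x ∈ ker r` take `w` with `th w = x`, then
`w * (w.map (s ∘ r))⁻¹` has class `x - s r x = x` and is `1` at `t = 0`, so it is `z.lam`
(`exists_lam`). -/
theorem theta_succ {k : ℕ} (h : Nonempty (ThetaData k)) : Nonempty (ThetaData (k + 1)) := by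
  obtain ⟨T⟩ := h
  have hr : ∀ (A : Type) [Ring A] [Algebra ℂ A] (z : Sph (k + 1) A),
      (KV k).map (loopOp.r A) (L12_th T A z.lam) = 0 := by
    intro A _ _ z
    rw [L12_th_r, Sph.lam_r, T.one]
  have hinj : ∀ (A : Type) [Ring A] [Algebra ℂ A], Function.Injective (L12_rv (KV k) loopOp A) :=
    fun A _ _ => L12_rv_injective (KV k) loopOp A
  refine ⟨⟨fun A _ _ z => L12_mk (KV k) loopOp A (L12_th T A z.lam) (hr A z), ?_, ?_, ?_, ?_⟩⟩
  · intro A _ _ z w
    apply hinj A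
    have h1 : L12_th T A (z * w).lam = L12_th T A z.lam + L12_th T A w.lam := by
      rw [Sph.lam_mul]
      exact T.mul (Loop A) z.lam w.lam
    exact h1
  · intro A B _ _ _ _ f z
    apply hinj B
    have h1 : T.th (Loop B) (z.map f).lam = (KV k).map (A := Loop A) (B := Loop B)
        (loopOp.map f) (T.th (Loop A) z.lam) := by
      rw [Sph.lam_map]
      exact (T.nat (Loop A) (Loop B) (loopOp.map f) z.lam).symm
    exact h1.symm
  · intro A _ _ x
    let y : (KV k).obj (Loop A) := L12_rv (KV k) loopOp A x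
    obtain ⟨w, hw⟩ := T.surj (Loop A) y
    have hker : (KV k).map (A := Loop A) (B := A) (loopOp.r A) y = 0 :=
      L12_rv_ker (KV k) loopOp A x
    let sr : Loop A →ₐ[ℂ] Loop A := (loopOp.s A).comp (loopOp.r A)
    have hsr : w.map sr = (w.map (loopOp.r A)).map (loopOp.s A) :=
      (L12_map_map_sph (loopOp.s A) (loopOp.r A) w).symm
    have hw' : (w * (w.map sr)⁻¹).map (loopOp.r A) = 1 := by
      have h2 : (w.map sr).map (loopOp.r A) = w.map (loopOp.r A) := by
        have h3 : (loopOp.r A).comp sr = loopOp.r A := by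
          have h4 : (loopOp.r A).comp ((loopOp.s A).comp (loopOp.r A)) =
              ((loopOp.r A).comp (loopOp.s A)).comp (loopOp.r A) := rfl
          have h5 : ((loopOp.r A).comp (loopOp.s A)).comp (loopOp.r A) = loopOp.r A := by
            rw [loopOp.r_s]
            rfl
          exact h4.trans h5
        exact (L12_map_map_sph (loopOp.r A) sr w).trans (congrArg (fun φ => w.map φ) h3)
      have h6 : (w * (w.map sr)⁻¹).map (loopOp.r A) =
          w.map (loopOp.r A) * ((w.map sr).map (loopOp.r A))⁻¹ :=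
        (L12_map_mul (loopOp.r A) w (w.map sr)⁻¹).trans
          (congrArg (fun v => w.map (loopOp.r A) * v) (L12_map_inv (loopOp.r A) (w.map sr)))
      exact h6.trans ((congrArg (fun v => w.map (loopOp.r A) * v⁻¹) h2).trans
        (L12_mul_inv (w.map (loopOp.r A))))
    obtain ⟨z, hz⟩ := exists_lam (w * (w.map sr)⁻¹) hw'
    refine ⟨z, ?_⟩
    apply hinj A
    have h7 : T.th (Loop A) (w.map sr) = 0 := by
      rw [hsr]
      have h9 := T.nat (Loop A) A (loopOp.r A) w
      have h10 : T.th A (w.map (loopOp.r A)) = 0 := by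
        exact h9.symm.trans ((congrArg (fun v => (KV k).map (A := Loop A) (B := A)
          (loopOp.r A) v) hw).trans hker)
      have h11 := T.nat A (Loop A) (loopOp.s A) (w.map (loopOp.r A))
      exact h11.symm.trans ((congrArg (fun v => (KV k).map (A := A) (B := Loop A)
        (loopOp.s A) v) h10).trans (map_zero _))
    have h12 : T.th (Loop A) z.lam = y := by
      rw [hz, T.mul, T.inv, h7, neg_zero, add_zero, hw]
    exact h12
  · intro A _ _ z
    rw [← null_lam_iff, ← T.null (Loop A)]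
    constructor
    · intro h1
      exact congrArg (L12_rv (KV k) loopOp A) h1
    · intro h1
      apply hinj A
      exact h1

theorem theta (k : ℕ) : Nonempty (ThetaData k) := by
  induction k with
  | zero => exact theta_zero
  | succ k ih => exact theta_succ ih

end Pool.Agent.Lib.MP_e7fbd4_ag.O
end
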