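import Pool.Agent.Lib.MP_e7fbd4_ag.Mg.G013
import Pool.Agent.Lib.MP_e7fbd4_ag.Mg.G006
import Pool.Agent.Lib.MP_c052b4_al.Bdry2

section

/-! # Pairs as spheres over the cone, 4 -/

set_option autoImplicit false
set_option linter.unusedSectionVars false
set_option linter.unusedVariables false

namespace Pool.Agent.Lib.MP_e7fbd4_ag.O

open Pool.Agent.Lib.MP_c052b4_al

variable {A B C : Type} [Ring A] [Algebra ℂ A] [Ring B] [Algebra ℂ B] [Ring C] [Algebra ℂ C]
  {c : Kind} {m k l : ℕ}

/-- interchange of the first two coordinates -/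
private def L16_sw (y : Cube (k + 2)) : Cube (k + 2) :=
  Fin.cons (y 1) (Fin.cons (y 0) fun i => y i.succ.succ)

/-- omit the second coordinate -/
private def L16_pr (y : Cube (k + 2)) : Cube (k + 1) :=
  Fin.cons (y 0) fun i => y i.succ.succ

private theorem L16_sw_polyMap : PolyMap (L16_sw (k := k)) := by
  apply polyMap_of
  intro i
  left
  refine Fin.cases ?_ (fun i => ?_) i
  · exact ⟨1, fun x => rfl⟩
  · refine Fin.cases ?_ (fun i => ?_) i
    · exact ⟨0, fun x => rfl⟩
    · exact ⟨i.succ.succ, fun x => rfl⟩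

private theorem L16_pr_polyMap : PolyMap (L16_pr (k := k)) := by
  apply polyMap_of
  intro i
  left
  refine Fin.cases ?_ (fun i => ?_) i
  · exact ⟨0, fun x => rfl⟩
  · exact ⟨i.succ.succ, fun x => rfl⟩

private theorem L16_sw_cons (s t : unitInterval) (x : Cube k) :
    L16_sw (Fin.cons s (Fin.cons t x)) = Fin.cons t (Fin.cons s x) := rfl

private theorem L16_pr_cons (s t : unitInterval) (x : Cube k) :
    L16_pr (Fin.cons s (Fin.cons t x)) = Fin.cons s x := rfl

private theorem L16_cons {n : ℕ} (y : Cube (n + 1)) :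
    y = Fin.cons (y 0) (fun i => y i.succ) := (Fin.cons_self_tail y).symm

private theorem L16_lam_ev0 [NeZero m] (z : Pair Kind.alg m k A) (x : Cube k) :
    GLinf.map (coneEv0 m A).toRingHom (z.lam.g x) = 1 :=
  congrFun (congrArg Sph.g z.lam_r) x

/-- `→`: the homotopy `Q(s, x)(t)` from `1` to `z.lam` is corrected to
`Q(s, x)(t) dup (coneEv0 Q(s, x))⁻¹`; its value at `t = 1` is `dup` of a homotopy from `1` to
`z.g`. `←`: curry by `exists_curry_cone`. Both with interchange of the coordinates `s`, `t`. -/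
theorem null_plam_iff [NeZero m] (z : Pair Kind.alg m k A) : Null z.lam ↔ Homotopic z 1 := by
  constructor
  · rintro ⟨Q, hQ, hbd, hQ0, hQ1⟩
    apply Homotopic.symm
    let e0 : Cube (k + 1) → GLinf A := fun y => GLinf.map (coneEv0 m A).toRingHom (Q y)
    let e1 : Cube (k + 1) → GLinf A := fun y => GLinf.map (coneEv1 m A).toRingHom (Q y)
    have he0 : IsCube Kind.alg e0 := IsCube.map hQ (coneEv0 m A)
    have he1 : IsCube Kind.alg e1 := IsCube.map hQ (coneEv1 m A)
    have hU : IsCube Kind.alg fun y : Cube (k + 1 + 1) =>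
        GLinf.map (evW (Cone m A) (cI (y 0))).toRingHom (Q fun i => y i.succ) :=
      IsCube.uncurry (cone_le m A) hQ
    obtain ⟨F, hF⟩ : ∃ F : Cube (k + 2) → GLinf (Matrix (Fin m) (Fin m) A), F = fun y =>
      GLinf.map (evW (Cone m A) (cI (y 0))).toRingHom (Q fun i => y i.succ) := ⟨_, rfl⟩
    rw [← hF] at hU
    have hP1 : IsCube Kind.alg fun y : Cube (k + 2) => F (L16_sw y) :=
      IsCube.comp hU L16_sw_polyMap
    obtain ⟨P1, hP1'⟩ : ∃ P1 : Cube (k + 2) → GLinf (Matrix (Fin m) (Fin m) A), P1 = fun y =>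
      F (L16_sw y) := ⟨_, rfl⟩
    rw [← hP1'] at hP1
    have hd : IsCube Kind.alg fun y : Cube (k + 1) => dup m A (e0 y) :=
      IsCube.map he0 (scalarAlg m A)
    have hde0 : IsCube Kind.alg fun y : Cube (k + 2) => dup m A (e0 (L16_pr y)) :=
      IsCube.comp hd L16_pr_polyMap
    have hone : ∀ (s : unitInterval) (x : Cube k), OnBdry x → e0 (Fin.cons s x) = 1 := by
      intro s x hx
      change GLinf.map (coneEv0 m A).toRingHom (Q (Fin.cons s x)) = 1
      rw [hbd s x hx, map_one]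
    have hone1 : ∀ (s : unitInterval) (x : Cube k), OnBdry x → e1 (Fin.cons s x) = 1 := by
      intro s x hx
      change GLinf.map (coneEv1 m A).toRingHom (Q (Fin.cons s x)) = 1
      rw [hbd s x hx, map_one]
    have hev : ∀ (s t : unitInterval) (x : Cube k), P1 (Fin.cons s (Fin.cons t x)) =
        GLinf.map (evW (Cone m A) (cI t)).toRingHom (Q (Fin.cons s x)) := by
      intro s t x
      rw [hP1']
      change F (L16_sw (Fin.cons s (Fin.cons t x))) = _
      rw [L16_sw_cons, hF]
      rfl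
    refine ⟨fun y => e1 y * (e0 y)⁻¹, fun y => P1 y * (dup m A (e0 (L16_pr y)))⁻¹,
      he1.mul he0.inv, hP1.mul hde0.inv, ?_, ?_, ?_, ?_, ?_⟩
    · intro s
      constructor
      · intro x hx
        change e1 (Fin.cons s x) * (e0 (Fin.cons s x))⁻¹ = 1
        rw [hone s x hx, hone1 s x hx, mul_inv_cancel]
      · intro x
        change P1 (Fin.cons s (Fin.cons 0 x)) * (dup m A (e0 (Fin.cons s x)))⁻¹ = 1
        rw [hev, ← dup_coneEv0, mul_inv_cancel]
      · intro x
        change P1 (Fin.cons s (Fin.cons 1 x)) * (dup m A (e0 (Fin.cons s x)))⁻¹ =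
          dup m A (e1 (Fin.cons s x) * (e0 (Fin.cons s x))⁻¹)
        rw [hev, ← dup_coneEv1, map_mul, map_inv]
      · intro t x hx
        change P1 (Fin.cons s (Fin.cons t x)) * (dup m A (e0 (Fin.cons s x)))⁻¹ = 1
        rw [hev, hone s x hx, hbd s x hx, map_one, map_one, inv_one, mul_one]
    · intro x
      change GLinf.map (coneEv1 m A).toRingHom (Q (Fin.cons 0 x)) *
        (GLinf.map (coneEv0 m A).toRingHom (Q (Fin.cons 0 x)))⁻¹ = 1
      rw [hQ0, map_one, map_one, inv_one, mul_one]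
    · intro y
      rw [L16_cons y]
      change P1 (Fin.cons 0 (Fin.cons (y 0) fun i => y i.succ)) *
        (dup m A (GLinf.map (coneEv0 m A).toRingHom (Q (Fin.cons 0 fun i => y i.succ))))⁻¹ = 1
      rw [hev, hQ0, map_one, map_one, map_one, inv_one, mul_one]
    · intro x
      change GLinf.map (coneEv1 m A).toRingHom (Q (Fin.cons 1 x)) *
        (GLinf.map (coneEv0 m A).toRingHom (Q (Fin.cons 1 x)))⁻¹ = z.g x
      rw [hQ1, L16_lam_ev0, inv_one, mul_one]
      apply dup_injective (m := m)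
      rw [dup_coneEv1, z.lam_ev, z.bdry.p_one]
    · intro y
      rw [L16_cons y]
      change P1 (Fin.cons 1 (Fin.cons (y 0) fun i => y i.succ)) *
        (dup m A (GLinf.map (coneEv0 m A).toRingHom (Q (Fin.cons 1 fun i => y i.succ))))⁻¹ = _
      rw [hev, hQ1, L16_lam_ev0, map_one, inv_one, mul_one, z.lam_ev]
  · intro h
    obtain ⟨G, P, hG, hP, hbd, hG0, hP0, hG1, hP1⟩ := h.symm
    obtain ⟨Γ, hΓ, hev⟩ := exists_curry_cone (m := m) (A := A) (k := k + 1)
      (P := fun y => P (L16_sw y)) (IsCube.comp hP L16_sw_polyMap)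
      (a := fun _ => 1) (b := G)
      (fun y => by
        rw [L16_cons y]
        change P (Fin.cons (y 0) (Fin.cons 0 fun i => y i.succ)) = _
        rw [(hbd (y 0)).p_zero, map_one])
      (fun y => by
        rw [L16_cons y]
        change P (Fin.cons (y 0) (Fin.cons 1 fun i => y i.succ)) = _
        rw [(hbd (y 0)).p_one])
    have hev' : ∀ (s t : unitInterval) (x : Cube k),
        GLinf.map (evW (Cone m A) (cI t)).toRingHom (Γ (Fin.cons s x)) =
          P (Fin.cons s (Fin.cons t x)) := fun s t x => hev t (Fin.cons s x)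
    refine ⟨Γ, hΓ, ?_, ?_, ?_⟩
    · intro s x hx
      apply glw_ext (cone_le m A)
      intro t
      rw [hev', (hbd s).p_bdry t x hx, map_one]
    · intro x
      apply glw_ext (cone_le m A)
      intro t
      rw [hev', hP0, map_one]
      rfl
    · intro x
      apply glw_ext (cone_le m A)
      intro t
      rw [hev', hP1, z.lam_ev]

end Pool.Agent.Lib.MP_e7fbd4_ag.O
end

section

/-! # The link between the two descriptions of K-theory with coefficients -/

set_option autoImplicit false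
set_option linter.unusedSectionVars false
set_option linter.unusedVariables false

namespace Pool.Agent.Lib.MP_e7fbd4_ag.O

open Pool.Agent.Lib.MP_c052b4_al

variable {A B C : Type} [Ring A] [Algebra ℂ A] [Ring B] [Algebra ℂ B] [Ring C] [Algebra ℂ C]
  {c : Kind} {m k l : ℕ}

/-- the underlying element -/
private noncomputable def L17_rv (F : AlgFunctor) (X : AlgOp) (A : Type) [Ring A] [Algebra ℂ A] :
    (F.rel X).obj A →+ F.obj (X.obj A) := (F.map (X.r A)).ker.subtype

private theorem L17_rv_injective (F : AlgFunctor) (X : AlgOp) (A : Type) [Ring A] [Algebra ℂ A] :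
    Function.Injective (L17_rv F X A) := Subtype.val_injective

private theorem L17_rv_ker (F : AlgFunctor) (X : AlgOp) (A : Type) [Ring A] [Algebra ℂ A]
    (x : (F.rel X).obj A) : F.map (X.r A) (L17_rv F X A x) = 0 := x.2

/-- an element of the relative group -/
private noncomputable def L17_mk (F : AlgFunctor) (X : AlgOp) (A : Type) [Ring A] [Algebra ℂ A]
    (y : F.obj (X.obj A)) (hy : F.map (X.r A) y = 0) : (F.rel X).obj A :=
  (⟨y, hy⟩ : (F.map (X.r A)).ker)

private theorem L17_rv_mk (F : AlgFunctor) (X : AlgOp) (A : Type) [Ring A] [Algebra ℂ A]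
    (y : F.obj (X.obj A)) (hy : F.map (X.r A) y = 0) : L17_rv F X A (L17_mk F X A y hy) = y := rfl

private theorem L17_map_map_sph {A B C : Type} [Ring A] [Algebra ℂ A] [Ring B]
    [Algebra ℂ B] [Ring C] [Algebra ℂ C] (g : B →ₐ[ℂ] C) (f : A →ₐ[ℂ] B) (z : Sph k A) :
    (z.map f).map g = z.map (g.comp f) := Sph.ext' fun x => by
  rw [Sph.map_g, Sph.map_g, Sph.map_g, GLinf_map_comp]
  rfl

private theorem L17_map_mul (f : A →ₐ[ℂ] B) (z w : Sph k A) :
    (z * w).map f = z.map f * w.map f := Sph.ext' fun x => by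
  rw [Sph.map_g, Sph.mul_g, map_mul, Sph.mul_g, Sph.map_g, Sph.map_g]

private theorem L17_map_inv (f : A →ₐ[ℂ] B) (z : Sph k A) :
    (z⁻¹).map f = (z.map f)⁻¹ := Sph.ext' fun x => by
  rw [Sph.map_g, Sph.inv_g, map_inv, Sph.inv_g, Sph.map_g]

private theorem L17_mul_inv (z : Sph k A) : z * z⁻¹ = 1 := Sph.ext' fun x => by
  rw [Sph.mul_g, Sph.inv_g, mul_inv_cancel, Sph.one_g]

/-- the class over the cone, with the bundled type -/
private noncomputable def L17_th {k : ℕ} (T : ThetaData k) (m : ℕ) [NeZero m] (A : Type) [Ring A]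
    [Algebra ℂ A] (w : Sph k (Cone m A)) : (KV k).obj ((coneOp m).obj A) := T.th (Cone m A) w

private theorem L17_th_r {k : ℕ} (T : ThetaData k) (m : ℕ) [NeZero m] (A : Type) [Ring A]
    [Algebra ℂ A] (w : Sph k (Cone m A)) :
    (KV k).map ((coneOp m).r A) (L17_th T m A w) = T.th A (w.map ((coneOp m).r A)) :=
  T.nat (Cone m A) A ((coneOp m).r A) w

private theorem L17_r {k : ℕ} (T : ThetaData k) (m : ℕ) [NeZero m] (A : Type) [Ring A]
    [Algebra ℂ A] (z : Pair Kind.alg m k A) :
    (KV k).map ((coneOp m).r A) (L17_th T m A z.lam) = 0 := by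
  rw [L17_th_r, Pair.lam_r, T.one]

/-- the class of a pair -/
private noncomputable def L17_psi {k : ℕ} (T : ThetaData k) (m : ℕ) [NeZero m] (A : Type) [Ring A]
    [Algebra ℂ A] (z : Pair Kind.alg m k A) : ((KV k).rel (coneOp m)).obj A :=
  L17_mk (KV k) (coneOp m) A (L17_th T m A z.lam) (L17_r T m A z)

private theorem L17_psi_mul {k : ℕ} (T : ThetaData k) (m : ℕ) [NeZero m] (A : Type) [Ring A]
    [Algebra ℂ A] (z w : Pair Kind.alg m k A) :
    L17_psi T m A (z * w) = L17_psi T m A z + L17_psi T m A w := by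
  apply L17_rv_injective (KV k) (coneOp m) A
  have h1 : L17_th T m A (z * w).lam = L17_th T m A z.lam + L17_th T m A w.lam := by
    rw [Pair.lam_mul]
    exact T.mul (Cone m A) z.lam w.lam
  exact h1

private theorem L17_psi_null {k : ℕ} (T : ThetaData k) (m : ℕ) [NeZero m] (A : Type) [Ring A]
    [Algebra ℂ A] (z : Pair Kind.alg m k A) : L17_psi T m A z = 0 ↔ Homotopic z 1 := by
  rw [← null_plam_iff, ← T.null (Cone m A)]
  constructor
  · intro h1
    exact congrArg (L17_rv (KV k) (coneOp m) A) h1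
  · intro h1
    apply L17_rv_injective (KV k) (coneOp m) A
    exact h1

private theorem L17_psi_one {k : ℕ} (T : ThetaData k) (m : ℕ) [NeZero m] (A : Type) [Ring A]
    [Algebra ℂ A] : L17_psi T m A 1 = 0 := (L17_psi_null T m A 1).mpr (homotopic_refl 1)

private theorem L17_psi_inv {k : ℕ} (T : ThetaData k) (m : ℕ) [NeZero m] (A : Type) [Ring A]
    [Algebra ℂ A] (z : Pair Kind.alg m k A) : L17_psi T m A z⁻¹ = - L17_psi T m A z := by
  have h := L17_psi_mul T m A z⁻¹ z
  rw [inv_mul_cancel, L17_psi_one] at h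
  exact eq_neg_of_add_eq_zero_left h.symm

private theorem L17_psi_sound {k : ℕ} (T : ThetaData k) (m : ℕ) [NeZero m] (A : Type) [Ring A]
    [Algebra ℂ A] (z w : Pair Kind.alg m k A) (h : Homotopic z w) :
    L17_psi T m A z = L17_psi T m A w := by
  have h1 : Homotopic (z * w⁻¹) 1 := by
    have h2 := h.mul (homotopic_refl w⁻¹)
    rwa [mul_inv_cancel] at h2
  have h3 := (L17_psi_null T m A (z * w⁻¹)).mpr h1
  rw [L17_psi_mul, L17_psi_inv, ← sub_eq_add_neg] at h3
  exact sub_eq_zero.mp h3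

private theorem L17_psi_nat {k : ℕ} (T : ThetaData k) (m : ℕ) [NeZero m] {A B : Type} [Ring A]
    [Algebra ℂ A] [Ring B] [Algebra ℂ B] (f : A →ₐ[ℂ] B) (z : Pair Kind.alg m k A) :
    ((KV k).rel (coneOp m)).map f (L17_psi T m A z) = L17_psi T m B (z.map f) := by
  apply L17_rv_injective (KV k) (coneOp m) B
  have h1 : T.th (Cone m B) (z.map f).lam = (KV k).map (A := Cone m A) (B := Cone m B)
      ((coneOp m).map f) (T.th (Cone m A) z.lam) := by
    rw [Pair.lam_map]
    exact (T.nat (Cone m A) (Cone m B) ((coneOp m).map f) z.lam).symm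
  exact h1.symm

private theorem L17_psi_surj {k : ℕ} (T : ThetaData k) (m : ℕ) [NeZero m] (A : Type) [Ring A]
    [Algebra ℂ A] (x : ((KV k).rel (coneOp m)).obj A) : ∃ z, L17_psi T m A z = x := by
  let y : (KV k).obj (Cone m A) := L17_rv (KV k) (coneOp m) A x
  obtain ⟨w, hw⟩ := T.surj (Cone m A) y
  have hker : (KV k).map (A := Cone m A) (B := A) ((coneOp m).r A) y = 0 :=
    L17_rv_ker (KV k) (coneOp m) A x
  let sr : Cone m A →ₐ[ℂ] Cone m A := ((coneOp m).s A).comp ((coneOp m).r A)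
  have hsr : w.map sr = (w.map ((coneOp m).r A)).map ((coneOp m).s A) :=
    (L17_map_map_sph ((coneOp m).s A) ((coneOp m).r A) w).symm
  have hw' : (w * (w.map sr)⁻¹).map ((coneOp m).r A) = 1 := by
    have h2 : (w.map sr).map ((coneOp m).r A) = w.map ((coneOp m).r A) := by
      have h3 : ((coneOp m).r A).comp sr = (coneOp m).r A := by
        have h4 : ((coneOp m).r A).comp (((coneOp m).s A).comp ((coneOp m).r A)) =
            (((coneOp m).r A).comp ((coneOp m).s A)).comp ((coneOp m).r A) := rfl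
        have h5 : (((coneOp m).r A).comp ((coneOp m).s A)).comp ((coneOp m).r A) =
            (coneOp m).r A := by
          rw [(coneOp m).r_s]
          rfl
        exact h4.trans h5
      exact (L17_map_map_sph ((coneOp m).r A) sr w).trans (congrArg (fun φ => w.map φ) h3)
    have h6 : (w * (w.map sr)⁻¹).map ((coneOp m).r A) =
        w.map ((coneOp m).r A) * ((w.map sr).map ((coneOp m).r A))⁻¹ :=
      (L17_map_mul ((coneOp m).r A) w (w.map sr)⁻¹).trans
        (congrArg (fun v => w.map ((coneOp m).r A) * v) (L17_map_inv ((coneOp m).r A) (w.map sr)))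
    exact h6.trans ((congrArg (fun v => w.map ((coneOp m).r A) * v⁻¹) h2).trans
      (L17_mul_inv (w.map ((coneOp m).r A))))
  obtain ⟨z, hz⟩ := exists_plam (w * (w.map sr)⁻¹) hw'
  refine ⟨z, ?_⟩
  apply L17_rv_injective (KV k) (coneOp m) A
  have h7 : T.th (Cone m A) (w.map sr) = 0 := by
    rw [hsr]
    have h9 := T.nat (Cone m A) A ((coneOp m).r A) w
    have h10 : T.th A (w.map ((coneOp m).r A)) = 0 := by
      exact h9.symm.trans ((congrArg (fun v => (KV k).map (A := Cone m A) (B := A)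
        ((coneOp m).r A) v) hw).trans hker)
    have h11 := T.nat A (Cone m A) ((coneOp m).s A) (w.map ((coneOp m).r A))
    exact h11.symm.trans ((congrArg (fun v => (KV k).map (A := A) (B := Cone m A)
      ((coneOp m).s A) v) h10).trans (map_zero _))
  have h12 : T.th (Cone m A) z.lam = y := by
    rw [hz, T.mul, T.inv, h7, neg_zero, add_zero, hw]
  exact h12

/-- the homomorphism on classes -/
private noncomputable def L17_hom {k : ℕ} (T : ThetaData k) (m : ℕ) [NeZero m] (A : Type) [Ring A]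
    [Algebra ℂ A] : KG Kind.alg m k A →+ ((KV k).rel (coneOp m)).obj A :=
  AddMonoidHom.mk' (Quot.lift (L17_psi T m A) (L17_psi_sound T m A)) (by
    rintro ⟨x⟩ ⟨y⟩
    exact L17_psi_mul T m A x y)

private theorem L17_hom_mk {k : ℕ} (T : ThetaData k) (m : ℕ) [NeZero m] (A : Type) [Ring A]
    [Algebra ℂ A] (z : Pair Kind.alg m k A) : L17_hom T m A (mkKG z) = L17_psi T m A z := rfl

private theorem L17_hom_bijective {k : ℕ} (T : ThetaData k) (m : ℕ) [NeZero m] (A : Type) [Ring A]
    [Algebra ℂ A] : Function.Bijective (L17_hom T m A) := by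
  constructor
  · rw [injective_iff_map_eq_zero]
    intro x hx
    obtain ⟨z, rfl⟩ := exists_mkKG x
    rw [L17_hom_mk] at hx
    exact mkKG_eq_iff.mpr ((L17_psi_null T m A z).mp hx)
  · intro x
    obtain ⟨z, hz⟩ := L17_psi_surj T m A x
    exact ⟨mkKG z, hz⟩

/-- **The link**: the homotopy classes of polynomial pairs are `K_{k+2}(A; ℤ/m)` as defined by the
iterated kernels, naturally in `A`. -/
theorem exists_link (m : ℕ) [NeZero m] (k : ℕ) :
    ∃ e : (A : Type) → [Ring A] → [Algebra ℂ A] → (KG Kind.alg m k A ≃+ (hK m k).obj A),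
      ∀ (A B : Type) [Ring A] [Algebra ℂ A] [Ring B] [Algebra ℂ B] (f : A →ₐ[ℂ] B)
        (x : KG Kind.alg m k A),
        (hK m k).map f (e A x) = e B (kgMap Kind.alg m k f x) := by
  obtain ⟨T⟩ := theta k
  refine ⟨fun A _ _ => AddEquiv.ofBijective (L17_hom T m A) (L17_hom_bijective T m A), ?_⟩
  intro A B _ _ _ _ f x
  obtain ⟨z, rfl⟩ := exists_mkKG x
  exact L17_psi_nat T m f z

end Pool.Agent.Lib.MP_e7fbd4_ag.O
end

section

/-! # The trace property of `KG` -/

set_option autoImplicit false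
set_option linter.unusedSectionVars false
set_option linter.unusedVariables false

namespace Pool.Agent.Lib.MP_e7fbd4_ag.O

open Pool.Agent.Lib.MP_c052b4_al

variable {A B C : Type} [Ring A] [Algebra ℂ A] [Ring B] [Algebra ℂ B] [Ring C] [Algebra ℂ C]
  {c : Kind} {m k l : ℕ}

/-- The trace property for an arbitrary finite index type: transport along `W ≃ Fin r`. -/
theorem kg_tr (c : Kind) (m k : ℕ) (C B W : Type) [Ring C] [Algebra ℂ C] [Ring B] [Algebra ℂ B]
    [Fintype W] [DecidableEq W] (w₀ : W) (φ : W → (C →ₐ[ℂ] B)) (x : KG c m k C)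
    (z : KG c m k (B × B)) (h : kgMap c m k (diagHom φ) x = kgMap c m k (kapM B W w₀) z) :
    ∑ w, kgMap c m k (φ w) x = kgMap c m k (AlgHom.fst ℂ B B) z +
      (Fintype.card W - 1) • kgMap c m k (AlgHom.snd ℂ B B) z := by
  have hcomp : ∀ {A B C : Type} [Ring A] [Algebra ℂ A] [Ring B] [Algebra ℂ B] [Ring C]
      [Algebra ℂ C] (f : A →ₐ[ℂ] B) (g : B →ₐ[ℂ] C) (x : KG c m k A),
      kgMap c m k g (kgMap c m k f x) = kgMap c m k (g.comp f) x := by
    intro A B C _ _ _ _ _ _ f g x
    obtain ⟨z, rfl⟩ := exists_mkKG x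
    rw [kgMap_mk, kgMap_mk, kgMap_mk]
    congr 1
    apply Pair.ext'
    · funext x
      exact GLinf_map_comp _ _ _
    · funext y
      exact GLinf_map_comp _ _ _
  have hρ : ∀ ψ : W → (C →ₐ[ℂ] B),
      ((Matrix.reindexAlgEquiv ℂ B (Fintype.equivFin W) : Matrix W W B ≃ₐ[ℂ] _) :
        Matrix W W B →ₐ[ℂ] Matrix (Fin (Fintype.card W)) (Fin (Fintype.card W)) B).comp
          (diagHom ψ) = diagHom fun a => ψ ((Fintype.equivFin W).symm a) := by
    intro ψ
    apply AlgHom.ext
    intro x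
    ext a b
    change Matrix.diagonal (fun w => ψ w x) ((Fintype.equivFin W).symm a)
      ((Fintype.equivFin W).symm b) = Matrix.diagonal (fun a => ψ ((Fintype.equivFin W).symm a) x) a b
    rw [Matrix.diagonal_apply, Matrix.diagonal_apply]
    simp
  have hρ' : ∀ ψ : W → (B × B →ₐ[ℂ] B),
      ((Matrix.reindexAlgEquiv ℂ B (Fintype.equivFin W) : Matrix W W B ≃ₐ[ℂ] _) :
        Matrix W W B →ₐ[ℂ] Matrix (Fin (Fintype.card W)) (Fin (Fintype.card W)) B).comp
          (diagHom ψ) = diagHom fun a => ψ ((Fintype.equivFin W).symm a) := by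
    intro ψ
    apply AlgHom.ext
    intro x
    ext a b
    change Matrix.diagonal (fun w => ψ w x) ((Fintype.equivFin W).symm a)
      ((Fintype.equivFin W).symm b) = Matrix.diagonal (fun a => ψ ((Fintype.equivFin W).symm a) x) a b
    rw [Matrix.diagonal_apply, Matrix.diagonal_apply]
    simp
  have h1 := congrArg (fun y => kgMor c m k _ B (kgMap c m k
    ((Matrix.reindexAlgEquiv ℂ B (Fintype.equivFin W) : Matrix W W B ≃ₐ[ℂ] _) :
        Matrix W W B →ₐ[ℂ] Matrix (Fin (Fintype.card W)) (Fin (Fintype.card W)) B) y)) h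
  simp only [kapM] at h1
  rw [hcomp, hcomp, hρ, hρ', kgMor_diag, kgMor_diag] at h1
  have h2 : ∑ a, kgMap c m k (φ ((Fintype.equivFin W).symm a)) x = ∑ w, kgMap c m k (φ w) x :=
    Equiv.sum_comp (Fintype.equivFin W).symm (fun w => kgMap c m k (φ w) x)
  have h3 : ∑ a, kgMap c m k ((if (Fintype.equivFin W).symm a = w₀ then AlgHom.fst ℂ B B
      else AlgHom.snd ℂ B B)) z = ∑ w, kgMap c m k ((if w = w₀ then AlgHom.fst ℂ B B
      else AlgHom.snd ℂ B B)) z :=
    Equiv.sum_comp (Fintype.equivFin W).symm (fun w => kgMap c m k ((if w = w₀ then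
      AlgHom.fst ℂ B B else AlgHom.snd ℂ B B)) z)
  rw [← h2, h1, h3, ← Finset.add_sum_erase _ _ (Finset.mem_univ w₀), if_pos rfl]
  congr 1
  rw [Finset.sum_congr rfl (g := fun _ => kgMap c m k (AlgHom.snd ℂ B B) z) (by
    intro w hw
    rw [if_neg (Finset.ne_of_mem_erase hw)]), Finset.sum_const, Finset.card_erase_of_mem
      (Finset.mem_univ w₀), Finset.card_univ]

end Pool.Agent.Lib.MP_e7fbd4_ag.O
end

section

/-!
# Naturality of the boundary map `K₁(S[t, t⁻¹]) → K₀(S)`
-/

set_option autoImplicit false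
set_option linter.unusedSectionVars false

namespace Pool.Agent.Lib.MP_e7fbd4_ag

open Matrix Pool.Agent.Lib.MP_c052b4_al Bdry Kern

universe u u' v w

variable {S : Type u} [Ring S] {S' : Type u'} [Ring S'] (f : S →+* S')

/-- the homomorphism of Laurent polynomial rings induced by a ring homomorphism -/
noncomputable abbrev lf : Lau S →+* Lau S' := MonoidAlgebra.mapRingHom (Multiplicative ℤ) f

theorem lf_coeff (x : Lau S) (γ : Multiplicative ℤ) : (lf f x).coeff γ = f (x.coeff γ) := by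
  simp

/-- the homomorphism on vectors -/
noncomputable def lfV {n : Type v} (x : n → Lau S) : n → Lau S' := fun j => lf f (x j)

theorem lfV_res {n : Type v} (Z : Set (Multiplicative ℤ)) (x : n → Lau S) :
    lfV f (resV Z x) = resV Z (lfV f x) := by
  funext j
  ext γ
  by_cases hγ : γ ∈ Z
  · change (lf f (res Z (x j))).coeff γ = (res Z (lf f (x j))).coeff γ
    rw [lf_coeff, coeff_res_of_mem hγ, coeff_res_of_mem hγ, lf_coeff]
  · change (lf f (res Z (x j))).coeff γ = (res Z (lf f (x j))).coeff γ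
    rw [lf_coeff, coeff_res_of_notMem hγ, coeff_res_of_notMem hγ, map_zero]

theorem lfV_vecMul {n : Type v} [Fintype n] {m : Type w} (x : n → Lau S)
    (X : Matrix n m (Lau S)) : lfV f (x ᵥ* X) = lfV f x ᵥ* X.map (lf f) := by
  funext j
  simp only [lfV, Matrix.vecMul, dotProduct, map_sum, map_mul, Matrix.map_apply]

variable {n : Type v} [Fintype n] [DecidableEq n]

theorem lfV_wE (a : ℕ) (u : Fin a × n → S) :
    lfV f (wE S n a u) = wE S' n a (fun x => f (u x)) := by
  funext j
  ext γ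
  change (lf f (wE S n a u j)).coeff γ = _
  rw [lf_coeff, wE_coeff, wE_coeff, map_sum]
  refine Finset.sum_congr rfl fun k _ => ?_
  split_ifs
  · rfl
  · exact map_zero f

theorem wC_lfV (a : ℕ) (x : n → Lau S) (y : Fin a × n) :
    wC S' n a (lfV f x) y = f (wC S n a x y) := by
  change (lf f (x y.2)).coeff _ = f ((x y.2).coeff _)
  rw [lf_coeff]

/-- the idempotent endomorphism of a free module whose image is the quotient of lattices -/
noncomputable def eL (A : (Matrix n n (Lau S))ˣ) (M a : ℕ) :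
    (Fin a × n → S) →ₗ[S] (Fin a × n → S) := iQ A M a ∘ₗ rQ A M a

theorem eL_apply (A : (Matrix n n (Lau S))ˣ) (M a : ℕ) (u : Fin a × n → S) :
    eL A M a u = wC S n a ((trL S n (-M) ((wE S n a u) ᵥ* (A : Matrix n n (Lau S)))) ᵥ*
      ((A⁻¹ : (Matrix n n (Lau S))ˣ) : Matrix n n (Lau S))) := rfl

theorem eL_map (A : (Matrix n n (Lau S))ˣ) (M a : ℕ) (u : Fin a × n → S) (y : Fin a × n) :
    eL (mU (lf f) A) M a (fun x => f (u x)) y = f (eL A M a u y) := by
  rw [eL_apply, eL_apply, ← wC_lfV, lfV_vecMul]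
  have h1 : ((A⁻¹ : (Matrix n n (Lau S))ˣ) : Matrix n n (Lau S)).map (lf f) =
      (((mU (lf f) A)⁻¹ : (Matrix n n (Lau S'))ˣ) : Matrix n n (Lau S')) := by
    rw [← map_inv, coe_mU]
  have h2 : lfV f (trL S n (-M) ((wE S n a u) ᵥ* (A : Matrix n n (Lau S)))) =
      trL S' n (-M) ((wE S' n a (fun x => f (u x))) ᵥ*
        ((mU (lf f) A : (Matrix n n (Lau S'))ˣ) : Matrix n n (Lau S'))) := by
    change lfV f (resV (up (-M)) _) = resV (up (-M)) _
    rw [lfV_res, lfV_vecMul, lfV_wE, coe_mU]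
  rw [h1, h2]

/-- the matrix of `eL` -/
noncomputable def eM (A : (Matrix n n (Lau S))ˣ) (M a : ℕ) :
    Matrix (Fin a × n) (Fin a × n) S := fun x y => eL A M a (Pi.single x 1) y

theorem eL_eq_vecMul (A : (Matrix n n (Lau S))ˣ) (M a : ℕ) (u : Fin a × n → S) :
    eL A M a u = u ᵥ* eM A M a := by
  have h1 : u = ∑ i, u i • (Pi.single i (1 : S) : Fin a × n → S) := by
    funext j
    simp [Pi.single_apply]
  have h2 : eL A M a u = ∑ i, u i • eL A M a (Pi.single i 1) := by
    conv_lhs => rw [h1]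
    rw [map_sum]
    exact Finset.sum_congr rfl fun i _ => map_smul (eL A M a) _ _
  rw [h2]
  funext j
  simp [Matrix.vecMul, dotProduct, eM]

theorem eM_map (A : (Matrix n n (Lau S))ˣ) (M a : ℕ) :
    (eM A M a).map f = eM (mU (lf f) A) M a := by
  ext x y
  rw [Matrix.map_apply]
  change f (eL A M a (Pi.single x 1) y) = eL (mU (lf f) A) M a (Pi.single x 1) y
  rw [← eL_map]
  have h0 : (fun z => f ((Pi.single x (1 : S) : Fin a × n → S) z)) = Pi.single x 1 := by
    funext z
    by_cases h : z = x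
    · subst h; simp
    · simp [h]
  rw [h0]

section

variable {A : (Matrix n n (Lau S))ˣ} {M : ℕ} (hA : LA A ≤ L S n (-M)) {a : ℕ}
  (ha : ∀ v, v ∈ L S n (-M) →
    v ᵥ* ((A⁻¹ : (Matrix n n (Lau S))ˣ) : Matrix n n (Lau S)) ∈ L S n (-a))

include hA ha

theorem eM_idem : eM A M a * eM A M a = eM A M a := by
  have h1 : ∀ u, eL A M a (eL A M a u) = eL A M a u := by
    intro u
    change iQ A M a (rQ A M a (iQ A M a (rQ A M a u))) = iQ A M a (rQ A M a u)
    have := LinearMap.congr_fun (rQ_iQ hA ha) (rQ A M a u)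
    rw [LinearMap.comp_apply, LinearMap.id_apply] at this
    rw [this]
  ext x y
  have h2 : (eM A M a * eM A M a) x y = (eM A M a x ᵥ* eM A M a) y := by
    rw [Matrix.mul_apply_eq_vecMul]
  rw [h2, ← eL_eq_vecMul]
  change eL A M a (eL A M a (Pi.single x 1)) y = eL A M a (Pi.single x 1) y
  rw [h1]

theorem img_eM_equiv : Nonempty (img (eM A M a) ≃ₗ[S] Q A M) := by
  have hid := eM_idem hA ha
  have hr : ∀ x, rQ A M a (iQ A M a x) = x := fun x => LinearMap.congr_fun (rQ_iQ hA ha) x
  refine ⟨LinearEquiv.ofLinearMap (rQ A M a ∘ₗ (img (eM A M a)).subtype)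
    ((iQ A M a).codRestrict (img (eM A M a)) (fun x => ?_)) ?_ ?_⟩
  · rw [mem_img hid, ← eL_eq_vecMul]
    change iQ A M a (rQ A M a (iQ A M a x)) = _
    rw [hr]
  · apply LinearMap.ext
    intro x
    exact hr x
  · apply LinearMap.ext
    intro x
    apply Subtype.ext
    have h1 := (mem_img hid).1 x.2
    rw [← eL_eq_vecMul] at h1
    exact h1

theorem kQ_eq_kc : kQ A M hA = KZero.kc (eM A M a) (eM_idem hA ha) := by
  have := finiteQ hA
  have := projectiveQ hA
  obtain ⟨θ⟩ := img_eM_equiv hA ha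
  exact kmod_eq_kc _ θ

end

theorem fr_eq_kc (S : Type u) [Ring S] (n : Type v) [Fintype n] [DecidableEq n] :
    fr S n = KZero.kc (1 : Matrix n n S) (by simp) := by
  unfold fr
  exact kmod_eq_kc _ ((LinearEquiv.ofEq _ _ img_one).trans Submodule.topEquiv)

theorem map_fr (n : Type v) [Fintype n] [DecidableEq n] :
    KZero.map f (fr S n) = fr S' n := by
  rw [fr_eq_kc, fr_eq_kc, KZero.kc_map]
  congr 1
  exact Matrix.map_one _ (map_zero _) (map_one _)

theorem map_dd (A : (Matrix n n (Lau S))ˣ) :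
    KZero.map f (dd A) = dd (mU (lf f) A) := by
  obtain ⟨M1, h1⟩ := exists_le A
  obtain ⟨M2, h2⟩ := exists_le (mU (lf f) A)
  have hA : LA A ≤ L S n (-(M1 + M2 : ℕ)) := h1.trans (L_mono (by push_cast; omega))
  have hA' : LA (mU (lf f) A) ≤ L S' n (-(M1 + M2 : ℕ)) := h2.trans (L_mono (by push_cast; omega))
  obtain ⟨a1, ha1⟩ := exists_a A (M1 + M2)
  obtain ⟨a2, ha2⟩ := exists_a (mU (lf f) A) (M1 + M2)
  have ha : ∀ v, v ∈ L S n (-(M1 + M2 : ℕ)) →
      v ᵥ* ((A⁻¹ : (Matrix n n (Lau S))ˣ) : Matrix n n (Lau S)) ∈ L S n (-(a1 + a2 : ℕ)) :=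
    fun v hv => L_mono (by push_cast; omega) (ha1 v hv)
  have ha' : ∀ v, v ∈ L S' n (-(M1 + M2 : ℕ)) →
      v ᵥ* (((mU (lf f) A)⁻¹ : (Matrix n n (Lau S'))ˣ) : Matrix n n (Lau S')) ∈
        L S' n (-(a1 + a2 : ℕ)) :=
    fun v hv => L_mono (by push_cast; omega) (ha2 v hv)
  rw [dd_eq hA, dd_eq hA', map_sub, map_nsmul, map_fr, kQ_eq_kc hA ha, kQ_eq_kc hA' ha',
    KZero.kc_map]
  congr 1
  congr 1
  exact eM_map f A _ _

/-- Naturality of the boundary map. -/
theorem map_del (x : KOne (Lau S)) :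
    KZero.map f (del S x) = del S' (KOne.map (MonoidAlgebra.mapRingHom (Multiplicative ℤ) f) x) := by
  obtain ⟨k, A, rfl⟩ := exists_k1 x
  rw [KOne.map_k1, del_k1, del_k1, map_dd]

end Pool.Agent.Lib.MP_e7fbd4_ag
end
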