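import Pool.Agent.Lib.MP_e7fbd4_ag.Mg.G003
import Pool.Agent.Lib.MP_e7fbd4_ag.Mg.G011
import Pool.Agent.Lib.MP_e7fbd4_ag.Mg.G012
import Pool.Agent.Lib.MP_e7fbd4_ag.Mg.G005
import Pool.Agent.Lib.MP_e7fbd4_ag.Mg.G007
import Pool.Agent.Lib.MP_e7fbd4_ag.Mg.G001
import Pool.Agent.Lib.MP_e7fbd4_ag.Mg.G002
import Pool.Agent.Lib.MP_e7fbd4_ag.Mg.G009

section

/-! # The group `KG` -/

set_option autoImplicit false
set_option linter.unusedSectionVars false
set_option linter.unusedVariables false

namespace Pool.Agent.Lib.MP_e7fbd4_ag.O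

open Pool.Agent.Lib.MP_c052b4_al

variable {A B C : Type} [Ring A] [Algebra ℂ A] [Ring B] [Algebra ℂ B] [Ring C] [Algebra ℂ C]
  {c : Kind} {m k l : ℕ}

theorem tw_comm {r : ℕ} {w w' : Fin r} (hw : w ≠ w') (z v : Pair c m k A) :
    z.tw (Ew w) * v.tw (Ew w') = v.tw (Ew w') * z.tw (Ew w) :=
  Pair.ext' (funext fun x => twist_comm hw _ _) (funext fun x => twist_comm hw _ _)

theorem homotopic_comm (z w : Pair c m k A) : Homotopic (z * w) (w * z) := by
  have h : (0 : Fin 2) ≠ 1 := by decide
  have h1 := (homotopic_tw (0 : Fin 2) z).mul (homotopic_tw (1 : Fin 2) w)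
  rw [tw_comm h] at h1
  exact h1.trans ((homotopic_tw (1 : Fin 2) w).symm.mul (homotopic_tw (0 : Fin 2) z).symm)

noncomputable instance : Add (KG c m k A) where
  add := Quot.map₂ (fun z w => z * w) (fun z _ _ h => (homotopic_refl z).mul h)
    (fun _ _ w h => h.mul (homotopic_refl w))

noncomputable instance : Zero (KG c m k A) where
  zero := mkKG 1

noncomputable instance : Neg (KG c m k A) where
  neg := Quot.map (fun z => z⁻¹) fun _ _ h => h.inv

noncomputable instance : AddCommGroup (KG c m k A) where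
  nsmul := nsmulRec
  zsmul := zsmulRec
  add_assoc := by
    rintro ⟨x⟩ ⟨y⟩ ⟨z⟩
    exact congrArg mkKG (mul_assoc x y z)
  zero_add := by
    rintro ⟨x⟩
    exact congrArg mkKG (one_mul x)
  add_zero := by
    rintro ⟨x⟩
    exact congrArg mkKG (mul_one x)
  neg_add_cancel := by
    rintro ⟨x⟩
    exact congrArg mkKG (inv_mul_cancel x)
  add_comm := by
    rintro ⟨x⟩ ⟨y⟩
    exact mkKG_eq_iff.mpr (homotopic_comm x y)

theorem mkKG_mul (z w : Pair c m k A) : mkKG (z * w) = mkKG z + mkKG w := rfl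

theorem mkKG_one : mkKG (1 : Pair c m k A) = 0 := rfl

theorem mkKG_inv (z : Pair c m k A) : mkKG z⁻¹ = - mkKG z := rfl

theorem mkKG_tw {r : ℕ} (w : Fin r) (z : Pair c m k A) : mkKG (z.tw (Ew w)) = mkKG z :=
  (mkKG_eq_iff.mpr (homotopic_tw w z)).symm

end Pool.Agent.Lib.MP_e7fbd4_ag.O
end

section

/-! # The functor `KG` -/

set_option autoImplicit false
set_option linter.unusedSectionVars false
set_option linter.unusedVariables false

namespace Pool.Agent.Lib.MP_e7fbd4_ag.O

open Pool.Agent.Lib.MP_c052b4_al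

variable {A B C : Type} [Ring A] [Algebra ℂ A] [Ring B] [Algebra ℂ B] [Ring C] [Algebra ℂ C]
  {c : Kind} {m k l : ℕ}

theorem map_dup (f : A →ₐ[ℂ] B) (g : GLinf A) :
    GLinf.map (matMap m f).toRingHom (dup m A g) = dup m B (GLinf.map f.toRingHom g) := by
  have h : (matMap m f).toRingHom.comp (Matrix.scalar (Fin m)) =
      (Matrix.scalar (Fin m)).comp f.toRingHom := by
    apply RingHom.ext
    intro a
    ext i j
    show f (Matrix.scalar (Fin m) a i j) = Matrix.scalar (Fin m) (f a) i j
    rw [Matrix.scalar_apply, Matrix.scalar_apply, Matrix.diagonal_apply, Matrix.diagonal_apply]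
    split_ifs
    · rfl
    · exact map_zero f
  unfold dup
  rw [GLinf_map_comp, GLinf_map_comp, h]

theorem Bdry.map (f : A →ₐ[ℂ] B) {g : Cube k → GLinf A}
    {p : Cube (k + 1) → GLinf (Matrix (Fin m) (Fin m) A)} (h : Bdry m k g p) :
    Bdry m k (fun x => GLinf.map f.toRingHom (g x))
      (fun y => GLinf.map (matMap m f).toRingHom (p y)) where
  g_bdry x hx := by rw [h.g_bdry x hx, map_one]
  p_zero x := by rw [h.p_zero, map_one]
  p_one x := by rw [h.p_one, map_dup]
  p_bdry s x hx := by rw [h.p_bdry s x hx, map_one]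

/-- The homomorphism on pairs induced by an algebra homomorphism. -/
noncomputable def Pair.map (f : A →ₐ[ℂ] B) (z : Pair c m k A) : Pair c m k B where
  g x := GLinf.map f.toRingHom (z.g x)
  p y := GLinf.map (matMap m f).toRingHom (z.p y)
  hg := IsCube.map z.hg f
  hp := IsCube.map z.hp (matMap m f)
  bdry := Bdry.map f z.bdry

theorem Homotopic.map (f : A →ₐ[ℂ] B) {z w : Pair c m k A} (h : Homotopic z w) :
    Homotopic (z.map f) (w.map f) := by
  obtain ⟨G, P, hG, hP, hB, h0, h0', h1, h1'⟩ := h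
  exact ⟨fun y => GLinf.map f.toRingHom (G y), fun y => GLinf.map (matMap m f).toRingHom (P y),
    hG.map f, hP.map (matMap m f), fun t => (hB t).map f,
    fun x => congrArg (GLinf.map f.toRingHom) (h0 x),
    fun y => congrArg (GLinf.map (matMap m f).toRingHom) (h0' y),
    fun x => congrArg (GLinf.map f.toRingHom) (h1 x),
    fun y => congrArg (GLinf.map (matMap m f).toRingHom) (h1' y)⟩

theorem Pair.map_mul (f : A →ₐ[ℂ] B) (z w : Pair c m k A) :
    (z * w).map f = z.map f * w.map f :=
  Pair.ext' (funext fun x => _root_.map_mul _ _ _) (funext fun x => _root_.map_mul _ _ _)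

/-- The homomorphism `KG(A) → KG(B)` induced by an algebra homomorphism. -/
noncomputable def kgMap (c : Kind) (m k : ℕ) (f : A →ₐ[ℂ] B) : KG c m k A →+ KG c m k B where
  toFun := Quot.map (Pair.map f) fun _ _ h => h.map f
  map_zero' := congrArg mkKG (Pair.ext' (funext fun x => map_one _) (funext fun x => map_one _))
  map_add' := by
    rintro ⟨x⟩ ⟨y⟩
    exact congrArg mkKG (Pair.map_mul f x y)

theorem kgMap_mk (f : A →ₐ[ℂ] B) (z : Pair c m k A) : kgMap c m k f (mkKG z) = mkKG (z.map f) := rfl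

theorem GLinf_map_id' (g : GLinf A) : GLinf.map (AlgHom.id ℂ A).toRingHom g = g := by
  obtain ⟨k, G, rfl⟩ := exists_toGL g
  rw [map_toGL]
  congr 1

private theorem matMap_id (m : ℕ) : matMap m (AlgHom.id ℂ A) = AlgHom.id ℂ (Matrix (Fin m) (Fin m) A) := by
  apply AlgHom.ext
  intro M
  ext i j
  rfl

private theorem matMap_comp (m : ℕ) (g : B →ₐ[ℂ] C) (f : A →ₐ[ℂ] B) :
    (matMap m (g.comp f)).toRingHom = (matMap m g).toRingHom.comp (matMap m f).toRingHom := by
  apply RingHom.ext
  intro M
  ext i j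
  rfl

/-- The functor `KG`. -/
noncomputable def KGF (c : Kind) (m k : ℕ) : AlgFunctor where
  obj A _ _ := AddCommGrpCat.of (KG c m k A)
  map {A B} _ _ _ _ f := kgMap c m k f
  map_id A _ _ := by
    apply AddMonoidHom.ext
    intro x
    obtain ⟨z, rfl⟩ := exists_mkKG x
    show kgMap c m k (AlgHom.id ℂ A) (mkKG z) = mkKG z
    rw [kgMap_mk]
    congr 1
    apply Pair.ext'
    · funext x
      exact GLinf_map_id' (z.g x)
    · funext y
      show GLinf.map (matMap m (AlgHom.id ℂ A)).toRingHom (z.p y) = z.p y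
      rw [matMap_id]
      exact GLinf_map_id' (z.p y)
  map_comp {A B C} _ _ _ _ _ _ g f := by
    apply AddMonoidHom.ext
    intro x
    obtain ⟨z, rfl⟩ := exists_mkKG x
    show kgMap c m k (g.comp f) (mkKG z) = kgMap c m k g (kgMap c m k f (mkKG z))
    rw [kgMap_mk, kgMap_mk, kgMap_mk]
    congr 1
    apply Pair.ext'
    · funext x
      show GLinf.map (g.comp f).toRingHom (z.g x) = GLinf.map g.toRingHom (GLinf.map f.toRingHom (z.g x))
      rw [GLinf_map_comp]
      rfl
    · funext y
      show GLinf.map (matMap m (g.comp f)).toRingHom (z.p y) =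
        GLinf.map (matMap m g).toRingHom (GLinf.map (matMap m f).toRingHom (z.p y))
      rw [GLinf_map_comp, matMap_comp]

end Pool.Agent.Lib.MP_e7fbd4_ag.O
end

section

/-! # Pairs as spheres over the cone -/

set_option autoImplicit false
set_option linter.unusedSectionVars false
set_option linter.unusedVariables false

namespace Pool.Agent.Lib.MP_e7fbd4_ag.O

open Pool.Agent.Lib.MP_c052b4_al

variable {A B C : Type} [Ring A] [Algebra ℂ A] [Ring B] [Algebra ℂ B] [Ring C] [Algebra ℂ C]
  {c : Kind} {m k l : ℕ}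

theorem exists_plam_aux [NeZero m] (z : Pair Kind.alg m k A) : ∃ w : Sph k (Cone m A),
    ∀ (t : unitInterval) x, GLinf.map (evW (Cone m A) (cI t)).toRingHom (w.g x) =
      z.p (Fin.cons t x) := by
  obtain ⟨Γ, hΓ, hev⟩ := exists_curry_cone (a := fun _ => 1) (b := z.g) z.hp
    (fun x => by rw [z.bdry.p_zero, map_one]) z.bdry.p_one
  refine ⟨⟨Γ, hΓ, ?_⟩, hev⟩
  intro x hx
  apply glw_ext (cone_le m A)
  intro t
  rw [hev, z.bdry.p_bdry t x hx, map_one]

/-- A pair as a sphere in `GL(Cone m A)`. -/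
noncomputable def Pair.lam [NeZero m] (z : Pair Kind.alg m k A) : Sph k (Cone m A) :=
  (exists_plam_aux z).choose

theorem Pair.lam_ev [NeZero m] (z : Pair Kind.alg m k A) (t : unitInterval) (x : Cube k) :
    GLinf.map (evW (Cone m A) (cI t)).toRingHom (z.lam.g x) = z.p (Fin.cons t x) :=
  (exists_plam_aux z).choose_spec t x

theorem Pair.lam_mul [NeZero m] (z w : Pair Kind.alg m k A) : (z * w).lam = z.lam * w.lam := by
  apply Sph.ext'
  intro x
  apply glw_ext (cone_le m A)
  intro t
  rw [Pair.lam_ev, Sph.mul_g, _root_.map_mul, Pair.lam_ev, Pair.lam_ev]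
  rfl

private theorem L13_comp [NeZero m] (f : A →ₐ[ℂ] B) (t : ℂ) (g : GLinf (Cone m A)) :
    GLinf.map (evW (Cone m B) t).toRingHom (GLinf.map ((coneOp m).map f).toRingHom g) =
      GLinf.map (matMap m f).toRingHom (GLinf.map (evW (Cone m A) t).toRingHom g) := by
  obtain ⟨n, G, rfl⟩ := exists_toGL g
  rfl

theorem Pair.lam_map [NeZero m] (f : A →ₐ[ℂ] B) (z : Pair Kind.alg m k A) :
    (z.map f).lam = z.lam.map ((coneOp m).map f) := by
  apply Sph.ext'
  intro x
  apply glw_ext (cone_le m B)
  intro t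
  have h1 : GLinf.map (evW (Cone m B) (cI t)).toRingHom ((z.lam.map ((coneOp m).map f)).g x) =
      GLinf.map (matMap m f).toRingHom (z.p (Fin.cons t x)) := by
    rw [← Pair.lam_ev]
    exact L13_comp f (cI t) (z.lam.g x)
  refine (Pair.lam_ev (z.map f) t x).trans (Eq.trans ?_ h1.symm)
  rfl

end Pool.Agent.Lib.MP_e7fbd4_ag.O
end

section

/-! # Pairs as spheres over the cone, 2 -/

set_option autoImplicit false
set_option linter.unusedSectionVars false
set_option linter.unusedVariables false

namespace Pool.Agent.Lib.MP_e7fbd4_ag.O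

open Pool.Agent.Lib.MP_c052b4_al

variable {A B C : Type} [Ring A] [Algebra ℂ A] [Ring B] [Algebra ℂ B] [Ring C] [Algebra ℂ C]
  {c : Kind} {m k l : ℕ}

private theorem L14_ent_map (φ : A →+* B) {n : ℕ} (G : (Matrix (Fin n) (Fin n) A)ˣ) (i j : ℕ) :
    entM (mU φ G).val i j = φ (entM G.val i j) := by
  unfold entM
  by_cases h : i < n ∧ j < n
  · rw [dif_pos h, dif_pos h]
    rfl
  · rw [dif_neg h, dif_neg h]
    by_cases h1 : i = j
    · rw [if_pos h1, if_pos h1, map_one]
    · rw [if_neg h1, if_neg h1, map_zero]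

private theorem L14_cI_zero : cI 0 = 0 := by
  unfold cI
  norm_num

private theorem L14_cI_one : cI 1 = 1 := by
  unfold cI
  norm_num

/-- `dup` is injective and the value at `t = 0`, `1` of an element of `GL(Cone m A)` is `dup` of
its image under `coneEv0`, `coneEv1`. -/
theorem dup_injective [NeZero m] : Function.Injective (dup m A) := by
  intro g h hgh
  obtain ⟨n, G, rfl⟩ := exists_toGL g
  obtain ⟨n', H, rfl⟩ := exists_toGL h
  apply toGL_eq_of_ent
  intro i j
  have h1 : toGL (Matrix (Fin m) (Fin m) A) n (mU (Matrix.scalar (Fin m)) G) =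
      toGL (Matrix (Fin m) (Fin m) A) n' (mU (Matrix.scalar (Fin m)) H) := hgh
  have h2 := ent_eq_of_toGL h1 i j
  rw [L14_ent_map, L14_ent_map] at h2
  exact Matrix.scalar_inj.mp h2

theorem dup_coneEv0 [NeZero m] (g : GLinf (Cone m A)) :
    dup m A (GLinf.map (coneEv0 m A).toRingHom g) =
      GLinf.map (evW (Cone m A) (cI 0)).toRingHom g := by
  change GLinf.map (Matrix.scalar (Fin m)) (GLinf.map (coneEv0 m A).toRingHom g) = _
  rw [GLinf_map_comp]
  have h : (Matrix.scalar (Fin m)).comp (coneEv0 m A).toRingHom =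
      (evW (Cone m A) (cI 0)).toRingHom := by
    ext1 f
    obtain ⟨a, ha⟩ := f.2.2.1
    change Matrix.scalar (Fin m) (f.1 0 0 0) = f.1 (cI 0)
    rw [L14_cI_zero, ha]
    simp
  rw [h]

theorem dup_coneEv1 [NeZero m] (g : GLinf (Cone m A)) :
    dup m A (GLinf.map (coneEv1 m A).toRingHom g) =
      GLinf.map (evW (Cone m A) (cI 1)).toRingHom g := by
  change GLinf.map (Matrix.scalar (Fin m)) (GLinf.map (coneEv1 m A).toRingHom g) = _
  rw [GLinf_map_comp]
  have h : (Matrix.scalar (Fin m)).comp (coneEv1 m A).toRingHom =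
      (evW (Cone m A) (cI 1)).toRingHom := by
    ext1 f
    obtain ⟨a, ha⟩ := f.2.2.2
    change Matrix.scalar (Fin m) (f.1 1 0 0) = f.1 (cI 1)
    rw [L14_cI_one, ha]
    simp
  rw [h]

theorem Pair.lam_r [NeZero m] (z : Pair Kind.alg m k A) :
    z.lam.map ((coneOp m).r A) = 1 := by
  apply Sph.ext'
  intro x
  apply dup_injective (m := m)
  have h1 : dup m A (GLinf.map (coneEv0 m A).toRingHom (z.lam.g x)) = z.p (Fin.cons 0 x) :=
    (dup_coneEv0 (z.lam.g x)).trans (z.lam_ev 0 x)
  exact (h1.trans (z.bdry.p_zero x)).trans (map_one (dup m A)).symm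

end Pool.Agent.Lib.MP_e7fbd4_ag.O
end

section

/-! # Pairs as spheres over the cone, 3 -/

set_option autoImplicit false
set_option linter.unusedSectionVars false
set_option linter.unusedVariables false

namespace Pool.Agent.Lib.MP_e7fbd4_ag.O

open Pool.Agent.Lib.MP_c052b4_al

variable {A B C : Type} [Ring A] [Algebra ℂ A] [Ring B] [Algebra ℂ B] [Ring C] [Algebra ℂ C]
  {c : Kind} {m k l : ℕ}

/-- A sphere in `GL(Cone m A)` which is `1` at `t = 0` comes from a pair: `p (t, x)` is its value at
`t` and `g` its image under `coneEv1`. -/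
theorem exists_plam [NeZero m] (w : Sph k (Cone m A)) (h : w.map ((coneOp m).r A) = 1) :
    ∃ z : Pair Kind.alg m k A, z.lam = w := by
  have h0 : ∀ x, GLinf.map (coneEv0 m A).toRingHom (w.g x) = 1 := by
    intro x
    have h1 : (w.map ((coneOp m).r A)).g x = (1 : Sph k A).g x := by rw [h]
    exact h1
  have hb : Bdry m k (fun x => GLinf.map (coneEv1 m A).toRingHom (w.g x))
      (fun y : Cube (k + 1) =>
        GLinf.map (evW (Cone m A) (cI (y 0))).toRingHom (w.g fun i => y i.succ)) :=
    { g_bdry := fun x hx => by rw [w.bdry x hx, map_one]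
      p_zero := fun x => by
        change GLinf.map (evW (Cone m A) (cI 0)).toRingHom (w.g x) = 1
        rw [← dup_coneEv0, h0, map_one]
      p_one := fun x => (dup_coneEv1 (w.g x)).symm
      p_bdry := fun s x hx => by
        change GLinf.map (evW (Cone m A) (cI s)).toRingHom (w.g x) = 1
        rw [w.bdry x hx, map_one] }
  refine ⟨⟨_, _, IsCube.map w.hg (coneEv1 m A), IsCube.uncurry (cone_le m A) w.hg, hb⟩, ?_⟩
  refine Sph.ext' fun x => glw_ext (cone_le m A) fun t => ?_
  rw [Pair.lam_ev]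
  rfl

end Pool.Agent.Lib.MP_e7fbd4_ag.O
end

section

/-! # The natural transformations `toSt` and `bott` -/

set_option autoImplicit false
set_option linter.unusedSectionVars false
set_option linter.unusedVariables false

namespace Pool.Agent.Lib.MP_e7fbd4_ag.O

open Pool.Agent.Lib.MP_c052b4_al

variable {A B C : Type} [Ring A] [Algebra ℂ A] [Ring B] [Algebra ℂ B] [Ring C] [Algebra ℂ C]
  {c : Kind} {m k l : ℕ}

/-- The comparison map `KG alg → KG top` as a homomorphism. -/
noncomputable def toStHom (m k : ℕ) (A : Type) [Ring A] [Algebra ℂ A] :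
    KG Kind.alg m k A →+ KG Kind.top m k A where
  toFun := toSt m k A
  map_zero' := rfl
  map_add' := by
    rintro ⟨x⟩ ⟨y⟩
    rfl

theorem toStHom_apply (x : KG Kind.alg m k A) : toStHom m k A x = toSt m k A x := rfl

theorem toSt_nat (f : A →ₐ[ℂ] B) (x : KG Kind.alg m k A) :
    toSt m k B (kgMap Kind.alg m k f x) = kgMap Kind.top m k f (toSt m k A x) := by
  obtain ⟨z, rfl⟩ := exists_mkKG x
  rfl

theorem bott_nat (f : A →ₐ[ℂ] B) (x : KG Kind.top m k A) :
    bott m k B (kgMap Kind.top m k f x) = kgMap Kind.top m (k + 2) f (bott m k A x) := by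
  obtain ⟨z, rfl⟩ := exists_mkKG x
  show mkKG (z.map f).bott = mkKG (z.bott.map f)
  congr 1
  apply Pair.ext'
  · funext y
    exact (map_bottVal _ _ f _).symm
  · funext y
    exact (map_bottVal _ _ (matMap m f) _).symm

/-- `twist P'` of the block-disjoint factors commute with `twist P₀` of each other. -/
theorem bottVal_mul (a b : unitInterval) {r : ℕ} {w w' : Fin r} (hw : w ≠ w') (g h : GLinf A) :
    bottVal a b (twist (Ew w) g * twist (Ew w') h) =
      bottVal a b (twist (Ew w) g) * bottVal a b (twist (Ew w') h) := by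
  unfold bottVal
  rw [_root_.map_mul, _root_.map_mul, mul_inv_rev]
  have h1 := twist_twist_comm hw (bottP a b) bottP₀ g h
  have h2 := twist_twist_comm hw bottP₀ (bottP a b) g h
  have h3 := twist_twist_comm hw bottP₀ bottP₀ g h
  set x := twist (bottP a b) (twist (Ew w) g)
  set x' := twist (bottP a b) (twist (Ew w') h)
  set y := twist bottP₀ (twist (Ew w) g)
  set y' := twist bottP₀ (twist (Ew w') h)
  have h2' : Commute y x' := h2
  have h3' : Commute y y' := h3
  have e1 : x' * y'⁻¹ * y⁻¹ = y⁻¹ * (x' * y'⁻¹) := by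
    have hc : Commute y⁻¹ (x' * y'⁻¹) := (h2'.mul_right h3'.inv_right).inv_left
    exact hc.eq.symm
  calc x * x' * (y'⁻¹ * y⁻¹) = x * (x' * y'⁻¹ * y⁻¹) := by group
    _ = x * (y⁻¹ * (x' * y'⁻¹)) := by rw [e1]
    _ = x * y⁻¹ * (x' * y'⁻¹) := by group

end Pool.Agent.Lib.MP_e7fbd4_ag.O
end

section

/-! # The Bott map is additive -/

set_option autoImplicit false
set_option linter.unusedSectionVars false
set_option linter.unusedVariables false

namespace Pool.Agent.Lib.MP_e7fbd4_ag.O

open Pool.Agent.Lib.MP_c052b4_al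

variable {A B C : Type} [Ring A] [Algebra ℂ A] [Ring B] [Algebra ℂ B] [Ring C] [Algebra ℂ C]
  {c : Kind} {m k l : ℕ}

theorem Pair.bott_mul {r : ℕ} {w w' : Fin r} (hw : w ≠ w') (z v : Pair Kind.top m k A) :
    (z.tw (Ew w) * v.tw (Ew w')).bott = (z.tw (Ew w)).bott * (v.tw (Ew w')).bott :=
  Pair.ext' (funext fun x => bottVal_mul _ _ hw _ _) (funext fun x => bottVal_mul _ _ hw _ _)

theorem bott_mk (z : Pair Kind.top m k A) : bott m k A (mkKG z) = mkKG z.bott := rfl

/-- The Bott map as a homomorphism. -/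
noncomputable def bottHom (m k : ℕ) (A : Type) [Ring A] [Algebra ℂ A] :
    KG Kind.top m k A →+ KG Kind.top m (k + 2) A :=
  AddMonoidHom.mk' (bott m k A) (by
    intro x y
    obtain ⟨z, rfl⟩ := exists_mkKG x
    obtain ⟨v, rfl⟩ := exists_mkKG y
    have h : (0 : Fin 2) ≠ 1 := by decide
    rw [← mkKG_tw (0 : Fin 2) z, ← mkKG_tw (1 : Fin 2) v, ← mkKG_mul, bott_mk, bott_mk, bott_mk,
      Pair.bott_mul h, mkKG_mul])

theorem bottHom_apply (x : KG Kind.top m k A) : bottHom m k A x = bott m k A x := rfl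

end Pool.Agent.Lib.MP_e7fbd4_ag.O
end

section

/-! # Matrices over matrices, 2 -/

set_option autoImplicit false
set_option linter.unusedSectionVars false
set_option linter.unusedVariables false

namespace Pool.Agent.Lib.MP_e7fbd4_ag.O

open Pool.Agent.Lib.MP_c052b4_al

variable {A B C : Type} [Ring A] [Algebra ℂ A] [Ring B] [Algebra ℂ B] [Ring C] [Algebra ℂ C]
  {c : Kind} {m k l : ℕ}

/-- The isomorphism `M_m(M_r(A)) → M_r(M_m(A))`. -/
noncomputable def swapM (m r : ℕ) (A : Type) [Ring A] [Algebra ℂ A] :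
    Matrix (Fin m) (Fin m) (Matrix (Fin r) (Fin r) A) →ₐ[ℂ]
      Matrix (Fin r) (Fin r) (Matrix (Fin m) (Fin m) A) where
  toFun M := Matrix.of fun a b => Matrix.of fun i j => M i j a b
  map_one' := by
    ext a b i j
    simp only [Matrix.of_apply, Matrix.one_apply]
    by_cases h1 : i = j
    · by_cases h2 : a = b
      · subst h1
        subst h2
        simp
      · simp [h1, h2]
    · by_cases h2 : a = b
      · simp [h1, h2]
      · simp [h1, h2]
  map_mul' M N := by
    ext a b i j
    simp only [Matrix.of_apply, Matrix.mul_apply, Matrix.sum_apply]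
    rw [Finset.sum_comm]
  map_zero' := rfl
  map_add' M N := rfl
  commutes' z := by
    ext a b i j
    simp only [Matrix.of_apply, Matrix.algebraMap_matrix_apply]
    by_cases h1 : i = j
    · by_cases h2 : a = b
      · subst h1
        subst h2
        simp [Matrix.algebraMap_matrix_apply]
      · simp [h1, h2, Matrix.algebraMap_matrix_apply]
    · by_cases h2 : a = b
      · simp [h1, h2, Matrix.algebraMap_matrix_apply]
      · simp [h1, h2]

theorem swapM_apply (m r : ℕ) (M : Matrix (Fin m) (Fin m) (Matrix (Fin r) (Fin r) A))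
    (a b : Fin r) (i j : Fin m) : swapM m r A M a b i j = M i j a b := rfl

end Pool.Agent.Lib.MP_e7fbd4_ag.O
end

section

/-! # The Morita map on pairs -/

set_option autoImplicit false
set_option linter.unusedSectionVars false
set_option linter.unusedVariables false

namespace Pool.Agent.Lib.MP_e7fbd4_ag.O

open Pool.Agent.Lib.MP_c052b4_al

variable {A B C : Type} [Ring A] [Algebra ℂ A] [Ring B] [Algebra ℂ B] [Ring C] [Algebra ℂ C]
  {c : Kind} {m k l : ℕ}

/-- Compare the entries. -/
theorem flat_dup {r : ℕ} (m : ℕ) (g : GLinf (Matrix (Fin r) (Fin r) A)) :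
    flat r (Matrix (Fin m) (Fin m) A) (GLinf.map (swapM m r A).toRingHom (dup m _ g)) =
      dup m A (flat r A g) := by
  obtain ⟨n, G, rfl⟩ := exists_toGL g
  change toGL _ (n * r) (rU finProdFinEquiv (flU r n (mU (swapM m r A).toRingHom
    (mU (Matrix.scalar (Fin m)) G)))) =
    toGL _ (n * r) (mU (Matrix.scalar (Fin m)) (rU finProdFinEquiv (flU r n G)))
  congr 1
  apply Units.ext
  ext x y i j
  change (Matrix.scalar (Fin m) (G.val (finProdFinEquiv.symm x).1 (finProdFinEquiv.symm y).1)) i j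
    (finProdFinEquiv.symm x).2 (finProdFinEquiv.symm y).2 =
    (Matrix.scalar (Fin m) (G.val (finProdFinEquiv.symm x).1 (finProdFinEquiv.symm y).1
      (finProdFinEquiv.symm x).2 (finProdFinEquiv.symm y).2)) i j
  rw [Matrix.scalar_apply, Matrix.scalar_apply, Matrix.diagonal_apply, Matrix.diagonal_apply]
  by_cases h : i = j
  · rw [if_pos h, if_pos h]
  · rw [if_neg h, if_neg h]
    rfl

theorem IsCube.flat {r : ℕ} {g : Cube k → GLinf (Matrix (Fin r) (Fin r) A)} (hg : IsCube c g) :
    IsCube c fun x => flat r A (g x) := by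
  obtain ⟨n, G, h1, h2, h3⟩ := hg
  refine ⟨n * r, fun x => rU finProdFinEquiv (flU r n (G x)), ?_, ?_, ?_⟩
  · intro i j
    exact fn_matrix_iff.1 (h1 (finProdFinEquiv.symm i).1 (finProdFinEquiv.symm j).1)
      (finProdFinEquiv.symm i).2 (finProdFinEquiv.symm j).2
  · intro i j
    exact fn_matrix_iff.1 (h2 (finProdFinEquiv.symm i).1 (finProdFinEquiv.symm j).1)
      (finProdFinEquiv.symm i).2 (finProdFinEquiv.symm j).2
  · intro x
    beta_reduce
    rw [h3 x, flat_toGL]

end Pool.Agent.Lib.MP_e7fbd4_ag.O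
end

section

/-! # The Morita map -/

set_option autoImplicit false
set_option linter.unusedSectionVars false
set_option linter.unusedVariables false

namespace Pool.Agent.Lib.MP_e7fbd4_ag.O

open Pool.Agent.Lib.MP_c052b4_al

variable {A B C : Type} [Ring A] [Algebra ℂ A] [Ring B] [Algebra ℂ B] [Ring C] [Algebra ℂ C]
  {c : Kind} {m k l : ℕ}

theorem Bdry.mor {r : ℕ} {g : Cube k → GLinf (Matrix (Fin r) (Fin r) A)}
    {p : Cube (k + 1) → GLinf (Matrix (Fin m) (Fin m) (Matrix (Fin r) (Fin r) A))}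
    (h : Bdry m k g p) :
    Bdry m k (fun x => flat r A (g x))
      (fun y => flat r _ (GLinf.map (swapM m r A).toRingHom (p y))) where
  g_bdry x hx := by rw [h.g_bdry x hx, map_one]
  p_zero x := by rw [h.p_zero, map_one, map_one]
  p_one x := by rw [h.p_one, flat_dup]
  p_bdry s x hx := by rw [h.p_bdry s x hx, map_one, map_one]

/-- The Morita map on pairs. -/
noncomputable def Pair.mor {r : ℕ} (z : Pair c m k (Matrix (Fin r) (Fin r) A)) :
    Pair c m k A where
  g x := flat r A (z.g x)
  p y := flat r _ (GLinf.map (swapM m r A).toRingHom (z.p y))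
  hg := z.hg.flat
  hp := IsCube.flat (IsCube.map z.hp (swapM m r A))
  bdry := Bdry.mor z.bdry

theorem Pair.mor_mul {r : ℕ} (z w : Pair c m k (Matrix (Fin r) (Fin r) A)) :
    (z * w).mor = z.mor * w.mor :=
  Pair.ext' (funext fun x => _root_.map_mul _ _ _) (funext fun x => by
    change flat r _ (GLinf.map _ (z.p x * w.p x)) = _
    rw [_root_.map_mul, _root_.map_mul]
    rfl)

theorem Homotopic.mor {r : ℕ} {z w : Pair c m k (Matrix (Fin r) (Fin r) A)}
    (h : Homotopic z w) : Homotopic z.mor w.mor := by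
  obtain ⟨G, P, hG, hP, hb, h1, h2, h3, h4⟩ := h
  refine ⟨fun y => flat r A (G y), fun y => flat r _ (GLinf.map (swapM m r A).toRingHom (P y)),
    hG.flat, IsCube.flat (IsCube.map hP (swapM m r A)), fun t => Bdry.mor (hb t), ?_, ?_, ?_, ?_⟩
  · intro x
    simp only [h1]
    rfl
  · intro y
    simp only [h2]
    rfl
  · intro x
    simp only [h3]
    rfl
  · intro y
    simp only [h4]
    rfl

/-- The Morita map `KG(M_r(A)) → KG(A)`. -/
noncomputable def kgMor (c : Kind) (m k r : ℕ) (A : Type) [Ring A] [Algebra ℂ A] :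
    KG c m k (Matrix (Fin r) (Fin r) A) →+ KG c m k A where
  toFun := Quot.map Pair.mor fun _ _ h => h.mor
  map_zero' := congrArg mkKG (Pair.ext' (funext fun x => map_one _) (funext fun x => by
    change flat r _ (GLinf.map _ 1) = 1
    rw [map_one, map_one]))
  map_add' := by
    rintro ⟨x⟩ ⟨y⟩
    exact congrArg mkKG (Pair.mor_mul x y)

theorem kgMor_mk {r : ℕ} (z : Pair c m k (Matrix (Fin r) (Fin r) A)) :
    kgMor c m k r A (mkKG z) = mkKG z.mor := rfl

end Pool.Agent.Lib.MP_e7fbd4_ag.O
end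

section

/-! # The Morita map and diagonal homomorphisms, 2 -/

set_option autoImplicit false
set_option linter.unusedSectionVars false
set_option linter.unusedVariables false

namespace Pool.Agent.Lib.MP_e7fbd4_ag.O

open Pool.Agent.Lib.MP_c052b4_al

variable {A B C : Type} [Ring A] [Algebra ℂ A] [Ring B] [Algebra ℂ B] [Ring C] [Algebra ℂ C]
  {c : Kind} {m k l : ℕ}

theorem swapM_comp_diag {r : ℕ} (m : ℕ) (φ : Fin r → (C →ₐ[ℂ] B)) :
    (swapM m r B).comp (matMap m (diagHom φ)) = diagHom fun w => matMap m (φ w) := by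
  apply AlgHom.ext
  intro M
  ext a b i j
  change Matrix.diagonal (fun w => φ w (M i j)) a b =
    (Matrix.diagonal (fun w => matMap m (φ w) M) a b) i j
  rw [Matrix.diagonal_apply, Matrix.diagonal_apply]
  by_cases h : a = b
  · rw [if_pos h, if_pos h]
    rfl
  · rw [if_neg h, if_neg h]
    rfl

/-- `z.map (diagHom φ)).mor` is the product of the pairs `(z.map (φ w)).tw (Ew w)`. -/
theorem mor_diag {r : ℕ} (φ : Fin r → (C →ₐ[ℂ] B)) (z : Pair c m k C) :
    (z.map (diagHom φ)).mor = (List.ofFn fun w => (z.map (φ w)).tw (Ew w)).prod := by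
  have hg : ∀ (L : List (Pair c m k B)) (x : Cube k),
      (L.prod).g x = (L.map fun z => z.g x).prod := by
    intro L x
    induction L with
    | nil => rfl
    | cons z L ih => rw [List.prod_cons, List.map_cons, List.prod_cons, ← ih, Pair.mul_g]
  have hp : ∀ (L : List (Pair c m k B)) (x : Cube (k + 1)),
      (L.prod).p x = (L.map fun z => z.p x).prod := by
    intro L x
    induction L with
    | nil => rfl
    | cons z L ih => rw [List.prod_cons, List.map_cons, List.prod_cons, ← ih, Pair.mul_p]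
  apply Pair.ext'
  · funext x
    rw [hg, List.map_ofFn]
    exact flat_diag φ (z.g x)
  · funext y
    rw [hp, List.map_ofFn]
    change flat r _ (GLinf.map (swapM m r B).toRingHom
      (GLinf.map (matMap m (diagHom φ)).toRingHom (z.p y))) = _
    rw [GLinf_map_comp]
    have h1 : (swapM m r B).toRingHom.comp (matMap m (diagHom φ)).toRingHom =
        ((swapM m r B).comp (matMap m (diagHom φ))).toRingHom := rfl
    rw [h1, swapM_comp_diag]
    exact flat_diag (fun w => matMap m (φ w)) (z.p y)

/-- **Additivity.** -/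
theorem kgMor_diag {r : ℕ} (φ : Fin r → (C →ₐ[ℂ] B)) (x : KG c m k C) :
    kgMor c m k r B (kgMap c m k (diagHom φ) x) = ∑ w, kgMap c m k (φ w) x := by
  obtain ⟨z, rfl⟩ := exists_mkKG x
  rw [kgMap_mk, kgMor_mk, mor_diag]
  have h1 : ∀ L : List (Pair c m k B), mkKG L.prod = (L.map mkKG).sum := by
    intro L
    induction L with
    | nil => rfl
    | cons z L ih => rw [List.prod_cons, List.map_cons, List.sum_cons, ← ih, mkKG_mul]
  rw [h1, List.map_ofFn, List.sum_ofFn]
  refine Finset.sum_congr rfl fun w _ => ?_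
  rw [kgMap_mk]
  exact mkKG_tw w _

end Pool.Agent.Lib.MP_e7fbd4_ag.O
end
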