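import Mathlib

section

open scoped TensorProduct

set_option autoImplicit false

namespace Pool.Agent.Lib.MP_e7fbd4_ag

theorem isInternal_of_basis {κ M : Type} [AddCommGroup M] [Module ℂ M] (b : Module.Basis κ ℂ M)
    (δ : κ → ℤ) :
    DirectSum.IsInternal (fun n : ℤ => Submodule.span ℂ (b '' {k | δ k = n})) := by
  rw [DirectSum.isInternal_submodule_iff_iSupIndep_and_iSup_eq_top]
  constructor
  · intro n
    have h : (⨆ (m : ℤ) (_ : m ≠ n), Submodule.span ℂ (b '' {k | δ k = m})) ≤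
        Submodule.span ℂ (b '' {k | δ k ≠ n}) := by
      refine iSup₂_le fun m hm => Submodule.span_mono ?_
      refine Set.image_mono ?_
      intro k hk
      simp only [Set.mem_ofPred_eq] at hk ⊢
      rw [hk]; exact hm
    refine Disjoint.mono_right h ?_
    refine b.linearIndependent.disjoint_span_image ?_
    rw [Set.disjoint_left]
    intro k hk hk'
    exact hk' hk
  · rw [eq_top_iff, ← b.span_eq, Submodule.span_le]
    rintro _ ⟨k, rfl⟩
    exact Submodule.mem_iSup_of_mem (δ k) (Submodule.subset_span ⟨k, rfl, rfl⟩)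

variable {X : Type}

/-- the word `x_1 x_2 ... x_n` in the free algebra -/
noncomputable def word : FreeMonoid X →* FreeAlgebra ℂ X := FreeMonoid.lift (FreeAlgebra.ι ℂ)

theorem word_of (x : X) : word (FreeMonoid.of x) = FreeAlgebra.ι ℂ x := by
  simp [word]

theorem basis_eq_word (u : FreeMonoid X) : FreeAlgebra.basisFreeMonoid ℂ X u = word u := by
  rw [FreeAlgebra.basisFreeMonoid]
  simp [FreeAlgebra.equivMonoidAlgebraFreeMonoid, word]

/-- the degree of a word -/
def wdeg (deg : X → ℤ) : FreeMonoid X →* Multiplicative ℤ :=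
  FreeMonoid.lift (fun x => Multiplicative.ofAdd (deg x))

/-- The subspace of elements of degree `n` in the free algebra on letters with given degrees. -/
noncomputable def fgr (deg : X → ℤ) (n : ℤ) : Submodule ℂ (FreeAlgebra ℂ X) :=
  Submodule.span ℂ (word '' {u | (wdeg deg u).toAdd = n})

theorem fgr_internal (deg : X → ℤ) : DirectSum.IsInternal (fgr deg) := by
  have h := isInternal_of_basis (FreeAlgebra.basisFreeMonoid ℂ X) (fun u => (wdeg deg u).toAdd)
  have e : (⇑(FreeAlgebra.basisFreeMonoid ℂ X)) = ⇑(word (X := X)) := funext basis_eq_word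
  rw [e] at h
  exact h

theorem word_mem_fgr (deg : X → ℤ) (u : FreeMonoid X) : word u ∈ fgr deg (wdeg deg u).toAdd :=
  Submodule.subset_span ⟨u, rfl, rfl⟩

theorem one_mem_fgr (deg : X → ℤ) : (1 : FreeAlgebra ℂ X) ∈ fgr deg 0 := by
  have h := word_mem_fgr deg (1 : FreeMonoid X)
  rw [map_one word] at h
  exact h

theorem ι_mem_fgr (deg : X → ℤ) (x : X) : FreeAlgebra.ι ℂ x ∈ fgr deg (deg x) := by
  have h := word_mem_fgr deg (FreeMonoid.of x)
  rwa [word_of, wdeg, FreeMonoid.lift_eval_of] at h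

theorem mul_mem_fgr (deg : X → ℤ) {m n : ℤ} {a b : FreeAlgebra ℂ X} (ha : a ∈ fgr deg m)
    (hb : b ∈ fgr deg n) : a * b ∈ fgr deg (m + n) := by
  unfold fgr at ha
  induction ha using Submodule.span_induction with
  | mem x hx =>
    unfold fgr at hb
    induction hb using Submodule.span_induction with
    | mem y hy =>
      obtain ⟨u, hu, rfl⟩ := hx
      obtain ⟨v, hv, rfl⟩ := hy
      rw [← map_mul]
      simp only [Set.mem_ofPred_eq] at hu hv
      have h := word_mem_fgr deg (u * v)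
      rwa [map_mul (wdeg deg), toAdd_mul, hu, hv] at h
    | zero => rw [mul_zero]; exact Submodule.zero_mem _
    | add y z _ _ hy hz => rw [mul_add]; exact Submodule.add_mem _ hy hz
    | smul c y _ hy => rw [mul_smul_comm]; exact Submodule.smul_mem _ _ hy
  | zero => rw [zero_mul]; exact Submodule.zero_mem _
  | add y z _ _ hy hz => rw [add_mul]; exact Submodule.add_mem _ hy hz
  | smul c y _ hy => rw [smul_mul_assoc]; exact Submodule.smul_mem _ _ hy

theorem fgr_span (deg : X → ℤ) : (⨆ n, fgr deg n) = ⊤ :=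
  (fgr_internal deg).submodule_iSup_eq_top

/-- the parity automorphism -/
noncomputable def sg (deg : X → ℤ) : FreeAlgebra ℂ X →ₐ[ℂ] FreeAlgebra ℂ X :=
  FreeAlgebra.lift ℂ (fun x => (-1 : ℂ) ^ (deg x) • FreeAlgebra.ι ℂ x)

theorem sg_ι (deg : X → ℤ) (x : X) :
    sg deg (FreeAlgebra.ι ℂ x) = (-1 : ℂ) ^ (deg x) • FreeAlgebra.ι ℂ x := by
  simp [sg]

theorem sg_word (deg : X → ℤ) (u : FreeMonoid X) :
    sg deg (word u) = (-1 : ℂ) ^ (wdeg deg u).toAdd • word u := by
  induction u using FreeMonoid.inductionOn' with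
  | one => rw [map_one word, map_one, map_one (wdeg deg), toAdd_one, zpow_zero, one_smul]
  | of_mul x xs ih =>
    rw [map_mul word, map_mul (sg deg), ih, word_of, sg_ι, map_mul (wdeg deg), toAdd_mul, wdeg,
      FreeMonoid.lift_eval_of, toAdd_ofAdd, zpow_add₀ (by norm_num), smul_mul_smul_comm]

theorem sg_of_mem (deg : X → ℤ) (n : ℤ) {a : FreeAlgebra ℂ X} (ha : a ∈ fgr deg n) :
    sg deg a = (-1 : ℂ) ^ n • a := by
  unfold fgr at ha
  induction ha using Submodule.span_induction with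
  | mem x hx =>
    obtain ⟨u, hu, rfl⟩ := hx
    simp only [Set.mem_ofPred_eq] at hu
    rw [sg_word, hu]
  | zero => simp
  | add y z _ _ hy hz => rw [map_add, hy, hz, smul_add]
  | smul c y _ hy => rw [map_smul, hy, smul_comm]

theorem sg_sg (deg : X → ℤ) (a : FreeAlgebra ℂ X) : sg deg (sg deg a) = a := by
  have h : (sg deg).comp (sg deg) = AlgHom.id ℂ _ := by
    apply FreeAlgebra.hom_ext
    funext x
    simp only [Function.comp_apply, AlgHom.comp_apply, sg_ι, map_smul, smul_smul, AlgHom.id_apply]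
    rw [← mul_zpow]
    norm_num
  exact DFunLike.congr_fun h a

/-- two linear maps which agree on all graded pieces are equal -/
theorem eq_of_gr {M N : Type} [AddCommMonoid M] [Module ℂ M] [AddCommMonoid N] [Module ℂ N]
    (gr : ℤ → Submodule ℂ M) (h1 : (⨆ n, gr n) = ⊤) (f g : M →ₗ[ℂ] N)
    (hfg : ∀ n, ∀ m ∈ gr n, f m = g m) : f = g := by
  have h2 : (⨆ n, gr n) ≤ LinearMap.eqLocus f g := iSup_le fun n m hm => hfg n m hm
  rw [h1] at h2
  exact LinearMap.ext fun m => h2 (Submodule.mem_top)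

/-- a graded algebra derivation (twisted by `σ`) with prescribed values on the letters -/
theorem exists_skewDer {P : Type} [AddCommMonoid P] [Module ℂ P]
    (l r : FreeAlgebra ℂ X →ₗ[ℂ] P →ₗ[ℂ] P) (one_l : ∀ p, l 1 p = p) (one_r : ∀ p, r 1 p = p)
    (mul_l : ∀ a b p, l (a * b) p = l a (l b p)) (mul_r : ∀ a b p, r (a * b) p = r b (r a p))
    (l_r : ∀ a b p, l a (r b p) = r b (l a p)) (σ : FreeAlgebra ℂ X →ₐ[ℂ] FreeAlgebra ℂ X)
    (D₀ : X → P) :
    ∃ D : FreeAlgebra ℂ X →ₗ[ℂ] P, (∀ x, D (FreeAlgebra.ι ℂ x) = D₀ x) ∧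
      ∀ a b, D (a * b) = r b (D a) + l (σ a) (D b) := by
  let Ψ : FreeAlgebra ℂ X →ₐ[ℂ] Module.End ℂ (P × FreeAlgebra ℂ X) :=
    FreeAlgebra.lift ℂ (fun x => LinearMap.prod
      (l (σ (FreeAlgebra.ι ℂ x)) ∘ₗ LinearMap.fst ℂ P (FreeAlgebra ℂ X) +
        r.flip (D₀ x) ∘ₗ LinearMap.snd ℂ P (FreeAlgebra ℂ X))
      (LinearMap.mulLeft ℂ (FreeAlgebra.ι ℂ x) ∘ₗ LinearMap.snd ℂ P (FreeAlgebra ℂ X)))
  have hΨ : ∀ x, Ψ (FreeAlgebra.ι ℂ x) = LinearMap.prod
      (l (σ (FreeAlgebra.ι ℂ x)) ∘ₗ LinearMap.fst ℂ P (FreeAlgebra ℂ X) +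
        r.flip (D₀ x) ∘ₗ LinearMap.snd ℂ P (FreeAlgebra ℂ X))
      (LinearMap.mulLeft ℂ (FreeAlgebra.ι ℂ x) ∘ₗ LinearMap.snd ℂ P (FreeAlgebra ℂ X)) :=
    fun x => FreeAlgebra.lift_ι_apply _ _
  let D : FreeAlgebra ℂ X →ₗ[ℂ] P :=
    { toFun := fun a => (Ψ a (0, 1)).1
      map_add' := by intro a b; simp
      map_smul' := by intro c a; simp }
  have hD : ∀ a, D a = (Ψ a (0, 1)).1 := fun a => rfl
  have key : ∀ a, ∀ p b, Ψ a (p, b) = (l (σ a) p + r b (D a), a * b) := by
    intro a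
    induction a using FreeAlgebra.induction with
    | grade0 c =>
      intro p b
      rw [hD, AlgHom.commutes, AlgHom.commutes]
      simp [Algebra.algebraMap_eq_smul_one, one_l]
    | grade1 x =>
      intro p b
      rw [hD, hΨ]
      simp [one_r]
    | mul a b ha hb =>
      intro p c
      have h1 : D (a * b) = l (σ a) (D b) + r b (D a) := by
        rw [hD, map_mul, Module.End.mul_apply, hb, ha]
        simp [one_r]
      rw [map_mul, Module.End.mul_apply, hb, ha, h1, map_mul σ, mul_l]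
      simp [mul_r, l_r, mul_assoc, add_assoc]
    | add a b ha hb =>
      intro p c
      rw [map_add, LinearMap.add_apply, ha, hb, map_add σ, map_add D]
      simp only [map_add, LinearMap.add_apply, add_mul, Prod.mk_add_mk]
      congr 1
      abel
  refine ⟨D, ?_, ?_⟩
  · intro x
    rw [hD, hΨ]
    simp [one_r]
  · intro a b
    rw [hD (a * b), map_mul, Module.End.mul_apply, key b, key a]
    simp [one_r, add_comm]

end Pool.Agent.Lib.MP_e7fbd4_ag
end

section

open scoped TensorProduct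

set_option autoImplicit false

namespace Pool.Agent.Lib.MP_e7fbd4_ag

variable {X J : Type}

/-- the free bimodule on the set `J` over the free algebra on `X` -/
abbrev FB (J X : Type) : Type := J →₀ (FreeAlgebra ℂ X ⊗[ℂ] FreeAlgebra ℂ X)

/-- the element `a e_j b` -/
noncomputable def el (j : J) : FreeAlgebra ℂ X →ₗ[ℂ] FreeAlgebra ℂ X →ₗ[ℂ] FB J X :=
  (TensorProduct.mk ℂ _ _).compr₂ (Finsupp.lsingle j)

theorem el_apply (j : J) (a b : FreeAlgebra ℂ X) : el j a b = Finsupp.single j (a ⊗ₜ[ℂ] b) := rfl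

/-- a linear map on the free bimodule is the same as a family of bilinear maps -/
noncomputable def mkLin {N : Type} [AddCommMonoid N] [Module ℂ N]
    (F : J → FreeAlgebra ℂ X →ₗ[ℂ] FreeAlgebra ℂ X →ₗ[ℂ] N) : FB J X →ₗ[ℂ] N :=
  Finsupp.lsum ℂ (fun j => TensorProduct.lift (F j))

theorem mkLin_el {N : Type} [AddCommMonoid N] [Module ℂ N]
    (F : J → FreeAlgebra ℂ X →ₗ[ℂ] FreeAlgebra ℂ X →ₗ[ℂ] N) (j : J) (a b : FreeAlgebra ℂ X) :
    mkLin F (el j a b) = F j a b := by
  simp [mkLin, el_apply]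

theorem FB_ext {N : Type} [AddCommMonoid N] [Module ℂ N] (f g : FB J X →ₗ[ℂ] N)
    (h : ∀ j a b, f (el j a b) = g (el j a b)) : f = g := by
  apply Finsupp.lhom_ext'
  intro j
  apply TensorProduct.ext'
  intro a b
  exact h j a b

/-- the left multiplication -/
noncomputable def lact : FreeAlgebra ℂ X →ₗ[ℂ] FB J X →ₗ[ℂ] FB J X :=
  (mkLin (N := FreeAlgebra ℂ X →ₗ[ℂ] FB J X) (fun j => LinearMap.mk₂ ℂ
    (fun u v => (((el j).flip v) ∘ₗ LinearMap.mulRight ℂ u : FreeAlgebra ℂ X →ₗ[ℂ] FB J X))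
    (by intro u u' v; ext a : 1; simp [mul_add])
    (by intro c u v; ext a : 1; simp)
    (by intro u v v'; ext a : 1; simp)
    (by intro c u v; ext a : 1; simp))).flip

theorem lact_el (a u v : FreeAlgebra ℂ X) (j : J) : lact a (el j u v) = el j (a * u) v := by
  rw [lact, LinearMap.flip_apply, mkLin_el]
  rfl

/-- the right multiplication -/
noncomputable def ract : FreeAlgebra ℂ X →ₗ[ℂ] FB J X →ₗ[ℂ] FB J X :=
  (mkLin (N := FreeAlgebra ℂ X →ₗ[ℂ] FB J X) (fun j => LinearMap.mk₂ ℂ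
    (fun u v => ((el j u) ∘ₗ LinearMap.mulLeft ℂ v : FreeAlgebra ℂ X →ₗ[ℂ] FB J X))
    (by intro u u' v; ext a : 1; simp)
    (by intro c u v; ext a : 1; simp)
    (by intro u v v'; ext a : 1; simp [add_mul])
    (by intro c u v; ext a : 1; simp))).flip

theorem ract_el (b u v : FreeAlgebra ℂ X) (j : J) : ract b (el j u v) = el j u (v * b) := by
  rw [ract, LinearMap.flip_apply, mkLin_el]
  rfl

theorem one_lact (p : FB J X) : lact 1 p = p := by
  have h : (lact (1 : FreeAlgebra ℂ X) : FB J X →ₗ[ℂ] FB J X) = LinearMap.id :=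
    FB_ext _ _ (by intro j a b; rw [lact_el]; simp)
  rw [h]; rfl

theorem one_ract (p : FB J X) : ract 1 p = p := by
  have h : (ract (1 : FreeAlgebra ℂ X) : FB J X →ₗ[ℂ] FB J X) = LinearMap.id :=
    FB_ext _ _ (by intro j a b; rw [ract_el]; simp)
  rw [h]; rfl

theorem mul_lact (a b : FreeAlgebra ℂ X) (p : FB J X) : lact (a * b) p = lact a (lact b p) := by
  have h : (lact (a * b) : FB J X →ₗ[ℂ] FB J X) = (lact a) ∘ₗ (lact b) :=
    FB_ext _ _ (by intro j u v; rw [LinearMap.comp_apply, lact_el, lact_el, lact_el, mul_assoc])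
  rw [h]; rfl

theorem mul_ract (a b : FreeAlgebra ℂ X) (p : FB J X) : ract (a * b) p = ract b (ract a p) := by
  have h : (ract (a * b) : FB J X →ₗ[ℂ] FB J X) = (ract b) ∘ₗ (ract a) :=
    FB_ext _ _ (by intro j u v; rw [LinearMap.comp_apply, ract_el, ract_el, ract_el, mul_assoc])
  rw [h]; rfl

theorem lact_ract (a b : FreeAlgebra ℂ X) (p : FB J X) : lact a (ract b p) = ract b (lact a p) := by
  have h : ((lact a) ∘ₗ (ract b) : FB J X →ₗ[ℂ] FB J X) = (ract b) ∘ₗ (lact a) :=
    FB_ext _ _ (by intro j u v; rw [LinearMap.comp_apply, LinearMap.comp_apply, ract_el, lact_el,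
      lact_el, ract_el])
  exact DFunLike.congr_fun h p

theorem el_eq_act (j : J) (a b : FreeAlgebra ℂ X) : el j a b = lact a (ract b (el j 1 1)) := by
  rw [ract_el, lact_el, mul_one, one_mul]

/-! ### the grading -/

theorem isInternal_of_basis' {κ M : Type} [AddCommMonoid M] [Module ℂ M]
    (b : Module.Basis κ ℂ M) (δ : κ → ℤ) :
    DirectSum.IsInternal (fun n : ℤ => Submodule.span ℂ (b '' {k | δ k = n})) := by
  let _ : AddCommGroup M := Module.addCommMonoidToAddCommGroup ℂ
  exact isInternal_of_basis b δ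

/-- the graded pieces of the free bimodule, generators in degrees `δ j` -/
noncomputable def gP (deg : X → ℤ) (δ : J → ℤ) (n : ℤ) : Submodule ℂ (FB J X) :=
  Submodule.span ℂ {p | ∃ (j : J) (u v : FreeMonoid X),
    δ j + (wdeg deg u).toAdd + (wdeg deg v).toAdd = n ∧ p = el j (word u) (word v)}

theorem gP_internal (deg : X → ℤ) (δ : J → ℤ) : DirectSum.IsInternal (gP (X := X) deg δ) := by
  have h := isInternal_of_basis' (Finsupp.basis (fun _ : J =>
    (FreeAlgebra.basisFreeMonoid ℂ X).tensorProduct (FreeAlgebra.basisFreeMonoid ℂ X)))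
    (fun k => δ k.1 + (wdeg deg k.2.1).toAdd + (wdeg deg k.2.2).toAdd)
  refine (congrArg DirectSum.IsInternal (funext fun n => ?_)).mp h
  unfold gP
  congr 1
  ext p
  constructor
  · rintro ⟨⟨j, u, v⟩, hk, rfl⟩
    refine ⟨j, u, v, hk, ?_⟩
    rw [Finsupp.coe_basis]
    simp [basis_eq_word, el_apply]
  · rintro ⟨j, u, v, hk, rfl⟩
    refine ⟨⟨j, u, v⟩, hk, ?_⟩
    rw [Finsupp.coe_basis]
    simp [basis_eq_word, el_apply]

theorem el_mem_gP (deg : X → ℤ) (δ : J → ℤ) {m n : ℤ} {a b : FreeAlgebra ℂ X} (j : J)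
    (ha : a ∈ fgr deg m) (hb : b ∈ fgr deg n) : el j a b ∈ gP deg δ (δ j + m + n) := by
  unfold fgr at ha
  induction ha using Submodule.span_induction with
  | mem x hx =>
    unfold fgr at hb
    induction hb using Submodule.span_induction with
    | mem y hy =>
      obtain ⟨u, hu, rfl⟩ := hx
      obtain ⟨v, hv, rfl⟩ := hy
      simp only [Set.mem_ofPred_eq] at hu hv
      exact Submodule.subset_span ⟨j, u, v, by rw [hu, hv], rfl⟩
    | zero => rw [map_zero]; exact Submodule.zero_mem _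
    | add y z _ _ hy hz => rw [map_add]; exact Submodule.add_mem _ hy hz
    | smul c y _ hy => rw [map_smul]; exact Submodule.smul_mem _ _ hy
  | zero => rw [map_zero]; exact Submodule.zero_mem _
  | add y z _ _ hy hz => rw [map_add]; exact Submodule.add_mem _ hy hz
  | smul c y _ hy => rw [map_smul]; exact Submodule.smul_mem _ _ hy

theorem lact_mem_gP (deg : X → ℤ) (δ : J → ℤ) {m n : ℤ} {a : FreeAlgebra ℂ X} {p : FB J X}
    (ha : a ∈ fgr deg m) (hp : p ∈ gP deg δ n) : lact a p ∈ gP deg δ (m + n) := by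
  unfold gP at hp
  induction hp using Submodule.span_induction with
  | mem x hx =>
    obtain ⟨j, u, v, huv, rfl⟩ := hx
    rw [lact_el]
    have h := el_mem_gP deg δ j (mul_mem_fgr deg ha (word_mem_fgr deg u)) (word_mem_fgr deg v)
    have e : m + n = δ j + (m + (wdeg deg u).toAdd) + (wdeg deg v).toAdd := by rw [← huv]; ring
    rw [e]; exact h
  | zero => rw [map_zero]; exact Submodule.zero_mem _
  | add y z _ _ hy hz => rw [map_add]; exact Submodule.add_mem _ hy hz
  | smul c y _ hy => rw [map_smul]; exact Submodule.smul_mem _ _ hy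

theorem ract_mem_gP (deg : X → ℤ) (δ : J → ℤ) {m n : ℤ} {b : FreeAlgebra ℂ X} {p : FB J X}
    (hb : b ∈ fgr deg m) (hp : p ∈ gP deg δ n) : ract b p ∈ gP deg δ (n + m) := by
  unfold gP at hp
  induction hp using Submodule.span_induction with
  | mem x hx =>
    obtain ⟨j, u, v, huv, rfl⟩ := hx
    rw [ract_el]
    have h := el_mem_gP deg δ j (word_mem_fgr deg u) (mul_mem_fgr deg (word_mem_fgr deg v) hb)
    have e : n + m = δ j + (wdeg deg u).toAdd + ((wdeg deg v).toAdd + m) := by rw [← huv]; ring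
    rw [e]; exact h
  | zero => rw [map_zero]; exact Submodule.zero_mem _
  | add y z _ _ hy hz => rw [map_add]; exact Submodule.add_mem _ hy hz
  | smul c y _ hy => rw [map_smul]; exact Submodule.smul_mem _ _ hy

/-- the parity operator of the free bimodule -/
noncomputable def sP (deg : X → ℤ) (δ : J → ℤ) : FB J X →ₗ[ℂ] FB J X :=
  mkLin (fun j => ((-1 : ℂ) ^ (δ j)) • (el j).compl₁₂ (sg deg).toLinearMap (sg deg).toLinearMap)

theorem sP_el (deg : X → ℤ) (δ : J → ℤ) (j : J) (a b : FreeAlgebra ℂ X) :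
    sP deg δ (el j a b) = ((-1 : ℂ) ^ (δ j)) • el j (sg deg a) (sg deg b) := by
  rw [sP, mkLin_el]
  rfl

theorem sP_of_mem (deg : X → ℤ) (δ : J → ℤ) (n : ℤ) {p : FB J X} (hp : p ∈ gP deg δ n) :
    sP deg δ p = (-1 : ℂ) ^ n • p := by
  unfold gP at hp
  induction hp using Submodule.span_induction with
  | mem x hx =>
    obtain ⟨j, u, v, huv, rfl⟩ := hx
    rw [sP_el, sg_word, sg_word, map_smul, map_smul, LinearMap.smul_apply, smul_smul, smul_smul,
      ← huv, zpow_add₀ (by norm_num), zpow_add₀ (by norm_num)]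
    congr 1
    ring
  | zero => simp
  | add y z _ _ hy hz => rw [map_add, hy, hz, smul_add]
  | smul c y _ hy => rw [map_smul, hy, smul_comm]

theorem sP_sP (deg : X → ℤ) (δ : J → ℤ) (p : FB J X) : sP deg δ (sP deg δ p) = p := by
  have h : (sP deg δ) ∘ₗ (sP deg δ) = (LinearMap.id : FB J X →ₗ[ℂ] FB J X) := by
    apply FB_ext
    intro j a b
    rw [LinearMap.comp_apply, sP_el, map_smul, sP_el, sg_sg, sg_sg, smul_smul, ← mul_zpow]
    norm_num
  exact DFunLike.congr_fun h p

end Pool.Agent.Lib.MP_e7fbd4_ag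
end

section

/-!
# MP_e7fbd4_ag, part S: dg algebras, dg bimodules, smoothness (definitions)

Plain, statement level definitions: a dg algebra over `ℂ`, dg bimodules over it, finite semi-free
dg bimodules, quasi-isomorphisms, smooth dg algebras and `H_0` of a connective dg algebra.
-/

open scoped TensorProduct

set_option autoImplicit false

namespace Pool.Agent.Lib.MP_e7fbd4_ag

/-- A differential graded algebra over `ℂ` (homological grading): an associative unital
`ℂ`-algebra `A` which is the direct sum of subspaces `A_n` (`n ∈ ℤ`) with `1 ∈ A_0` and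
`A_m A_n ⊆ A_{m+n}`, together with a `ℂ`-linear map `d : A → A` such that `d A_n ⊆ A_{n-1}`,
`d (d a) = 0` and `d (a b) = (d a) b + (-1)^n a (d b)` for `a ∈ A_n`. -/
structure DGAlgebra where
  A : Type
  [ring : Ring A]
  [algebra : Algebra ℂ A]
  gr : ℤ → Submodule ℂ A
  internal : DirectSum.IsInternal gr
  one_mem : (1 : A) ∈ gr 0
  mul_mem : ∀ (m n : ℤ) (a b : A), a ∈ gr m → b ∈ gr n → a * b ∈ gr (m + n)
  d : A →ₗ[ℂ] A
  d_mem : ∀ (n : ℤ) (a : A), a ∈ gr n → d a ∈ gr (n - 1)
  d_d : ∀ a : A, d (d a) = 0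
  d_mul : ∀ (n : ℤ) (a b : A), a ∈ gr n → d (a * b) = d a * b + (-1 : ℂ) ^ n • (a * d b)

attribute [instance] DGAlgebra.ring DGAlgebra.algebra

/-- A dg bimodule over the dg algebra `A`: a `ℂ`-vector space `M` with a left multiplication
`l a m = a m` and a right multiplication `r b m = m b` (bilinear, unital, associative and
commuting with each other), which is the direct sum of subspaces `M_n` (`n ∈ ℤ`) with
`A_i M_n ⊆ M_{i+n}` and `M_n A_i ⊆ M_{n+i}`, together with a `ℂ`-linear map `d : M → M` such that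
`d M_n ⊆ M_{n-1}`, `d (d m) = 0`, `d (a m) = (d a) m + (-1)^i a (d m)` for `a ∈ A_i` and
`d (m b) = (d m) b + (-1)^n m (d b)` for `m ∈ M_n`. -/
structure DGBimodule (A : DGAlgebra) where
  M : Type
  [acg : AddCommGroup M]
  [mod : Module ℂ M]
  l : A.A →ₗ[ℂ] M →ₗ[ℂ] M
  r : A.A →ₗ[ℂ] M →ₗ[ℂ] M
  one_l : ∀ m : M, l 1 m = m
  one_r : ∀ m : M, r 1 m = m
  mul_l : ∀ (a b : A.A) (m : M), l (a * b) m = l a (l b m)
  mul_r : ∀ (a b : A.A) (m : M), r (a * b) m = r b (r a m)
  l_r : ∀ (a b : A.A) (m : M), l a (r b m) = r b (l a m)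
  gr : ℤ → Submodule ℂ M
  internal : DirectSum.IsInternal gr
  l_mem : ∀ (i n : ℤ) (a : A.A) (m : M), a ∈ A.gr i → m ∈ gr n → l a m ∈ gr (i + n)
  r_mem : ∀ (i n : ℤ) (b : A.A) (m : M), b ∈ A.gr i → m ∈ gr n → r b m ∈ gr (n + i)
  d : M →ₗ[ℂ] M
  d_mem : ∀ (n : ℤ) (m : M), m ∈ gr n → d m ∈ gr (n - 1)
  d_d : ∀ m : M, d (d m) = 0
  d_l : ∀ (i : ℤ) (a : A.A) (m : M), a ∈ A.gr i →
    d (l a m) = l (A.d a) m + (-1 : ℂ) ^ i • l a (d m)
  d_r : ∀ (n : ℤ) (b : A.A) (m : M), m ∈ gr n →
    d (r b m) = r b (d m) + (-1 : ℂ) ^ n • r (A.d b) m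

attribute [instance] DGBimodule.acg DGBimodule.mod

/-- The diagonal dg bimodule: `A` itself, with its own multiplication, grading and
differential. -/
def DGAlgebra.diag (A : DGAlgebra) : DGBimodule A where
  M := A.A
  l := LinearMap.mul ℂ A.A
  r := (LinearMap.mul ℂ A.A).flip
  one_l := by intro m; simp
  one_r := by intro m; simp
  mul_l := by intro a b m; simp [mul_assoc]
  mul_r := by intro a b m; simp [mul_assoc]
  l_r := by intro a b m; simp [mul_assoc]
  gr := A.gr
  internal := A.internal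
  l_mem := by intro i n a m ha hm; exact A.mul_mem i n a m ha hm
  r_mem := by intro i n b m hb hm; exact A.mul_mem n i m b hm hb
  d := A.d
  d_mem := A.d_mem
  d_d := A.d_d
  d_l := by intro i a m ha; exact A.d_mul i a m ha
  d_r := by intro n b m hm; exact A.d_mul n m b hm

/-- `f : P → N` is a quasi-isomorphism of dg bimodules: it is a homomorphism of bimodules, it
preserves the grading, it commutes with the differentials and it induces a bijection on homology
(`ker d / im d`). -/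
structure IsQuasiIso {A : DGAlgebra} (P N : DGBimodule A) (f : P.M →ₗ[ℂ] N.M) : Prop where
  map_l : ∀ (a : A.A) (m : P.M), f (P.l a m) = N.l a (f m)
  map_r : ∀ (b : A.A) (m : P.M), f (P.r b m) = N.r b (f m)
  map_gr : ∀ (n : ℤ) (m : P.M), m ∈ P.gr n → f m ∈ N.gr n
  map_d : ∀ m : P.M, f (P.d m) = N.d (f m)
  surj : ∀ n : N.M, N.d n = 0 → ∃ p : P.M, P.d p = 0 ∧ ∃ q : N.M, n = f p + N.d q
  inj : ∀ p : P.M, P.d p = 0 → (∃ q : N.M, f p = N.d q) → ∃ p' : P.M, p = P.d p'

/-- For `e ∈ P`, the linear map `A ⊗ A → P`, `a ⊗ b ↦ a e b`. -/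
def DGBimodule.sandwich {A : DGAlgebra} (P : DGBimodule A) (e : P.M) :
    A.A ⊗[ℂ] A.A →ₗ[ℂ] P.M :=
  TensorProduct.lift
    (LinearMap.mk₂ ℂ (fun a b => P.l a (P.r b e))
      (by intro a a' b; simp) (by intro c a b; simp)
      (by intro a b b'; simp) (by intro c a b; simp))

/-- A dg bimodule `P` is finite semi-free: there are finitely many homogeneous elements `e_j`
which form a basis of `P` as a bimodule (every element of `P` is `∑ a e_j b` in a unique way, that
is `⨁_j A ⊗ A → P` is bijective), with ranks `ρ_j ∈ ℕ`, such that `d e_j` lies in the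
sub-bimodule generated by the `e_i` with `ρ_i < ρ_j`. -/
def DGBimodule.FiniteSemifree {A : DGAlgebra} (P : DGBimodule A) : Prop :=
  ∃ (J : Type) (_ : Fintype J) (e : J → P.M) (δ : J → ℤ) (ρ : J → ℕ),
    (∀ j, e j ∈ P.gr (δ j)) ∧
    Function.Bijective (fun t : J → A.A ⊗[ℂ] A.A => ∑ j, P.sandwich (e j) (t j)) ∧
    ∀ j, P.d (e j) ∈ Submodule.span ℂ
      {m : P.M | ∃ i : J, ρ i < ρ j ∧ ∃ a b : A.A, m = P.l a (P.r b (e i))}

/-- The dg algebra `A` is smooth, in the strong form: the diagonal bimodule has a finite semi-free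
resolution, that is, there is a quasi-isomorphism of dg bimodules from a finite semi-free dg
bimodule to `A`. (Finite semi-free dg bimodules are compact objects of the derived category of
bimodules, so the diagonal bimodule is then perfect.) -/
def DGAlgebra.IsSmooth (A : DGAlgebra) : Prop :=
  ∃ P : DGBimodule A, P.FiniteSemifree ∧ ∃ f : P.M →ₗ[ℂ] A.diag.M, IsQuasiIso P A.diag f

/-- `A` is connective: `A_n = 0` for `n < 0`. -/
def DGAlgebra.IsConnective (A : DGAlgebra) : Prop := ∀ n : ℤ, n < 0 → A.gr n = ⊥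

/-- `π : A → R` exhibits the `ℂ`-algebra `R` as `H_0(A)` of the connective dg algebra `A`: it is a
homomorphism of dg algebras (`R` in degree `0`, with zero differential) and it induces a bijection
`A_0 / d A_1 → R`. -/
structure DGAlgebra.IsH0 (A : DGAlgebra) {R : Type} [Ring R] [Algebra ℂ R] (π : A.A →ₐ[ℂ] R) :
    Prop where
  deg : ∀ (n : ℤ) (a : A.A), n ≠ 0 → a ∈ A.gr n → π a = 0
  d : ∀ a : A.A, π (A.d a) = 0
  surj : ∀ x : R, ∃ a ∈ A.gr 0, π a = x
  ker : ∀ a ∈ A.gr 0, π a = 0 → ∃ b ∈ A.gr 1, A.d b = a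

end Pool.Agent.Lib.MP_e7fbd4_ag
end
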