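import Mathlib.Algebra.MonoidAlgebra.MapDomain
import Mathlib.GroupTheory.FiniteAbelian.Basic
import Mathlib.GroupTheory.HNNExtension
import Mathlib.LinearAlgebra.Dimension.Free
import Pool.Agent.Lib.MP_e7fbd4_ag.Mg.G001
import Pool.Agent.Lib.MP_e7fbd4_ag.Mg.G008
import Pool.Agent.Lib.MP_e7fbd4_ag.PolyExt
import Pool.Agent.Lib.MP_c052b4_al.Res

section

set_option autoImplicit false

namespace Pool.Agent.Lib.MP_e7fbd4_ag

instance : Fintype Gen := ⟨{.a, .a', .r, .r', .s, .s'}, by intro x; cases x <;> simp⟩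

/-- There is a smooth connective dg algebra `A` (a finite cell dg algebra, with the six letters of
`R` in degree `0` and one letter in degree `1` for each of the eight relators) with
`H_0(A) = R`. -/
theorem exists_smooth_R :
    ∃ A : DGAlgebra, A.IsSmooth ∧ A.IsConnective ∧ ∃ π : A.A →ₐ[ℂ] R, A.IsH0 π :=
  exists_smooth_H0 relator RRel (by
    intro a b
    constructor
    · rintro ⟨k⟩
      exact ⟨k, rfl, rfl⟩
    · rintro ⟨k, rfl, rfl⟩
      exact RRel.rel k)

end Pool.Agent.Lib.MP_e7fbd4_ag
end

section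

/-!
# Polynomial functions form a polynomial extension
-/

set_option autoImplicit false
set_option linter.unusedSectionVars false

namespace Pool.Agent.Lib.MP_e7fbd4_ag

open Pool.Agent.Lib.MP_c052b4_al

variable (A : Type) [Ring A] [Algebra ℂ A]

/-- the polynomial function with given coefficients -/
noncomputable def pfun : (ℕ →₀ A) →+ (ℂ → A) :=
  Finsupp.liftAddHom fun k =>
    { toFun := fun a t => t ^ k • a
      map_zero' := by funext t; simp
      map_add' := fun a b => by funext t; simp }

variable {A}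

theorem pfun_single (k : ℕ) (a : A) : pfun A (Finsupp.single k a) = fun t => t ^ k • a := by
  unfold pfun
  rw [Finsupp.liftAddHom_apply_single]
  rfl

theorem pfun_apply (a : ℕ →₀ A) (t : ℂ) : pfun A a t = a.sum fun k c => t ^ k • c := by
  unfold pfun
  rw [Finsupp.liftAddHom_apply, Finsupp.sum, Finset.sum_apply]
  rfl

theorem pow_smul_mem_poly (k : ℕ) (a : A) : (fun t : ℂ => t ^ k • a) ∈ Poly A := by
  have h : (fun t : ℂ => t ^ k • a) = (fun t : ℂ => algebraMap ℂ A t) ^ k * fun _ => a := by
    funext t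
    rw [Pi.mul_apply, Pi.pow_apply, ← map_pow, Algebra.smul_def]
  rw [h]
  exact (Poly A).mul_mem ((Poly A).pow_mem (var_mem_poly A) k) (const_mem_poly a)

theorem pfun_mem (a : ℕ →₀ A) : pfun A a ∈ Poly A := by
  induction a using Finsupp.induction_linear with
  | zero => rw [map_zero]; exact (Poly A).zero_mem
  | add f g hf hg => rw [map_add]; exact (Poly A).add_mem hf hg
  | single k a => rw [pfun_single]; exact pow_smul_mem_poly k a

theorem pfun_mul_mem_range (a b : ℕ →₀ A) : ∃ c, pfun A c = pfun A a * pfun A b := by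
  induction a using Finsupp.induction_linear with
  | zero => exact ⟨0, by rw [map_zero, zero_mul]⟩
  | add f g hf hg =>
    obtain ⟨c, hc⟩ := hf
    obtain ⟨d, hd⟩ := hg
    exact ⟨c + d, by rw [map_add, map_add, add_mul, hc, hd]⟩
  | single k x =>
    induction b using Finsupp.induction_linear with
    | zero => exact ⟨0, by rw [map_zero, mul_zero]⟩
    | add f g hf hg =>
      obtain ⟨c, hc⟩ := hf
      obtain ⟨d, hd⟩ := hg
      exact ⟨c + d, by rw [map_add, map_add, mul_add, hc, hd]⟩
    | single l y =>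
      refine ⟨Finsupp.single (k + l) (x * y), ?_⟩
      rw [pfun_single, pfun_single, pfun_single]
      funext t
      rw [Pi.mul_apply, pow_add, smul_mul_smul_comm]

theorem exists_pfun {f : ℂ → A} (hf : f ∈ Poly A) : ∃ a, pfun A a = f := by
  unfold Poly at hf
  induction hf using Algebra.adjoin_induction with
  | mem x hx =>
    rcases hx with ⟨a, rfl⟩ | rfl
    · refine ⟨Finsupp.single 0 a, ?_⟩
      rw [pfun_single]; funext t; simp
    · refine ⟨Finsupp.single 1 1, ?_⟩
      rw [pfun_single]; funext t; simp [Algebra.algebraMap_eq_smul_one]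
  | algebraMap c =>
    refine ⟨Finsupp.single 0 (algebraMap ℂ A c), ?_⟩
    rw [pfun_single]; funext t; simp
  | add x y _ _ hx hy =>
    obtain ⟨a, rfl⟩ := hx
    obtain ⟨b, rfl⟩ := hy
    exact ⟨a + b, map_add _ _ _⟩
  | mul x y _ _ hx hy =>
    obtain ⟨a, rfl⟩ := hx
    obtain ⟨b, rfl⟩ := hy
    exact pfun_mul_mem_range a b

theorem pfun_injective : Function.Injective (pfun A) := by
  rw [injective_iff_map_eq_zero]
  intro a ha
  ext k
  rw [Finsupp.coe_zero, Pi.zero_apply]
  rw [← Module.forall_dual_apply_eq_zero_iff ℂ]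
  intro φ
  have h1 : ∀ t : ℂ, (∑ i ∈ a.support, Polynomial.C (φ (a i)) * Polynomial.X ^ i).eval t = 0 := by
    intro t
    have h2 := congrArg φ (congrFun ha t)
    rw [pfun_apply, Finsupp.sum, map_sum, Pi.zero_apply, map_zero] at h2
    rw [Polynomial.eval_finsetSum, ← h2]
    refine Finset.sum_congr rfl fun i _ => ?_
    rw [Polynomial.eval_mul, Polynomial.eval_C, Polynomial.eval_pow, Polynomial.eval_X, map_smul,
      smul_eq_mul, mul_comm]
  have h3 : (∑ i ∈ a.support, Polynomial.C (φ (a i)) * Polynomial.X ^ i : Polynomial ℂ) = 0 :=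
    Polynomial.funext fun t => by rw [h1 t, Polynomial.eval_zero]
  have h4 := congrArg (fun p => Polynomial.coeff p k) h3
  simp only [Polynomial.finsetSum_coeff, Polynomial.coeff_C_mul, Polynomial.coeff_X_pow,
    Polynomial.coeff_zero, mul_ite, mul_one, mul_zero, Finset.sum_ite_eq] at h4
  by_cases hk : k ∈ a.support
  · rwa [if_pos hk] at h4
  · rw [Finsupp.notMem_support_iff.1 hk, map_zero]

variable (A)

/-- the coefficients of a polynomial function -/
noncomputable def pco : Poly A ≃+ (ℕ →₀ A) :=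
  (AddEquiv.ofBijective ((pfun A).codRestrict (Poly A).toSubsemiring.toAddSubmonoid
    (fun a => pfun_mem a) : (ℕ →₀ A) →+ Poly A) ⟨fun a b h => pfun_injective
      (congrArg Subtype.val h), fun f => by
        obtain ⟨a, ha⟩ := exists_pfun f.2
        exact ⟨a, Subtype.ext ha⟩⟩).symm

variable {A}

theorem pfun_pco (f : Poly A) : pfun A (pco A f) = f := by
  have := (pco A).symm_apply_apply f
  exact congrArg Subtype.val this

theorem pco_eq {f : Poly A} {a : ℕ →₀ A} (h : pfun A a = f) : pco A f = a := by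
  apply pfun_injective
  rw [pfun_pco, h]

/-- the variable -/
def pvar (A : Type) [Ring A] [Algebra ℂ A] : Poly A := ⟨fun t => algebraMap ℂ A t, var_mem_poly A⟩

/-- constant polynomial functions -/
def pconst (A : Type) [Ring A] [Algebra ℂ A] : A →ₐ[ℂ] Poly A :=
  (constHom ℂ A).codRestrict (Poly A) fun a => const_mem_poly a

theorem pfun_pvar_mul (a : ℕ →₀ A) (t : ℂ) :
    pfun A (Finsupp.embDomain ⟨Nat.succ, Nat.succ_injective⟩ a) t = t • pfun A a t := by
  induction a using Finsupp.induction_linear with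
  | zero => simp
  | add f g hf hg => rw [Finsupp.embDomain_add, map_add, map_add, Pi.add_apply, Pi.add_apply, hf,
      hg, smul_add]
  | single k a =>
    rw [Finsupp.embDomain_single, pfun_single, pfun_single]
    change t ^ (k + 1) • a = t • t ^ k • a
    rw [pow_succ', mul_smul]

theorem pco_pvar_mul (f : Poly A) :
    pco A (pvar A * f) = Finsupp.embDomain ⟨Nat.succ, Nat.succ_injective⟩ (pco A f) := by
  apply pco_eq
  funext t
  rw [pfun_pvar_mul, pfun_pco]
  change t • (f : ℂ → A) t = algebraMap ℂ A t * (f : ℂ → A) t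
  rw [Algebra.smul_def]

theorem pfun_mul_const (a : ℕ →₀ A) (c : A) (t : ℂ) :
    pfun A (a.mapRange (fun x => x * c) (zero_mul c)) t = pfun A a t * c := by
  induction a using Finsupp.induction_linear with
  | zero => simp
  | add f g hf hg =>
    rw [Finsupp.mapRange_add (fun x y => add_mul x y c), map_add, map_add, Pi.add_apply,
      Pi.add_apply, hf, hg, add_mul]
  | single k a =>
    rw [Finsupp.mapRange_single, pfun_single, pfun_single]
    change t ^ k • (a * c) = (t ^ k • a) * c
    rw [smul_mul_assoc]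

/-- The algebra of polynomial functions `ℂ → A` is a polynomial extension of `A`. -/
noncomputable def polyExt (A : Type) [Ring A] [Algebra ℂ A] : PolyExt A (Poly A) where
  ι := (pconst A).toRingHom
  x := pvar A
  comm a := by
    apply Subtype.ext
    funext t
    exact Algebra.commutes t a
  co := (pco A).toAddMonoidHom
  co_injective := (pco A).injective
  co_x_mul_succ y k := by
    change pco A (pvar A * y) (k + 1) = pco A y k
    rw [pco_pvar_mul]
    exact Finsupp.embDomain_apply_self ⟨Nat.succ, Nat.succ_injective⟩ (pco A y) k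
  co_x_mul_zero y := by
    change pco A (pvar A * y) 0 = 0
    rw [pco_pvar_mul]
    refine Finsupp.embDomain_of_notMem_range _ _ _ ?_
    rintro ⟨k, hk⟩
    exact Nat.succ_ne_zero k hk
  co_mul_ι y a k := by
    change pco A (y * pconst A a) k = pco A y k * a
    have h : pco A (y * pconst A a) = (pco A y).mapRange (fun x => x * a) (zero_mul a) := by
      apply pco_eq
      funext t
      rw [pfun_mul_const, pfun_pco]
      rfl
    rw [h, Finsupp.mapRange_apply]
  co_one := by
    change pco A 1 = Finsupp.single 0 1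
    apply pco_eq
    rw [pfun_single]
    funext t
    rw [pow_zero, one_smul]
    rfl

/-- `A[t]` is regular if `A` is. -/
theorem isRegularRing_poly {A : Type} [Ring A] [Algebra ℂ A] (h : IsRegularRing A) :
    IsRegularRing (Poly A) := (polyExt A).isRegularRing h

/-- `K₀(A) → K₀(A[t])` is surjective for `A` regular. -/
theorem K0_poly_surjective {A : Type} [Ring A] [Algebra ℂ A] (h : IsRegularRing A) :
    Function.Surjective (KZero.map (pconst A).toRingHom) := (polyExt A).map_surjective h

/-- the same for the section of the operation `A ↦ A[t]` -/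
theorem K0F_poly_surjective {A : Type} [Ring A] [Algebra ℂ A] (h : IsRegularRing A) :
    Function.Surjective (K0F.map (polyOp.s A)) := (polyExt A).map_surjective h

end Pool.Agent.Lib.MP_e7fbd4_ag
end

section

/-!
# Patching of projective modules over `{f ∈ A[t] : f(0) = f(1)}`
-/

set_option autoImplicit false
set_option linter.unusedSectionVars false

namespace Pool.Agent.Lib.MP_e7fbd4_ag

open Matrix Pool.Agent.Lib.MP_c052b4_al

section Mod

variable (A : Type) [Ring A] [Algebra ℂ A]

/-- the inclusion -/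
noncomputable def jL : Loop A →ₐ[ℂ] Poly A := Subalgebra.inclusion (fun _ h => h.1)

/-- `A[t]` as a module over the loop algebra -/
@[reducible] noncomputable def polyMod : Module (Loop A) (Poly A) :=
  Module.compHom (Poly A) (jL A).toRingHom

attribute [local instance] polyMod

variable {A}

theorem loop_smul (f : Loop A) (x : Poly A) : f • x = jL A f * x := rfl

theorem ev_jL (f : Loop A) : evP A 1 (jL A f) = evP A 0 (jL A f) := f.2.2.symm

theorem jL_injective : Function.Injective (jL A) := fun _ _ h =>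
  Subtype.ext (congrArg (fun z : Poly A => z.1) h)

theorem exists_jL {x : Poly A} (h : evP A 1 x = evP A 0 x) : ∃ f : Loop A, jL A f = x :=
  ⟨⟨x.1, x.2, h.symm⟩, rfl⟩

variable {n m : Type}

/-- value of a vector -/
def ev (t : ℂ) (v : n → Poly A) : n → A := fun i => evP A t (v i)

theorem ev_add (t : ℂ) (v w : n → Poly A) : ev t (v + w) = ev t v + ev t w := by
  funext i; simp [ev]

theorem ev_zero (t : ℂ) : ev t (0 : n → Poly A) = 0 := by
  funext i; simp [ev]

theorem ev_smul (t : ℂ) (f : Loop A) (v : n → Poly A) :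
    ev t (f • v) = evP A t (jL A f) • ev t v := by
  funext i
  change evP A t (jL A f * v i) = evP A t (jL A f) * evP A t (v i)
  rw [map_mul]

/-- value of a matrix -/
abbrev em (t : ℂ) (X : Matrix n m (Poly A)) : Matrix n m A := X.map (evP A t)

theorem em_one [DecidableEq n] (t : ℂ) : em t (1 : Matrix n n (Poly A)) = 1 :=
  Matrix.map_one _ (map_zero _) (map_one _)

variable [Fintype n] [Fintype m]

theorem ev_vecMul (t : ℂ) (v : n → Poly A) (X : Matrix n m (Poly A)) :
    ev t (v ᵥ* X) = ev t v ᵥ* em t X := by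
  funext j
  simp only [ev, Matrix.vecMul, dotProduct, map_sum, map_mul, Matrix.map_apply]

theorem em_mul {l : Type} (t : ℂ) (X : Matrix n m (Poly A)) (Y : Matrix m l (Poly A)) :
    em t (X * Y) = em t X * em t Y := Matrix.map_mul (f := (evP A t).toRingHom)

/-- the module of vectors `v` with `v p = v` and `v(1) = v(0) g` -/
def Mq (p : Matrix n n (Poly A)) (g : Matrix n n A) : Submodule (Loop A) (n → Poly A) where
  carrier := {v | v ᵥ* p = v ∧ ev 1 v = ev 0 v ᵥ* g}
  add_mem' := by
    rintro v w ⟨h1, h2⟩ ⟨h3, h4⟩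
    refine ⟨by rw [Matrix.add_vecMul, h1, h3], ?_⟩
    rw [ev_add, ev_add, Matrix.add_vecMul, h2, h4]
  zero_mem' := ⟨Matrix.zero_vecMul _, by rw [ev_zero, ev_zero, Matrix.zero_vecMul]⟩
  smul_mem' := by
    rintro f v ⟨h1, h2⟩
    constructor
    · have h3 : (f • v) = (jL A f) • v := rfl
      rw [h3, Matrix.smul_vecMul, h1]
    · rw [ev_smul, ev_smul, ev_jL, h2, Matrix.smul_vecMul]

theorem mem_Mq {p : Matrix n n (Poly A)} {g : Matrix n n A} {v : n → Poly A} :
    v ∈ Mq p g ↔ v ᵥ* p = v ∧ ev 1 v = ev 0 v ᵥ* g := Iff.rfl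

/-- multiplication by a matrix -/
def mulM (X : Matrix n m (Poly A)) : (n → Poly A) →ₗ[Loop A] (m → Poly A) where
  toFun v := v ᵥ* X
  map_add' v w := Matrix.add_vecMul _ _ _
  map_smul' f v := by
    have h3 : (f • v) = (jL A f) • v := rfl
    rw [h3, Matrix.smul_vecMul]
    rfl

theorem mulM_mem {p : Matrix n n (Poly A)} {p' : Matrix m m (Poly A)} {g : Matrix n n A}
    {h : Matrix m m A} {x : Matrix n m (Poly A)} {y : Matrix m n (Poly A)} (hxy : x * y = p)
    (hyx : y * x = p') (h1 : em 0 p * g * em 1 x = em 0 p * em 0 x * h) {v : n → Poly A}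
    (hv : v ∈ Mq p g) : v ᵥ* x ∈ Mq p' h := by
  obtain ⟨hv1, hv2⟩ := hv
  constructor
  · rw [Matrix.vecMul_vecMul, ← hyx, ← Matrix.mul_assoc, hxy, ← Matrix.vecMul_vecMul, hv1]
  · have h2 : ev 0 v ᵥ* em 0 p = ev 0 v := by rw [← ev_vecMul, hv1]
    rw [ev_vecMul, ev_vecMul, hv2, ← h2]
    simp only [Matrix.vecMul_vecMul]
    rw [h1]

theorem Mq_equiv {p : Matrix n n (Poly A)} {p' : Matrix m m (Poly A)} {g : Matrix n n A}
    {h : Matrix m m A} {x : Matrix n m (Poly A)} {y : Matrix m n (Poly A)} (hxy : x * y = p)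
    (hyx : y * x = p') (h1 : em 0 p * g * em 1 x = em 0 p * em 0 x * h)
    (h2 : em 0 p' * h * em 1 y = em 0 p' * em 0 y * g) :
    Nonempty (Mq p g ≃ₗ[Loop A] Mq p' h) := by
  refine ⟨LinearEquiv.ofLinearMap
    ((mulM x).restrict (p := Mq p g) (q := Mq p' h) fun v hv => mulM_mem hxy hyx h1 hv)
    ((mulM y).restrict (p := Mq p' h) (q := Mq p g) fun v hv => mulM_mem hyx hxy h2 hv) ?_ ?_⟩
  · apply LinearMap.ext
    intro v
    apply Subtype.ext
    change ((v : m → Poly A) ᵥ* y) ᵥ* x = v
    rw [Matrix.vecMul_vecMul, hyx]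
    exact v.2.1
  · apply LinearMap.ext
    intro v
    apply Subtype.ext
    change ((v : n → Poly A) ᵥ* x) ᵥ* y = v
    rw [Matrix.vecMul_vecMul, hxy]
    exact v.2.1

/-- the matrix over `A[t]` -/
noncomputable abbrev jm {k l : Type} (q : Matrix k l (Loop A)) : Matrix k l (Poly A) := q.map (jL A)

theorem jm_mul {k l r : Type} [Fintype l] (X : Matrix k l (Loop A)) (Y : Matrix l r (Loop A)) :
    jm (X * Y) = jm X * jm Y := Matrix.map_mul (f := (jL A).toRingHom)

theorem jm_one [DecidableEq n] : jm (1 : Matrix n n (Loop A)) = 1 :=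
  Matrix.map_one _ (map_zero _) (map_one _)

theorem em_jm (q : Matrix n m (Loop A)) : em 1 (jm q) = em 0 (jm q) := by
  ext i j
  exact ev_jL (q i j)

theorem jm_injective {k l : Type} {X Y : Matrix k l (Loop A)} (h : jm X = jm Y) : X = Y := by
  ext1 i j
  exact jL_injective (congrFun (congrFun h i) j)

theorem img_equiv [DecidableEq n] {q : Matrix n n (Loop A)} (hq : q * q = q) :
    Nonempty (img q ≃ₗ[Loop A] Mq (jm q) (1 : Matrix n n A)) := by
  let f : (n → Loop A) →ₗ[Loop A] (n → Poly A) :=
    { toFun := fun v i => jL A (v i)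
      map_add' := fun v w => by funext i; exact map_add _ _ _
      map_smul' := fun c v => by funext i; exact map_mul (jL A) _ _ }
  have hf : ∀ v i, f v i = jL A (v i) := fun _ _ => rfl
  have hfq : ∀ v, f (v ᵥ* q) = f v ᵥ* jm q := by
    intro v
    funext j
    simp only [hf, Matrix.vecMul, dotProduct, map_sum, map_mul, Matrix.map_apply]
  have hf1 : ∀ v, ev 1 (f v) = ev 0 (f v) := by
    intro v
    funext i
    exact ev_jL (v i)
  have hfinj : Function.Injective f := by
    intro v w h
    funext i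
    exact jL_injective (congrFun h i)
  let g : img q →ₗ[Loop A] Mq (jm q) (1 : Matrix n n A) := f.restrict (fun v hv => by
    rw [mem_img hq] at hv
    exact ⟨by rw [← hfq, hv], by rw [Matrix.vecMul_one, hf1]⟩)
  refine ⟨LinearEquiv.ofBijective g ⟨?_, ?_⟩⟩
  · intro v w h
    apply Subtype.ext
    exact hfinj (congrArg Subtype.val h)
  · rintro ⟨v, hv1, hv2⟩
    rw [Matrix.vecMul_one] at hv2
    choose w hw using fun i => exists_jL (congrFun hv2 i)
    have hwv : f w = v := funext hw
    refine ⟨⟨w, ?_⟩, Subtype.ext hwv⟩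
    rw [mem_img hq]
    apply hfinj
    rw [hfq, hwv, hv1]

end Mod

end Pool.Agent.Lib.MP_e7fbd4_ag
end

section

/-!
# Natural isomorphisms of functors on classes of algebras
-/

set_option autoImplicit false
set_option linter.unusedSectionVars false
set_option linter.unusedVariables false

namespace Pool.Agent.Lib.MP_e7fbd4_ag.H44

open Pool.Agent.Lib.MP_c052b4_al

/-! ### Relative functors -/

section Rel

variable (F : AlgFunctor) (X : AlgOp) (A : Type) [Ring A] [Algebra ℂ A]

theorem map_map {F : AlgFunctor} {A B C : Type} [Ring A] [Algebra ℂ A] [Ring B]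
    [Algebra ℂ B] [Ring C] [Algebra ℂ C] (g : B →ₐ[ℂ] C) (f : A →ₐ[ℂ] B) (x : F.obj A) :
    F.map g (F.map f x) = F.map (g.comp f) x := by
  rw [F.map_comp]; rfl

theorem map_id {F : AlgFunctor} {A : Type} [Ring A] [Algebra ℂ A] (x : F.obj A) :
    F.map (AlgHom.id ℂ A) x = x := by
  rw [F.map_id]; rfl

theorem map_bijective (F : AlgFunctor) {A B : Type} [Ring A] [Algebra ℂ A]
    [Ring B] [Algebra ℂ B] (e : A ≃ₐ[ℂ] B) : Function.Bijective (F.map e.toAlgHom) := by
  constructor
  · intro x y h
    have h1 := congrArg (F.map e.symm.toAlgHom) h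
    rw [map_map, map_map] at h1
    have : e.symm.toAlgHom.comp e.toAlgHom = AlgHom.id ℂ A := AlgHom.ext fun a => by simp
    rwa [this, map_id, map_id] at h1
  · intro y
    refine ⟨F.map e.symm.toAlgHom y, ?_⟩
    rw [map_map]
    have : e.toAlgHom.comp e.symm.toAlgHom = AlgHom.id ℂ B := AlgHom.ext fun a => by simp
    rw [this, map_id]

/-- the underlying element of `F(X A)` of an element of `(F.rel X)(A)` -/
noncomputable def rv : (F.rel X).obj A →+ F.obj (X.obj A) := (F.map (X.r A)).ker.subtype

theorem rv_injective : Function.Injective (rv F X A) := Subtype.val_injective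

theorem rv_ker (x : (F.rel X).obj A) : F.map (X.r A) (rv F X A x) = 0 := x.2

theorem exists_rv {y : F.obj (X.obj A)} (hy : F.map (X.r A) y = 0) : ∃ x, rv F X A x = y :=
  ⟨⟨y, hy⟩, rfl⟩

theorem rv_map {B : Type} [Ring B] [Algebra ℂ B] (f : A →ₐ[ℂ] B) (x : (F.rel X).obj A) :
    rv F X B ((F.rel X).map f x) = F.map (X.map f) (rv F X A x) := rfl

/-- a homomorphism into the relative group -/
noncomputable def mkRel {M : Type} [AddCommGroup M] (g : M →+ F.obj (X.obj A))
    (h : ∀ m, F.map (X.r A) (g m) = 0) : M →+ (F.rel X).obj A :=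
  g.codRestrict (F.map (X.r A)).ker h

theorem rv_mkRel {M : Type} [AddCommGroup M] (g : M →+ F.obj (X.obj A))
    (h : ∀ m, F.map (X.r A) (g m) = 0) (m : M) : rv F X A (mkRel F X A g h m) = g m := rfl

end Rel

/-! ### Natural isomorphisms -/

/-- A class of algebras. -/
abbrev ACl : Type 1 := (A : Type) → [Ring A] → [Algebra ℂ A] → Prop

/-- A natural isomorphism on a class of algebras. -/
structure NI (P : ACl) (F G : AlgFunctor) where
  /-- the homomorphisms -/
  e : (A : Type) → [Ring A] → [Algebra ℂ A] → P A → (F.obj A →+ G.obj A)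
  bij : ∀ (A : Type) [Ring A] [Algebra ℂ A] (h : P A), Function.Bijective (e A h)
  nat : ∀ {A B : Type} [Ring A] [Algebra ℂ A] [Ring B] [Algebra ℂ B] (hA : P A) (hB : P B)
    (f : A →ₐ[ℂ] B) (x : F.obj A), G.map f (e A hA x) = e B hB (F.map f x)

namespace NI

variable {P : ACl} {F G H : AlgFunctor}

/-- composition -/
noncomputable def trans (a : NI P F G) (b : NI P G H) : NI P F H where
  e A _ _ h := (b.e A h).comp (a.e A h)
  bij A _ _ h := (b.bij A h).comp (a.bij A h)
  nat hA hB f x := by
    rw [AddMonoidHom.comp_apply, AddMonoidHom.comp_apply, b.nat hA hB, a.nat hA hB]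

/-- inverse -/
noncomputable def symm (a : NI P F G) : NI P G F where
  e A _ _ h := (AddEquiv.ofBijective (a.e A h) (a.bij A h)).symm.toAddMonoidHom
  bij A _ _ h := (AddEquiv.ofBijective (a.e A h) (a.bij A h)).symm.bijective
  nat {A B} _ _ _ _ hA hB f x := by
    apply (a.bij B hB).1
    have h1 : ∀ y, a.e B hB ((AddEquiv.ofBijective (a.e B hB) (a.bij B hB)).symm y) = y :=
      fun y => (AddEquiv.ofBijective (a.e B hB) (a.bij B hB)).apply_symm_apply y
    have h2 : ∀ y, a.e A hA ((AddEquiv.ofBijective (a.e A hA) (a.bij A hA)).symm y) = y :=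
      fun y => (AddEquiv.ofBijective (a.e A hA) (a.bij A hA)).apply_symm_apply y
    refine ((a.nat hA hB f _).symm.trans ?_).trans (h1 _).symm
    exact congrArg (G.map f) (h2 x)

/-- relative functors -/
noncomputable def rel (a : NI P F G) (X : AlgOp)
    (hX : ∀ (A : Type) [Ring A] [Algebra ℂ A], P A → P (X.obj A)) : NI P (F.rel X) (G.rel X) where
  e A _ _ h := mkRel G X A ((a.e (X.obj A) (hX A h)).comp (rv F X A)) (fun m => by
    rw [AddMonoidHom.comp_apply, a.nat (hX A h) h, rv_ker, map_zero])
  bij A _ _ h := by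
    constructor
    · intro x y hxy
      have h1 := congrArg (rv G X A) hxy
      rw [rv_mkRel, rv_mkRel] at h1
      exact rv_injective F X A ((a.bij _ _).1 h1)
    · intro y
      obtain ⟨z, hz⟩ := (a.bij (X.obj A) (hX A h)).2 (rv G X A y)
      have h1 : F.map (X.r A) z = 0 := by
        apply (a.bij A h).1
        rw [← a.nat (hX A h) h, hz, rv_ker, map_zero]
      obtain ⟨x, hx⟩ := exists_rv F X A h1
      refine ⟨x, ?_⟩
      apply rv_injective G X A
      rw [rv_mkRel, AddMonoidHom.comp_apply, hx, hz]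
  nat {A B} _ _ _ _ hA hB f x := by
    apply rv_injective G X B
    rw [rv_map, rv_mkRel, rv_mkRel, AddMonoidHom.comp_apply, AddMonoidHom.comp_apply,
      a.nat (hX A hA) (hX B hB), rv_map]

end NI

/-- A natural commutation isomorphism `Y (X A) ≃ X (Y A)`. -/
structure Sw (X Y : AlgOp) where
  /-- the isomorphism -/
  σ : (A : Type) → [Ring A] → [Algebra ℂ A] → (Y.obj (X.obj A) ≃ₐ[ℂ] X.obj (Y.obj A))
  nat : ∀ {A B : Type} [Ring A] [Algebra ℂ A] [Ring B] [Algebra ℂ B] (f : A →ₐ[ℂ] B),
    (X.map (Y.map f)).comp (σ A).toAlgHom = (σ B).toAlgHom.comp (Y.map (X.map f))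
  h1 : ∀ (A : Type) [Ring A] [Algebra ℂ A],
    (X.r (Y.obj A)).comp (σ A).toAlgHom = Y.map (X.r A)
  h2 : ∀ (A : Type) [Ring A] [Algebra ℂ A],
    (X.map (Y.r A)).comp (σ A).toAlgHom = Y.r (X.obj A)

/-- the natural isomorphism given by a swap -/
noncomputable def Sw.ni {X Y : AlgOp} (s : Sw X Y) (P : ACl) (F : AlgFunctor) :
    NI P ((F.rel Y).rel X) ((F.rel X).rel Y) where
  e A _ _ _ := mkRel (F.rel X) Y A (mkRel F X (Y.obj A)
      ((F.map (s.σ A).toAlgHom).comp ((rv F Y (X.obj A)).comp (rv (F.rel Y) X A))) (fun m => by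
        rw [AddMonoidHom.comp_apply, map_map, s.h1, AddMonoidHom.comp_apply, ← rv_map, rv_ker,
          map_zero])) (fun m => by
        apply rv_injective F X A
        rw [rv_map, rv_mkRel, AddMonoidHom.comp_apply, map_map, s.h2, AddMonoidHom.comp_apply,
          rv_ker, map_zero])
  bij A _ _ _ := by
    constructor
    · intro x y hxy
      have h1 := congrArg (rv (F.rel X) Y A) hxy
      rw [rv_mkRel, rv_mkRel] at h1
      have h2 := congrArg (rv F X (Y.obj A)) h1
      rw [rv_mkRel, rv_mkRel] at h2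
      exact rv_injective _ _ _ (rv_injective _ _ _ ((map_bijective F (s.σ A)).1 h2))
    · intro y
      obtain ⟨z, hz⟩ := (map_bijective F (s.σ A)).2 (rv F X (Y.obj A) (rv (F.rel X) Y A y))
      have h1 : F.map (Y.r (X.obj A)) z = 0 := by
        rw [← s.h2, ← map_map, hz, ← rv_map, rv_ker, map_zero]
      obtain ⟨w, hw⟩ := exists_rv F Y (X.obj A) h1
      have h2 : (F.rel Y).map (X.r A) w = 0 := by
        apply rv_injective F Y A
        rw [rv_map, hw, ← s.h1, ← map_map, hz, rv_ker, map_zero]
      obtain ⟨x, hx⟩ := exists_rv (F.rel Y) X A h2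
      refine ⟨x, ?_⟩
      apply rv_injective
      apply rv_injective
      rw [rv_mkRel, rv_mkRel, AddMonoidHom.comp_apply, AddMonoidHom.comp_apply, hx, hw, hz]
  nat {A B} _ _ _ _ _ _ f x := by
    apply rv_injective
    apply rv_injective
    rw [rv_map, rv_map, rv_mkRel, rv_mkRel, rv_mkRel, rv_mkRel]
    simp only [AddMonoidHom.comp_apply]
    rw [rv_map, rv_map, map_map, map_map, s.nat]

end Pool.Agent.Lib.MP_e7fbd4_ag.H44
end
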