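import Pool.Agent.Lib.MP_e7fbd4_ag.FundB
import Pool.Agent.Lib.MP_e7fbd4_ag.Milnor3
import Pool.Agent.Lib.MP_e7fbd4_ag.Mg.G017

section

/-!
# The basic natural isomorphisms: `K₀.Loop = KV₁`, `KV₁.Lau = K₀`, `Loop.Lau = Lau.Loop`
-/

set_option autoImplicit false
set_option linter.unusedSectionVars false
set_option linter.unusedVariables false

namespace Pool.Agent.Lib.MP_e7fbd4_ag.H44

open Pool.Agent.Lib.MP_c052b4_al

/-- `K₀(A) → K₀(A[t])` is surjective -/
def SA' (A : Type) [Ring A] [Algebra ℂ A] : Prop :=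
  Function.Surjective (KZero.map (pconst A).toRingHom)

/-! ### (A) -/

section A

variable (A : Type) [Ring A] [Algebra ℂ A]

/-- the boundary map on `KV₁`, with values in `K₀(Loop A)` -/
noncomputable def dV : KV1F.obj A →+ KZero (Loop A) :=
  QuotientAddGroup.lift (ho A) (dA1 A) (fun _ h => dA1_ho h)

theorem dV_cKV (x : KOne A) : dV A (cKV A x) = dA1 A x := rfl

theorem eLo_dV (x : KV1F.obj A) : KZero.map (eLo A).toRingHom (dV A x) = 0 := by
  obtain ⟨y, rfl⟩ := cKV_surjective A x
  rw [dV_cKV, eLo_dA1]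

theorem dV_injective : Function.Injective (dV A) := by
  rw [injective_iff_map_eq_zero]
  intro x hx
  obtain ⟨y, rfl⟩ := cKV_surjective A x
  rw [dV_cKV] at hx
  exact cKV_eq_zero.2 (mem_ho_of_dA1 hx)

theorem exists_dV (hA : SA' A) {x : KZero (Loop A)} (hx : KZero.map (eLo A).toRingHom x = 0) :
    ∃ y : KV1F.obj A, dV A y = x := by
  obtain ⟨c, hc⟩ := exists_dA1 hA x
  refine ⟨cKV A c, ?_⟩
  rw [dV_cKV, hc, hx, map_zero, zero_add]

theorem dV_nat {B : Type} [Ring B] [Algebra ℂ B] (f : A →ₐ[ℂ] B) (x : KV1F.obj A) :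
    KZero.map (lo f).toRingHom (dV A x) = dV B (KV1F.map f x) := by
  obtain ⟨y, rfl⟩ := cKV_surjective A x
  rw [dV_cKV, KV1F_map_cKV, dV_cKV, map_dA1]

/-- the boundary map as a homomorphism `KV₁(A) → K₀(Loop A)` of bundled groups -/
noncomputable def dVb : KV1F.obj A →+ K0F.obj (loopOp.obj A) := dV A

/-- `K₀.Loop = KV₁` -/
noncomputable def niA (P : ACl) (hP : ∀ (A : Type) [Ring A] [Algebra ℂ A], P A → SA' A) :
    NI P KV1F (K0F.rel loopOp) where
  e A _ _ h := mkRel K0F loopOp A (dVb A) (eLo_dV A)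
  bij A _ _ h := by
    constructor
    · intro x y hxy
      exact dV_injective A (congrArg (rv K0F loopOp A) hxy)
    · intro y
      obtain ⟨x, hx⟩ := exists_dV A (hP A h) (x := rv K0F loopOp A y) (rv_ker K0F loopOp A y)
      exact ⟨x, rv_injective K0F loopOp A hx⟩
  nat {A B} _ _ _ _ hA hB f x := rv_injective K0F loopOp B (dV_nat A f x)

/-- `KV₁.Lau = K₀` -/
noncomputable def niB (P : ACl) (hP : ∀ (A : Type) [Ring A] [Algebra ℂ A], P A → SA' A) :
    NI P K0F (KV1F.rel lauOp) where
  e A _ _ h := tauKV A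
  bij A _ _ h := tauKV_bijective (hP A h)
  nat {A B} _ _ _ _ hA hB f x := tauKV_natural f x

end A

/-! ### The swap of `Loop` and `Lau` -/

section LL

variable (A : Type) [Ring A] [Algebra ℂ A]

/-- evaluation on the loop algebra -/
def evL (t : ℂ) : Loop A →ₐ[ℂ] A := (evalHom ℂ A t).comp (Loop A).val

theorem evL_apply (t : ℂ) (f : Loop A) : evL A t f = f.1 t := rfl

theorem llMem (x : Lau (Loop A)) :
    (fun t : ℂ => (MonoidAlgebra.mapAlgHom (Multiplicative ℤ) (evL A t) x : Lau A)) ∈
      Loop (Lau A) := by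
  constructor
  · have h := lauSwap_mem A (MonoidAlgebra.mapAlgHom (Multiplicative ℤ) (jL A) x)
    have h1 : (fun t : ℂ => (MonoidAlgebra.mapAlgHom (Multiplicative ℤ) (evP A t)
        (MonoidAlgebra.mapAlgHom (Multiplicative ℤ) (jL A) x) : Lau A)) =
        fun t : ℂ => (MonoidAlgebra.mapAlgHom (Multiplicative ℤ) (evL A t) x : Lau A) := by
      funext t
      have h2 : lf (evP A t).toRingHom (lf (jL A).toRingHom x) = lf (evL A t).toRingHom x := by
        refine MonoidAlgebra.ext (Finsupp.ext fun z => ?_)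
        rw [lf_coeff, lf_coeff, lf_coeff]
        rfl
      exact h2
    rw [← h1]
    exact h
  · have h2 : lf (evL A 0).toRingHom x = lf (evL A 1).toRingHom x := by
      refine MonoidAlgebra.ext (Finsupp.ext fun z => ?_)
      rw [lf_coeff, lf_coeff]
      exact (x.coeff z).2.2
    exact h2

/-- `Lau (Loop A) → Loop (Lau A)` -/
noncomputable def llHom : Lau (Loop A) →ₐ[ℂ] Loop (Lau A) :=
  (AlgHom.pi fun t : ℂ => MonoidAlgebra.mapAlgHom (Multiplicative ℤ) (evL A t)).codRestrict
    (Loop (Lau A)) (llMem A)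

theorem llHom_apply (x : Lau (Loop A)) (t : ℂ) : (llHom A x).1 t = lf (evL A t).toRingHom x := rfl

theorem llHom_coeff (x : Lau (Loop A)) (t : ℂ) (z : Multiplicative ℤ) :
    ((llHom A x).1 t).coeff z = (x.coeff z).1 t := by
  rw [llHom_apply, lf_coeff]
  rfl

theorem llHom_injective : Function.Injective (llHom A) := by
  intro x y h
  refine MonoidAlgebra.ext (Finsupp.ext fun z => ?_)
  refine Subtype.ext ?_
  funext t
  rw [← llHom_coeff, h, llHom_coeff]

open Classical in
/-- left inverse of the inclusion -/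
noncomputable def rho (f : Poly A) : Loop A := if h : f.1 0 = f.1 1 then ⟨f.1, f.2, h⟩ else 0

theorem rho_zero : rho A 0 = 0 := by
  unfold rho
  split_ifs
  · rfl
  · rfl

theorem jL_rho {f : Poly A} (h : f.1 0 = f.1 1) : jL A (rho A f) = f := by
  unfold rho
  rw [dif_pos h]
  rfl

theorem llHom_surjective : Function.Surjective (llHom A) := by
  intro f
  obtain ⟨y, hy⟩ := lauSwap_surjective A (jL (Lau A) f)
  have hy1 : ∀ t z, (y.coeff z).1 t = (f.1 t).coeff z := by
    intro t z
    have h1 : (lauSwap A y).1 t = f.1 t := by rw [hy]; rfl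
    rw [← h1, lauSwap_apply, lf_coeff]
    rfl
  have hloop : ∀ z, (y.coeff z).1 0 = (y.coeff z).1 1 := by
    intro z
    rw [hy1, hy1, f.2.2]
  refine ⟨⟨Finsupp.mapRange (rho A) (rho_zero A) y.coeff⟩, ?_⟩
  refine Subtype.ext ?_
  funext t
  refine MonoidAlgebra.ext (Finsupp.ext fun z => ?_)
  rw [llHom_coeff, ← hy1]
  have h2 := jL_rho A (hloop z)
  exact congrArg (fun g : Poly A => g.1 t) h2

/-- the swap of `Loop` and `Lau` -/
noncomputable def swLL : Sw loopOp lauOp where
  σ A _ _ := AlgEquiv.ofBijective (llHom A) ⟨llHom_injective A, llHom_surjective A⟩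
  nat {A B} _ _ _ _ f := by
    refine AlgHom.ext fun x => ?_
    refine Subtype.ext ?_
    funext t
    have h : ∀ x : Lau (Loop A), lf f.toRingHom (lf (evL A t).toRingHom x) =
        lf (evL B t).toRingHom (lf (lo f).toRingHom x) := by
      intro x
      refine MonoidAlgebra.ext (Finsupp.ext fun z => ?_)
      rw [lf_coeff, lf_coeff, lf_coeff, lf_coeff]
      rfl
    exact h x
  h1 A _ _ := AlgHom.ext fun x => rfl
  h2 A _ _ := by
    refine AlgHom.ext fun x => ?_
    refine Subtype.ext ?_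
    funext t
    have h : ∀ x : Lau (Loop A), lauAug A (lf (evL A t).toRingHom x) =
        (lauAug (Loop A) x).1 t := by
      intro x
      induction x using MonoidAlgebra.induction_linear with
      | zero => rw [map_zero, map_zero, map_zero]; rfl
      | add f g hf hg => rw [map_add, map_add, map_add, hf, hg]; rfl
      | single z g =>
        have h3 : lf (evL A t).toRingHom (MonoidAlgebra.single z g) =
            MonoidAlgebra.single z (g.1 t) := by
          simp
          rfl
        rw [h3, lauAug_single, lauAug_single]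
    exact h x

end LL

end Pool.Agent.Lib.MP_e7fbd4_ag.H44
end

section

/-!
# The class of algebras obtained from regular ones by loops
-/

set_option autoImplicit false
set_option linter.unusedSectionVars false
set_option linter.unusedVariables false

namespace Pool.Agent.Lib.MP_e7fbd4_ag.H44

open Pool.Agent.Lib.MP_c052b4_al

section PL

variable (B : Type) [Ring B] [Algebra ℂ B]

theorem pfun_mapRange {A B : Type} [Ring A] [Algebra ℂ A] [Ring B] [Algebra ℂ B] (φ : A →ₐ[ℂ] B)
    (a : ℕ →₀ A) (t : ℂ) : pfun B (a.mapRange φ (map_zero φ)) t = φ (pfun A a t) := by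
  induction a using Finsupp.induction_linear with
  | zero => rw [Finsupp.mapRange_zero, map_zero, map_zero, Pi.zero_apply, Pi.zero_apply, map_zero]
  | add f g hf hg =>
    rw [Finsupp.mapRange_add (fun x y => map_add φ x y), map_add, map_add, Pi.add_apply,
      Pi.add_apply, hf, hg, map_add]
  | single k a =>
    rw [Finsupp.mapRange_single, pfun_single, pfun_single, map_smul]

theorem plMem (h : Poly (Loop B)) :
    (fun s : ℂ => polyMap (evL B s) h) ∈ Loop (Poly B) := by
  constructor
  · refine (polyExt (Loop B)).induction (P := fun h => (fun s : ℂ => polyMap (evL B s) h) ∈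
      Poly (Poly B)) ?_ ?_ ?_ h
    · have h1 : (fun s : ℂ => polyMap (evL B s) (0 : Poly (Loop B))) = 0 := by
        funext s; rw [map_zero]; rfl
      rw [h1]
      exact (Poly (Poly B)).zero_mem
    · intro x y hx hy
      have h1 : (fun s : ℂ => polyMap (evL B s) (x + y)) =
          (fun s : ℂ => polyMap (evL B s) x) + fun s : ℂ => polyMap (evL B s) y := by
        funext s; rw [map_add]; rfl
      rw [h1]
      exact (Poly (Poly B)).add_mem hx hy
    · intro k a
      have h1 : (fun s : ℂ => polyMap (evL B s) ((pvar (Loop B)) ^ k * pconst (Loop B) a)) =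
          (fun _ : ℂ => (pvar B) ^ k) * fun s : ℂ => pconst B (a.1 s) := by
        funext s
        rw [map_mul, map_pow, Pi.mul_apply]
        have h2 : polyMap (evL B s) (pvar (Loop B)) = pvar B := by
          apply Subtype.ext
          funext t
          exact (evL B s).commutes t
        rw [h2]
        rfl
      change (fun s : ℂ => polyMap (evL B s) ((pvar (Loop B)) ^ k * pconst (Loop B) a)) ∈
        Poly (Poly B)
      rw [h1]
      exact (Poly (Poly B)).mul_mem (const_mem_poly _) (comp_mem_poly (pconst B) a.2.1)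
  · apply Subtype.ext
    funext t
    exact (h.1 t).2.2

/-- `Poly (Loop B) → Loop (Poly B)` -/
noncomputable def plHom : Poly (Loop B) →ₐ[ℂ] Loop (Poly B) :=
  (AlgHom.pi fun s : ℂ => polyMap (evL B s)).codRestrict (Loop (Poly B)) (plMem B)

theorem plHom_apply (h : Poly (Loop B)) (s t : ℂ) : ((plHom B h).1 s).1 t = (h.1 t).1 s := rfl

theorem plHom_injective : Function.Injective (plHom B) := by
  intro x y h
  apply Subtype.ext
  funext t
  apply Subtype.ext
  funext s
  rw [← plHom_apply, h, plHom_apply]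

theorem exists_flip (g : Poly (Poly B)) : ∃ q : ℕ →₀ Poly B, ∀ s t : ℂ,
    (pfun (Poly B) q t).1 s = (g.1 s).1 t := by
  refine (polyExt (Poly B)).induction (P := fun g => ∃ q : ℕ →₀ Poly B, ∀ s t : ℂ,
    (pfun (Poly B) q t).1 s = (g.1 s).1 t) ?_ ?_ ?_ g
  · exact ⟨0, fun s t => by rw [map_zero]; rfl⟩
  · rintro x y ⟨p, hp⟩ ⟨q, hq⟩
    refine ⟨p + q, fun s t => ?_⟩
    rw [map_add]
    change (pfun (Poly B) p t).1 s + (pfun (Poly B) q t).1 s = (x.1 s).1 t + (y.1 s).1 t
    rw [hp, hq]
  · intro k a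
    refine ⟨(pco B a).mapRange (fun b => pvar B ^ k * pconst B b) (by rw [map_zero, mul_zero]),
      fun s t => ?_⟩
    have h1 : ∀ c : ℕ →₀ B, (pfun (Poly B) (c.mapRange (fun b => pvar B ^ k * pconst B b)
        (by rw [map_zero, mul_zero])) t).1 s = s ^ k • pfun B c t := by
      intro c
      induction c using Finsupp.induction_linear with
      | zero =>
        rw [Finsupp.mapRange_zero, map_zero, map_zero]
        change (0 : B) = s ^ k • (0 : B)
        rw [smul_zero]
      | add f g hf hg =>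
        rw [Finsupp.mapRange_add (fun x y => by rw [map_add, mul_add]), map_add, map_add]
        rw [Pi.add_apply, Pi.add_apply, smul_add, ← hf, ← hg]
        rfl
      | single j b =>
        rw [Finsupp.mapRange_single, pfun_single, pfun_single]
        change t ^ j • ((algebraMap ℂ B s) ^ k * b) = s ^ k • t ^ j • b
        rw [← map_pow, ← Algebra.smul_def, smul_comm]
    rw [h1, pfun_pco]
    change s ^ k • a.1 t = (algebraMap ℂ B s) ^ k * a.1 t
    rw [← map_pow, ← Algebra.smul_def]

theorem plHom_surjective : Function.Surjective (plHom B) := by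
  intro g
  obtain ⟨q, hq⟩ := exists_flip B (jL (Poly B) g)
  have hq' : ∀ s t : ℂ, (pfun (Poly B) q t).1 s = (g.1 s).1 t := hq
  have h1 : q.mapRange (fun p : Poly B => p.1 1 - p.1 0) (by
      change (0 : B) - 0 = 0
      rw [sub_zero]) = 0 := by
    apply pfun_injective
    rw [map_zero]
    funext t
    have h2 : ∀ c : ℕ →₀ Poly B, pfun B (c.mapRange (fun p : Poly B => p.1 1 - p.1 0) (by
        change (0 : B) - 0 = 0
        rw [sub_zero])) t = (pfun (Poly B) c t).1 1 - (pfun (Poly B) c t).1 0 := by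
      intro c
      induction c using Finsupp.induction_linear with
      | zero =>
        rw [Finsupp.mapRange_zero, map_zero, map_zero]
        change (0 : B) = 0 - 0
        rw [sub_zero]
      | add f g hf hg =>
        rw [Finsupp.mapRange_add (fun x y => by
          change (x.1 1 + y.1 1) - (x.1 0 + y.1 0) = _
          abel), map_add, map_add, Pi.add_apply, hf, hg]
        change _ = ((pfun (Poly B) f t).1 1 + (pfun (Poly B) g t).1 1) -
          ((pfun (Poly B) f t).1 0 + (pfun (Poly B) g t).1 0)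
        abel
      | single j b =>
        rw [Finsupp.mapRange_single, pfun_single, pfun_single]
        change t ^ j • (b.1 1 - b.1 0) = t ^ j • b.1 1 - t ^ j • b.1 0
        rw [smul_sub]
    rw [h2, hq', hq', g.2.2, sub_self]
    rfl
  have h2 : ∀ j, (q j).1 0 = (q j).1 1 := by
    intro j
    have h3 := DFunLike.congr_fun h1 j
    rw [Finsupp.mapRange_apply] at h3
    exact (sub_eq_zero.1 h3).symm
  have h3 : (q.mapRange (rho B) (rho_zero B)).mapRange (jL B) (map_zero (jL B)) = q := by
    ext1 j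
    rw [Finsupp.mapRange_apply, Finsupp.mapRange_apply]
    exact jL_rho B (h2 j)
  refine ⟨⟨pfun (Loop B) (q.mapRange (rho B) (rho_zero B)), pfun_mem _⟩, ?_⟩
  apply Subtype.ext
  funext s
  apply Subtype.ext
  funext t
  rw [plHom_apply, ← hq', ← h3, pfun_mapRange, h3]
  rfl

/-- `Poly (Loop B) ≃ Loop (Poly B)` -/
noncomputable def plEquiv : Poly (Loop B) ≃ₐ[ℂ] Loop (Poly B) :=
  AlgEquiv.ofBijective (plHom B) ⟨plHom_injective B, plHom_surjective B⟩

theorem scMem (s : ℂ) {f : ℂ → B} (hf : f ∈ Poly B) : (fun t => f (s * t)) ∈ Poly B := by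
  unfold Poly at hf
  induction hf using Algebra.adjoin_induction with
  | mem x hx =>
    rcases hx with ⟨a, rfl⟩ | rfl
    · exact const_mem_poly a
    · have h : (fun t : ℂ => algebraMap ℂ B (s * t)) =
          (fun _ => algebraMap ℂ B s) * fun t : ℂ => algebraMap ℂ B t := by
        funext t; rw [Pi.mul_apply, map_mul]
      change (fun t : ℂ => algebraMap ℂ B (s * t)) ∈ Poly B
      rw [h]
      exact (Poly B).mul_mem (const_mem_poly _) (var_mem_poly B)
  | algebraMap c => exact const_mem_poly (algebraMap ℂ B c)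
  | add x y _ _ hx hy => exact (Poly B).add_mem hx hy
  | mul x y _ _ hx hy => exact (Poly B).mul_mem hx hy

/-- `f ↦ (t ↦ f(s t))` -/
noncomputable def sc (s : ℂ) : Poly B →ₐ[ℂ] Poly B :=
  (AlgHom.pi fun t : ℂ => evP B (s * t)).codRestrict (Poly B) fun f => scMem B s f.2

theorem sc_apply (s t : ℂ) (f : Poly B) : (sc B s f).1 t = f.1 (s * t) := rfl

theorem sc_one : sc B 1 = AlgHom.id ℂ (Poly B) := by
  refine AlgHom.ext fun f => Subtype.ext (funext fun t => ?_)
  rw [sc_apply, one_mul]
  rfl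

theorem sc_zero : sc B 0 = (pconst B).comp (evP B 0) := by
  refine AlgHom.ext fun f => Subtype.ext (funext fun t => ?_)
  rw [sc_apply, zero_mul]
  rfl

theorem hMem (f : Poly B) : (fun s : ℂ => sc B s f) ∈ Poly (Poly B) := by
  refine (polyExt B).induction (P := fun f => (fun s : ℂ => sc B s f) ∈ Poly (Poly B)) ?_ ?_ ?_ f
  · have h1 : (fun s : ℂ => sc B s 0) = 0 := by
      funext s; rw [map_zero]; rfl
    rw [h1]
    exact (Poly (Poly B)).zero_mem
  · intro x y hx hy
    have h1 : (fun s : ℂ => sc B s (x + y)) = (fun s : ℂ => sc B s x) + fun s : ℂ => sc B s y := by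
      funext s; rw [map_add]; rfl
    rw [h1]
    exact (Poly (Poly B)).add_mem hx hy
  · intro k a
    have h1 : (fun s : ℂ => sc B s ((polyExt B).x ^ k * (polyExt B).ι a)) =
        fun s : ℂ => s ^ k • ((polyExt B).x ^ k * (polyExt B).ι a) := by
      funext s
      apply Subtype.ext
      funext t
      change (algebraMap ℂ B (s * t)) ^ k * a = s ^ k • ((algebraMap ℂ B t) ^ k * a)
      rw [← map_pow, ← map_pow, ← Algebra.smul_def, ← Algebra.smul_def, mul_pow, mul_smul]
    rw [h1]
    exact pow_smul_mem_poly k _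

/-- the homotopy `f ↦ (s ↦ f(s t))` -/
noncomputable def hH : Poly B →ₐ[ℂ] Poly (Poly B) :=
  (AlgHom.pi fun s : ℂ => sc B s).codRestrict (Poly (Poly B)) (hMem B)

theorem hH_one : (evP (Poly B) 1).comp (hH B) = AlgHom.id ℂ (Poly B) := sc_one B

theorem hH_zero : (evP (Poly B) 0).comp (hH B) = (pconst B).comp (evP B 0) := sc_zero B

theorem sub_mem_ho (c : KOne (Poly B)) :
    c - KOne.map (pconst B).toRingHom (KOne.map (evP B 0).toRingHom c) ∈ ho (Poly B) := by
  rw [mem_ho]
  refine ⟨KOne.map (hH B).toRingHom c, ?_⟩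
  rw [← KOne.map_comp, ← KOne.map_comp, ← KOne.map_comp]
  have h1 : (evP (Poly B) 1).toRingHom.comp (hH B).toRingHom = RingHom.id (Poly B) :=
    congrArg AlgHom.toRingHom (hH_one B)
  have h2 : (evP (Poly B) 0).toRingHom.comp (hH B).toRingHom =
      (pconst B).toRingHom.comp (evP B 0).toRingHom := congrArg AlgHom.toRingHom (hH_zero B)
  rw [h1, h2, KOne.map_id]

theorem sA_loop (hB : SA' B) (hPB : SA' (Poly B)) : SA' (Loop B) := by
  have h1 : ∀ x : KZero (Loop (Poly B)), ∃ z : KZero (Loop B),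
      KZero.map (lo (pconst B)).toRingHom z = x := by
    intro x
    obtain ⟨c, hc⟩ := exists_dA1 hPB x
    obtain ⟨y, hy⟩ := hB (KZero.map (eLo (Poly B)).toRingHom x)
    have h2 : dA1 (Poly B) c = dA1 (Poly B)
        (KOne.map (pconst B).toRingHom (KOne.map (evP B 0).toRingHom c)) := by
      rw [← sub_eq_zero, ← map_sub]
      exact dA1_ho (sub_mem_ho B c)
    refine ⟨KZero.map (cLo B).toRingHom y + dA1 B (KOne.map (evP B 0).toRingHom c), ?_⟩
    rw [map_add, map_dA1, ← h2]
    conv_rhs => rw [hc]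
    rw [← hy, ← KZero.map_comp, ← KZero.map_comp]
    rfl
  have h2 : pconst (Loop B) = (plEquiv B).symm.toAlgHom.comp (lo (pconst B)) := by
    refine AlgHom.ext fun a => ?_
    apply (plEquiv B).injective
    have h3 : (plEquiv B) ((plEquiv B).symm (lo (pconst B) a)) = lo (pconst B) a :=
      (plEquiv B).apply_symm_apply _
    refine Eq.trans ?_ h3.symm
    rfl
  have h4 : ∀ z : K0F.obj (Loop B), K0F.map (A := Loop (Poly B)) (B := Poly (Loop B))
      (plEquiv B).symm.toAlgHom (K0F.map (A := Loop B) (B := Loop (Poly B)) (lo (pconst B)) z) =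
      K0F.map (A := Loop B) (B := Poly (Loop B)) (pconst (Loop B)) z := by
    intro z
    rw [map_map, h2]
  intro x
  obtain ⟨y, hy⟩ := (map_bijective (A := Loop (Poly B)) (B := Poly (Loop B)) K0F
    (plEquiv B).symm).2 x
  obtain ⟨z, hz⟩ := h1 y
  refine ⟨z, ?_⟩
  refine (h4 z).symm.trans ?_
  exact (congrArg (K0F.map (A := Loop (Poly B)) (B := Poly (Loop B))
    (plEquiv B).symm.toAlgHom) hz).trans hy

end PL

/-! ### Isomorphisms -/

/-- `Poly A ≃ Poly B` -/
noncomputable def polyEquiv {A B : Type} [Ring A] [Algebra ℂ A] [Ring B] [Algebra ℂ B]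
    (e : A ≃ₐ[ℂ] B) : Poly A ≃ₐ[ℂ] Poly B :=
  AlgEquiv.ofAlgHom (polyMap e.toAlgHom) (polyMap e.symm.toAlgHom)
    (AlgHom.ext fun f => Subtype.ext (funext fun t => e.apply_symm_apply (f.1 t)))
    (AlgHom.ext fun f => Subtype.ext (funext fun t => e.symm_apply_apply (f.1 t)))

theorem sA_iso {A B : Type} [Ring A] [Algebra ℂ A] [Ring B] [Algebra ℂ B]
    (e : A ≃ₐ[ℂ] B) (h : SA' A) : SA' B := by
  intro x
  obtain ⟨y, hy⟩ := (map_bijective (A := Poly A) (B := Poly B) K0F (polyEquiv e)).2 x
  obtain ⟨z, hz⟩ := h y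
  refine ⟨KZero.map e.toAlgHom.toRingHom z, ?_⟩
  have h1 : (pconst B).toRingHom.comp e.toAlgHom.toRingHom =
      (polyEquiv e).toAlgHom.toRingHom.comp (pconst A).toRingHom := rfl
  rw [← KZero.map_comp, h1, KZero.map_comp, hz]
  exact hy

/-- algebras isomorphic to an `n`-fold loop algebra of a regular algebra -/
def Cl : ℕ → ACl
  | 0 => fun A _ _ => IsRegularRing A
  | n + 1 => fun A _ _ => ∃ (B : Type) (_ : Ring B) (_ : Algebra ℂ B), Cl n B ∧
      Nonempty (Loop B ≃ₐ[ℂ] A)

theorem cl_loop {n : ℕ} {A : Type} [Ring A] [Algebra ℂ A] (h : Cl n A) : Cl (n + 1) (Loop A) :=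
  ⟨A, inferInstance, inferInstance, h, ⟨AlgEquiv.refl⟩⟩

theorem cl_iso : ∀ {n : ℕ} {A B : Type} [Ring A] [Algebra ℂ A] [Ring B] [Algebra ℂ B]
    (e : A ≃ₐ[ℂ] B), Cl n A → Cl n B
  | 0, A, B, _, _, _, _, e, h => h.of_ringEquiv e.toRingEquiv
  | n + 1, A, B, _, _, _, _, e, h => by
    obtain ⟨C, _, _, hC, ⟨e'⟩⟩ := h
    exact ⟨C, _, _, hC, ⟨e'.trans e⟩⟩

theorem cl_poly : ∀ {n : ℕ} {A : Type} [Ring A] [Algebra ℂ A], Cl n A → Cl n (Poly A)
  | 0, A, _, _, h => isRegularRing_poly h
  | n + 1, A, _, _, h => by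
    obtain ⟨C, _, _, hC, ⟨e⟩⟩ := h
    exact ⟨Poly C, _, _, cl_poly hC, ⟨(plEquiv C).symm.trans (polyEquiv e)⟩⟩

theorem cl_sA : ∀ {n : ℕ} {A : Type} [Ring A] [Algebra ℂ A], Cl n A → SA' A
  | 0, A, _, _, h => K0_poly_surjective h
  | n + 1, A, _, _, h => by
    obtain ⟨C, _, _, hC, ⟨e⟩⟩ := h
    exact sA_iso e (sA_loop C (cl_sA hC) (cl_sA (cl_poly hC)))

/-- the class of all iterated loop algebras of regular algebras -/
def PL : ACl := fun A _ _ => ∃ n, Cl n A

theorem pl_loop {A : Type} [Ring A] [Algebra ℂ A] (h : PL A) : PL (Loop A) := by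
  obtain ⟨n, hn⟩ := h
  exact ⟨n + 1, cl_loop hn⟩

theorem pl_sA {A : Type} [Ring A] [Algebra ℂ A] (h : PL A) : SA' A := by
  obtain ⟨n, hn⟩ := h
  exact cl_sA hn

theorem pl_reg {A : Type} [Ring A] [Algebra ℂ A] (h : IsRegularRing A) : PL A := ⟨0, h⟩

/-! ### The chain -/

/-- `KV k ≅ KV (k+1) . Lau` -/
noncomputable def chain : ∀ k : ℕ, NI PL (KV k) ((KV (k + 1)).rel lauOp)
  | 0 => ((niA PL fun A _ _ h => pl_sA h).trans
      ((niB PL fun A _ _ h => pl_sA h).rel loopOp fun A _ _ h => pl_loop h)).trans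
      (swLL.ni PL KV1F)
  | k + 1 => ((chain k).rel loopOp fun A _ _ h => pl_loop h).trans (swLL.ni PL (KV (k + 1)))

end Pool.Agent.Lib.MP_e7fbd4_ag.H44
end
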